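import Mathlib
import Pool.Agent.Work.MP_b62148_ag.Quintic.GenQ

/-!
Extension of derivations to larger fields of characteristic zero, and solutions of linear systems
over larger fields.
-/

namespace Pool.Agent.Work.PD6

open MvPolynomial Pool.Agent.Work.PD5

/-- lifting of ring homomorphisms for formally smooth algebras -/
theorem exists_ring_lift {R A B C : Type*} [CommRing R] [CommRing A] [Algebra R A]
    [Algebra.FormallySmooth R A] [CommRing B] [CommRing C] (f : R →+* B) (π : B →+* C)
    (hπ : Function.Surjective π) (hker : IsNilpotent (RingHom.ker π)) (g : A →+* C)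
    (h : ∀ r, π (f r) = g (algebraMap R A r)) :
    ∃ l : A →+* B, (∀ x, π (l x) = g x) ∧ ∀ r, l (algebraMap R A r) = f r := by
  let _ : Algebra R B := f.toAlgebra
  let _ : Algebra R C := (π.comp f).toAlgebra
  let π' : B →ₐ[R] C := { π with commutes' := fun r => rfl }
  let g' : A →ₐ[R] C := { g with commutes' := fun r => (h r).symm }
  refine ⟨(Algebra.FormallySmooth.liftOfSurjective g' π' hπ hker : A →ₐ[R] B), ?_, ?_⟩
  · intro x
    exact Algebra.FormallySmooth.liftOfSurjective_apply g' π' hπ hker x
  · intro r
    exact (Algebra.FormallySmooth.liftOfSurjective g' π' hπ hker : A →ₐ[R] B).commutes r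

theorem formallySmooth_ext (E Ω : Type*) [Field E] [Field Ω] [Algebra E Ω] [CharZero E] :
    Algebra.FormallySmooth E Ω := by
  obtain ⟨s, hs⟩ := exists_isTranscendenceBasis E Ω
  have h1 : Algebra.IsAlgebraic (IntermediateField.adjoin E (Set.range ((↑) : s → Ω))) Ω :=
    hs.isAlgebraic_field
  have h2 : Algebra.IsSeparable (IntermediateField.adjoin E (Set.range ((↑) : s → Ω))) Ω :=
    inferInstance
  exact Algebra.FormallySmooth.of_algebraicIndependent_of_isSeparable hs.1

/-- derivations extend to larger fields of characteristic zero -/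
theorem exists_der_extend {K E Ω : Type*} [Field K] [Field E] [Field Ω] [CharZero K] [Algebra K E]
    [Algebra K Ω] [Algebra E Ω] [IsScalarTower K E Ω] (d : Derivation K E Ω) :
    ∃ D : Derivation K Ω Ω, ∀ x, D (algebraMap E Ω x) = d x := by
  have c1 : CharZero E := charZero_of_injective_algebraMap (algebraMap K E).injective
  have := formallySmooth_ext E Ω
  have hsurj : Function.Surjective (TrivSqZeroExt.fstHom Ω Ω Ω).toRingHom := fun x =>
    ⟨TrivSqZeroExt.inl x, by simp⟩
  have hker : IsNilpotent (RingHom.ker (TrivSqZeroExt.fstHom Ω Ω Ω).toRingHom) := by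
    refine ⟨2, ?_⟩
    rw [Ideal.zero_eq_bot, eq_bot_iff, Submodule.pow_succ, Submodule.pow_one]
    refine Ideal.mul_le.mpr ?_
    intro x hx y hy
    have hx' : x.fst = 0 := hx
    have hy' : y.fst = 0 := hy
    rw [Ideal.mem_bot]
    ext
    · simp [hx', hy']
    · simp [hx', hy']
  obtain ⟨l, hl1, hl2⟩ := exists_ring_lift (A4.phiD d) (TrivSqZeroExt.fstHom Ω Ω Ω).toRingHom
    hsurj hker (RingHom.id Ω) (fun r => by
      show (A4.phiD d r).fst = algebraMap E Ω r
      simp [A4.phiD])
  have hfst : ∀ x, (l x).fst = x := fun x => hl1 x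
  have hK : ∀ k : K, l (algebraMap K Ω k) = TrivSqZeroExt.inl (algebraMap K Ω k) := by
    intro k
    rw [IsScalarTower.algebraMap_apply K E Ω, hl2]
    ext
    · simp [A4.phiD]
    · simp [A4.phiD]
  refine ⟨Derivation.mk'
    { toFun := fun x => (l x).snd
      map_add' := fun x y => by rw [map_add]; simp
      map_smul' := fun k x => by
        rw [Algebra.smul_def, map_mul, hK]
        simp [Algebra.smul_def] } ?_, ?_⟩
  · intro x y
    simp only [LinearMap.coe_mk, AddHom.coe_mk, map_mul, TrivSqZeroExt.snd_mul, hfst]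
    simp [mul_comm]
  · intro x
    change (l (algebraMap E Ω x)).snd = d x
    rw [hl2]
    simp [A4.phiD]

/-- solutions of a linear system over a larger field -/
theorem ker_ext {F E : Type*} [Field F] [Field E] [Algebra F E] {σ : Type*} [Fintype σ]
    {r : Type*} (M : r → σ → F) (w : σ → E) (hw : ∀ a, ∑ j, algebraMap F E (M a j) * w j = 0) :
    ∃ (N : ℕ) (v : Fin N → σ → F) (c : Fin N → E), (∀ k a, ∑ j, M a j * v k j = 0) ∧
      w = fun j => ∑ k, c k * algebraMap F E (v k j) := by
  classical
  let V : Submodule F (σ → F) :=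
    { carrier := {w | ∀ a, ∑ j, M a j * w j = 0}
      add_mem' := by
        intro x y hx hy a
        simp only [Pi.add_apply, mul_add, Finset.sum_add_distrib, hx a, hy a, add_zero]
      zero_mem' := by intro a; simp
      smul_mem' := by
        intro c x hx a
        have : ∑ j, M a j * (c • x) j = c * ∑ j, M a j * x j := by
          rw [Finset.mul_sum]
          refine Finset.sum_congr rfl fun j _ => ?_
          simp only [Pi.smul_apply, smul_eq_mul]; ring
        rw [this, hx a, mul_zero] }
  let N := Module.finrank F V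
  let bV : Module.Basis (Fin N) F V := Module.finBasis F V
  let v : Fin N → σ → F := fun k => (bV k : σ → F)
  have hvV : ∀ k a, ∑ j, M a j * v k j = 0 := fun k a => (bV k).2 a
  have hv : ∀ w : σ → F, (∀ a, ∑ j, M a j * w j = 0) → ∃ c : Fin N → F, w = ∑ k, c k • v k := by
    intro w hw
    refine ⟨fun k => bV.repr ⟨w, hw⟩ k, ?_⟩
    have h1 := bV.sum_repr ⟨w, hw⟩
    have h2 := congrArg (Subtype.val) h1
    simp only [AddSubmonoidClass.coe_finsetSum, SetLike.val_smul] at h2
    exact h2.symm
  obtain ⟨c, hc⟩ := A4.ker_baseChange M v hv w hw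
  exact ⟨N, v, c, hvV, hc⟩

end Pool.Agent.Work.PD6
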