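import Mathlib

/-!
The apolar functional of a form: `Lf a (ell x ^ 6)` is the value of the sextic form at `x`, and
`Lf a (ell v₁ * ⋯ * ell v₆)` is its polarisation.
-/

namespace Pool.Agent.Work.PD6

open MvPolynomial

variable {k : Type*} [Field k] {σ : Type*}

/-- the linear form with coefficient vector `v` -/
noncomputable def ell {R : Type*} [CommRing R] [Fintype σ] (v : σ → R) : MvPolynomial σ R :=
  ∑ i, C (v i) * X i

/-- the functional on polynomials with values `a` on monomials -/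
noncomputable def Lf (a : (σ →₀ ℕ) → k) {R : Type*} [CommRing R] [Algebra k R] :
    MvPolynomial σ R →ₗ[R] R :=
  (MvPolynomial.basisMonomials σ R).constr R fun α => algebraMap k R (a α)

section Basic

variable {R : Type*} [CommRing R]

section ell

variable [Fintype σ]

theorem ell_add (u v : σ → R) : ell (u + v) = ell u + ell v := by
  simp only [ell, Pi.add_apply, map_add, add_mul, Finset.sum_add_distrib]

theorem ell_smul (r : R) (v : σ → R) : ell (r • v) = C r * ell v := by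
  simp only [ell, Pi.smul_apply, smul_eq_mul, map_mul, Finset.mul_sum, mul_assoc]

theorem ell_zero : ell (0 : σ → R) = 0 := by
  simp [ell]

theorem ell_neg (v : σ → R) : ell (-v) = - ell v := by
  simp only [ell, Pi.neg_apply, map_neg, neg_mul, Finset.sum_neg_distrib]

theorem ell_sub (u v : σ → R) : ell (u - v) = ell u - ell v := by
  rw [sub_eq_add_neg, ell_add, ell_neg, ← sub_eq_add_neg]

theorem ell_sum {ι : Type*} (s : Finset ι) (v : ι → σ → R) :
    ell (∑ j ∈ s, v j) = ∑ j ∈ s, ell (v j) := by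
  classical
  induction s using Finset.induction_on with
  | empty => simp [ell_zero]
  | insert b s hb ih => rw [Finset.sum_insert hb, Finset.sum_insert hb, ell_add, ih]

theorem ell_sum_smul {ι : Type*} (s : Finset ι) (r : ι → R) (v : ι → σ → R) :
    ell (∑ j ∈ s, r j • v j) = ∑ j ∈ s, C (r j) * ell (v j) := by
  rw [ell_sum]
  exact Finset.sum_congr rfl fun j _ => ell_smul _ _

theorem map_ell {S : Type*} [CommRing S] (g : R →+* S) (v : σ → R) :
    MvPolynomial.map g (ell v) = ell fun i => g (v i) := by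
  simp only [ell, map_sum, map_mul, map_C, map_X]

end ell

variable [Algebra k R] (a : (σ →₀ ℕ) → k)

theorem Lf_monomial (α : σ →₀ ℕ) (r : R) : Lf a (monomial α r) = r * algebraMap k R (a α) := by
  have h : (monomial α r : MvPolynomial σ R) = r • MvPolynomial.basisMonomials σ R α := by
    rw [MvPolynomial.coe_basisMonomials, smul_monomial, smul_eq_mul, mul_one]
  rw [h, map_smul, Lf, Module.Basis.constr_basis, smul_eq_mul]

theorem Lf_C_mul (r : R) (p : MvPolynomial σ R) : Lf a (C r * p) = r * Lf a p := by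
  rw [← smul_eq_C_mul, map_smul, smul_eq_mul]

theorem Lf_mul_C (r : R) (p : MvPolynomial σ R) : Lf a (p * C r) = r * Lf a p := by
  rw [mul_comm, Lf_C_mul]

theorem Lf_nsmul (n : ℕ) (p : MvPolynomial σ R) : Lf a ((n : MvPolynomial σ R) * p) = n * Lf a p := by
  rw [← map_natCast (C : R →+* MvPolynomial σ R) n, Lf_C_mul]

theorem Lf_ofNat (n : ℕ) [n.AtLeastTwo] (p : MvPolynomial σ R) :
    Lf a ((OfNat.ofNat n : MvPolynomial σ R) * p) = (OfNat.ofNat n : R) * Lf a p := by
  rw [← map_ofNat (C : R →+* MvPolynomial σ R) n, Lf_C_mul]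

/-- compatibility with homomorphisms -/
theorem map_Lf {S : Type*} [CommRing S] [Algebra k S] (g : R →ₐ[k] S) (p : MvPolynomial σ R) :
    g (Lf a p) = Lf a (MvPolynomial.map (g : R →+* S) p) := by
  induction p using MvPolynomial.induction_on' with
  | monomial α r =>
    rw [map_monomial, Lf_monomial, Lf_monomial, map_mul, AlgHom.commutes]
    rfl
  | add p q hp hq => rw [map_add, map_add, map_add, map_add, hp, hq]

end Basic

variable [Fintype σ]

/-- `a` is the apolar functional of the form `F` of degree `d` -/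
def IsPol (d : ℕ) (F : MvPolynomial σ k) (a : (σ →₀ ℕ) → k) : Prop :=
  Lf a (ell (fun i => (X i : MvPolynomial σ k)) ^ d) = F

theorem IsPol.aeval_eq {d : ℕ} {F : MvPolynomial σ k} {a : (σ →₀ ℕ) → k} (h : IsPol d F a)
    {R : Type*} [CommRing R] [Algebra k R] (x : σ → R) : aeval x F = Lf a (ell x ^ d) := by
  have h1 := map_Lf a (aeval x : MvPolynomial σ k →ₐ[k] R) (ell (fun i => (X i : MvPolynomial σ k)) ^ d)
  rw [h, map_pow, map_ell] at h1
  rw [h1]
  have h2 : (fun i => (aeval x : MvPolynomial σ k →ₐ[k] R) (X i)) = x := by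
    funext i
    exact aeval_X x i
  have h3 : (fun i => ((aeval x : MvPolynomial σ k →ₐ[k] R) : MvPolynomial σ k →+* R) (X i)) = x := h2
  rw [h3]

/-- the linear combinations of a family of vectors -/
def comb {ι : Type*} [Fintype ι] {R : Type*} [CommRing R] (lam : ι → σ → R) (s : ι → R) : σ → R :=
  fun i => ∑ j, s j * lam j i

omit [Fintype σ] in
theorem comb_eq {ι : Type*} [Fintype ι] {R : Type*} [CommRing R] (lam : ι → σ → R) (s : ι → R) :
    comb lam s = ∑ j, s j • lam j := by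
  funext i
  simp [comb, Finset.sum_apply]

theorem ell_comb {ι : Type*} [Fintype ι] {R : Type*} [CommRing R] (lam : ι → σ → R) (s : ι → R) :
    ell (comb lam s) = ∑ j, C (s j) * ell (lam j) := by
  rw [comb_eq, ell_sum_smul]

/-- the form (given by its functional) vanishes on the span of the family -/
def Iso (a : (σ →₀ ℕ) → k) {ι : Type*} {R : Type*} [CommRing R] [Algebra k R]
    (lam : ι → σ → R) : Prop :=
  ∀ i₁ i₂ i₃ i₄ i₅ i₆ : ι, Lf a (ell (lam i₁) * ell (lam i₂) * ell (lam i₃) * ell (lam i₄) *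
    ell (lam i₅) * ell (lam i₆)) = 0

section Iso

variable {R : Type*} [CommRing R] [Algebra k R] {a : (σ →₀ ℕ) → k} {ι : Type*} {lam : ι → σ → R}

/-- the linear forms of the span -/
noncomputable def Sp (lam : ι → σ → R) : Submodule R (MvPolynomial σ R) :=
  Submodule.span R (Set.range fun j => ell (lam j))

theorem mem_Sp (lam : ι → σ → R) (j : ι) : ell (lam j) ∈ Sp lam :=
  Submodule.subset_span ⟨j, rfl⟩

theorem comb_mem_Sp [Fintype ι] (lam : ι → σ → R) (s : ι → R) : ell (comb lam s) ∈ Sp lam := by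
  rw [ell_comb]
  refine Submodule.sum_mem _ fun j _ => ?_
  rw [← smul_eq_C_mul]
  exact Submodule.smul_mem _ _ (mem_Sp lam j)

/-- linearity in one factor -/
theorem Lf_span (q : MvPolynomial σ R) (hq : ∀ j, Lf a (ell (lam j) * q) = 0)
    {p : MvPolynomial σ R} (hp : p ∈ Sp lam) : Lf a (p * q) = 0 := by
  have h1 : Sp lam ≤ LinearMap.ker ((Lf a).comp (LinearMap.mulRight R q)) := by
    refine Submodule.span_le.mpr ?_
    rintro _ ⟨j, rfl⟩
    exact hq j
  exact h1 hp

/-- the functional vanishes on products of six elements of the span -/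
theorem Iso.six (h : Iso a lam) {p₁ p₂ p₃ p₄ p₅ p₆ : MvPolynomial σ R} (h₁ : p₁ ∈ Sp lam)
    (h₂ : p₂ ∈ Sp lam) (h₃ : p₃ ∈ Sp lam) (h₄ : p₄ ∈ Sp lam) (h₅ : p₅ ∈ Sp lam) (h₆ : p₆ ∈ Sp lam) :
    Lf a (p₁ * p₂ * p₃ * p₄ * p₅ * p₆) = 0 := by
  have s6 : ∀ i₁ i₂ i₃ i₄ i₅, Lf a (p₆ * (ell (lam i₁) * ell (lam i₂) * ell (lam i₃) *
      ell (lam i₄) * ell (lam i₅))) = 0 := fun i₁ i₂ i₃ i₄ i₅ =>
    Lf_span _ (fun j => by rw [mul_comm]; exact h _ _ _ _ _ _) h₆
  have s5 : ∀ i₁ i₂ i₃ i₄, Lf a (p₅ * (ell (lam i₁) * ell (lam i₂) * ell (lam i₃) *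
      ell (lam i₄) * p₆)) = 0 := fun i₁ i₂ i₃ i₄ =>
    Lf_span _ (fun j => by rw [← s6 i₁ i₂ i₃ i₄ j]; congr 1; ring) h₅
  have s4 : ∀ i₁ i₂ i₃, Lf a (p₄ * (ell (lam i₁) * ell (lam i₂) * ell (lam i₃) *
      p₅ * p₆)) = 0 := fun i₁ i₂ i₃ =>
    Lf_span _ (fun j => by rw [← s5 i₁ i₂ i₃ j]; congr 1; ring) h₄
  have s3 : ∀ i₁ i₂, Lf a (p₃ * (ell (lam i₁) * ell (lam i₂) * p₄ *
      p₅ * p₆)) = 0 := fun i₁ i₂ =>
    Lf_span _ (fun j => by rw [← s4 i₁ i₂ j]; congr 1; ring) h₃
  have s2 : ∀ i₁, Lf a (p₂ * (ell (lam i₁) * p₃ * p₄ *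
      p₅ * p₆)) = 0 := fun i₁ =>
    Lf_span _ (fun j => by rw [← s3 i₁ j]; congr 1; ring) h₂
  have s1 : Lf a (p₁ * (p₂ * p₃ * p₄ * p₅ * p₆)) = 0 :=
    Lf_span _ (fun j => by rw [← s2 j]; congr 1; ring) h₁
  rw [← s1]; congr 1; ring

end Iso

end Pool.Agent.Work.PD6
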