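import Mathlib
import Pool.Agent.Work.MP_b62148_ag.Sextic.Basic

/-!
Definitions for the sextic theorem.  Notation in the comments: `[p] = Lf a p`, and `Y, M, N, B, X, Z`
are the linear forms `ell y, ell m, ell n, ell b, ell x, ell z`.
-/

namespace Pool.Agent.Work.PD6

open MvPolynomial

variable {k : Type*} [Field k] {σ : Type*} [Fintype σ]

section Par

variable {R : Type*} [CommRing R]

/-- the eight linear conditions attached to `y, m, n` -/
noncomputable def lc (Y M N : MvPolynomial σ R) : Fin 8 → MvPolynomial σ R :=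
  ![Y ^ 5, Y ^ 4 * M, Y ^ 4 * N, Y ^ 3 * M ^ 2, Y ^ 3 * M * N, Y ^ 3 * N ^ 2, Y ^ 2 * M ^ 3,
    Y ^ 2 * M ^ 2 * N]

/-- the three quadrics attached to `y, m` -/
noncomputable def qc (Y M : MvPolynomial σ R) : Fin 3 → MvPolynomial σ R :=
  ![Y ^ 4, Y ^ 3 * M, Y ^ 2 * M ^ 2]

variable [Algebra k R] (a : (σ →₀ ℕ) → k)

/-- the functional `v ↦ [p v]` on vectors -/
noncomputable def lin (p : MvPolynomial σ R) : (σ → R) →ₗ[R] R where
  toFun v := Lf a (p * ell v)
  map_add' u v := by rw [ell_add, mul_add, map_add]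
  map_smul' r v := by rw [ell_smul, mul_left_comm, Lf_C_mul]; rfl

theorem lin_apply (p : MvPolynomial σ R) (v : σ → R) : lin a p v = Lf a (p * ell v) := rfl

/-- projection to the common kernel of `r` functionals (Cramer) -/
noncomputable def kproj {r : ℕ} (f : Fin r → (σ → R) →ₗ[R] R) (z : Fin r → σ → R) (om : σ → R) :
    σ → R :=
  (Matrix.of fun i j => f i (z j)).det • om -
    ∑ j, ((Matrix.of fun i j => f i (z j)).cramer fun i => f i om) j • z j

/-- point of the intersection of the three quadrics in the span of `ze` and the three vectors `A` -/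
noncomputable def qsol (Q : Fin 3 → MvPolynomial σ R) (A : Fin 3 → σ → R) (ze : σ → R) : σ → R :=
  (Matrix.of fun i j => 2 * Lf a (Q i * ell ze * ell (A j))).det • ze -
    ∑ j, ((Matrix.of fun i j => 2 * Lf a (Q i * ell ze * ell (A j))).cramer
      fun i => Lf a (Q i * ell ze ^ 2)) j • A j

/-- residual point of the cubic `[Y³ W³]` on the line through `n` -/
noncomputable def st3 (y n w : σ → R) : σ → R :=
  (3 * Lf a (ell y ^ 3 * ell n * ell w ^ 2)) • w - Lf a (ell y ^ 3 * ell w ^ 3) • n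

/-- residual point of the quartic `[Y² W⁴]` on the line through `m` -/
noncomputable def st2 (y m w : σ → R) : σ → R :=
  (4 * Lf a (ell y ^ 2 * ell m * ell w ^ 3)) • w - Lf a (ell y ^ 2 * ell w ^ 4) • m

/-- residual point of the sextic `[W⁶]` on the line through `y` -/
noncomputable def st1 (y w : σ → R) : σ → R :=
  (6 * Lf a (ell y * ell w ^ 5)) • w - Lf a (ell w ^ 6) • y

/-- the parametrisation -/
noncomputable def par (y m n : σ → R) (A : Fin 3 → σ → R) (z : Fin 8 → σ → R) (om : σ → R) :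
    σ → R :=
  st1 a y (st2 a y m (st3 a y n (qsol a (qc (ell y) (ell m)) A
    (kproj (fun i => lin a (lc (ell y) (ell m) (ell n) i)) z om))))

end Par

/-- the fourteen equations satisfied by a point `x` attached to `y, m, n` -/
structure Eqs (a : (σ →₀ ℕ) → k) {R : Type*} [CommRing R] [Algebra k R] (y m n x : σ → R) : Prop where
  l8 : ∀ i, Lf a (lc (ell y) (ell m) (ell n) i * ell x) = 0
  q3 : ∀ i, Lf a (qc (ell y) (ell m) i * ell x ^ 2) = 0
  c1 : Lf a (ell y ^ 3 * ell x ^ 3) = 0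
  f1 : Lf a (ell y ^ 2 * ell x ^ 4) = 0
  s1 : Lf a (ell x ^ 6) = 0

/-- a good configuration on the six-space spanned by `lam` -/
structure Config (a : (σ →₀ ℕ) → k) {E : Type*} [Field E] [Algebra k E] (lam : Fin 7 → σ → E) where
  /-- first point -/
  sy : Fin 7 → E
  /-- second point -/
  sm : Fin 7 → E
  /-- third point -/
  sn : Fin 7 → E
  /-- auxiliary points -/
  sA : Fin 3 → Fin 7 → E
  /-- auxiliary vectors -/
  z : Fin 8 → σ → E
  /-- the point of the hypersurface -/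
  x : σ → E
  eqs : Eqs a (comb lam sy) (comb lam sm) (comb lam sn) x
  n1 : (Matrix.of fun i j : Fin 3 => Lf a (qc (ell (comb lam sy)) (ell (comb lam sm)) i * ell x *
    ell (comb lam (sA j)))).det ≠ 0
  n2 : Lf a (ell (comb lam sy) ^ 3 * ell (comb lam sn) * ell x ^ 2) ≠ 0
  n3 : Lf a (ell (comb lam sy) ^ 2 * ell (comb lam sm) * ell x ^ 3) ≠ 0
  n4 : Lf a (ell (comb lam sy) * ell x ^ 5) ≠ 0
  n5 : (Matrix.of fun i j : Fin 8 => Lf a (lc (ell (comb lam sy)) (ell (comb lam sm))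
    (ell (comb lam sn)) i * ell (z j))).det ≠ 0
  t1 : ∀ r : Fin 4 → E, ∃ s : Fin 7 → E, ∀ i, Lf a ((![ell (comb lam sy) ^ 4 * ell x,
    ell (comb lam sy) ^ 3 * ell x ^ 2, ell (comb lam sy) ^ 2 * ell x ^ 3,
    ell (comb lam sy) * ell x ^ 4] : Fin 4 → MvPolynomial σ E) i * ell (comb lam s)) = r i
  t2 : ∀ r : Fin 5 → E, ∃ s : Fin 7 → E, ∀ i, Lf a ((![ell (comb lam sy) ^ 4 * ell x,
    ell (comb lam sy) ^ 3 * ell (comb lam sm) * ell x,
    ell (comb lam sy) ^ 2 * ell (comb lam sm) ^ 2 * ell x, ell (comb lam sy) ^ 3 * ell x ^ 2,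
    ell (comb lam sy) ^ 2 * ell (comb lam sm) * ell x ^ 2] : Fin 5 → MvPolynomial σ E) i *
    ell (comb lam s)) = r i
  t3 : ∀ r : Fin 4 → E, ∃ s : Fin 7 → E, ∀ i, Lf a ((![ell (comb lam sy) ^ 4 * ell x,
    ell (comb lam sy) ^ 3 * ell (comb lam sm) * ell x,
    ell (comb lam sy) ^ 2 * ell (comb lam sm) ^ 2 * ell x,
    ell (comb lam sy) ^ 3 * ell (comb lam sn) * ell x] : Fin 4 → MvPolynomial σ E) i *
    ell (comb lam s)) = r i

/-- leading data: `y = lam 0`, `m = lam 1`, `n = lam 2`, `b = lam 3`, `A j = lam (4 + j)` in a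
six-space of the sextic, a vector `z` and eight auxiliary vectors `zz` -/
structure Lead (a : (σ →₀ ℕ) → k) {R : Type*} [CommRing R] [Algebra k R] (lam : Fin 7 → σ → R)
    (z : σ → R) : Prop where
  iso : Iso a lam
  l8 : ∀ i, Lf a (lc (ell (lam 0)) (ell (lam 1)) (ell (lam 2)) i * ell z) = 0
  q3 : ∀ i, Lf a (qc (ell (lam 0)) (ell (lam 1)) i * ell (lam 3) * ell z) = 0
  c1 : Lf a (ell (lam 0) ^ 3 * ell (lam 3) ^ 2 * ell z) = 0
  f1 : Lf a (ell (lam 0) ^ 2 * ell (lam 3) ^ 3 * ell z) = 0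
  s1 : Lf a (ell (lam 3) ^ 5 * ell z) = 0

/-- the product of the five quantities different from zero in the leading data -/
noncomputable def lprod (a : (σ →₀ ℕ) → k) {R : Type*} [CommRing R] [Algebra k R]
    (lam : Fin 7 → σ → R) (z : σ → R) (zz : Fin 8 → σ → R) : R :=
  Lf a (ell (lam 0) ^ 3 * ell (lam 2) * ell (lam 3) * ell z) *
    Lf a (ell (lam 0) ^ 2 * ell (lam 1) * ell (lam 3) ^ 2 * ell z) *
    Lf a (ell (lam 0) * ell (lam 3) ^ 4 * ell z) *
    (Matrix.of fun i j : Fin 3 => Lf a (qc (ell (lam 0)) (ell (lam 1)) i *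
      ell (lam (Fin.natAdd 4 j)) * ell z)).det *
    (Matrix.of fun i j : Fin 8 => Lf a (lc (ell (lam 0)) (ell (lam 1)) (ell (lam 2)) i *
      ell (zz j))).det

/-- leading data with all non-vanishing conditions -/
def Leading (a : (σ →₀ ℕ) → k) (E : Type*) [Field E] [Algebra k E] : Prop :=
  ∃ (lam : Fin 7 → σ → E) (z : σ → E) (zz : Fin 8 → σ → E), Lead a lam z ∧ lprod a lam z zz ≠ 0

end Pool.Agent.Work.PD6
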