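import Mathlib
import Pool.Agent.Work.MP_b62148_ag.Sextic.Defs

/-!
Generic points and generic flags on a sextic.
-/

namespace Pool.Agent.Work.PD6

open MvPolynomial

variable {k : Type*} [Field k] {σ : Type*} [Fintype σ]

/-- `y` is a generic point of the sextic over `k`, with all derivations -/
structure GenPt (a : (σ →₀ ℕ) → k) {Ω : Type*} [Field Ω] [Algebra k Ω] (y : σ → Ω) : Prop where
  bpf : ∀ v : σ → Ω, (∀ w : σ → Ω, Lf a (ell v ^ 5 * ell w) = 0) → v = 0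
  zero : Lf a (ell y ^ 6) = 0
  ne : y ≠ 0
  der : ∀ t : σ → Ω, Lf a (ell y ^ 5 * ell t) = 0 → ∃ D : Derivation k Ω Ω, ∀ i, D (y i) = t i

/-- `m` is a generic point of the variety of lines through the generic point `y` -/
structure GenFlag (a : (σ →₀ ℕ) → k) {Ω : Type*} [Field Ω] [Algebra k Ω] (y m : σ → Ω) : Prop
    extends GenPt a y where
  li : ∀ s t : Ω, s • y + t • m = 0 → s = 0 ∧ t = 0
  line : ∀ s t : Ω, Lf a (ell (s • y + t • m) ^ 6) = 0
  derm : ∀ t : σ → Ω, (∀ i : ℕ, i ≤ 5 → Lf a (ell y ^ (5 - i) * ell m ^ i * ell t) = 0) →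
    ∃ (D : Derivation k Ω Ω) (κ : Ω), (∀ i, D (y i) = 0) ∧ ∀ i, D (m i) = t i + κ * m i

end Pool.Agent.Work.PD6
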