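import Mathlib
import Pool.Agent.Work.MP_b62148_ag.Sextic.Flag
import Pool.Agent.Work.MP_b62148_ag.Sextic.DerExt
import Pool.Agent.Work.MP_b62148_ag.ExistLine

/-!
Extension of generic points and generic flags to larger fields (module S5).
-/

namespace Pool.Agent.Work.PD6

open MvPolynomial Pool.Agent.Work.PD5

section Base

variable {k : Type*} [Field k] {σ : Type*} [Fintype σ] {a : (σ →₀ ℕ) → k}

omit [Fintype σ] in
/-- the functional over a larger field -/
theorem algebraMap_Lf {R S : Type*} [CommRing R] [CommRing S] [Algebra k R] [Algebra k S]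
    [Algebra R S] [IsScalarTower k R S] (p : MvPolynomial σ R) :
    algebraMap R S (Lf a p) = Lf a (MvPolynomial.map (algebraMap R S) p) := by
  have h := map_Lf a (IsScalarTower.toAlgHom k R S) p
  exact h

theorem der_sum_apply {K A B ι : Type*} [CommRing K] [CommRing A] [CommRing B] [Algebra K A]
    [Algebra K B] [Algebra A B] [IsScalarTower K A B] (s : Finset ι) (D : ι → Derivation K A B)
    (x : A) : (∑ l ∈ s, D l) x = ∑ l ∈ s, D l x := by
  classical
  induction s using Finset.induction_on with
  | empty => simp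
  | insert b s hb ih => rw [Finset.sum_insert hb, Finset.sum_insert hb, Derivation.add_apply, ih]

/-- coefficients of the form on a line -/
theorem line_coeff {E : Type*} [Field E] [CharZero E] [Algebra k E] (n : ℕ) (u v : σ → E)
    (h : ∀ t : E, Lf a (ell (u + t • v) ^ n) = 0) (i : ℕ) (hi : i ≤ n) :
    Lf a (ell u ^ (n - i) * ell v ^ i) = 0 := by
  classical
  let P : Polynomial E := ∑ j ∈ Finset.range (n + 1),
    Polynomial.monomial j ((n.choose j : E) * Lf a (ell u ^ (n - j) * ell v ^ j))
  have hP : P = 0 := by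
    apply Polynomial.funext
    intro t
    rw [Polynomial.eval_finsetSum, Polynomial.eval_zero, ← h t, ell_add, ell_smul,
      add_comm (ell u), add_pow, map_sum]
    refine Finset.sum_congr rfl fun j _ => ?_
    rw [Polynomial.eval_monomial]
    have h1 : (C t * ell v) ^ j * ell u ^ (n - j) * (n.choose j : MvPolynomial σ E) =
        C ((n.choose j : E) * t ^ j) * (ell u ^ (n - j) * ell v ^ j) := by
      rw [map_mul, map_pow, map_natCast]; ring
    rw [h1, Lf_C_mul]
    ring
  have h2 := congrArg (fun Q => Polynomial.coeff Q i) hP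
  simp only [P, Polynomial.finsetSum_coeff, Polynomial.coeff_monomial, Polynomial.coeff_zero] at h2
  rw [Finset.sum_ite_eq' (Finset.range (n + 1)) i, if_pos (Finset.mem_range.mpr (by omega))] at h2
  rcases mul_eq_zero.mp h2 with h3 | h3
  · exact absurd h3 (Nat.cast_ne_zero.mpr (Nat.choose_pos hi).ne')
  · exact h3

/-- the form vanishes on the line when the coefficients vanish -/
theorem line_of_coeff {R : Type*} [CommRing R] [Algebra k R] (n : ℕ) (u v : σ → R)
    (h : ∀ i, i ≤ n → Lf a (ell u ^ (n - i) * ell v ^ i) = 0) (s t : R) :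
    Lf a (ell (s • u + t • v) ^ n) = 0 := by
  rw [ell_add, ell_smul, ell_smul, add_comm (C s * ell u), add_pow, map_sum]
  refine Finset.sum_eq_zero fun j hj => ?_
  have h1 : (C t * ell v) ^ j * (C s * ell u) ^ (n - j) * (n.choose j : MvPolynomial σ R) =
      C ((n.choose j : R) * t ^ j * s ^ (n - j)) * (ell u ^ (n - j) * ell v ^ j) := by
    rw [map_mul, map_mul, map_pow, map_pow, map_natCast]; ring
  rw [h1, Lf_C_mul, h j (by have := Finset.mem_range.mp hj; omega), mul_zero]

/-- expansion along the standard basis -/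
theorem Lf_ell_eq_sum [DecidableEq σ] {R : Type*} [CommRing R] [Algebra k R]
    (p : MvPolynomial σ R) (v : σ → R) :
    Lf a (p * ell v) = ∑ j, Lf a (p * ell (Pi.single j 1)) * v j := by
  have h := (lin a p).pi_apply_eq_sum_univ v
  rw [lin_apply] at h
  rw [h]
  refine Finset.sum_congr rfl fun j _ => ?_
  rw [smul_eq_mul, lin_apply, mul_comm]
  congr 4
  funext i
  rw [Pi.single_apply]
  simp [eq_comm]

theorem map_ell_single [DecidableEq σ] {R S : Type*} [CommRing R] [CommRing S] (f : R →+* S) (j : σ) :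
    MvPolynomial.map f (ell (Pi.single j 1 : σ → R)) = ell (Pi.single j 1 : σ → S) := by
  rw [map_ell]
  congr 1
  funext i
  rw [Pi.single_apply, Pi.single_apply]
  split <;> simp

/-- the functional at a vector of the larger field -/
theorem row_eval_S {R S : Type*} [CommRing R] [CommRing S] [Algebra k R] [Algebra k S]
    [Algebra R S] [IsScalarTower k R S] [DecidableEq σ] (p : MvPolynomial σ R) (v : σ → S) :
    ∑ j, algebraMap R S (Lf a (p * ell (Pi.single j 1))) * v j =
      Lf a (MvPolynomial.map (algebraMap R S) p * ell v) := by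
  rw [Lf_ell_eq_sum]
  refine Finset.sum_congr rfl fun j _ => ?_
  rw [algebraMap_Lf, map_mul, map_ell_single]

end Base

section Ext

variable {k : Type*} [Field k] [CharZero k] {σ : Type*} [Fintype σ] {a : (σ →₀ ℕ) → k}
  {Ω Ω' : Type*} [Field Ω] [Algebra k Ω] [Field Ω'] [Algebra k Ω'] [Algebra Ω Ω']
  [IsScalarTower k Ω Ω']

theorem genPt_ext {y : σ → Ω} (hg : GenPt a y)
    (hb : ∀ v : σ → Ω', (∀ w : σ → Ω', Lf a (ell v ^ 5 * ell w) = 0) → v = 0) :
    GenPt a fun i => algebraMap Ω Ω' (y i) := by
  classical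
  refine ⟨hb, ?_, ?_, ?_⟩
  · have h := algebraMap_Lf (a := a) (S := Ω') (ell y ^ 6)
    rw [hg.zero, map_zero, map_pow, map_ell] at h
    exact h.symm
  · intro h
    apply hg.ne
    funext i
    exact (map_eq_zero (algebraMap Ω Ω')).mp (congrFun h i)
  · intro t ht
    have hw : ∀ _ : Unit, ∑ j, algebraMap Ω Ω' (Lf a (ell y ^ 5 * ell (Pi.single j 1))) * t j = 0 := by
      intro _
      rw [row_eval_S, map_pow, map_ell]
      exact ht
    obtain ⟨N, v, c, hv, rfl⟩ := ker_ext (fun (_ : Unit) j => Lf a (ell y ^ 5 * ell (Pi.single j 1)))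
      t hw
    have hv' : ∀ l, Lf a (ell y ^ 5 * ell (v l)) = 0 := by
      intro l
      rw [Lf_ell_eq_sum]
      exact hv l ()
    choose D hD using fun l => hg.der (v l) (hv' l)
    obtain ⟨D', hD'⟩ := exists_der_extend (∑ l, c l • (Algebra.linearMap Ω Ω').compDer (D l))
    refine ⟨D', fun i => ?_⟩
    rw [hD', der_sum_apply]
    refine Finset.sum_congr rfl fun l _ => ?_
    rw [Derivation.smul_apply, smul_eq_mul]
    congr 1
    show algebraMap Ω Ω' (D l (y i)) = _
    rw [hD]

theorem genFlag_ext {y m : σ → Ω} (hf : GenFlag a y m)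
    (hb : ∀ v : σ → Ω', (∀ w : σ → Ω', Lf a (ell v ^ 5 * ell w) = 0) → v = 0) :
    GenFlag a (fun i => algebraMap Ω Ω' (y i)) fun i => algebraMap Ω Ω' (m i) := by
  classical
  have cz : CharZero Ω := charZero_of_injective_algebraMap (algebraMap k Ω).injective
  refine { genPt_ext hf.toGenPt hb with
    li := ?_
    line := ?_
    derm := ?_ }
  · have h1 : LinearIndependent Ω ![y, m] := LinearIndependent.pair_iff.mpr hf.li
    have h2 : LinearIndependent Ω' (fun i => algebraMap Ω Ω' ∘ ![y, m] i) :=
      linearIndependent_algebraMap_comp_iff.mpr h1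
    rw [Fintype.linearIndependent_iff] at h2
    intro s t h
    have h3 := h2 ![s, t] (by
      rw [Fin.sum_univ_two]
      exact h)
    exact ⟨h3 0, h3 1⟩
  · intro s t
    apply line_of_coeff
    intro i hi
    have h1 := line_coeff (a := a) 6 y m (fun t => by simpa using hf.line 1 t) i hi
    have h2 := algebraMap_Lf (a := a) (S := Ω') (ell y ^ (6 - i) * ell m ^ i)
    rw [h1, map_zero, map_mul, map_pow, map_pow, map_ell, map_ell] at h2
    exact h2.symm
  · intro t ht
    have hw : ∀ i : Fin 6, ∑ j, algebraMap Ω Ω' (Lf a (ell y ^ (5 - (i : ℕ)) * ell m ^ (i : ℕ) *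
        ell (Pi.single j 1))) * t j = 0 := by
      intro i
      rw [row_eval_S, RingHom.map_mul, RingHom.map_pow, RingHom.map_pow, map_ell, map_ell]
      exact ht i (by omega)
    obtain ⟨N, v, c, hv, rfl⟩ := ker_ext (fun (i : Fin 6) j => Lf a (ell y ^ (5 - (i : ℕ)) *
      ell m ^ (i : ℕ) * ell (Pi.single j 1))) t hw
    have hv' : ∀ l, ∀ i : ℕ, i ≤ 5 → Lf a (ell y ^ (5 - i) * ell m ^ i * ell (v l)) = 0 := by
      intro l i hi
      rw [Lf_ell_eq_sum]
      exact hv l ⟨i, by omega⟩
    choose D κ hD1 hD2 using fun l => hf.derm (v l) (hv' l)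
    obtain ⟨D', hD'⟩ := exists_der_extend (∑ l, c l • (Algebra.linearMap Ω Ω').compDer (D l))
    refine ⟨D', ∑ l, c l * algebraMap Ω Ω' (κ l), fun i => ?_, fun i => ?_⟩
    · rw [hD', der_sum_apply]
      refine Finset.sum_eq_zero fun l _ => ?_
      rw [Derivation.smul_apply, smul_eq_mul]
      have : algebraMap Ω Ω' (D l (y i)) = 0 := by rw [hD1, map_zero]
      exact mul_eq_zero_of_right _ this
    · rw [hD', der_sum_apply, Finset.sum_mul, ← Finset.sum_add_distrib]
      refine Finset.sum_congr rfl fun l _ => ?_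
      rw [Derivation.smul_apply, smul_eq_mul]
      have : algebraMap Ω Ω' (D l (m i)) = algebraMap Ω Ω' (v l i) +
          algebraMap Ω Ω' (κ l) * algebraMap Ω Ω' (m i) := by rw [hD2, map_add, map_mul]
      have h2 : ((Algebra.linearMap Ω Ω').compDer (D l)) (m i) = algebraMap Ω Ω' (D l (m i)) := rfl
      rw [h2, this]
      ring

end Ext

end Pool.Agent.Work.PD6
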