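import Mathlib
import Pool.Agent.Work.MP_b62148_ag.Sextic.FlagExt
import Pool.Agent.Work.MP_b62148_ag.Generic

/-!
Module S1: existence of the apolar functional, gradient, polarisation; and the generic point.
-/

namespace Pool.Agent.Work.PD6

open MvPolynomial Pool.Agent.Work.PD5

section Pow

variable {k : Type*} [Field k] {σ : Type*} (a : (σ →₀ ℕ) → k)

/-- powers of a linear combination of polynomials -/
theorem Lf_sum_pow {R : Type*} [CommRing R] [Algebra k R] {ι : Type*} [Fintype ι] [DecidableEq ι]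
    (x : ι → R) (q : ι → MvPolynomial σ R) (d : ℕ) :
    Lf a ((∑ j, C (x j) * q j) ^ d) = ∑ α ∈ Finset.piAntidiag (Finset.univ : Finset ι) d,
      (Nat.multinomial Finset.univ α : R) * (∏ j, x j ^ α j) * Lf a (∏ j, q j ^ α j) := by
  rw [Finset.sum_pow_eq_sum_piAntidiag, map_sum]
  refine Finset.sum_congr rfl fun α _ => ?_
  have h1 : (Nat.multinomial Finset.univ α : MvPolynomial σ R) * ∏ j, (C (x j) * q j) ^ α j =
      C ((Nat.multinomial Finset.univ α : R) * ∏ j, x j ^ α j) * ∏ j, q j ^ α j := by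
    simp only [mul_pow, Finset.prod_mul_distrib, map_mul, map_natCast, map_prod, map_pow]
    ring
  rw [h1, Lf_C_mul]

theorem prod_X_pow {R : Type*} [CommRing R] [Fintype σ] (α : σ → ℕ) :
    ∏ j, (X j : MvPolynomial σ R) ^ α j = monomial (Finsupp.equivFunOnFinite.symm α) 1 := by
  rw [monomial_eq, C_1, one_mul, Finsupp.prod_fintype _ _ (fun i => pow_zero _)]
  rfl

theorem Lf_ell_pow {R : Type*} [CommRing R] [Algebra k R] [Fintype σ] [DecidableEq σ] (x : σ → R)
    (d : ℕ) : Lf a (ell x ^ d) = ∑ α ∈ Finset.piAntidiag (Finset.univ : Finset σ) d,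
      (Nat.multinomial Finset.univ α : R) * (∏ j, x j ^ α j) *
        algebraMap k R (a (Finsupp.equivFunOnFinite.symm α)) := by
  rw [ell, Lf_sum_pow]
  refine Finset.sum_congr rfl fun α _ => ?_
  rw [prod_X_pow, Lf_monomial, one_mul]

end Pow

section Main

variable {k : Type*} [Field k] {σ : Type*} [Fintype σ]

theorem exists_isPol [CharZero k] (d : ℕ) (F : MvPolynomial σ k) (hF : F.IsHomogeneous d) :
    ∃ a : (σ →₀ ℕ) → k, IsPol d F a := by
  classical
  refine ⟨fun α => coeff α F / (Nat.multinomial Finset.univ (α : σ → ℕ) : k), ?_⟩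
  unfold IsPol
  rw [Lf_ell_pow]
  ext β
  rw [coeff_sum]
  have h1 : ∀ α : σ → ℕ, coeff β ((Nat.multinomial Finset.univ α : MvPolynomial σ k) *
      (∏ j, X j ^ α j) * algebraMap k (MvPolynomial σ k)
      (coeff (Finsupp.equivFunOnFinite.symm α) F / (Nat.multinomial Finset.univ
        ((Finsupp.equivFunOnFinite.symm α : σ →₀ ℕ) : σ → ℕ) : k))) =
      if α = β then coeff β F else 0 := by
    intro α
    rw [prod_X_pow]
    have e1 : (Nat.multinomial Finset.univ α : MvPolynomial σ k) *
        (monomial (Finsupp.equivFunOnFinite.symm α)) 1 * algebraMap k (MvPolynomial σ k)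
        (coeff (Finsupp.equivFunOnFinite.symm α) F / (Nat.multinomial Finset.univ
        ((Finsupp.equivFunOnFinite.symm α : σ →₀ ℕ) : σ → ℕ) : k)) =
        monomial (Finsupp.equivFunOnFinite.symm α) (coeff (Finsupp.equivFunOnFinite.symm α) F) := by
      have h2 : (Nat.multinomial Finset.univ α : k) ≠ 0 :=
        Nat.cast_ne_zero.mpr (Nat.multinomial_pos _ _).ne'
      have h3 : ((Finsupp.equivFunOnFinite.symm α : σ →₀ ℕ) : σ → ℕ) = α := rfl
      rw [h3, algebraMap_eq, ← map_natCast (C : k →+* MvPolynomial σ k), C_mul_monomial,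
        mul_comm, C_mul_monomial]
      congr 1
      field_simp
    rw [e1, coeff_monomial]
    by_cases h : α = β
    · have h' : (Finsupp.equivFunOnFinite.symm α : σ →₀ ℕ) = β := by
        ext i; exact congrFun h i
      rw [if_pos h, if_pos h', h']
    · have h' : ¬ (Finsupp.equivFunOnFinite.symm α : σ →₀ ℕ) = β := by
        intro h'; apply h; rw [← h']; rfl
      rw [if_neg h, if_neg h']
  rw [Finset.sum_congr rfl fun α _ => h1 α, Finset.sum_ite_eq']
  by_cases hβ : (β : σ → ℕ) ∈ Finset.piAntidiag (Finset.univ : Finset σ) d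
  · rw [if_pos hβ]
  · rw [if_neg hβ]
    by_contra hne
    apply hβ
    have h2 := hF (Ne.symm hne)
    rw [Finset.mem_piAntidiag]
    refine ⟨?_, fun i _ => Finset.mem_univ i⟩
    rw [← h2, Finsupp.weight_apply, Finsupp.sum_fintype _ _ (fun i => by simp)]
    simp

/-- derivations of the coefficient ring act on the functional -/
theorem exists_cD_ring {R : Type*} [CommRing R] [Algebra k R] (D : Derivation k R R)
    (a : (σ →₀ ℕ) → k) : ∃ D' : Derivation k (MvPolynomial σ R) (MvPolynomial σ R),
      (∀ v : σ → R, D' (ell v) = ell fun i => D (v i)) ∧ ∀ p, D (Lf a p) = Lf a (D' p) := by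
  obtain ⟨D', h1, h2⟩ := PD5.A4.exists_mv (ι := σ) (K := k) (A := R) (B := MvPolynomial σ R)
    ((Algebra.linearMap R (MvPolynomial σ R)).compDer D) (fun _ => 0)
  have h1' : ∀ x, D' (C x) = C (D x) := fun x => h1 x
  refine ⟨D', ?_, ?_⟩
  · intro v
    simp only [ell, map_sum, Derivation.leibniz, h1', h2, smul_eq_mul, mul_zero, zero_add]
    exact Finset.sum_congr rfl fun i _ => mul_comm _ _
  · intro p
    induction p using MvPolynomial.induction_on' with
    | monomial α r =>
      have h0 : ∀ α : σ →₀ ℕ, D' (monomial α (1 : R)) = 0 := by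
        intro α
        induction α using Finsupp.induction with
        | zero =>
          have : (monomial (0 : σ →₀ ℕ) (1 : R)) = C 1 := rfl
          rw [this, h1']; simp
        | single_add i n f _ _ ih =>
          have h3 : (monomial (Finsupp.single i n + f) (1 : R) : MvPolynomial σ R) =
              X i ^ n * monomial f 1 := by
            rw [X_pow_eq_monomial, monomial_mul, one_mul]
          rw [h3, Derivation.leibniz, ih, Derivation.leibniz_pow, h2]
          simp
      have h4 : (monomial α r : MvPolynomial σ R) = C r * monomial α 1 := by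
        rw [C_mul_monomial, mul_one]
      have h5 : D' (monomial α r) = monomial α (D r) := by
        rw [h4, Derivation.leibniz, h0, h1', smul_zero, zero_add, smul_eq_mul, mul_comm,
          C_mul_monomial, mul_one]
      rw [h5, Lf_monomial, Lf_monomial, Derivation.leibniz, Derivation.map_algebraMap]
      simp [mul_comm]
    | add p q hp hq => rw [map_add, map_add, map_add, map_add, hp, hq]

theorem pderiv_isPol [DecidableEq σ] {d : ℕ} {F : MvPolynomial σ k} {a : (σ →₀ ℕ) → k}
    (h : IsPol (d + 1) F a) (i : σ) : pderiv i F = (d + 1 : MvPolynomial σ k) *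
      Lf a (ell (fun j => (X j : MvPolynomial σ k)) ^ d * ell (Pi.single i 1)) := by
  obtain ⟨D', h1, h2⟩ := exists_cD_ring (pderiv i : Derivation k (MvPolynomial σ k) _) a
  have h3 := h2 (ell (fun j => (X j : MvPolynomial σ k)) ^ (d + 1))
  rw [h] at h3
  rw [h3, Derivation.leibniz_pow, h1, Nat.add_sub_cancel]
  have h4 : (fun j => (pderiv i) (X j : MvPolynomial σ k)) = Pi.single i 1 := by
    funext j
    rw [pderiv_X]
  rw [h4, smul_eq_mul, ← Nat.cast_smul_eq_nsmul (MvPolynomial σ k), map_smul, smul_eq_mul]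
  push_cast
  ring

theorem isPol_grad {d : ℕ} {F : MvPolynomial σ k} {a : (σ →₀ ℕ) → k} (h : IsPol (d + 1) F a)
    {R : Type*} [CommRing R] [Algebra k R] (x v : σ → R) :
    ∑ i, aeval x (pderiv i F) * v i = (d + 1 : R) * Lf a (ell x ^ d * ell v) := by
  classical
  rw [Lf_ell_eq_sum, Finset.mul_sum]
  refine Finset.sum_congr rfl fun i _ => ?_
  rw [pderiv_isPol h, map_mul, ← mul_assoc]
  congr 1
  have h1 := map_Lf a (aeval x : MvPolynomial σ k →ₐ[k] R)
    (ell (fun i => (X i : MvPolynomial σ k)) ^ d * ell (Pi.single i 1))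
  rw [h1, RingHom.map_mul, RingHom.map_pow, map_ell, map_ell_single]
  have h2 : (fun i => ((aeval x : MvPolynomial σ k →ₐ[k] R) : MvPolynomial σ k →+* R) (X i)) = x := by
    funext i
    exact aeval_X x i
  rw [h2]
  congr 1
  rw [map_add, map_natCast, map_one]

theorem bpf_of_smooth [CharZero k] {g : MvPolynomial σ k} (hs : PD.SmoothForm g)
    {a : (σ →₀ ℕ) → k} (ha : IsPol 6 g a) {Ω : Type*} [Field Ω] [Algebra k Ω] (v : σ → Ω)
    (h : ∀ w : σ → Ω, Lf a (ell v ^ 5 * ell w) = 0) : v = 0 := by
  classical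
  apply hs.ext v
  intro i
  have h1 := isPol_grad ha v (Pi.single i 1 : σ → Ω)
  rw [h, mul_zero, Finset.sum_eq_single i (fun j _ hj => by
    rw [Pi.single_eq_of_ne hj, mul_zero]) (fun hi => absurd (Finset.mem_univ i) hi)] at h1
  simpa using h1

theorem iso_of_vanish {E : Type*} [Field E] [CharZero E] [Algebra k E] {ι : Type*} [Fintype ι]
    (a : (σ →₀ ℕ) → k) (lam : ι → σ → E) (h : ∀ s : ι → E, Lf a (ell (comb lam s) ^ 6) = 0) :
    Iso a lam := by
  classical
  let P : MvPolynomial ι E := ∑ α ∈ Finset.piAntidiag (Finset.univ : Finset ι) 6,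
    monomial (Finsupp.equivFunOnFinite.symm α) ((Nat.multinomial Finset.univ α : E) *
      Lf a (∏ j, ell (lam j) ^ α j))
  have hP : P = 0 := by
    apply MvPolynomial.funext
    intro s
    rw [map_zero, ← h s, ell_comb, Lf_sum_pow, map_sum]
    refine Finset.sum_congr rfl fun α _ => ?_
    rw [eval_monomial, Finsupp.prod_fintype _ _ (fun i => pow_zero _)]
    have h1 : ∀ j, (Finsupp.equivFunOnFinite.symm α : ι →₀ ℕ) j = α j := fun j => rfl
    simp only [h1]
    ring
  have key : ∀ α ∈ Finset.piAntidiag (Finset.univ : Finset ι) 6,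
      Lf a (∏ j, ell (lam j) ^ α j) = 0 := by
    intro α hα
    have h2 := congrArg (coeff (Finsupp.equivFunOnFinite.symm α)) hP
    simp only [P, coeff_sum, coeff_monomial, coeff_zero] at h2
    have h3 : ∀ β : ι → ℕ, ((Finsupp.equivFunOnFinite.symm β : ι →₀ ℕ) =
        Finsupp.equivFunOnFinite.symm α) ↔ β = α := fun β =>
      Finsupp.equivFunOnFinite.symm.injective.eq_iff
    simp only [h3] at h2
    rw [Finset.sum_ite_eq' _ α, if_pos hα] at h2
    rcases mul_eq_zero.mp h2 with h4 | h4
    · exact absurd h4 (Nat.cast_ne_zero.mpr (Nat.multinomial_pos _ _).ne')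
    · exact h4
  intro i₁ i₂ i₃ i₄ i₅ i₆
  let I : Fin 6 → ι := ![i₁, i₂, i₃, i₄, i₅, i₆]
  let α : ι → ℕ := fun j => (Finset.univ.filter fun t => I t = j).card
  have hα : α ∈ Finset.piAntidiag (Finset.univ : Finset ι) 6 := by
    rw [Finset.mem_piAntidiag]
    refine ⟨?_, fun i _ => Finset.mem_univ i⟩
    have h1 := Finset.card_eq_sum_card_fiberwise (s := (Finset.univ : Finset (Fin 6)))
      (t := (Finset.univ : Finset ι)) (f := I) (fun _ _ => Finset.mem_coe.mpr (Finset.mem_univ _))
    rw [Finset.card_univ, Fintype.card_fin] at h1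
    exact h1.symm
  have h1 : ∏ t, ell (lam (I t)) = ∏ j, ell (lam j) ^ α j := by
    rw [← Finset.prod_fiberwise Finset.univ I fun t => ell (lam (I t))]
    refine Finset.prod_congr rfl fun j _ => ?_
    rw [Finset.prod_congr rfl (fun t ht => by rw [(Finset.mem_filter.mp ht).2]),
      Finset.prod_const]
  have h2 := key α hα
  rw [← h1, Fin.prod_univ_six] at h2
  exact h2

theorem genPt_eta [CharZero k] (g : MvPolynomial σ k) (hg : g.IsHomogeneous 6)
    (hs : PD.SmoothForm g) [hp : (Ideal.span {g}).IsPrime] (hcard : 3 ≤ Fintype.card σ)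
    (a : (σ →₀ ℕ) → k) (ha : IsPol 6 g a) : GenPt a (PD.eta g) := by
  classical
  have hne : Nonempty σ := Fintype.card_pos_iff.mp (by omega)
  have hg0 : g ≠ 0 := by
    rintro rfl
    obtain ⟨i⟩ := hne
    have h1 := hs (fun _ => 1) (fun i => by simp)
    exact one_ne_zero (congrFun h1 i)
  refine ⟨fun v hv => bpf_of_smooth hs ha v hv, ?_, ?_, ?_⟩
  · rw [← ha.aeval_eq]
    exact (PD.aeval_eta_eq_zero_iff g g).mpr dvd_rfl
  · intro h
    obtain ⟨i⟩ := hne
    have h1 : g ∣ (X i : MvPolynomial σ k) := by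
      rw [← PD.aeval_eta_eq_zero_iff, aeval_X, h]
      rfl
    obtain ⟨q, hq⟩ := h1
    have hq0 : q ≠ 0 := by
      rintro rfl
      rw [mul_zero] at hq
      exact X_ne_zero i hq
    have h2 := totalDegree_mul_of_isDomain hg0 hq0
    rw [← hq, totalDegree_X, hg.totalDegree hg0] at h2
    omega
  · intro t ht
    apply PD.exists_tangent_derivation g t
    rw [isPol_grad ha, ht, mul_zero]

end Main

end Pool.Agent.Work.PD6
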