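import Mathlib
import Pool.Agent.Work.MP_b62148_ag.Sextic.Defs

/-!
S10, first part: a point `x = b + τ (z + λ)` with all equations, over a ring in which `1 + τ g` is
always a unit.
-/

set_option linter.unusedSectionVars false

namespace Pool.Agent.Work.PD6

open MvPolynomial

variable {k : Type*} [Field k] {σ : Type*} [Fintype σ]

section Calc

variable {R : Type*} [CommRing R] [Algebra k R] {a : (σ →₀ ℕ) → k} {ι : Type*}
  {lam : ι → σ → R}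

/-- `p` is a combination of products of `d` linear forms of the span -/
def Dg (lam : ι → σ → R) (d : ℕ) (p : MvPolynomial σ R) : Prop := p ∈ Sp lam ^ d

theorem Dg.of_mem {p : MvPolynomial σ R} (h : p ∈ Sp lam) : Dg lam 1 p := by
  unfold Dg; rw [pow_one]; exact h

theorem Dg.mk (lam : ι → σ → R) (j : ι) : Dg lam 1 (ell (lam j)) := Dg.of_mem (mem_Sp lam j)

theorem Dg.mul {i j : ℕ} {p q : MvPolynomial σ R} (hp : Dg lam i p) (hq : Dg lam j q) :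
    Dg lam (i + j) (p * q) := by
  unfold Dg at *
  rw [pow_add]
  exact Submodule.mul_mem_mul hp hq

theorem Dg.pow {p : MvPolynomial σ R} (hp : Dg lam 1 p) (n : ℕ) : Dg lam n (p ^ n) := by
  unfold Dg at *
  rw [pow_one] at hp
  exact Submodule.pow_mem_pow _ hp n

theorem Dg.six (h : Iso a lam) {p : MvPolynomial σ R} (hp : Dg lam 6 p) : Lf a p = 0 := by
  have hp' : p ∈ Sp lam * Sp lam * Sp lam * Sp lam * Sp lam * Sp lam := by
    have e : Sp lam ^ 6 = Sp lam * Sp lam * Sp lam * Sp lam * Sp lam * Sp lam := by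
      simp only [pow_succ, pow_zero, one_mul]
    rw [← e]; exact hp
  let K : MvPolynomial σ R → Submodule R (MvPolynomial σ R) := fun q =>
    LinearMap.ker ((Lf a : MvPolynomial σ R →ₗ[R] R).comp (LinearMap.mulRight R q))
  have hK : ∀ p q, p ∈ K q ↔ Lf a (p * q) = 0 := fun p q => Iff.rfl
  have h2 : ∀ p₃ ∈ Sp lam, ∀ p₄ ∈ Sp lam, ∀ p₅ ∈ Sp lam, ∀ p₆ ∈ Sp lam,
      Sp lam * Sp lam ≤ K (p₃ * p₄ * p₅ * p₆) := by
    intro p₃ h₃ p₄ h₄ p₅ h₅ p₆ h₆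
    rw [Submodule.mul_le]
    intro p₁ h₁ p₂ h₂
    rw [hK, ← h.six h₁ h₂ h₃ h₄ h₅ h₆]
    congr 1; ring
  have h3 : ∀ p₄ ∈ Sp lam, ∀ p₅ ∈ Sp lam, ∀ p₆ ∈ Sp lam,
      Sp lam * Sp lam * Sp lam ≤ K (p₄ * p₅ * p₆) := by
    intro p₄ h₄ p₅ h₅ p₆ h₆
    rw [Submodule.mul_le]
    intro p₁ h₁ p₂ h₂
    rw [hK, ← (hK _ _).1 (h2 p₂ h₂ p₄ h₄ p₅ h₅ p₆ h₆ h₁)]
    congr 1; ring
  have h4 : ∀ p₅ ∈ Sp lam, ∀ p₆ ∈ Sp lam,
      Sp lam * Sp lam * Sp lam * Sp lam ≤ K (p₅ * p₆) := by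
    intro p₅ h₅ p₆ h₆
    rw [Submodule.mul_le]
    intro p₁ h₁ p₂ h₂
    rw [hK, ← (hK _ _).1 (h3 p₂ h₂ p₅ h₅ p₆ h₆ h₁)]
    congr 1; ring
  have h5 : ∀ p₆ ∈ Sp lam, Sp lam * Sp lam * Sp lam * Sp lam * Sp lam ≤ K p₆ := by
    intro p₆ h₆
    rw [Submodule.mul_le]
    intro p₁ h₁ p₂ h₂
    rw [hK, ← (hK _ _).1 (h4 p₂ h₂ p₆ h₆ h₁)]
    congr 1; ring
  have h6 : Sp lam * Sp lam * Sp lam * Sp lam * Sp lam * Sp lam ≤ K 1 := by
    rw [Submodule.mul_le]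
    intro p₁ h₁ p₂ h₂
    rw [hK, ← (hK _ _).1 (h5 p₂ h₂ h₁)]
    congr 1; ring
  have h7 := (hK _ _).1 (h6 hp')
  rwa [mul_one] at h7

theorem Lf_num2 (p : MvPolynomial σ R) : Lf a (2 * p) = 2 * Lf a p := by
  exact_mod_cast Lf_nsmul a 2 p

theorem Lf_num3 (p : MvPolynomial σ R) : Lf a (3 * p) = 3 * Lf a p := by
  exact_mod_cast Lf_nsmul a 3 p

theorem Lf_num4 (p : MvPolynomial σ R) : Lf a (4 * p) = 4 * Lf a p := by
  exact_mod_cast Lf_nsmul a 4 p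

theorem Lf_num6 (p : MvPolynomial σ R) : Lf a (6 * p) = 6 * Lf a p := by
  exact_mod_cast Lf_nsmul a 6 p

theorem Lf_num15 (p : MvPolynomial σ R) : Lf a (15 * p) = 15 * Lf a p := by
  exact_mod_cast Lf_nsmul a 15 p

theorem Lf_num20 (p : MvPolynomial σ R) : Lf a (20 * p) = 20 * Lf a p := by
  exact_mod_cast Lf_nsmul a 20 p

end Calc

section Ex

variable {R : Type*} [CommRing R] [Algebra k R] {a : (σ →₀ ℕ) → k} {lam : Fin 7 → σ → R}
  {z : σ → R}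

/-- `x = b + τ (z + λ)` -/
def Fo (lam : Fin 7 → σ → R) (z : σ → R) (τ : R) (x : σ → R) : Prop :=
  ∃ L : MvPolynomial σ R, Dg lam 1 L ∧ ell x = ell (lam 3) + C τ * (ell z + L)

theorem Fo.add {τ : R} {x : σ → R} (h : Fo lam z τ x) (j : Fin 7) (s : R) :
    Fo lam z τ (x + (τ * s) • lam j) := by
  obtain ⟨L, hL, hx⟩ := h
  refine ⟨L + C s * ell (lam j), ?_, ?_⟩
  · apply Dg.of_mem
    refine Submodule.add_mem _ ?_ ?_
    · have := hL
      unfold Dg at this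
      rwa [pow_one] at this
    · rw [← smul_eq_C_mul]
      exact Submodule.smul_mem _ _ (mem_Sp lam j)
  · rw [ell_add, ell_smul, hx, map_mul]
    ring

/-- the basic expansion -/
theorem Fo.exp (hiso : Iso a lam) {τ : R} {x : σ → R} (h : Fo lam z τ x) {d n : ℕ}
    (hdn : d + (n + 1) = 6) {P : MvPolynomial σ R} (hP : Dg lam d P) :
    ∃ g : R, Lf a (P * ell x ^ (n + 1)) =
      τ * ((n + 1 : ℕ) * Lf a (P * ell (lam 3) ^ n * ell z) + τ * g) := by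
  obtain ⟨L, hL, hx⟩ := h
  obtain ⟨q, hq⟩ := Polynomial.powAddExpansion (ell (lam 3)) (C τ * (ell z + L)) (n + 1)
  refine ⟨Lf a (P * q * (ell z + L) ^ 2), ?_⟩
  have e : P * ell x ^ (n + 1) = P * ell (lam 3) ^ (n + 1)
      + C τ * (((n + 1 : ℕ) : MvPolynomial σ R) * (P * ell (lam 3) ^ n * ell z))
      + C τ * (((n + 1 : ℕ) : MvPolynomial σ R) * (P * ell (lam 3) ^ n * L))
      + C τ * (C τ * (P * q * (ell z + L) ^ 2)) := by
    rw [hx, hq]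
    simp only [Nat.add_sub_cancel]
    ring
  have z1 : Lf a (P * ell (lam 3) ^ (n + 1)) = 0 := by
    have t := hP.mul ((Dg.mk lam 3).pow (n + 1))
    rw [hdn] at t
    exact Dg.six hiso t
  have z2 : Lf a (P * ell (lam 3) ^ n * L) = 0 := by
    have t := (hP.mul ((Dg.mk lam 3).pow n)).mul hL
    rw [add_assoc, hdn] at t
    exact Dg.six hiso t
  rw [e, map_add, map_add, map_add, Lf_C_mul, Lf_C_mul, Lf_C_mul, Lf_C_mul, Lf_nsmul, Lf_nsmul,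
    z1, z2]
  ring

/-- the exact expansion in degree one -/
theorem Fo.exp1 (hiso : Iso a lam) {τ : R} {x : σ → R} (h : Fo lam z τ x)
    {P : MvPolynomial σ R} (hP : Dg lam 5 P) : Lf a (P * ell x) = τ * Lf a (P * ell z) := by
  obtain ⟨L, hL, hx⟩ := h
  have e : P * ell x = P * ell (lam 3) + C τ * (P * ell z) + C τ * (P * L) := by
    rw [hx]; ring
  have z1 : Lf a (P * ell (lam 3)) = 0 := Dg.six hiso (hP.mul (Dg.mk lam 3))
  have z2 : Lf a (P * L) = 0 := Dg.six hiso (hP.mul hL)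
  rw [e, map_add, map_add, Lf_C_mul, Lf_C_mul, z1, z2]
  ring

/-- solving a linear equation `τ² g + τ s (τ u) = 0` -/
theorem solve_step {τ c d : R} (hc : ∃ g, c = τ * (τ * g)) (hd : ∃ u, d = τ * u ∧ IsUnit u) :
    ∃ s : R, c + τ * s * d = 0 := by
  obtain ⟨g, hg⟩ := hc
  obtain ⟨u, hu, hu'⟩ := hd
  obtain ⟨v, rfl⟩ := hu'
  refine ⟨-(g * (v⁻¹ : Rˣ)), ?_⟩
  rw [hg, hu]
  have h1 : (v : R) * (v⁻¹ : Rˣ) = 1 := Units.mul_inv v
  linear_combination (-(τ * τ * g)) * h1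

/-- the equations of degree one -/
theorem Fo.l8 (h : Lead a lam z) {τ : R} {x : σ → R} (hx : Fo lam z τ x) (i : Fin 8) :
    Lf a (lc (ell (lam 0)) (ell (lam 1)) (ell (lam 2)) i * ell x) = 0 := by
  have hY := Dg.mk lam 0
  have hM := Dg.mk lam 1
  have hN := Dg.mk lam 2
  have hd : Dg lam 5 (lc (ell (lam 0)) (ell (lam 1)) (ell (lam 2)) i) := by
    fin_cases i
    · exact hY.pow 5
    · exact (hY.pow 4).mul hM
    · exact (hY.pow 4).mul hN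
    · exact (hY.pow 3).mul (hM.pow 2)
    · exact ((hY.pow 3).mul hM).mul hN
    · exact (hY.pow 3).mul (hN.pow 2)
    · exact (hY.pow 2).mul (hM.pow 3)
    · exact ((hY.pow 2).mul (hM.pow 2)).mul hN
  rw [hx.exp1 h.iso hd, h.l8 i, mul_zero]

theorem qc_Dg (lam : Fin 7 → σ → R) (i : Fin 3) : Dg lam 4 (qc (ell (lam 0)) (ell (lam 1)) i) := by
  have hY := Dg.mk lam 0
  have hM := Dg.mk lam 1
  fin_cases i
  · exact hY.pow 4
  · exact (hY.pow 3).mul hM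
  · exact (hY.pow 2).mul (hM.pow 2)

/-- first step -/
theorem step_N {τ : R} (hτ : ∀ u g : R, IsUnit u → IsUnit (u + τ * g))
    (hn : ∀ n : ℕ, n ≠ 0 → IsUnit (n : R)) (h : Lead a lam z)
    (hu2 : IsUnit (Lf a (ell (lam 0) ^ 3 * ell (lam 2) * ell (lam 3) * ell z)))
    {x0 : σ → R} (hF0 : Fo lam z τ x0)
    (hq0 : ∀ i, Lf a (qc (ell (lam 0)) (ell (lam 1)) i * ell x0 ^ 2) = 0) :
    ∃ x1, Fo lam z τ x1 ∧ (∀ i, Lf a (qc (ell (lam 0)) (ell (lam 1)) i * ell x1 ^ 2) = 0) ∧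
      Lf a (ell (lam 0) ^ 3 * ell x1 ^ 3) = 0 := by
  have hiso := h.iso
  have hY := Dg.mk lam 0
  have hM := Dg.mk lam 1
  have hN := Dg.mk lam 2
  have hB := Dg.mk lam 3
  have hqd := qc_Dg lam
  have six : ∀ p, Dg lam 6 p → Lf a p = 0 := fun p hp => Dg.six hiso hp
  have hc0 := h.c1
  have hf0 := h.f1
  have hs0 := h.s1
  have l8 := fun (x : σ → R) (hx : Fo lam z τ x) i => hx.l8 h i
  set Y := ell (lam 0) with hYdef
  set M := ell (lam 1) with hMdef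
  set N := ell (lam 2) with hNdef
  set B := ell (lam 3) with hBdef
  set Z := ell z with hZdef
  -- step 1
  have g1 : ∃ g, Lf a (Y ^ 3 * ell x0 ^ 3) = τ * (τ * g) := by
    obtain ⟨g, hg⟩ := hF0.exp hiso (n := 2) (d := 3) (by norm_num) (hY.pow 3)
    have : Lf a (Y ^ 3 * B ^ 2 * Z) = 0 := hc0
    exact ⟨g, by rw [hg, this]; ring⟩
  have u1 : ∃ u, 3 * Lf a (Y ^ 3 * N * ell x0 ^ 2) = τ * u ∧ IsUnit u := by
    obtain ⟨g, hg⟩ := hF0.exp hiso (n := 1) (d := 4) (by norm_num) ((hY.pow 3).mul hN)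
    rw [pow_one] at hg
    refine ⟨(6 : ℕ) * Lf a (Y ^ 3 * N * B * Z) + τ * (3 * g), ?_,
      hτ _ _ ((hn 6 (by norm_num)).mul hu2)⟩
    rw [hg]; push_cast; ring
  obtain ⟨s, hs⟩ := solve_step g1 u1
  set x1 := x0 + (τ * s) • lam 2 with hx1
  have hF1 : Fo lam z τ x1 := hF0.add 2 s
  have e1 : ell x1 = ell x0 + C (τ * s) * N := by rw [hx1, ell_add, ell_smul]
  have l0 := fun i => l8 x0 hF0 i
  have hq1 : ∀ i, Lf a (qc Y M i * ell x1 ^ 2) = 0 := by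
    intro i
    have e : qc Y M i * ell x1 ^ 2 = qc Y M i * ell x0 ^ 2
        + C (τ * s) * (2 * (qc Y M i * N * ell x0)) + C (τ * s) * (C (τ * s) * (qc Y M i * N ^ 2)) := by
      rw [e1]; ring
    have z1 : Lf a (qc Y M i * N ^ 2) = 0 := six _ ((hqd i).mul (hN.pow 2))
    have z2 : Lf a (qc Y M i * N * ell x0) = 0 := by
      fin_cases i
      · exact l0 2
      · exact l0 4
      · exact l0 7
    rw [e]
    simp only [map_add, Lf_C_mul, Lf_num2, z1, z2, hq0 i]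
    ring
  have hc1 : Lf a (Y ^ 3 * ell x1 ^ 3) = 0 := by
    have e : Y ^ 3 * ell x1 ^ 3 = Y ^ 3 * ell x0 ^ 3
        + C (τ * s) * (3 * (Y ^ 3 * N * ell x0 ^ 2))
        + C (τ * s) * (C (τ * s) * (3 * (Y ^ 3 * N ^ 2 * ell x0)))
        + C (τ * s) * (C (τ * s) * (C (τ * s) * (Y ^ 3 * N ^ 3))) := by
      rw [e1]; ring
    have z1 : Lf a (Y ^ 3 * N ^ 3) = 0 := six _ ((hY.pow 3).mul (hN.pow 3))
    have z2 : Lf a (Y ^ 3 * N ^ 2 * ell x0) = 0 := l0 5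
    rw [e]
    simp only [map_add, Lf_C_mul, Lf_num3, z1, z2]
    linear_combination hs
  exact ⟨x1, hF1, hq1, hc1⟩

/-- second step -/
theorem step_M {τ : R} (hτ : ∀ u g : R, IsUnit u → IsUnit (u + τ * g))
    (hn : ∀ n : ℕ, n ≠ 0 → IsUnit (n : R)) (h : Lead a lam z)
    (hu3 : IsUnit (Lf a (ell (lam 0) ^ 2 * ell (lam 1) * ell (lam 3) ^ 2 * ell z)))
    {x1 : σ → R} (hF1 : Fo lam z τ x1)
    (hq1 : ∀ i, Lf a (qc (ell (lam 0)) (ell (lam 1)) i * ell x1 ^ 2) = 0)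
    (hc1 : Lf a (ell (lam 0) ^ 3 * ell x1 ^ 3) = 0) :
    ∃ x2, Fo lam z τ x2 ∧ (∀ i, Lf a (qc (ell (lam 0)) (ell (lam 1)) i * ell x2 ^ 2) = 0) ∧
      Lf a (ell (lam 0) ^ 3 * ell x2 ^ 3) = 0 ∧ Lf a (ell (lam 0) ^ 2 * ell x2 ^ 4) = 0 := by
  have hiso := h.iso
  have hY := Dg.mk lam 0
  have hM := Dg.mk lam 1
  have hN := Dg.mk lam 2
  have hB := Dg.mk lam 3
  have hqd := qc_Dg lam
  have six : ∀ p, Dg lam 6 p → Lf a p = 0 := fun p hp => Dg.six hiso hp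
  have hc0 := h.c1
  have hf0 := h.f1
  have hs0 := h.s1
  have l8 := fun (x : σ → R) (hx : Fo lam z τ x) i => hx.l8 h i
  set Y := ell (lam 0) with hYdef
  set M := ell (lam 1) with hMdef
  set N := ell (lam 2) with hNdef
  set B := ell (lam 3) with hBdef
  set Z := ell z with hZdef
  -- step 2
  have l1 := fun i => l8 x1 hF1 i
  have g2 : ∃ g, Lf a (Y ^ 2 * ell x1 ^ 4) = τ * (τ * g) := by
    obtain ⟨g, hg⟩ := hF1.exp hiso (n := 3) (d := 2) (by norm_num) (hY.pow 2)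
    have : Lf a (Y ^ 2 * B ^ 3 * Z) = 0 := hf0
    exact ⟨g, by rw [hg, this]; ring⟩
  have u2 : ∃ u, 4 * Lf a (Y ^ 2 * M * ell x1 ^ 3) = τ * u ∧ IsUnit u := by
    obtain ⟨g, hg⟩ := hF1.exp hiso (n := 2) (d := 3) (by norm_num) ((hY.pow 2).mul hM)
    refine ⟨(12 : ℕ) * Lf a (Y ^ 2 * M * B ^ 2 * Z) + τ * (4 * g), ?_,
      hτ _ _ ((hn 12 (by norm_num)).mul hu3)⟩
    rw [hg]; push_cast; ring
  obtain ⟨r, hr⟩ := solve_step g2 u2
  set x2 := x1 + (τ * r) • lam 1 with hx2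
  have hF2 : Fo lam z τ x2 := hF1.add 1 r
  have e2 : ell x2 = ell x1 + C (τ * r) * M := by rw [hx2, ell_add, ell_smul]
  have hq2 : ∀ i, Lf a (qc Y M i * ell x2 ^ 2) = 0 := by
    intro i
    have e : qc Y M i * ell x2 ^ 2 = qc Y M i * ell x1 ^ 2
        + C (τ * r) * (2 * (qc Y M i * M * ell x1)) + C (τ * r) * (C (τ * r) * (qc Y M i * M ^ 2)) := by
      rw [e2]; ring
    have z1 : Lf a (qc Y M i * M ^ 2) = 0 := six _ ((hqd i).mul (hM.pow 2))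
    have z2 : Lf a (qc Y M i * M * ell x1) = 0 := by
      fin_cases i
      · exact l1 1
      · exact (congrArg (Lf a) (show Y ^ 3 * M * M * ell x1 = Y ^ 3 * M ^ 2 * ell x1 by ring)).trans (l1 3)
      · exact (congrArg (Lf a) (show Y ^ 2 * M ^ 2 * M * ell x1 = Y ^ 2 * M ^ 3 * ell x1 by ring)).trans (l1 6)
    rw [e]
    simp only [map_add, Lf_C_mul, Lf_num2, z1, z2, hq1 i]
    ring
  have hc2 : Lf a (Y ^ 3 * ell x2 ^ 3) = 0 := by
    have e : Y ^ 3 * ell x2 ^ 3 = Y ^ 3 * ell x1 ^ 3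
        + C (τ * r) * (3 * (Y ^ 3 * M * ell x1 ^ 2))
        + C (τ * r) * (C (τ * r) * (3 * (Y ^ 3 * M ^ 2 * ell x1)))
        + C (τ * r) * (C (τ * r) * (C (τ * r) * (Y ^ 3 * M ^ 3))) := by
      rw [e2]; ring
    have z1 : Lf a (Y ^ 3 * M ^ 3) = 0 := six _ ((hY.pow 3).mul (hM.pow 3))
    have z2 : Lf a (Y ^ 3 * M ^ 2 * ell x1) = 0 := l1 3
    have z3 : Lf a (Y ^ 3 * M * ell x1 ^ 2) = 0 := hq1 1
    rw [e]
    simp only [map_add, Lf_C_mul, Lf_num3, z1, z2, z3, hc1]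
    ring
  have hf2 : Lf a (Y ^ 2 * ell x2 ^ 4) = 0 := by
    have e : Y ^ 2 * ell x2 ^ 4 = Y ^ 2 * ell x1 ^ 4
        + C (τ * r) * (4 * (Y ^ 2 * M * ell x1 ^ 3))
        + C (τ * r) * (C (τ * r) * (6 * (Y ^ 2 * M ^ 2 * ell x1 ^ 2)))
        + C (τ * r) * (C (τ * r) * (C (τ * r) * (4 * (Y ^ 2 * M ^ 3 * ell x1))))
        + C (τ * r) * (C (τ * r) * (C (τ * r) * (C (τ * r) * (Y ^ 2 * M ^ 4)))) := by
      rw [e2]; ring
    have z1 : Lf a (Y ^ 2 * M ^ 4) = 0 := six _ ((hY.pow 2).mul (hM.pow 4))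
    have z2 : Lf a (Y ^ 2 * M ^ 3 * ell x1) = 0 := l1 6
    have z3 : Lf a (Y ^ 2 * M ^ 2 * ell x1 ^ 2) = 0 := hq1 2
    rw [e]
    simp only [map_add, Lf_C_mul, Lf_num4, Lf_num6, z1, z2, z3]
    linear_combination hr
  exact ⟨x2, hF2, hq2, hc2, hf2⟩

/-- third step -/
theorem step_Y {τ : R} (hτ : ∀ u g : R, IsUnit u → IsUnit (u + τ * g))
    (hn : ∀ n : ℕ, n ≠ 0 → IsUnit (n : R)) (h : Lead a lam z)
    (hu4 : IsUnit (Lf a (ell (lam 0) * ell (lam 3) ^ 4 * ell z)))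
    {x2 : σ → R} (hF2 : Fo lam z τ x2)
    (hq2 : ∀ i, Lf a (qc (ell (lam 0)) (ell (lam 1)) i * ell x2 ^ 2) = 0)
    (hc2 : Lf a (ell (lam 0) ^ 3 * ell x2 ^ 3) = 0)
    (hf2 : Lf a (ell (lam 0) ^ 2 * ell x2 ^ 4) = 0) :
    ∃ x3, Fo lam z τ x3 ∧ (∀ i, Lf a (qc (ell (lam 0)) (ell (lam 1)) i * ell x3 ^ 2) = 0) ∧
      Lf a (ell (lam 0) ^ 3 * ell x3 ^ 3) = 0 ∧ Lf a (ell (lam 0) ^ 2 * ell x3 ^ 4) = 0 ∧
      Lf a (ell x3 ^ 6) = 0 := by
  have hiso := h.iso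
  have hY := Dg.mk lam 0
  have hM := Dg.mk lam 1
  have hN := Dg.mk lam 2
  have hB := Dg.mk lam 3
  have hqd := qc_Dg lam
  have six : ∀ p, Dg lam 6 p → Lf a p = 0 := fun p hp => Dg.six hiso hp
  have hc0 := h.c1
  have hf0 := h.f1
  have hs0 := h.s1
  have l8 := fun (x : σ → R) (hx : Fo lam z τ x) i => hx.l8 h i
  set Y := ell (lam 0) with hYdef
  set M := ell (lam 1) with hMdef
  set N := ell (lam 2) with hNdef
  set B := ell (lam 3) with hBdef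
  set Z := ell z with hZdef
  -- step 3
  have l2 := fun i => l8 x2 hF2 i
  have g3 : ∃ g, Lf a (ell x2 ^ 6) = τ * (τ * g) := by
    obtain ⟨g, hg⟩ := hF2.exp hiso (n := 5) (d := 0) (by norm_num) (hY.pow 0)
    have : Lf a (B ^ 5 * Z) = 0 := hs0
    rw [pow_zero, one_mul, one_mul, this] at hg
    exact ⟨g, by rw [hg]; ring⟩
  have u3 : ∃ u, 6 * Lf a (Y * ell x2 ^ 5) = τ * u ∧ IsUnit u := by
    obtain ⟨g, hg⟩ := hF2.exp hiso (n := 4) (d := 1) (by norm_num) hY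
    refine ⟨(30 : ℕ) * Lf a (Y * B ^ 4 * Z) + τ * (6 * g), ?_,
      hτ _ _ ((hn 30 (by norm_num)).mul hu4)⟩
    rw [hg]; push_cast; ring
  obtain ⟨q, hq⟩ := solve_step g3 u3
  set x3 := x2 + (τ * q) • lam 0 with hx3
  have hF3 : Fo lam z τ x3 := hF2.add 0 q
  have e3 : ell x3 = ell x2 + C (τ * q) * Y := by rw [hx3, ell_add, ell_smul]
  have w5 : Lf a (Y ^ 5 * ell x2) = 0 := l2 0
  have w4 : Lf a (Y ^ 4 * ell x2 ^ 2) = 0 := hq2 0
  have w6 : Lf a (Y ^ 6) = 0 := six _ (hY.pow 6)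
  refine ⟨x3, hF3, ?_, ?_, ?_, ?_⟩
  · intro i
    have e : qc Y M i * ell x3 ^ 2 = qc Y M i * ell x2 ^ 2
        + C (τ * q) * (2 * (qc Y M i * Y * ell x2)) + C (τ * q) * (C (τ * q) * (qc Y M i * Y ^ 2)) := by
      rw [e3]; ring
    have z1 : Lf a (qc Y M i * Y ^ 2) = 0 := six _ ((hqd i).mul (hY.pow 2))
    have z2 : Lf a (qc Y M i * Y * ell x2) = 0 := by
      fin_cases i
      · exact (congrArg (Lf a) (show Y ^ 4 * Y * ell x2 = Y ^ 5 * ell x2 by ring)).trans (l2 0)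
      · exact (congrArg (Lf a) (show Y ^ 3 * M * Y * ell x2 = Y ^ 4 * M * ell x2 by ring)).trans (l2 1)
      · exact (congrArg (Lf a) (show Y ^ 2 * M ^ 2 * Y * ell x2 = Y ^ 3 * M ^ 2 * ell x2 by ring)).trans (l2 3)
    rw [e]
    simp only [map_add, Lf_C_mul, Lf_num2, z1, z2, hq2 i]
    ring
  · have e : Y ^ 3 * ell x3 ^ 3 = Y ^ 3 * ell x2 ^ 3
        + C (τ * q) * (3 * (Y ^ 4 * ell x2 ^ 2))
        + C (τ * q) * (C (τ * q) * (3 * (Y ^ 5 * ell x2)))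
        + C (τ * q) * (C (τ * q) * (C (τ * q) * (Y ^ 6))) := by
      rw [e3]; ring
    rw [e]
    simp only [map_add, Lf_C_mul, Lf_num3, w4, w5, w6, hc2]
    ring
  · have e : Y ^ 2 * ell x3 ^ 4 = Y ^ 2 * ell x2 ^ 4
        + C (τ * q) * (4 * (Y ^ 3 * ell x2 ^ 3))
        + C (τ * q) * (C (τ * q) * (6 * (Y ^ 4 * ell x2 ^ 2)))
        + C (τ * q) * (C (τ * q) * (C (τ * q) * (4 * (Y ^ 5 * ell x2))))
        + C (τ * q) * (C (τ * q) * (C (τ * q) * (C (τ * q) * (Y ^ 6)))) := by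
      rw [e3]; ring
    rw [e]
    simp only [map_add, Lf_C_mul, Lf_num4, Lf_num6, w4, w5, w6, hc2, hf2]
    ring
  · have e : ell x3 ^ 6 = ell x2 ^ 6
        + C (τ * q) * (6 * (Y * ell x2 ^ 5))
        + C (τ * q) * (C (τ * q) * (15 * (Y ^ 2 * ell x2 ^ 4)))
        + C (τ * q) * (C (τ * q) * (C (τ * q) * (20 * (Y ^ 3 * ell x2 ^ 3))))
        + C (τ * q) * (C (τ * q) * (C (τ * q) * (C (τ * q) * (15 * (Y ^ 4 * ell x2 ^ 2)))))
        + C (τ * q) * (C (τ * q) * (C (τ * q) * (C (τ * q) * (C (τ * q) * (6 * (Y ^ 5 * ell x2))))))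
        + C (τ * q) * (C (τ * q) * (C (τ * q) * (C (τ * q) * (C (τ * q) * (C (τ * q) * (Y ^ 6)))))) := by
      rw [e3]; ring
    rw [e]
    simp only [map_add, Lf_C_mul, Lf_num6, Lf_num15, Lf_num20, w4, w5, w6, hc2, hf2]
    linear_combination hq

/-- existence of the point -/
theorem exists_x {τ : R} (hτ : ∀ u g : R, IsUnit u → IsUnit (u + τ * g))
    (hn : ∀ n : ℕ, n ≠ 0 → IsUnit (n : R)) (h : Lead a lam z) (α : Fin 3 → R)
    (hα : ∀ i, Lf a (qc (ell (lam 0)) (ell (lam 1)) i * ell z ^ 2)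
      + 2 * ∑ j, α j * Lf a (qc (ell (lam 0)) (ell (lam 1)) i * ell (lam (Fin.natAdd 4 j)) * ell z)
        = 0)
    (hu2 : IsUnit (Lf a (ell (lam 0) ^ 3 * ell (lam 2) * ell (lam 3) * ell z)))
    (hu3 : IsUnit (Lf a (ell (lam 0) ^ 2 * ell (lam 1) * ell (lam 3) ^ 2 * ell z)))
    (hu4 : IsUnit (Lf a (ell (lam 0) * ell (lam 3) ^ 4 * ell z))) :
    ∃ x, Fo lam z τ x ∧ Eqs a (lam 0) (lam 1) (lam 2) x := by
  have hiso := h.iso
  have hY := Dg.mk lam 0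
  have hM := Dg.mk lam 1
  have hN := Dg.mk lam 2
  have hB := Dg.mk lam 3
  -- the first point
  set x0 : σ → R := lam 3 + τ • (z + ∑ j, α j • lam (Fin.natAdd 4 j)) with hx0
  set LA : MvPolynomial σ R := ∑ j, C (α j) * ell (lam (Fin.natAdd 4 j)) with hLA
  have hLAd : Dg lam 1 LA := by
    apply Dg.of_mem
    rw [hLA]
    refine Submodule.sum_mem _ fun j _ => ?_
    rw [← smul_eq_C_mul]
    exact Submodule.smul_mem _ _ (mem_Sp lam _)
  have hell0 : ell x0 = ell (lam 3) + C τ * (ell z + LA) := by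
    rw [hx0, ell_add, ell_smul, ell_add, ell_sum_smul]
  have hF0 : Fo lam z τ x0 := ⟨LA, hLAd, hell0⟩
  set Y := ell (lam 0) with hYdef
  set M := ell (lam 1) with hMdef
  set N := ell (lam 2) with hNdef
  set B := ell (lam 3) with hBdef
  set Z := ell z with hZdef
  -- quadrics for the first point
  have hqd : ∀ i, Dg lam 4 (qc Y M i) := by
    intro i
    fin_cases i
    · exact hY.pow 4
    · exact (hY.pow 3).mul hM
    · exact (hY.pow 2).mul (hM.pow 2)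
  have hq0 : ∀ i, Lf a (qc Y M i * ell x0 ^ 2) = 0 := by
    intro i
    have e : qc Y M i * ell x0 ^ 2 = qc Y M i * B ^ 2 + C τ * (2 * (qc Y M i * B * Z))
        + C τ * (2 * (qc Y M i * B * LA)) + C τ * (C τ * (qc Y M i * Z ^ 2))
        + C τ * (C τ * (2 * (qc Y M i * Z * LA))) + C τ * (C τ * (qc Y M i * LA ^ 2)) := by
      rw [hell0]; ring
    have z1 : Lf a (qc Y M i * B ^ 2) = 0 := Dg.six hiso ((hqd i).mul (hB.pow 2))
    have z2 : Lf a (qc Y M i * B * LA) = 0 := Dg.six hiso (((hqd i).mul hB).mul hLAd)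
    have z3 : Lf a (qc Y M i * LA ^ 2) = 0 := Dg.six hiso ((hqd i).mul (hLAd.pow 2))
    have z4 : Lf a (qc Y M i * Z * LA) =
        ∑ j, α j * Lf a (qc Y M i * ell (lam (Fin.natAdd 4 j)) * Z) := by
      rw [hLA, Finset.mul_sum, map_sum]
      refine Finset.sum_congr rfl fun j _ => ?_
      rw [← Lf_C_mul]
      congr 1; ring
    rw [e]
    have z5 : Lf a (qc Y M i * B * Z) = 0 := h.q3 i
    simp only [map_add, Lf_C_mul, Lf_num2, z1, z2, z3, z4, z5]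
    linear_combination (τ * τ) * hα i
  obtain ⟨x1, hF1, hq1, hc1⟩ := step_N hτ hn h hu2 hF0 hq0
  obtain ⟨x2, hF2, hq2, hc2, hf2⟩ := step_M hτ hn h hu3 hF1 hq1 hc1
  obtain ⟨x3, hF3, hq3, hc3, hf3, hs3⟩ := step_Y hτ hn h hu4 hF2 hq2 hc2 hf2
  exact ⟨x3, hF3, ⟨fun i => hF3.l8 h i, hq3, hc3, hf3, hs3⟩⟩

end Ex

end Pool.Agent.Work.PD6
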