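import Mathlib
import Pool.Agent.Work.MP_b62148_ag.Sextic.ConfigSA

/-!
S10: exact configuration over the field of fractions of `E[[τ]]`.
-/

set_option linter.unusedSectionVars false

namespace Pool.Agent.Work.PD6

open MvPolynomial

variable {k : Type*} [Field k] {σ : Type*} [Fintype σ]

section Maps

variable {R S : Type*} [CommRing R] [Algebra k R] [CommRing S] [Algebra k S]

theorem comb_single (lam : Fin 7 → σ → R) (j : Fin 7) : comb lam (Pi.single j 1) = lam j := by
  funext i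
  unfold comb
  rw [Finset.sum_eq_single j]
  · rw [Pi.single_eq_same, one_mul]
  · intro l _ hl
    rw [Pi.single_eq_of_ne hl, zero_mul]
  · intro h
    exact absurd (Finset.mem_univ j) h

theorem map_comb (g : R →ₐ[k] S) (lam : Fin 7 → σ → R) (s : Fin 7 → R) :
    (fun i => g (comb lam s i)) = comb (fun j i => g (lam j i)) fun j => g (s j) := by
  funext i
  simp only [comb, map_sum, map_mul]

theorem map_ell' (g : R →ₐ[k] S) (v : σ → R) :
    MvPolynomial.map (g : R →+* S) (ell v) = ell fun i => g (v i) := map_ell _ v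

theorem map_lc (g : R →+* S) (Y M N : MvPolynomial σ R) (i : Fin 8) :
    MvPolynomial.map g (lc Y M N i) =
      lc (MvPolynomial.map g Y) (MvPolynomial.map g M) (MvPolynomial.map g N) i := by
  fin_cases i <;> simp [lc]

theorem map_qc (g : R →+* S) (Y M : MvPolynomial σ R) (i : Fin 3) :
    MvPolynomial.map g (qc Y M i) = qc (MvPolynomial.map g Y) (MvPolynomial.map g M) i := by
  fin_cases i <;> simp [qc]

variable {a : (σ →₀ ℕ) → k}

theorem Iso.map {ι : Type*} {lam : ι → σ → R} (h : Iso a lam) (g : R →ₐ[k] S) :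
    Iso a fun j i => g (lam j i) := by
  intro i₁ i₂ i₃ i₄ i₅ i₆
  have h1 := congrArg g (h i₁ i₂ i₃ i₄ i₅ i₆)
  rw [map_Lf, map_zero] at h1
  simpa only [map_mul, map_ell'] using h1

theorem Lead.map {lam : Fin 7 → σ → R} {z : σ → R} (h : Lead a lam z) (g : R →ₐ[k] S) :
    Lead a (fun j i => g (lam j i)) fun i => g (z i) where
  iso := h.iso.map g
  l8 i := by
    have h1 := congrArg g (h.l8 i)
    rw [map_Lf, map_zero] at h1
    simpa only [map_mul, map_lc, map_ell'] using h1
  q3 i := by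
    have h1 := congrArg g (h.q3 i)
    rw [map_Lf, map_zero] at h1
    simpa only [map_mul, map_qc, map_ell'] using h1
  c1 := by
    have h1 := congrArg g h.c1
    rw [map_Lf, map_zero] at h1
    simpa only [map_mul, map_pow, map_ell'] using h1
  f1 := by
    have h1 := congrArg g h.f1
    rw [map_Lf, map_zero] at h1
    simpa only [map_mul, map_pow, map_ell'] using h1
  s1 := by
    have h1 := congrArg g h.s1
    rw [map_Lf, map_zero] at h1
    simpa only [map_mul, map_pow, map_ell'] using h1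

theorem Eqs.map {y m n x : σ → R} (h : Eqs a y m n x) (g : R →ₐ[k] S) :
    Eqs a (fun i => g (y i)) (fun i => g (m i)) (fun i => g (n i)) fun i => g (x i) where
  l8 i := by
    have h1 := congrArg g (h.l8 i)
    rw [map_Lf, map_zero] at h1
    simpa only [map_mul, map_lc, map_ell'] using h1
  q3 i := by
    have h1 := congrArg g (h.q3 i)
    rw [map_Lf, map_zero] at h1
    simpa only [map_mul, map_pow, map_qc, map_ell'] using h1
  c1 := by
    have h1 := congrArg g h.c1
    rw [map_Lf, map_zero] at h1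
    simpa only [map_mul, map_pow, map_ell'] using h1
  f1 := by
    have h1 := congrArg g h.f1
    rw [map_Lf, map_zero] at h1
    simpa only [map_mul, map_pow, map_ell'] using h1
  s1 := by
    have h1 := congrArg g h.s1
    rw [map_Lf, map_zero] at h1
    simpa only [map_mul, map_pow, map_ell'] using h1

/-- surjectivity over a field from a determinant -/
theorem onto_of_det {K : Type*} [Field K] [Algebra k K] (g : R →ₐ[k] K)
    (lam : Fin 7 → σ → R) {p : ℕ} (F : Fin p → MvPolynomial σ R) (cf : Fin p → Fin 7 → R)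
    (hdet : g (Matrix.of fun i j : Fin p => Lf a (F i * ell (comb lam (cf j)))).det ≠ 0)
    (r : Fin p → K) :
    ∃ s : Fin 7 → K, ∀ i, Lf a (MvPolynomial.map (g : R →+* K) (F i) *
      ell (comb (fun j i => g (lam j i)) s)) = r i := by
  set MK : Matrix (Fin p) (Fin p) K :=
    (Matrix.of fun i j : Fin p => Lf a (F i * ell (comb lam (cf j)))).map g with hMK
  have hd : MK.det ≠ 0 := by
    have h1 := RingHom.map_det (g : R →+* K)
      (Matrix.of fun i j : Fin p => Lf a (F i * ell (comb lam (cf j))))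
    have h2 : MK = (g : R →+* K).mapMatrix
      (Matrix.of fun i j : Fin p => Lf a (F i * ell (comb lam (cf j)))) := rfl
    rw [h2, ← h1]
    exact hdet
  set c : Fin p → K := MK⁻¹.mulVec r with hc
  have hMc : MK.mulVec c = r := by
    rw [hc, Matrix.mulVec_mulVec, Matrix.mul_nonsing_inv _ (isUnit_iff_ne_zero.2 hd),
      Matrix.one_mulVec]
  refine ⟨fun l => ∑ j, c j * g (cf j l), fun i => ?_⟩
  have h1 : comb (fun j i => g (lam j i)) (fun l => ∑ j, c j * g (cf j l)) =
      ∑ j, c j • comb (fun j i => g (lam j i)) fun l => g (cf j l) := by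
    funext t
    simp only [comb, Finset.sum_apply, Pi.smul_apply, smul_eq_mul, Finset.sum_mul, Finset.mul_sum]
    rw [Finset.sum_comm]
    refine Finset.sum_congr rfl fun j _ => Finset.sum_congr rfl fun l _ => ?_
    ring
  rw [h1, ell_sum_smul, Finset.mul_sum, map_sum, ← hMc]
  unfold Matrix.mulVec dotProduct
  refine Finset.sum_congr rfl fun j _ => ?_
  have h2 : MvPolynomial.map (g : R →+* K) (F i) * (C (c j) *
      ell (comb (fun j i => g (lam j i)) fun l => g (cf j l))) =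
      C (c j) * MvPolynomial.map (g : R →+* K) (F i * ell (comb lam (cf j))) := by
    rw [map_mul, map_ell', map_comb]
    ring
  rw [h2, Lf_C_mul, ← map_Lf]
  exact mul_comm _ _

end Maps

section Tri

variable {R K E : Type*} [CommRing R] [IsDomain R] [Algebra k R] [Field K] [Algebra k K]
  [Field E] [CharZero E] [Algebra k E] {a : (σ →₀ ℕ) → k}

/-- a determinant with leading part lower triangular -/
theorem det_ne_of_tri (ev : R →+* E) {τ : R} (hτ0 : τ ≠ 0) {p : ℕ}
    (W : Matrix (Fin p) (Fin p) R) (w : Matrix (Fin p) (Fin p) E)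
    (hW : ∀ i j, ∃ u, W i j = τ * u ∧ ev u = w i j) (htri : ∀ i j, i < j → w i j = 0)
    (hdiag : ∀ i, w i i ≠ 0) : W.det ≠ 0 := by
  choose u hu1 hu2 using hW
  have h1 : W = τ • Matrix.of u := by
    ext i j
    rw [hu1 i j]
    rfl
  have h2 : ev (Matrix.of u).det = w.det := by
    rw [RingHom.map_det]
    congr 1
    ext i j
    exact hu2 i j
  have h3 : w.det = ∏ i, w i i := Matrix.det_of_isLowerTriangular w (fun i j hij => htri i j hij)
  rw [h1, Matrix.det_smul]
  refine mul_ne_zero (pow_ne_zero _ hτ0) ?_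
  intro h0
  rw [h0, map_zero] at h2
  rw [← h2] at h3
  exact (Finset.prod_ne_zero_iff.2 fun i _ => hdiag i) h3.symm

variable (gR : E →ₐ[k] R) (ev : R →ₐ[k] E) (gK : R →ₐ[k] K)

theorem Dg.map {lam : Fin 7 → σ → E} {d : ℕ} {p : MvPolynomial σ E} (h : Dg lam d p) :
    Dg (fun j i => gR (lam j i)) d (MvPolynomial.map (gR : E →+* R) p) := by
  unfold Dg at *
  have hS : ∀ q ∈ Sp lam, MvPolynomial.map (gR : E →+* R) q ∈ Sp fun j i => gR (lam j i) := by
    intro q hq
    unfold Sp at hq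
    induction hq using Submodule.span_induction with
    | mem y hy =>
      obtain ⟨j, rfl⟩ := hy
      rw [map_ell']
      exact mem_Sp (fun j i => gR (lam j i)) j
    | zero => rw [map_zero]; exact Submodule.zero_mem _
    | add y y' _ _ h1 h2 => rw [map_add]; exact Submodule.add_mem _ h1 h2
    | smul r y _ h1 =>
      rw [smul_eq_C_mul, map_mul, map_C, ← smul_eq_C_mul]
      exact Submodule.smul_mem _ _ h1
  induction d generalizing p with
  | zero =>
    rw [pow_zero] at h ⊢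
    obtain ⟨r, rfl⟩ := Submodule.mem_one.1 h
    rw [MvPolynomial.algebraMap_eq, map_C, ← MvPolynomial.algebraMap_eq]
    exact Submodule.mem_one.2 ⟨_, rfl⟩
  | succ d ih =>
    rw [pow_succ] at h ⊢
    induction h using Submodule.mul_induction_on' with
    | mem_mul_mem u hu v hv =>
      rw [map_mul]
      exact Submodule.mul_mem_mul (ih hu) (hS v hv)
    | add u _ v _ h1 h2 => rw [map_add]; exact Submodule.add_mem _ h1 h2

variable {lam : Fin 7 → σ → E} {z : σ → E} {τ : R} {x : σ → R}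

/-- one entry -/
theorem Fo.ent (hge : ∀ e, ev (gR e) = e) (hiso : Iso a lam)
    (hx : Fo (fun j i => gR (lam j i)) (fun i => gR (z i)) τ x) {P : MvPolynomial σ E} {d n : ℕ}
    (hP : Dg lam d P) (hdn : d + (n + 1) = 6) :
    ∃ u, Lf a (MvPolynomial.map (gR : E →+* R) P * ell x ^ (n + 1)) = τ * u ∧
      ((ev τ = 0) → ev u = (n + 1 : ℕ) * Lf a (P * ell (lam 3) ^ n * ell z)) := by
  obtain ⟨g, hg⟩ := hx.exp (hiso.map gR) hdn (hP.map gR)
  refine ⟨_, hg, fun h0 => ?_⟩
  have h1 : MvPolynomial.map (gR : E →+* R) P * ell (fun i => gR (lam 3 i)) ^ n *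
      ell (fun i => gR (z i)) =
      MvPolynomial.map (gR : E →+* R) (P * ell (lam 3) ^ n * ell z) := by
    rw [map_mul, map_mul, map_pow, map_ell', map_ell']
  rw [h1, ← map_Lf]
  generalize Lf a (P * ell (lam 3) ^ n * ell z) = w
  rw [map_add, map_mul, map_mul, h0, hge, zero_mul, add_zero, map_natCast]

/-- non-vanishing of one value -/
theorem Fo.ne (hge : ∀ e, ev (gR e) = e) (hτ0 : τ ≠ 0) (hev : ev τ = 0) (hiso : Iso a lam)
    (hx : Fo (fun j i => gR (lam j i)) (fun i => gR (z i)) τ x) {P : MvPolynomial σ E} {d n : ℕ}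
    (hP : Dg lam d P) (hdn : d + (n + 1) = 6)
    (h : Lf a (P * ell (lam 3) ^ n * ell z) ≠ 0) :
    Lf a (MvPolynomial.map (gR : E →+* R) P * ell x ^ (n + 1)) ≠ 0 := by
  obtain ⟨u, hu, hu'⟩ := hx.ent gR ev hge hiso hP hdn
  rw [hu]
  refine mul_ne_zero hτ0 fun h0 => ?_
  have h1 := hu' hev
  rw [h0, map_zero] at h1
  exact (mul_ne_zero (Nat.cast_ne_zero.2 (Nat.succ_ne_zero n)) h) h1.symm

/-- non-vanishing of a determinant -/
theorem Fo.det_ne (hge : ∀ e, ev (gR e) = e) (hτ0 : τ ≠ 0) (hev : ev τ = 0) (hiso : Iso a lam)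
    (hx : Fo (fun j i => gR (lam j i)) (fun i => gR (z i)) τ x) {p : ℕ}
    (P : Fin p → MvPolynomial σ E) (d n : Fin p → ℕ) (hP : ∀ i, Dg lam (d i) (P i))
    (hdn : ∀ i, d i + 1 + (n i + 1) = 6) (cf : Fin p → Fin 7 → E)
    (htri : ∀ i j, i < j → Lf a (P i * ell (comb lam (cf j)) * ell (lam 3) ^ n i * ell z) = 0)
    (hdiag : ∀ i, Lf a (P i * ell (comb lam (cf i)) * ell (lam 3) ^ n i * ell z) ≠ 0) :
    (Matrix.of fun i j : Fin p => Lf a (MvPolynomial.map (gR : E →+* R) (P i) * ell x ^ (n i + 1) *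
      ell (comb (fun j i => gR (lam j i)) fun l => gR (cf j l)))).det ≠ 0 := by
  refine det_ne_of_tri (ev : R →+* E) hτ0 _ (Matrix.of fun i j => ((n i + 1 : ℕ) : E) *
    Lf a (P i * ell (comb lam (cf j)) * ell (lam 3) ^ n i * ell z)) ?_ ?_ ?_
  · intro i j
    have hd : Dg lam (d i + 1) (P i * ell (comb lam (cf j))) :=
      (hP i).mul (Dg.of_mem (comb_mem_Sp lam (cf j)))
    obtain ⟨u, hu, hu'⟩ := hx.ent gR ev hge hiso hd (hdn i)
    refine ⟨u, ?_, hu' hev⟩
    have e : MvPolynomial.map (gR : E →+* R) (P i * ell (comb lam (cf j))) =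
        MvPolynomial.map (gR : E →+* R) (P i) *
          ell (comb (fun j i => gR (lam j i)) fun l => gR (cf j l)) := by
      rw [map_mul, map_ell', map_comb]
    rw [← hu, e]
    refine congrArg (Lf a) ?_
    ring
  · intro i j hij
    change ((n i + 1 : ℕ) : E) * _ = 0
    rw [htri i j hij, mul_zero]
  · intro i
    change ((n i + 1 : ℕ) : E) * _ ≠ 0
    exact mul_ne_zero (Nat.cast_ne_zero.2 (Nat.succ_ne_zero _)) (hdiag i)

/-- surjectivity -/
theorem Fo.onto (hge : ∀ e, ev (gR e) = e) (hτ0 : τ ≠ 0) (hev : ev τ = 0)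
    (hgK : Function.Injective gK) (hiso : Iso a lam)
    (hx : Fo (fun j i => gR (lam j i)) (fun i => gR (z i)) τ x) {p : ℕ}
    (P : Fin p → MvPolynomial σ E) (d n : Fin p → ℕ) (hP : ∀ i, Dg lam (d i) (P i))
    (hdn : ∀ i, d i + 1 + (n i + 1) = 6) (cf : Fin p → Fin 7 → E)
    (htri : ∀ i j, i < j → Lf a (P i * ell (comb lam (cf j)) * ell (lam 3) ^ n i * ell z) = 0)
    (hdiag : ∀ i, Lf a (P i * ell (comb lam (cf i)) * ell (lam 3) ^ n i * ell z) ≠ 0)
    (r : Fin p → K) :
    ∃ s : Fin 7 → K, ∀ i, Lf a (MvPolynomial.map (gK : R →+* K)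
      (MvPolynomial.map (gR : E →+* R) (P i)) * ell (fun i => gK (x i)) ^ (n i + 1) *
      ell (comb (fun j i => gK (gR (lam j i))) s)) = r i := by
  obtain ⟨s, hs⟩ := onto_of_det (a := a) gK (fun j i => gR (lam j i))
    (fun i => MvPolynomial.map (gR : E →+* R) (P i) * ell x ^ (n i + 1))
    (fun j l => gR (cf j l)) (fun h0 => hx.det_ne gR ev hge hτ0 hev hiso P d n hP hdn cf htri hdiag
      (hgK (by rw [map_zero]; exact h0))) r
  refine ⟨s, fun i => ?_⟩
  have e : MvPolynomial.map (gK : R →+* K) (MvPolynomial.map (gR : E →+* R) (P i) *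
      ell x ^ (n i + 1)) = MvPolynomial.map (gK : R →+* K)
      (MvPolynomial.map (gR : E →+* R) (P i)) * ell (fun i => gK (x i)) ^ (n i + 1) := by
    rw [map_mul, map_pow, map_ell']
  rw [← hs i, e]

omit [CharZero E] in
/-- adapted auxiliary points -/
theorem exists_cA (hD3 : (Matrix.of fun i j : Fin 3 => Lf a (qc (ell (lam 0)) (ell (lam 1)) i *
      ell (lam (Fin.natAdd 4 j)) * ell z)).det ≠ 0) :
    ∃ cA : Fin 3 → Fin 7 → E, ∀ i j, Lf a (qc (ell (lam 0)) (ell (lam 1)) i *
      ell (comb lam (cA j)) * ell z) = (1 : Matrix (Fin 3) (Fin 3) E) i j := by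
  obtain ⟨D, hD⟩ : ∃ D : Matrix (Fin 3) (Fin 3) E, D = Matrix.of fun i j : Fin 3 =>
    Lf a (qc (ell (lam 0)) (ell (lam 1)) i * ell (lam (Fin.natAdd 4 j)) * ell z) := ⟨_, rfl⟩
  rw [← hD] at hD3
  have hDD : D * D⁻¹ = 1 := Matrix.mul_nonsing_inv _ (isUnit_iff_ne_zero.2 hD3)
  obtain ⟨cA, hcA⟩ : ∃ cA : Fin 3 → Fin 7 → E, cA = fun j l =>
    ∑ m, D⁻¹ m j * (Pi.single (Fin.natAdd 4 m) 1 : Fin 7 → E) l := ⟨_, rfl⟩
  have hcomb : ∀ j, comb lam (cA j) = ∑ m, D⁻¹ m j • lam (Fin.natAdd 4 m) := by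
    intro j
    funext t
    have h1 : ∀ m : Fin 3, lam (Fin.natAdd 4 m) t =
        ∑ l, (Pi.single (Fin.natAdd 4 m) 1 : Fin 7 → E) l * lam l t := fun m =>
      (congrFun (comb_single lam (Fin.natAdd 4 m)) t).symm
    simp only [comb, hcA, Finset.sum_apply, Pi.smul_apply, smul_eq_mul]
    simp only [h1, Finset.sum_mul, Finset.mul_sum, mul_assoc]
    exact Finset.sum_comm
  refine ⟨cA, fun i j => ?_⟩
  rw [hcomb, ell_sum_smul, Finset.mul_sum, Finset.sum_mul, map_sum, ← hDD, Matrix.mul_apply]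
  refine Finset.sum_congr rfl fun m _ => ?_
  have e : qc (ell (lam 0)) (ell (lam 1)) i * (C (D⁻¹ m j) * ell (lam (Fin.natAdd 4 m))) *
      ell z = C (D⁻¹ m j) * (qc (ell (lam 0)) (ell (lam 1)) i * ell (lam (Fin.natAdd 4 m)) *
        ell z) := by ring
  rw [e, Lf_C_mul, mul_comm, hD]
  rfl

/-- the point -/
theorem exists_x' (hτ : ∀ u g : R, IsUnit u → IsUnit (u + τ * g)) (h : Lead a lam z)
    (hD3 : (Matrix.of fun i j : Fin 3 => Lf a (qc (ell (lam 0)) (ell (lam 1)) i *
      ell (lam (Fin.natAdd 4 j)) * ell z)).det ≠ 0)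
    (hU2 : Lf a (ell (lam 0) ^ 3 * ell (lam 2) * ell (lam 3) * ell z) ≠ 0)
    (hU3 : Lf a (ell (lam 0) ^ 2 * ell (lam 1) * ell (lam 3) ^ 2 * ell z) ≠ 0)
    (hU4 : Lf a (ell (lam 0) * ell (lam 3) ^ 4 * ell z) ≠ 0) :
    ∃ x : σ → R, Fo (fun j i => gR (lam j i)) (fun i => gR (z i)) τ x ∧
      Eqs a (fun i => gR (lam 0 i)) (fun i => gR (lam 1 i)) (fun i => gR (lam 2 i)) x := by
  have hun : ∀ e : E, e ≠ 0 → IsUnit (gR e) := fun e he =>
    (isUnit_iff_ne_zero.2 he).map (gR : E →+* R)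
  have hnR : ∀ n : ℕ, n ≠ 0 → IsUnit (n : R) := by
    intro n hn
    have h1 := hun n (Nat.cast_ne_zero.2 hn)
    rwa [map_natCast] at h1
  obtain ⟨D, hD⟩ : ∃ D : Matrix (Fin 3) (Fin 3) E, D = Matrix.of fun i j : Fin 3 =>
    Lf a (qc (ell (lam 0)) (ell (lam 1)) i * ell (lam (Fin.natAdd 4 j)) * ell z) := ⟨_, rfl⟩
  rw [← hD] at hD3
  have hDD : D * D⁻¹ = 1 := Matrix.mul_nonsing_inv _ (isUnit_iff_ne_zero.2 hD3)
  obtain ⟨q, hq⟩ : ∃ q : Fin 3 → E, q = fun i =>
    Lf a (qc (ell (lam 0)) (ell (lam 1)) i * ell z ^ 2) := ⟨_, rfl⟩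
  obtain ⟨αE, hαE⟩ : ∃ αE : Fin 3 → E, αE = D⁻¹.mulVec (fun i => -(q i) / 2) := ⟨_, rfl⟩
  have hα0 : ∀ i, q i + 2 * ∑ j, αE j * D i j = 0 := by
    intro i
    have h1 : D.mulVec αE = fun i => -(q i) / 2 := by
      rw [hαE, Matrix.mulVec_mulVec, hDD, Matrix.one_mulVec]
    have h2 : ∑ j, αE j * D i j = -(q i) / 2 := by
      rw [← congrFun h1 i]
      unfold Matrix.mulVec dotProduct
      exact Finset.sum_congr rfl fun j _ => mul_comm _ _
    rw [h2]
    ring
  have hm1 : ∀ v : σ → E, MvPolynomial.map (gR : E →+* R) (ell v) = ell fun i => gR (v i) :=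
    fun v => map_ell' gR v
  have hα : ∀ i, Lf a (qc (ell fun i => gR (lam 0 i)) (ell fun i => gR (lam 1 i)) i *
      ell (fun i => gR (z i)) ^ 2) + 2 * ∑ j, gR (αE j) *
      Lf a (qc (ell fun i => gR (lam 0 i)) (ell fun i => gR (lam 1 i)) i *
        ell (fun i => gR (lam (Fin.natAdd 4 j) i)) * ell fun i => gR (z i)) = 0 := by
    intro i
    have e1 : qc (ell fun i => gR (lam 0 i)) (ell fun i => gR (lam 1 i)) i *
        ell (fun i => gR (z i)) ^ 2 = MvPolynomial.map (gR : E →+* R)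
          (qc (ell (lam 0)) (ell (lam 1)) i * ell z ^ 2) := by
      rw [map_mul, map_pow, map_qc, hm1, hm1, hm1]
    have e2 : ∀ j : Fin 3, qc (ell fun i => gR (lam 0 i)) (ell fun i => gR (lam 1 i)) i *
        ell (fun i => gR (lam (Fin.natAdd 4 j) i)) * ell (fun i => gR (z i)) =
          MvPolynomial.map (gR : E →+* R)
          (qc (ell (lam 0)) (ell (lam 1)) i * ell (lam (Fin.natAdd 4 j)) * ell z) := by
      intro j
      rw [map_mul, map_mul, map_qc, hm1, hm1, hm1, hm1]
    have h1 := congrArg gR (hα0 i)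
    rw [map_zero, map_add, map_mul, map_sum, map_ofNat] at h1
    rw [e1, ← map_Lf]
    simp only [e2, ← map_Lf]
    rw [← h1, hq, hD]
    simp only [map_mul, Matrix.of_apply]
  have hLR := h.map gR
  have hv : ∀ P : MvPolynomial σ E, Lf a P ≠ 0 →
      IsUnit (Lf a (MvPolynomial.map (gR : E →+* R) P)) := by
    intro P hP
    rw [← map_Lf]
    exact hun _ hP
  have hu2 := hv _ hU2
  have hu3 := hv _ hU3
  have hu4 := hv _ hU4
  simp only [map_mul, map_pow, hm1] at hu2 hu3 hu4
  exact exists_x hτ hnR hLR (fun j => gR (αE j)) hα hu2 hu3 hu4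

omit [IsDomain R] [CharZero E] in
theorem hm2 (v : σ → E) :
    MvPolynomial.map (gK : R →+* K) (MvPolynomial.map (gR : E →+* R) (ell v)) =
      ell fun i => gK (gR (v i)) := by
  rw [map_ell', map_ell']

omit [Fintype σ] [CharZero E] in
theorem Lf_z {p q : MvPolynomial σ E} (hq : Lf a q = 0) (e : p = q) : Lf a p = 0 := by
  rw [e]; exact hq

omit [Fintype σ] [CharZero E] in
theorem Lf_nz {p q : MvPolynomial σ E} (hq : Lf a q ≠ 0) (e : p = q) : Lf a p ≠ 0 := by
  rw [e]; exact hq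

/-- the entries of the triangular matrices -/
structure Ent (a : (σ →₀ ℕ) → k) (lam : Fin 7 → σ → E) (z : σ → E) (cA : Fin 3 → Fin 7 → E) :
    Prop where
  ko : ∀ i j : Fin 3, i ≠ j → Lf a (qc (ell (lam 0)) (ell (lam 1)) i *
      ell (comb lam (cA j)) * ell (lam 3) ^ 0 * ell z) = 0
  kd : ∀ i : Fin 3, Lf a (qc (ell (lam 0)) (ell (lam 1)) i *
      ell (comb lam (cA i)) * ell (lam 3) ^ 0 * ell z) ≠ 0
  g42 : Lf a (ell (lam 0) ^ 4 * ell (comb lam (Pi.single 2 1)) * ell (lam 3) ^ 0 * ell z) = 0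
  g41 : Lf a (ell (lam 0) ^ 4 * ell (comb lam (Pi.single 1 1)) * ell (lam 3) ^ 0 * ell z) = 0
  g43 : Lf a (ell (lam 0) ^ 4 * ell (comb lam (Pi.single 3 1)) * ell (lam 3) ^ 0 * ell z) = 0
  g31 : Lf a (ell (lam 0) ^ 3 * ell (comb lam (Pi.single 1 1)) * ell (lam 3) ^ 1 * ell z) = 0
  g33 : Lf a (ell (lam 0) ^ 3 * ell (comb lam (Pi.single 3 1)) * ell (lam 3) ^ 1 * ell z) = 0
  g23 : Lf a (ell (lam 0) ^ 2 * ell (comb lam (Pi.single 3 1)) * ell (lam 3) ^ 2 * ell z) = 0
  g312 : Lf a (ell (lam 0) ^ 3 * ell (lam 1) * ell (comb lam (Pi.single 2 1)) *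
      ell (lam 3) ^ 0 * ell z) = 0
  g313 : Lf a (ell (lam 0) ^ 3 * ell (lam 1) * ell (comb lam (Pi.single 3 1)) *
      ell (lam 3) ^ 0 * ell z) = 0
  g222 : Lf a (ell (lam 0) ^ 2 * ell (lam 1) ^ 2 * ell (comb lam (Pi.single 2 1)) *
      ell (lam 3) ^ 0 * ell z) = 0
  g223 : Lf a (ell (lam 0) ^ 2 * ell (lam 1) ^ 2 * ell (comb lam (Pi.single 3 1)) *
      ell (lam 3) ^ 0 * ell z) = 0
  d2 : Lf a (ell (lam 0) ^ 3 * ell (comb lam (Pi.single 2 1)) * ell (lam 3) ^ 1 * ell z) ≠ 0
  d2' : Lf a (ell (lam 0) ^ 3 * ell (lam 2) * ell (comb lam (Pi.single 3 1)) *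
      ell (lam 3) ^ 0 * ell z) ≠ 0
  d3 : Lf a (ell (lam 0) ^ 2 * ell (comb lam (Pi.single 1 1)) * ell (lam 3) ^ 2 * ell z) ≠ 0
  d3' : Lf a (ell (lam 0) ^ 2 * ell (lam 1) * ell (comb lam (Pi.single 3 1)) *
      ell (lam 3) ^ 1 * ell z) ≠ 0
  d4 : Lf a (ell (lam 0) * ell (comb lam (Pi.single 3 1)) * ell (lam 3) ^ 3 * ell z) ≠ 0

omit [CharZero E] in
theorem ent_of_lead {cA : Fin 3 → Fin 7 → E} (h : Lead a lam z)
    (key : ∀ i j, Lf a (qc (ell (lam 0)) (ell (lam 1)) i *
      ell (comb lam (cA j)) * ell z) = (1 : Matrix (Fin 3) (Fin 3) E) i j)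
    (hU2 : Lf a (ell (lam 0) ^ 3 * ell (lam 2) * ell (lam 3) * ell z) ≠ 0)
    (hU3 : Lf a (ell (lam 0) ^ 2 * ell (lam 1) * ell (lam 3) ^ 2 * ell z) ≠ 0)
    (hU4 : Lf a (ell (lam 0) * ell (lam 3) ^ 4 * ell z) ≠ 0) : Ent a lam z cA where
  ko := by
    intro i j hij
    rw [pow_zero, mul_one, key, Matrix.one_apply_ne hij]
  kd := by
    intro i
    rw [pow_zero, mul_one, key, Matrix.one_apply_eq]
    exact one_ne_zero
  g42 := Lf_z (h.l8 2) (by rw [comb_single, pow_zero, mul_one]; rfl)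
  g41 := Lf_z (h.l8 1) (by rw [comb_single, pow_zero, mul_one]; rfl)
  g43 := Lf_z (h.q3 0) (by rw [comb_single, pow_zero, mul_one]; rfl)
  g31 := Lf_z (h.q3 1) (by rw [comb_single, pow_one]; rfl)
  g33 := Lf_z h.c1 (by rw [comb_single]; ring)
  g23 := Lf_z h.f1 (by rw [comb_single]; ring)
  g312 := Lf_z (h.l8 4) (by rw [comb_single, pow_zero, mul_one]; rfl)
  g313 := Lf_z (h.q3 1) (by rw [comb_single, pow_zero, mul_one]; rfl)
  g222 := Lf_z (h.l8 7) (by rw [comb_single, pow_zero, mul_one]; rfl)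
  g223 := Lf_z (h.q3 2) (by rw [comb_single, pow_zero, mul_one]; rfl)
  d2 := Lf_nz hU2 (by rw [comb_single, pow_one])
  d2' := Lf_nz hU2 (by rw [comb_single, pow_zero, mul_one])
  d3 := Lf_nz hU3 (by rw [comb_single])
  d3' := Lf_nz hU3 (by rw [comb_single]; ring)
  d4 := Lf_nz hU4 (by rw [comb_single]; ring)

variable {cA : Fin 3 → Fin 7 → E}

/-- first surjectivity -/
theorem cfg_t1 (hge : ∀ e, ev (gR e) = e) (hτ0 : τ ≠ 0) (hev : ev τ = 0)
    (hgK : Function.Injective gK) (hiso : Iso a lam) (he : Ent a lam z cA)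
    (hx : Fo (fun j i => gR (lam j i)) (fun i => gR (z i)) τ x) (r : Fin 4 → K) :
    ∃ s : Fin 7 → K, ∀ i, Lf a ((![ell (fun i => gK (gR (lam 0 i))) ^ 4 * ell (fun i => gK (x i)),
      ell (fun i => gK (gR (lam 0 i))) ^ 3 * ell (fun i => gK (x i)) ^ 2,
      ell (fun i => gK (gR (lam 0 i))) ^ 2 * ell (fun i => gK (x i)) ^ 3,
      ell (fun i => gK (gR (lam 0 i))) * ell (fun i => gK (x i)) ^ 4] :
      Fin 4 → MvPolynomial σ K) i * ell (comb (fun j i => gK (gR (lam j i))) s)) = r i := by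
  have hY := Dg.mk lam 0
  obtain ⟨s, hs⟩ := hx.onto gR ev gK hge hτ0 hev hgK hiso
    ![ell (lam 0) ^ 4, ell (lam 0) ^ 3, ell (lam 0) ^ 2, ell (lam 0)] ![4, 3, 2, 1] ![0, 1, 2, 3]
    (by
      intro i
      fin_cases i
      · exact hY.pow 4
      · exact hY.pow 3
      · exact hY.pow 2
      · exact hY)
    (by decide) ![cA 0, Pi.single 2 1, Pi.single 1 1, Pi.single 3 1]
    (by
      intro i j hij
      fin_cases i <;> fin_cases j <;> first | exact absurd hij (by decide) | skip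
      · exact he.g42
      · exact he.g41
      · exact he.g43
      · exact he.g31
      · exact he.g33
      · exact he.g23)
    (by
      intro i
      fin_cases i
      · exact he.kd 0
      · exact he.d2
      · exact he.d3
      · exact he.d4) r
  refine ⟨s, fun i => ?_⟩
  rw [← hs i]
  refine congrArg (Lf a) (congrArg (· * ell (comb (fun j i => gK (gR (lam j i))) s)) ?_)
  fin_cases i
  · exact congrArg₂ (· * ·) (by rw [← hm2, ← map_pow, ← map_pow]; rfl) (pow_one _).symm
  · exact congrArg₂ (· * ·) (by rw [← hm2, ← map_pow, ← map_pow]; rfl) rfl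
  · exact congrArg₂ (· * ·) (by rw [← hm2, ← map_pow, ← map_pow]; rfl) rfl
  · exact congrArg₂ (· * ·) (by rw [← hm2]; rfl) rfl

/-- second surjectivity -/
theorem cfg_t2 (hge : ∀ e, ev (gR e) = e) (hτ0 : τ ≠ 0) (hev : ev τ = 0)
    (hgK : Function.Injective gK) (hiso : Iso a lam) (he : Ent a lam z cA)
    (hx : Fo (fun j i => gR (lam j i)) (fun i => gR (z i)) τ x) (r : Fin 5 → K) :
    ∃ s : Fin 7 → K, ∀ i, Lf a ((![ell (fun i => gK (gR (lam 0 i))) ^ 4 * ell (fun i => gK (x i)),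
      ell (fun i => gK (gR (lam 0 i))) ^ 3 * ell (fun i => gK (gR (lam 1 i))) *
        ell (fun i => gK (x i)),
      ell (fun i => gK (gR (lam 0 i))) ^ 2 * ell (fun i => gK (gR (lam 1 i))) ^ 2 *
        ell (fun i => gK (x i)),
      ell (fun i => gK (gR (lam 0 i))) ^ 3 * ell (fun i => gK (x i)) ^ 2,
      ell (fun i => gK (gR (lam 0 i))) ^ 2 * ell (fun i => gK (gR (lam 1 i))) *
        ell (fun i => gK (x i)) ^ 2] :
      Fin 5 → MvPolynomial σ K) i * ell (comb (fun j i => gK (gR (lam j i))) s)) = r i := by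
  have hY := Dg.mk lam 0
  have hM := Dg.mk lam 1
  obtain ⟨s, hs⟩ := hx.onto gR ev gK hge hτ0 hev hgK hiso
    ![ell (lam 0) ^ 4, ell (lam 0) ^ 3 * ell (lam 1), ell (lam 0) ^ 2 * ell (lam 1) ^ 2,
      ell (lam 0) ^ 3, ell (lam 0) ^ 2 * ell (lam 1)] ![4, 4, 4, 3, 3] ![0, 0, 0, 1, 1]
    (by
      intro i
      fin_cases i
      · exact hY.pow 4
      · exact (hY.pow 3).mul hM
      · exact (hY.pow 2).mul (hM.pow 2)
      · exact hY.pow 3
      · exact (hY.pow 2).mul hM)
    (by decide) ![cA 0, cA 1, cA 2, Pi.single 2 1, Pi.single 3 1]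
    (by
      intro i j hij
      fin_cases i <;> fin_cases j <;> first | exact absurd hij (by decide) | skip
      · exact he.ko 0 1 (by decide)
      · exact he.ko 0 2 (by decide)
      · exact he.g42
      · exact he.g43
      · exact he.ko 1 2 (by decide)
      · exact he.g312
      · exact he.g313
      · exact he.g222
      · exact he.g223
      · exact he.g33)
    (by
      intro i
      fin_cases i
      · exact he.kd 0
      · exact he.kd 1
      · exact he.kd 2
      · exact he.d2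
      · exact he.d3') r
  refine ⟨s, fun i => ?_⟩
  rw [← hs i]
  refine congrArg (Lf a) (congrArg (· * ell (comb (fun j i => gK (gR (lam j i))) s)) ?_)
  fin_cases i
  · exact congrArg₂ (· * ·) (by rw [← hm2, ← map_pow, ← map_pow]; rfl) (pow_one _).symm
  · exact congrArg₂ (· * ·) (by rw [← hm2, ← hm2]; simp only [← map_pow, ← map_mul]; rfl)
      (pow_one _).symm
  · exact congrArg₂ (· * ·) (by rw [← hm2, ← hm2]; simp only [← map_pow, ← map_mul]; rfl)
      (pow_one _).symm
  · exact congrArg₂ (· * ·) (by rw [← hm2, ← map_pow, ← map_pow]; rfl) rfl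
  · exact congrArg₂ (· * ·) (by rw [← hm2, ← hm2]; simp only [← map_pow, ← map_mul]; rfl) rfl

/-- third surjectivity -/
theorem cfg_t3 (hge : ∀ e, ev (gR e) = e) (hτ0 : τ ≠ 0) (hev : ev τ = 0)
    (hgK : Function.Injective gK) (hiso : Iso a lam) (he : Ent a lam z cA)
    (hx : Fo (fun j i => gR (lam j i)) (fun i => gR (z i)) τ x) (r : Fin 4 → K) :
    ∃ s : Fin 7 → K, ∀ i, Lf a ((![ell (fun i => gK (gR (lam 0 i))) ^ 4 * ell (fun i => gK (x i)),
      ell (fun i => gK (gR (lam 0 i))) ^ 3 * ell (fun i => gK (gR (lam 1 i))) *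
        ell (fun i => gK (x i)),
      ell (fun i => gK (gR (lam 0 i))) ^ 2 * ell (fun i => gK (gR (lam 1 i))) ^ 2 *
        ell (fun i => gK (x i)),
      ell (fun i => gK (gR (lam 0 i))) ^ 3 * ell (fun i => gK (gR (lam 2 i))) *
        ell (fun i => gK (x i))] :
      Fin 4 → MvPolynomial σ K) i * ell (comb (fun j i => gK (gR (lam j i))) s)) = r i := by
  have hY := Dg.mk lam 0
  have hM := Dg.mk lam 1
  have hN := Dg.mk lam 2
  obtain ⟨s, hs⟩ := hx.onto gR ev gK hge hτ0 hev hgK hiso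
    ![ell (lam 0) ^ 4, ell (lam 0) ^ 3 * ell (lam 1), ell (lam 0) ^ 2 * ell (lam 1) ^ 2,
      ell (lam 0) ^ 3 * ell (lam 2)] (fun _ => 4) (fun _ => 0)
    (by
      intro i
      fin_cases i
      · exact hY.pow 4
      · exact (hY.pow 3).mul hM
      · exact (hY.pow 2).mul (hM.pow 2)
      · exact (hY.pow 3).mul hN)
    (fun _ => rfl) ![cA 0, cA 1, cA 2, Pi.single 3 1]
    (by
      intro i j hij
      fin_cases i <;> fin_cases j <;> first | exact absurd hij (by decide) | skip
      · exact he.ko 0 1 (by decide)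
      · exact he.ko 0 2 (by decide)
      · exact he.g43
      · exact he.ko 1 2 (by decide)
      · exact he.g313
      · exact he.g223)
    (by
      intro i
      fin_cases i
      · exact he.kd 0
      · exact he.kd 1
      · exact he.kd 2
      · exact he.d2') r
  refine ⟨s, fun i => ?_⟩
  rw [← hs i]
  refine congrArg (Lf a) (congrArg (· * ell (comb (fun j i => gK (gR (lam j i))) s)) ?_)
  fin_cases i
  · exact congrArg₂ (· * ·) (by rw [← hm2, ← map_pow, ← map_pow]; rfl) (pow_one _).symm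
  · exact congrArg₂ (· * ·) (by rw [← hm2, ← hm2]; simp only [← map_pow, ← map_mul]; rfl)
      (pow_one _).symm
  · exact congrArg₂ (· * ·) (by rw [← hm2, ← hm2]; simp only [← map_pow, ← map_mul]; rfl)
      (pow_one _).symm
  · exact congrArg₂ (· * ·) (by rw [← hm2, ← hm2]; simp only [← map_pow, ← map_mul]; rfl)
      (pow_one _).symm

theorem config_aux (hge : ∀ e, ev (gR e) = e) (hτ0 : τ ≠ 0) (hev : ev τ = 0)
    (hgK : Function.Injective gK) (hτ : ∀ u g : R, IsUnit u → IsUnit (u + τ * g))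
    (zz : Fin 8 → σ → E) (h : Lead a lam z) (hne : lprod a lam z zz ≠ 0) :
    Nonempty (Config a fun j i => gK (gR (lam j i))) := by
  have hiso := h.iso
  have hD8 : (Matrix.of fun i j : Fin 8 => Lf a (lc (ell (lam 0)) (ell (lam 1)) (ell (lam 2)) i *
      ell (zz j))).det ≠ 0 := fun h0 => hne (by unfold lprod; rw [h0, mul_zero])
  have hD3 : (Matrix.of fun i j : Fin 3 => Lf a (qc (ell (lam 0)) (ell (lam 1)) i *
      ell (lam (Fin.natAdd 4 j)) * ell z)).det ≠ 0 := fun h0 => hne (by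
    unfold lprod; rw [h0]; ring)
  have hU4 : Lf a (ell (lam 0) * ell (lam 3) ^ 4 * ell z) ≠ 0 := fun h0 => hne (by
    unfold lprod; rw [h0]; ring)
  have hU3 : Lf a (ell (lam 0) ^ 2 * ell (lam 1) * ell (lam 3) ^ 2 * ell z) ≠ 0 := fun h0 => hne (by
    unfold lprod; rw [h0]; ring)
  have hU2 : Lf a (ell (lam 0) ^ 3 * ell (lam 2) * ell (lam 3) * ell z) ≠ 0 := fun h0 => hne (by
    unfold lprod; rw [h0]; ring)
  obtain ⟨cA, key⟩ := exists_cA hD3
  have he := ent_of_lead h key hU2 hU3 hU4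
  obtain ⟨x, hx, hE⟩ := exists_x' gR hτ h hD3 hU2 hU3 hU4
  have hY := Dg.mk lam 0
  have hM := Dg.mk lam 1
  have hN := Dg.mk lam 2
  refine ⟨{ sy := Pi.single 0 1, sm := Pi.single 1 1, sn := Pi.single 2 1,
            sA := fun j l => gK (gR (cA j l)), z := fun j i => gK (gR (zz j i)),
            x := fun i => gK (x i), eqs := ?_, n1 := ?_, n2 := ?_, n3 := ?_, n4 := ?_, n5 := ?_,
            t1 := ?_, t2 := ?_, t3 := ?_ }⟩
  · rw [comb_single, comb_single, comb_single]
    exact hE.map gK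
  · rw [comb_single, comb_single]
    have h1 := hx.det_ne gR ev hge hτ0 hev hiso (qc (ell (lam 0)) (ell (lam 1))) (fun _ => 4)
      (fun _ => 0) (qc_Dg lam) (fun _ => rfl) cA (fun i j hij => he.ko i j hij.ne) he.kd
    intro h0
    apply h1
    apply hgK
    rw [map_zero, ← h0]
    change (gK : R →+* K) _ = _
    rw [RingHom.map_det]
    congr 1
    ext i j
    change gK (Lf a _) = Lf a _
    rw [map_Lf]
    refine congrArg (Lf a) ?_
    rw [map_mul, map_mul, map_pow, zero_add, pow_one, map_qc, map_qc, hm2, hm2, map_ell',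
      map_ell', map_comb]
  · rw [comb_single, comb_single]
    have h1 := hx.ne gR ev hge hτ0 hev hiso (n := 1) ((hY.pow 3).mul hN) rfl (by
      rwa [pow_one])
    intro h0
    apply h1
    apply hgK
    rw [map_zero, ← h0, map_Lf]
    simp only [map_mul, map_pow, map_ell']
  · rw [comb_single, comb_single]
    have h1 := hx.ne gR ev hge hτ0 hev hiso (n := 2) ((hY.pow 2).mul hM) rfl hU3
    intro h0
    apply h1
    apply hgK
    rw [map_zero, ← h0, map_Lf]
    simp only [map_mul, map_pow, map_ell']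
  · rw [comb_single]
    have h1 := hx.ne gR ev hge hτ0 hev hiso (n := 4) hY rfl hU4
    intro h0
    apply h1
    apply hgK
    rw [map_zero, ← h0, map_Lf]
    simp only [map_mul, map_pow, map_ell']
  · rw [comb_single, comb_single, comb_single]
    intro h0
    apply hD8
    have hinj : Function.Injective fun e : E => gK (gR e) :=
      (hgK.comp (gR : E →+* R).injective)
    apply hinj
    change gK (gR _) = gK (gR 0)
    rw [map_zero, map_zero, ← h0]
    change (gK : R →+* K) ((gR : E →+* R) _) = _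
    rw [RingHom.map_det, RingHom.map_det]
    congr 1
    ext i j
    change gK (gR (Lf a _)) = Lf a _
    rw [map_Lf, map_Lf]
    refine congrArg (Lf a) ?_
    rw [map_mul, map_mul, map_lc, map_lc, hm2, hm2, hm2, hm2]
  · rw [comb_single]
    exact cfg_t1 gR ev gK hge hτ0 hev hgK hiso he hx
  · rw [comb_single, comb_single]
    exact cfg_t2 gR ev gK hge hτ0 hev hgK hiso he hx
  · rw [comb_single, comb_single, comb_single]
    exact cfg_t3 gR ev gK hge hτ0 hev hgK hiso he hx

end Tri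

/-- the constant coefficient, as a homomorphism over `k` -/
noncomputable def evk (E : Type*) [Field E] [Algebra k E] : PowerSeries E →ₐ[k] E where
  __ := (PowerSeries.constantCoeff : PowerSeries E →+* E)
  commutes' r := by
    change PowerSeries.constantCoeff (algebraMap k (PowerSeries E) r) = _
    rw [PowerSeries.algebraMap_apply, PowerSeries.constantCoeff_C]

theorem evk_apply {E : Type*} [Field E] [Algebra k E] (f : PowerSeries E) :
    evk (k := k) E f = PowerSeries.constantCoeff f := rfl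

theorem config_of_lead {E : Type*} [Field E] [CharZero E] [Algebra k E] (a : (σ →₀ ℕ) → k)
    (lam : Fin 7 → σ → E) (z : σ → E) (zz : Fin 8 → σ → E) (h : Lead a lam z)
    (hne : lprod a lam z zz ≠ 0) :
    Nonempty (Config a fun j i => algebraMap E (FractionRing (PowerSeries E)) (lam j i)) := by
  have h1 := config_aux (a := a) (IsScalarTower.toAlgHom k E (PowerSeries E)) (evk E)
    (IsScalarTower.toAlgHom k (PowerSeries E) (FractionRing (PowerSeries E)))
    (τ := PowerSeries.X) (fun e => by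
      change PowerSeries.constantCoeff (algebraMap E (PowerSeries E) e) = e
      rw [PowerSeries.algebraMap_apply, PowerSeries.constantCoeff_C]
      rfl) PowerSeries.X_ne_zero (by rw [evk_apply, PowerSeries.constantCoeff_X])
    (IsFractionRing.injective (PowerSeries E) (FractionRing (PowerSeries E)))
    (fun u g hu => by
      rw [PowerSeries.isUnit_iff_constantCoeff] at hu ⊢
      rwa [map_add, map_mul, PowerSeries.constantCoeff_X, zero_mul, add_zero]) zz h hne
  have h2 : (fun (j : Fin 7) (i : σ) => algebraMap E (FractionRing (PowerSeries E)) (lam j i)) =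
      fun j i => (IsScalarTower.toAlgHom k (PowerSeries E) (FractionRing (PowerSeries E)))
        ((IsScalarTower.toAlgHom k E (PowerSeries E)) (lam j i)) := by
    funext j i
    rw [IsScalarTower.coe_toAlgHom', IsScalarTower.coe_toAlgHom', ← IsScalarTower.algebraMap_apply]
  rw [h2]
  exact h1

end Pool.Agent.Work.PD6
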