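import Mathlib
import Pool.Agent.Work.MP_b62148_ag.Sextic.Flag
import Pool.Agent.Work.MP_b62148_ag.Quintic.GenQ

/-!
S2: the coefficientwise derivation of the polynomial ring.
-/

namespace Pool.Agent.Work.PD6

open MvPolynomial

variable {k : Type*} [Field k] {σ : Type*} {Ω : Type*} [Field Ω] [Algebra k Ω]

theorem exists_cD (D : Derivation k Ω Ω) :
    ∃ D' : Derivation k (MvPolynomial σ Ω) (MvPolynomial σ Ω),
      (∀ x, D' (C x) = C (D x)) ∧ ∀ i, D' (X i) = 0 := by
  obtain ⟨D', h1, h2⟩ := PD5.A4.exists_mv (ι := σ) (K := k) (A := Ω) (B := MvPolynomial σ Ω)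
    ((Algebra.linearMap Ω (MvPolynomial σ Ω)).compDer D) (fun _ => 0)
  exact ⟨D', fun x => h1 x, h2⟩

/-- the coefficientwise derivation -/
noncomputable def cD (D : Derivation k Ω Ω) : Derivation k (MvPolynomial σ Ω) (MvPolynomial σ Ω) :=
  (exists_cD D).choose

@[simp] theorem cD_C (D : Derivation k Ω Ω) (x : Ω) :
    cD D (C x : MvPolynomial σ Ω) = C (D x) := (exists_cD D).choose_spec.1 x

@[simp] theorem cD_X (D : Derivation k Ω Ω) (i : σ) :
    cD D (X i : MvPolynomial σ Ω) = 0 := (exists_cD D).choose_spec.2 i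

@[simp] theorem cD_ell [Fintype σ] (D : Derivation k Ω Ω) (v : σ → Ω) :
    cD D (ell v) = ell fun i => D (v i) := by
  simp only [ell, map_sum, Derivation.leibniz, cD_C, cD_X, smul_eq_mul, mul_zero, zero_add]
  exact Finset.sum_congr rfl fun i _ => mul_comm _ _

theorem cD_monomial (D : Derivation k Ω Ω) (α : σ →₀ ℕ) (x : Ω) :
    cD D (monomial α x : MvPolynomial σ Ω) = monomial α (D x) := by
  have h0 : cD D (monomial α (1 : Ω) : MvPolynomial σ Ω) = 0 := by
    induction α using Finsupp.induction with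
    | zero =>
      have : (monomial (0 : σ →₀ ℕ) (1 : Ω)) = C 1 := rfl
      rw [this, cD_C]; simp
    | single_add i n f _ _ ih =>
      have h1 : (monomial (Finsupp.single i n + f) (1 : Ω) : MvPolynomial σ Ω) =
          X i ^ n * monomial f 1 := by
        rw [X_pow_eq_monomial, monomial_mul, one_mul]
      rw [h1, Derivation.leibniz, ih, Derivation.leibniz_pow, cD_X]
      simp
  have h2 : (monomial α x : MvPolynomial σ Ω) = C x * monomial α 1 := by
    rw [C_mul_monomial, mul_one]
  rw [h2, Derivation.leibniz, h0, cD_C, smul_zero, zero_add, smul_eq_mul, mul_comm, C_mul_monomial,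
    mul_one]

theorem D_Lf (D : Derivation k Ω Ω) (a : (σ →₀ ℕ) → k) (p : MvPolynomial σ Ω) :
    D (Lf a p) = Lf a (cD D p) := by
  induction p using MvPolynomial.induction_on' with
  | monomial α r =>
    rw [cD_monomial, Lf_monomial, Lf_monomial, Derivation.leibniz, Derivation.map_algebraMap]
    simp [mul_comm]
  | add p q hp hq => rw [map_add, map_add, map_add, map_add, hp, hq]

end Pool.Agent.Work.PD6
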