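import Mathlib

/-!
S3: the eigenvector lemma.  A family of functionals which is stable under the shift modulo the first
ones and has no relation given by a point of the rational normal scroll is independent.
-/

namespace Pool.Agent.Work.PD6

namespace Pencil

variable {Ω V : Type*} [Field Ω] [AddCommGroup V] [Module Ω V] {p : ℕ}

/-- coefficient families -/
abbrev PW (Ω : Type*) {p : ℕ} (d : Fin p → ℕ) := (i : Fin p) → Fin (d i + 1) → Ω

/-- the functional of a coefficient family -/
def PPhi (d : Fin p → ℕ) (A : Fin p → ℕ → Module.Dual Ω V) : PW Ω d →ₗ[Ω] Module.Dual Ω V where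
  toFun κ := ∑ i, ∑ j : Fin (d i + 1), κ i j • A i j
  map_add' := by
    intro a b
    simp only [Pi.add_apply, add_smul, Finset.sum_add_distrib]
  map_smul' := by
    intro r a
    simp only [Pi.smul_apply, smul_eq_mul, mul_smul, Finset.smul_sum, RingHom.id_apply]

/-- the shifted functional of a coefficient family -/
def PPsi (d : Fin p → ℕ) (A : Fin p → ℕ → Module.Dual Ω V) : PW Ω d →ₗ[Ω] Module.Dual Ω V where
  toFun κ := ∑ i, ∑ j : Fin (d i), κ i j.castSucc • A i (j + 1)
  map_add' := by
    intro a b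
    simp only [Pi.add_apply, add_smul, Finset.sum_add_distrib]
  map_smul' := by
    intro r a
    simp only [Pi.smul_apply, smul_eq_mul, mul_smul, Finset.smul_sum, RingHom.id_apply]

end Pencil

open Pencil in
theorem pencil_indep {Ω V : Type*} [Field Ω] [IsAlgClosed Ω] [AddCommGroup V] [Module Ω V] {p : ℕ}
    (d : Fin p → ℕ) (A : Fin p → ℕ → Module.Dual Ω V) (hA : ∀ i j, d i < j → A i j = 0)
    (h1 : ∀ b c : Ω, (b, c) ≠ 0 → ∀ α : Fin p → Ω,
      ∑ i, α i • ∑ j ∈ Finset.range (d i + 1), (b ^ (d i - j) * c ^ j) • A i j = 0 → α = 0)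
    (h2 : ∀ t : V, (∀ i, A i 0 t = 0) → ∃ t' : V, ∀ i j, A i (j + 1) t + A i j t' = 0)
    (κ : Fin p → ℕ → Ω) (hκ : ∑ i, ∑ j ∈ Finset.range (d i + 1), κ i j • A i j = 0) :
    ∀ i j, j ≤ d i → κ i j = 0 := by
  classical
  let Φ : PW Ω d →ₗ[Ω] Module.Dual Ω V := PPhi d A
  let Ψ : PW Ω d →ₗ[Ω] Module.Dual Ω V := PPsi d A
  have hΦ : ∀ κ : PW Ω d, Φ κ = ∑ i, ∑ j : Fin (d i + 1), κ i j • A i j := fun _ => rfl
  have hΨ : ∀ κ : PW Ω d, Ψ κ = ∑ i, ∑ j : Fin (d i), κ i j.castSucc • A i (j + 1) := fun _ => rfl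
  -- the relations of the pencil members
  have hpen : ∀ (b c : Ω), (b, c) ≠ 0 → ∀ κ : PW Ω d, Φ κ = 0 →
      (∃ α : Fin p → Ω, ∀ i (j : Fin (d i + 1)), κ i j = α i * (b ^ (d i - j) * c ^ (j : ℕ))) →
      κ = 0 := by
    rintro b c hbc κ hκ ⟨α, hα⟩
    have h3 : α = 0 := by
      apply h1 b c hbc α
      rw [← hκ, hΦ]
      refine Finset.sum_congr rfl fun i _ => ?_
      rw [Finset.smul_sum, Finset.sum_range]
      refine Finset.sum_congr rfl fun j _ => ?_
      rw [hα i j, smul_smul]
    funext i j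
    rw [hα i j, h3]
    simp
  -- independence of the first functionals
  have hli : LinearIndependent Ω (fun i => A i 0) := by
    rw [Fintype.linearIndependent_iff]
    intro α hα
    have h3 := h1 1 0 (by simp) α (by
      rw [← hα]
      refine Finset.sum_congr rfl fun i _ => ?_
      congr 1
      rw [Finset.sum_eq_single 0]
      · simp
      · intro j _ hj
        simp [hj]
      · intro h
        simp at h)
    intro i
    rw [h3]; rfl
  -- the shifted relation is a combination of the first functionals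
  have hspan : ∀ κ : PW Ω d, Φ κ = 0 → Ψ κ ∈ Submodule.span Ω (Set.range fun i => A i 0) := by
    intro κ hκ
    refine mem_span_of_iInf_ker_le_ker ?_
    intro t ht
    rw [Submodule.mem_iInf] at ht
    have ht' : ∀ i, A i 0 t = 0 := fun i => ht i
    obtain ⟨t', ht'⟩ := h2 t ht'
    rw [LinearMap.mem_ker, hΨ]
    have h3 := congrArg (fun f : Module.Dual Ω V => f t') hκ
    simp only [hΦ, LinearMap.sum_apply, LinearMap.smul_apply, smul_eq_mul,
      LinearMap.zero_apply] at h3
    simp only [LinearMap.sum_apply, LinearMap.smul_apply, smul_eq_mul]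
    have h4 : ∀ i, ∑ j : Fin (d i), κ i j.castSucc * A i (j + 1) t =
        - ∑ j : Fin (d i + 1), κ i j * A i j t' := by
      intro i
      rw [Fin.sum_univ_castSucc (n := d i)]
      have h5 : A i (d i) t' = 0 := by
        have := ht' i (d i)
        rw [hA i (d i + 1) (Nat.lt_succ_self _)] at this
        simpa using this
      rw [Fin.val_last, h5, mul_zero, add_zero, ← Finset.sum_neg_distrib]
      refine Finset.sum_congr rfl fun j _ => ?_
      have := ht' i j
      rw [Fin.val_castSucc]
      linear_combination κ i j.castSucc * this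
    rw [Finset.sum_congr rfl fun i _ => h4 i, Finset.sum_neg_distrib, h3, neg_zero]
  -- the shift
  let K : Submodule Ω (PW Ω d) := LinearMap.ker Φ
  let Ψ' : K →ₗ[Ω] Submodule.span Ω (Set.range fun i => A i 0) :=
    (Ψ.comp K.subtype).codRestrict _ fun κ => hspan κ κ.2
  let S₀ : K →ₗ[Ω] PW Ω d :=
    { toFun := fun κ i => Fin.cases (-(hli.repr (Ψ' κ) i)) (fun j => (κ : PW Ω d) i j.castSucc)
      map_add' := by
        intro a b
        funext i j
        refine Fin.cases ?_ (fun j => ?_) j
        · simp only [map_add, Fin.cases_zero, Pi.add_apply, Finsupp.coe_add]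
          ring
        · simp
      map_smul' := by
        intro r a
        funext i j
        refine Fin.cases ?_ (fun j => ?_) j
        · simp
        · simp }
  have hS0 : ∀ (κ : K) i, S₀ κ i 0 = -(hli.repr (Ψ' κ) i) := fun _ _ => rfl
  have hS1 : ∀ (κ : K) i (j : Fin (d i)), S₀ κ i j.succ = (κ : PW Ω d) i j.castSucc := fun _ _ _ => rfl
  have hSK : ∀ κ : K, S₀ κ ∈ K := by
    intro κ
    rw [LinearMap.mem_ker, hΦ]
    have h3 : ∀ i, ∑ j : Fin (d i + 1), S₀ κ i j • A i j =
        -(hli.repr (Ψ' κ) i) • A i 0 + ∑ j : Fin (d i), (κ : PW Ω d) i j.castSucc • A i (j + 1) := by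
      intro i
      rw [Fin.sum_univ_succ, hS0]
      rfl
    rw [Finset.sum_congr rfl fun i _ => h3 i, Finset.sum_add_distrib, ← hΨ]
    have h4 := hli.linearCombination_repr (Ψ' κ)
    rw [Finsupp.linearCombination_apply, Finsupp.sum_fintype _ _ (by simp)] at h4
    have h5 : ((Ψ' κ : Submodule.span Ω (Set.range fun i => A i 0)) : Module.Dual Ω V) = Ψ κ := rfl
    rw [← h5, ← h4]
    rw [← Finset.sum_add_distrib]
    refine Finset.sum_eq_zero fun i _ => ?_
    rw [← add_smul, neg_add_cancel, zero_smul]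
  let S : K →ₗ[Ω] K := S₀.codRestrict K hSK
  -- conclusion
  have hK : ∀ κ : PW Ω d, Φ κ = 0 → κ = 0 := by
    intro κ hκ
    by_contra hne
    have hnt : Nontrivial K := ⟨⟨⟨κ, hκ⟩, 0, fun h => hne (by
      have := congrArg Subtype.val h
      simpa using this)⟩⟩
    obtain ⟨μ, hμ⟩ := Module.End.exists_eigenvalue S
    obtain ⟨β, hβ⟩ := hμ.exists_hasEigenvector
    have hβ1 : ∀ i j, S₀ β i j = μ * (β : PW Ω d) i j := by
      intro i j
      have := congrArg Subtype.val hβ.apply_eq_smul
      have h3 := congrFun (congrFun this i) j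
      exact h3
    have hβ0 : (β : PW Ω d) ≠ 0 := fun h => hβ.2 (Subtype.ext h)
    apply hβ0
    refine hpen μ 1 (by simp) β β.2 ⟨fun i => (β : PW Ω d) i (Fin.last _), fun i j => ?_⟩
    rw [one_pow, mul_one]
    induction j using Fin.reverseInduction with
    | last => simp
    | cast j ih =>
      rw [← hS1, hβ1, ih]
      have h3 : d i - ((j.castSucc : Fin (d i + 1)) : ℕ) = (d i - (j.succ : Fin (d i + 1))) + 1 := by
        rw [Fin.val_castSucc, Fin.val_succ]
        omega
      rw [h3, pow_succ]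
      ring
  intro i j hj
  have h3 := hK (fun i j => κ i j) (by
    rw [hΦ, ← hκ]
    refine Finset.sum_congr rfl fun i _ => ?_
    rw [Finset.sum_range])
  have h4 := congrFun (congrFun h3 i) ⟨j, Nat.lt_succ_of_le hj⟩
  exact h4

end Pool.Agent.Work.PD6
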