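import Mathlib
import Pool.Agent.Work.MP_b62148_ag.Sextic.Flag
import Pool.Agent.Work.MP_b62148_ag.Sextic.Der
import Pool.Agent.Work.MP_b62148_ag.Sextic.Pencil

/-!
S4: lines through a generic point and planes through a generic flag are free.
-/

namespace Pool.Agent.Work.PD6

open MvPolynomial

namespace Free

section Aux

variable {Ω : Type*} [Field Ω]

/-- a polynomial function equal to zero has zero coefficients -/
theorem vand [CharZero Ω] {n : ℕ} (c : ℕ → Ω)
    (h : ∀ t : Ω, ∑ j ∈ Finset.range (n + 1), t ^ j * c j = 0) : ∀ j, j ≤ n → c j = 0 := by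
  classical
  let P : Polynomial Ω := ∑ j ∈ Finset.range (n + 1), Polynomial.C (c j) * Polynomial.X ^ j
  have hP : P = 0 := by
    refine Polynomial.funext fun t => ?_
    rw [Polynomial.eval_zero, ← h t, Polynomial.eval_finsetSum]
    refine Finset.sum_congr rfl fun j _ => ?_
    rw [Polynomial.eval_mul, Polynomial.eval_C, Polynomial.eval_pow, Polynomial.eval_X, mul_comm]
  intro j hj
  have h1 : P.coeff j = c j := by
    simp only [P, Polynomial.finsetSum_coeff, Polynomial.coeff_C_mul, Polynomial.coeff_X_pow]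
    rw [Finset.sum_eq_single j]
    · simp
    · intro i _ hi
      rw [if_neg (Ne.symm hi), mul_zero]
    · intro h
      exact absurd (Finset.mem_range.mpr (Nat.lt_succ_of_le hj)) h
  rw [← h1, hP, Polynomial.coeff_zero]

/-- independent functionals take all values -/
theorem onto_of_indep {V : Type*} [AddCommGroup V] [Module Ω V] {ι : Type*} [Fintype ι]
    (f : ι → Module.Dual Ω V) (h : ∀ κ : ι → Ω, ∑ i, κ i • f i = 0 → κ = 0) (r : ι → Ω) :
    ∃ w, ∀ i, f i w = r i := by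
  classical
  have hs : LinearMap.range (LinearMap.pi f) = ⊤ := by
    by_contra hne
    obtain ⟨g, hg0, hg⟩ := Submodule.exists_le_ker_of_lt_top _ (lt_top_iff_ne_top.mpr hne)
    apply hg0
    have h1 : (fun i => g (Pi.single i 1)) = (0 : ι → Ω) := by
      apply h
      ext v
      have h2 : g (LinearMap.pi f v) = 0 := hg ⟨v, rfl⟩
      have h3 : LinearMap.pi f v = ∑ i, f i v • (Pi.single i (1 : Ω) : ι → Ω) := by
        funext i
        simp [Finset.sum_apply, Pi.single_apply]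
      rw [h3, map_sum] at h2
      simp only [LinearMap.sum_apply, LinearMap.smul_apply, smul_eq_mul, LinearMap.zero_apply]
      rw [← h2]
      refine Finset.sum_congr rfl fun i _ => ?_
      rw [map_smul, smul_eq_mul, mul_comm]
    ext i
    simpa using congrFun h1 i
  obtain ⟨w, hw⟩ := LinearMap.range_eq_top.mp hs r
  exact ⟨w, fun i => congrFun hw i⟩

end Aux

variable {k : Type*} [Field k] {σ : Type*} {Ω : Type*} [Field Ω] [Algebra k Ω]
  (a : (σ →₀ ℕ) → k)

theorem Lf_expand (q U W : MvPolynomial σ Ω) (n : ℕ) (b c : Ω) :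
    Lf a (q * (C b * U + C c * W) ^ n) = ∑ j ∈ Finset.range (n + 1),
      (b ^ (n - j) * c ^ j) * ((n.choose j : Ω) * Lf a (q * U ^ (n - j) * W ^ j)) := by
  rw [add_comm (C b * U), add_pow, Finset.mul_sum, map_sum]
  refine Finset.sum_congr rfl fun j _ => ?_
  have h1 : q * ((C c * W) ^ j * (C b * U) ^ (n - j) * ((n.choose j : ℕ) : MvPolynomial σ Ω)) =
      C (b ^ (n - j) * c ^ j * (n.choose j : Ω)) * (q * U ^ (n - j) * W ^ j) := by
    rw [map_mul, map_mul, map_pow, map_pow, map_natCast, mul_pow, mul_pow]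
    ring
  rw [h1, Lf_C_mul]
  ring

theorem coef [CharZero Ω] (q U W : MvPolynomial σ Ω) (n : ℕ)
    (h : ∀ t : Ω, Lf a (q * (U + C t * W) ^ n) = 0) (j : ℕ) (hj : j ≤ n) :
    Lf a (q * U ^ (n - j) * W ^ j) = 0 := by
  have h1 := vand (n := n) (fun j => (n.choose j : Ω) * Lf a (q * U ^ (n - j) * W ^ j)) (by
    intro t
    have h2 := Lf_expand a q U W n 1 t
    rw [map_one, one_mul, h t] at h2
    rw [h2]
    refine Finset.sum_congr rfl fun j _ => ?_
    rw [one_pow, one_mul]) j hj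
  have h3 : (n.choose j : Ω) ≠ 0 := Nat.cast_ne_zero.mpr (Nat.choose_pos hj).ne'
  exact (mul_eq_zero.mp h1).resolve_left h3

variable {a}

theorem cD_prod (D : Derivation k Ω Ω) (q U W : MvPolynomial σ Ω) (hq : cD D q = 0) (n j : ℕ) :
    cD D (q * U ^ n * W ^ j) = C (n : Ω) * (q * U ^ (n - 1) * W ^ j * cD D U) +
      C (j : Ω) * (q * U ^ n * W ^ (j - 1) * cD D W) := by
  rw [Derivation.leibniz, Derivation.leibniz, hq, Derivation.leibniz_pow, Derivation.leibniz_pow]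
  simp only [smul_eq_mul, nsmul_eq_mul, mul_zero, add_zero, map_natCast]
  ring

/-- the relation between the functionals given by a derivation -/
theorem shift (D : Derivation k Ω Ω) (q U W T T' : MvPolynomial σ Ω) (κ : Ω) (hq : cD D q = 0)
    (hU : cD D U = T + C κ * U) (hW : cD D W = T') (n : ℕ) [CharZero Ω]
    (h0 : ∀ j, j ≤ n + 1 → Lf a (q * U ^ (n + 1 - j) * W ^ j) = 0) (j : ℕ) :
    (n.choose (j + 1) : Ω) * Lf a (q * U ^ (n - (j + 1)) * W ^ (j + 1) * T) +
      (n.choose j : Ω) * Lf a (q * U ^ (n - j) * W ^ j * T') = 0 := by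
  rcases Nat.lt_or_ge n j with hj | hj
  · rw [Nat.choose_eq_zero_of_lt hj, Nat.choose_eq_zero_of_lt (Nat.lt_succ_of_lt hj)]
    simp
  have h1 := h0 (j + 1) (Nat.succ_le_succ hj)
  have h2 : n + 1 - (j + 1) = n - j := by omega
  rw [h2] at h1
  have h3 : D (Lf a (q * U ^ (n - j) * W ^ (j + 1))) = 0 := by rw [h1, map_zero]
  rw [D_Lf, cD_prod D q U W hq, hU, hW, map_add, Lf_C_mul, Lf_C_mul, Nat.add_sub_cancel] at h3
  have h4 : ((n - j : ℕ) : Ω) * Lf a (q * U ^ (n - j - 1) * W ^ (j + 1) * (T + C κ * U)) =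
      ((n - j : ℕ) : Ω) * Lf a (q * U ^ (n - (j + 1)) * W ^ (j + 1) * T) := by
    rcases Nat.eq_zero_or_pos (n - j) with h5 | h5
    · rw [h5]; simp
    · have h6 : q * U ^ (n - j - 1) * W ^ (j + 1) * (T + C κ * U) =
          q * U ^ (n - (j + 1)) * W ^ (j + 1) * T + C κ * (q * U ^ (n - j) * W ^ (j + 1)) := by
        obtain ⟨l, hl⟩ : ∃ l, n - j = l + 1 := ⟨n - j - 1, by omega⟩
        have hl2 : n - (j + 1) = l := by omega
        rw [hl2, hl, Nat.add_sub_cancel]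
        ring
      rw [h6, map_add, Lf_C_mul, h1, mul_zero, add_zero]
  rw [h4] at h3
  have h7 : (n.choose (j + 1) : Ω) * ((j : Ω) + 1) = (n.choose j : Ω) * ((n - j : ℕ) : Ω) := by
    have := Nat.choose_succ_right_eq n j
    exact_mod_cast this
  have h8 : ((j : Ω) + 1) ≠ 0 := by exact_mod_cast Nat.succ_ne_zero j
  apply mul_left_cancel₀ h8
  rw [mul_zero]
  push_cast at h3
  linear_combination (n.choose j : Ω) * h3 +
    Lf a (q * U ^ (n - (j + 1)) * W ^ (j + 1) * T) * h7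

end Free

variable {k : Type*} [Field k] {σ : Type*} [Fintype σ]

open Free

/-- the functionals of the pencil -/
noncomputable def Afun (a : (σ →₀ ℕ) → k) {Ω : Type*} [Field Ω] [Algebra k Ω]
    (q U W : MvPolynomial σ Ω) (n j : ℕ) : Module.Dual Ω (σ → Ω) :=
  (n.choose j : Ω) • lin a (q * U ^ (n - j) * W ^ j)

theorem Afun_apply (a : (σ →₀ ℕ) → k) {Ω : Type*} [Field Ω] [Algebra k Ω]
    (q U W : MvPolynomial σ Ω) (n j : ℕ) (v : σ → Ω) :
    Afun a q U W n j v = (n.choose j : Ω) * Lf a (q * U ^ (n - j) * W ^ j * ell v) := rfl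

theorem Afun_zero (a : (σ →₀ ℕ) → k) {Ω : Type*} [Field Ω] [Algebra k Ω]
    (q U W : MvPolynomial σ Ω) {n j : ℕ} (h : n < j) : Afun a q U W n j = 0 := by
  rw [Afun, Nat.choose_eq_zero_of_lt h, Nat.cast_zero, zero_smul]

theorem Afun_sum (a : (σ →₀ ℕ) → k) {Ω : Type*} [Field Ω] [Algebra k Ω]
    (q U W : MvPolynomial σ Ω) (n : ℕ) (b c : Ω) (v : σ → Ω) :
    (∑ j ∈ Finset.range (n + 1), (b ^ (n - j) * c ^ j) • Afun a q U W n j) v =
      Lf a (q * (C b * U + C c * W) ^ n * ell v) := by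
  have h1 : q * (C b * U + C c * W) ^ n * ell v = (q * ell v) * (C b * U + C c * W) ^ n := by ring
  rw [h1, Lf_expand, LinearMap.sum_apply]
  refine Finset.sum_congr rfl fun j _ => ?_
  rw [LinearMap.smul_apply, Afun_apply, smul_eq_mul]
  congr 3
  ring

theorem free_line [CharZero k] {a : (σ →₀ ℕ) → k} {Ω : Type*} [Field Ω] [IsAlgClosed Ω]
    [Algebra k Ω] {y : σ → Ω} (hg : GenPt a y) (m : σ → Ω)
    (hli : ∀ s t : Ω, s • y + t • m = 0 → s = 0 ∧ t = 0)
    (hl : ∀ s t : Ω, Lf a (ell (s • y + t • m) ^ 6) = 0) (κ : ℕ → Ω)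
    (hκ : ∀ v : σ → Ω, ∑ i ∈ Finset.range 6, κ i * Lf a (ell y ^ (5 - i) * ell m ^ i * ell v) = 0) :
    ∀ i, i ≤ 5 → κ i = 0 := by
  classical
  have : CharZero Ω := charZero_of_injective_algebraMap (algebraMap k Ω).injective
  have hrel : ∀ j, j ≤ 5 + 1 → Lf a (1 * ell y ^ (5 + 1 - j) * ell m ^ j) = 0 := by
    refine coef a 1 (ell y) (ell m) 6 fun t => ?_
    have := hl 1 t
    rwa [ell_add, ell_smul, ell_smul, map_one, one_mul, ← one_mul ((_ : MvPolynomial σ Ω) ^ 6)]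
      at this
  have hp := pencil_indep (p := 1) (fun _ => 5) (fun _ j => Afun a 1 (ell y) (ell m) 5 j)
    (fun i j h => Afun_zero a _ _ _ h) ?_ ?_ (fun _ j => κ j / (Nat.choose 5 j : Ω)) ?_
  · intro i hi
    have h1 := hp 0 i hi
    have h3 : (Nat.choose 5 i : Ω) ≠ 0 := Nat.cast_ne_zero.mpr (Nat.choose_pos hi).ne'
    exact (div_eq_zero_iff.mp h1).resolve_right h3
  · intro b c hbc α hα
    rw [Fin.sum_univ_one] at hα
    have h1 : α 0 = 0 := by
      by_contra hne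
      have h2 : ∀ w : σ → Ω, Lf a (ell (b • y + c • m) ^ 5 * ell w) = 0 := by
        intro w
        have h3 := congrArg (fun f : Module.Dual Ω (σ → Ω) => f w) hα
        simp only [LinearMap.smul_apply, LinearMap.zero_apply] at h3
        rw [Afun_sum, smul_eq_mul] at h3
        have h4 := (mul_eq_zero.mp h3).resolve_left hne
        rw [ell_add, ell_smul, ell_smul]
        rwa [one_mul] at h4
      have h5 := hli b c (hg.bpf _ h2)
      exact hbc (Prod.ext h5.1 h5.2)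
    funext i
    rw [Subsingleton.elim i 0, h1]
    rfl
  · intro t ht
    have h1 := ht 0
    rw [Afun_apply] at h1
    obtain ⟨D, hD⟩ := hg.der t (by simpa using h1)
    refine ⟨fun i => D (m i), fun _ j => ?_⟩
    rw [Afun_apply, Afun_apply]
    refine shift D 1 (ell y) (ell m) (ell t) (ell fun i => D (m i)) 0 ?_ ?_ ?_ 5 hrel j
    · exact Derivation.map_one_eq_zero _
    · rw [cD_ell, map_zero, zero_mul, add_zero]
      congr 1
      funext i
      exact hD i
    · exact cD_ell D m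
  · rw [Fin.sum_univ_one]
    refine LinearMap.ext fun v => ?_
    rw [LinearMap.sum_apply, LinearMap.zero_apply, ← hκ v]
    refine Finset.sum_congr rfl fun j hj => ?_
    have h3 : (Nat.choose 5 j : Ω) ≠ 0 :=
      Nat.cast_ne_zero.mpr (Nat.choose_pos (Nat.lt_succ_iff.mp (Finset.mem_range.mp hj))).ne'
    rw [LinearMap.smul_apply, Afun_apply, smul_eq_mul, ← mul_assoc, div_mul_cancel₀ _ h3, one_mul]

theorem line_onto [CharZero k] {a : (σ →₀ ℕ) → k} {Ω : Type*} [Field Ω] [IsAlgClosed Ω]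
    [Algebra k Ω] {y : σ → Ω} (hg : GenPt a y) (m : σ → Ω)
    (hli : ∀ s t : Ω, s • y + t • m = 0 → s = 0 ∧ t = 0)
    (hl : ∀ s t : Ω, Lf a (ell (s • y + t • m) ^ 6) = 0) (r : ℕ → Ω) :
    ∃ w : σ → Ω, ∀ i, i ≤ 5 → Lf a (ell y ^ (5 - i) * ell m ^ i * ell w) = r i := by
  classical
  obtain ⟨w, hw⟩ := onto_of_indep (ι := Fin 6)
    (fun i => lin a (ell y ^ (5 - (i : ℕ)) * ell m ^ (i : ℕ))) (by
      intro κ hκ
      have h1 := free_line hg m hli hl (fun i => if h : i < 6 then κ ⟨i, h⟩ else 0) (by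
        intro v
        rw [Finset.sum_range]
        have h2 := congrArg (fun f : Module.Dual Ω (σ → Ω) => f v) hκ
        simp only [LinearMap.sum_apply, LinearMap.smul_apply, lin_apply, smul_eq_mul,
          LinearMap.zero_apply] at h2
        rw [← h2]
        refine Finset.sum_congr rfl fun i _ => ?_
        rw [dif_pos i.2])
      funext i
      have h3 := h1 i (Nat.lt_succ_iff.mp i.2)
      rw [dif_pos i.2] at h3
      exact h3) (fun i => r i)
  exact ⟨w, fun i hi => hw ⟨i, Nat.lt_succ_of_le hi⟩⟩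

theorem plane_gen [CharZero k] {a : (σ →₀ ℕ) → k} {Ω : Type*} [Field Ω] [IsAlgClosed Ω]
    [Algebra k Ω] {y m : σ → Ω} (hg : GenPt a y) (v : σ → Ω)
    (hli : ∀ r s t : Ω, r • y + s • m + t • v = 0 → r = 0 ∧ s = 0 ∧ t = 0)
    (hpl : ∀ r s t : Ω, Lf a (ell (r • y + s • m + t • v) ^ 6) = 0) (b c : Ω) (hbc : (b, c) ≠ 0)
    (α : Fin 6 → Ω) (hα : ∑ i : Fin 6, α i • ∑ j ∈ Finset.range ((i : ℕ) + 1),
      (b ^ ((i : ℕ) - j) * c ^ j) • Afun a (ell y ^ (5 - (i : ℕ))) (ell m) (ell v) i j = 0) :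
    α = 0 := by
  have h0 : ∀ w, ∑ i : Fin 6, α i * Lf a (ell y ^ (5 - (i : ℕ)) * ell (b • m + c • v) ^ (i : ℕ) *
      ell w) = 0 := by
    intro w
    have h3 : (∑ i : Fin 6, α i • ∑ j ∈ Finset.range ((i : ℕ) + 1),
      (b ^ ((i : ℕ) - j) * c ^ j) • Afun a (ell y ^ (5 - (i : ℕ))) (ell m) (ell v) i j) w = 0 := by
      rw [hα]; rfl
    rw [LinearMap.sum_apply] at h3
    rw [← h3]
    refine Finset.sum_congr rfl fun i _ => ?_
    rw [LinearMap.smul_apply, Afun_sum, ell_add, ell_smul, ell_smul, smul_eq_mul]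
  have h1 := free_line hg (b • m + c • v) (by
      intro s t hst
      have h2 := hli s (t * b) (t * c) (by
        rw [← hst, smul_add, smul_smul, smul_smul, add_assoc])
      refine ⟨h2.1, ?_⟩
      by_contra hne
      apply hbc
      exact Prod.ext ((mul_eq_zero.mp h2.2.1).resolve_left hne)
        ((mul_eq_zero.mp h2.2.2).resolve_left hne)) (by
      intro s t
      have h2 := hpl s (t * b) (t * c)
      rw [← h2, smul_add, smul_smul, smul_smul, add_assoc])
    (fun i => if h : i < 6 then α ⟨i, h⟩ else 0) (by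
      intro w
      rw [← h0 w, Finset.sum_range]
      refine Finset.sum_congr rfl fun i _ => ?_
      rw [dif_pos i.2])
  funext i
  have h3 := h1 i (Nat.lt_succ_iff.mp i.2)
  rw [dif_pos i.2] at h3
  exact h3

theorem plane_coef [CharZero k] {a : (σ →₀ ℕ) → k} {Ω : Type*} [Field Ω]
    [Algebra k Ω] {y m : σ → Ω} (v : σ → Ω)
    (hpl : ∀ r s t : Ω, Lf a (ell (r • y + s • m + t • v) ^ 6) = 0) (i : ℕ) (hi : i ≤ 6) (j : ℕ)
    (hj : j ≤ i) : Lf a (ell y ^ (6 - i) * ell m ^ (i - j) * ell v ^ j) = 0 := by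
  have : CharZero Ω := charZero_of_injective_algebraMap (algebraMap k Ω).injective
  refine coef a _ (ell m) (ell v) i (fun t => ?_) j hj
  have h1 := coef a 1 (ell y) (ell m + C t * ell v) 6 (fun s => by
    have := hpl 1 s (s * t)
    have e : ell (1 • y + s • m + (s * t) • v) = ell y + C s * (ell m + C t * ell v) := by
      rw [ell_add, ell_add, ell_smul, ell_smul, one_smul, map_mul]
      ring
    rw [one_mul, ← e]
    convert this using 4
    rw [one_smul, one_smul]) i hi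
  rwa [one_mul] at h1

theorem plane_shift [CharZero k] {a : (σ →₀ ℕ) → k} {Ω : Type*} [Field Ω] [IsAlgClosed Ω]
    [Algebra k Ω] {y m : σ → Ω} (hf : GenFlag a y m) (v : σ → Ω)
    (hpl : ∀ r s t : Ω, Lf a (ell (r • y + s • m + t • v) ^ 6) = 0) (t : σ → Ω)
    (ht : ∀ i : Fin 6, Afun a (ell y ^ (5 - (i : ℕ))) (ell m) (ell v) i 0 t = 0) :
    ∃ t' : σ → Ω, ∀ (i : Fin 6) (j : ℕ),
      Afun a (ell y ^ (5 - (i : ℕ))) (ell m) (ell v) i (j + 1) t +
      Afun a (ell y ^ (5 - (i : ℕ))) (ell m) (ell v) i j t' = 0 := by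
  have : CharZero Ω := charZero_of_injective_algebraMap (algebraMap k Ω).injective
  obtain ⟨D, κ', hD1, hD2⟩ := hf.derm t (by
    intro i hi
    have h1 := ht ⟨i, Nat.lt_succ_of_le hi⟩
    rw [Afun_apply] at h1
    simpa using h1)
  refine ⟨fun i => D (v i), fun i j => ?_⟩
  rw [Afun_apply, Afun_apply]
  refine shift D (ell y ^ (5 - (i : ℕ))) (ell m) (ell v) (ell t) (ell fun i => D (v i)) κ'
    ?_ ?_ ?_ i ?_ j
  · rw [Derivation.leibniz_pow, cD_ell]
    have : (fun i => D (y i)) = 0 := funext hD1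
    rw [this, ell_zero, smul_zero, smul_zero]
  · rw [cD_ell, ← ell_smul, ← ell_add]
    congr 1
    funext i
    exact hD2 i
  · exact cD_ell D v
  · intro j hj
    have h5 := plane_coef (a := a) v hpl (i + 1) (by have := i.2; omega) j hj
    have h6 : 6 - ((i : ℕ) + 1) = 5 - (i : ℕ) := by omega
    rwa [h6] at h5

theorem plane_indep [CharZero k] {a : (σ →₀ ℕ) → k} {Ω : Type*} [Field Ω] [IsAlgClosed Ω]
    [Algebra k Ω] {y m : σ → Ω} (hf : GenFlag a y m) (v : σ → Ω)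
    (hli : ∀ r s t : Ω, r • y + s • m + t • v = 0 → r = 0 ∧ s = 0 ∧ t = 0)
    (hpl : ∀ r s t : Ω, Lf a (ell (r • y + s • m + t • v) ^ 6) = 0) (μ : Fin 6 → ℕ → Ω)
    (hμ : ∑ i : Fin 6, ∑ j ∈ Finset.range ((i : ℕ) + 1), μ i j •
      Afun a (ell y ^ (5 - (i : ℕ))) (ell m) (ell v) i j = 0) (i : Fin 6) (j : ℕ)
    (hj : j ≤ (i : ℕ)) : μ i j = 0 :=
  pencil_indep (p := 6) (fun i => (i : ℕ))
    (fun i j => Afun a (ell y ^ (5 - (i : ℕ))) (ell m) (ell v) i j)
    (fun i j h => Afun_zero a _ _ _ h)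
    (fun b c hbc α hα => plane_gen hf.toGenPt v hli hpl b c hbc α hα)
    (fun t ht => plane_shift hf v hpl t ht) μ hμ i j hj

theorem plane_onto [CharZero k] {a : (σ →₀ ℕ) → k} {Ω : Type*} [Field Ω] [IsAlgClosed Ω]
    [Algebra k Ω] {y m : σ → Ω} (hf : GenFlag a y m) (v : σ → Ω)
    (hli : ∀ r s t : Ω, r • y + s • m + t • v = 0 → r = 0 ∧ s = 0 ∧ t = 0)
    (hpl : ∀ r s t : Ω, Lf a (ell (r • y + s • m + t • v) ^ 6) = 0) (r : ℕ → ℕ → Ω) :
    ∃ w : σ → Ω, ∀ i j, i ≤ 5 → j ≤ i →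
      Lf a (ell y ^ (5 - i) * ell m ^ (i - j) * ell v ^ j * ell w) = r i j := by
  classical
  have : CharZero Ω := charZero_of_injective_algebraMap (algebraMap k Ω).injective
  have hind : ∀ κ : (Σ i : Fin 6, Fin ((i : ℕ) + 1)) → Ω,
      ∑ x, κ x • lin a (ell y ^ (5 - (x.1 : ℕ)) * ell m ^ ((x.1 : ℕ) - (x.2 : ℕ)) *
      ell v ^ (x.2 : ℕ)) = 0 → κ = 0 := by
    intro κ hκ
    obtain ⟨μ, hμ⟩ : ∃ μ : Fin 6 → ℕ → Ω, ∀ (i : Fin 6) (j : Fin ((i : ℕ) + 1)),
        μ i j * (Nat.choose i j : Ω) = κ ⟨i, j⟩ := by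
      refine ⟨fun i j => (if h : j < (i : ℕ) + 1 then κ ⟨i, ⟨j, h⟩⟩ else 0) / (Nat.choose i j : Ω),
        fun i j => ?_⟩
      have h4 : (Nat.choose i j : Ω) ≠ 0 :=
        Nat.cast_ne_zero.mpr (Nat.choose_pos (Nat.lt_succ_iff.mp j.2)).ne'
      rw [div_mul_cancel₀ _ h4, dif_pos j.2]
    have hsum : ∑ i : Fin 6, ∑ j ∈ Finset.range ((i : ℕ) + 1), μ i j •
        Afun a (ell y ^ (5 - (i : ℕ))) (ell m) (ell v) i j = 0 := by
      rw [← hκ, Fintype.sum_sigma]
      refine Finset.sum_congr rfl fun i _ => ?_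
      rw [Finset.sum_range]
      refine Finset.sum_congr rfl fun j _ => ?_
      rw [Afun, smul_smul, hμ i j]
    funext x
    obtain ⟨i, j⟩ := x
    rw [← hμ, plane_indep hf v hli hpl μ hsum i j (Nat.lt_succ_iff.mp j.2), zero_mul]
    rfl
  obtain ⟨w, hw⟩ := onto_of_indep _ hind (fun x => r x.1 x.2)
  refine ⟨w, fun i j hi hj => ?_⟩
  exact hw ⟨⟨i, Nat.lt_succ_of_le hi⟩, ⟨j, Nat.lt_succ_of_le hj⟩⟩

end Pool.Agent.Work.PD6
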