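import Mathlib
import Pool.Agent.Work.MP_b62148_ag.Sextic.FlagExt
import Pool.Agent.Work.MP_b62148_ag.Sextic.Der
import Pool.Agent.Work.MP_b62148_ag.HS

/-!
A generic vector `z` and a solution `b` (module S6a).
-/

namespace Pool.Agent.Work.PD6

open MvPolynomial Pool.Agent.Work.PD5

universe u v w

section Step

variable {k : Type*} [Field k] {σ : Type*}

/-- derivative of a combination of constant vectors -/
theorem D_comb {Ω : Type*} [Field Ω] [Algebra k Ω] {ι : Type*} [Fintype ι] (D : Derivation k Ω Ω) (lam : ι → σ → Ω)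
    (hD : ∀ j i, D (lam j i) = 0) (s : ι → Ω) (i : σ) :
    D (comb lam s i) = comb lam (fun j => D (s j)) i := by
  simp only [comb, map_sum, Derivation.leibniz, hD, smul_eq_mul, mul_zero, zero_add]
  exact Finset.sum_congr rfl fun j _ => mul_comm _ _

variable [Fintype σ] {a : (σ →₀ ℕ) → k} {Ω : Type*} [Field Ω] [Algebra k Ω]

/-- values of the three quadrics and of the cubic -/
theorem eval_lin_form (lam : Fin 5 → σ → Ω) (q Z : MvPolynomial σ Ω) (s : Fin 5 → Ω) :
    eval s (∑ j, X j * C (Lf a (q * ell (lam j) * Z))) = Lf a (q * ell (comb lam s) * Z) := by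
  rw [map_sum, ell_comb, Finset.mul_sum, Finset.sum_mul, map_sum]
  refine Finset.sum_congr rfl fun j _ => ?_
  rw [map_mul, eval_X, eval_C, ← Lf_C_mul]
  congr 1
  ring

theorem eval_quad_form (lam : Fin 5 → σ → Ω) (q Z : MvPolynomial σ Ω) (s : Fin 5 → Ω) :
    eval s (∑ j, ∑ l, X j * X l * C (Lf a (q * (ell (lam j) * ell (lam l)) * Z))) =
      Lf a (q * ell (comb lam s) ^ 2 * Z) := by
  have h1 : q * ell (comb lam s) ^ 2 * Z = ∑ j, ∑ l, C (s j) * (C (s l) *
      (q * (ell (lam j) * ell (lam l)) * Z)) := by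
    rw [ell_comb, sq, Finset.sum_mul_sum, Finset.mul_sum, Finset.sum_mul]
    refine Finset.sum_congr rfl fun j _ => ?_
    rw [Finset.mul_sum, Finset.sum_mul]
    refine Finset.sum_congr rfl fun l _ => ?_
    ring
  rw [h1, map_sum, map_sum]
  refine Finset.sum_congr rfl fun j _ => ?_
  rw [map_sum, map_sum]
  refine Finset.sum_congr rfl fun l _ => ?_
  rw [map_mul, map_mul, eval_X, eval_X, eval_C, Lf_C_mul, Lf_C_mul]
  ring

theorem der_lin (D : Derivation k Ω Ω) (q : MvPolynomial σ Ω) (hq : cD D q = 0) (b z : σ → Ω) :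
    D (Lf a (q * ell b * ell z)) = Lf a (q * ell (fun i => D (b i)) * ell z) +
      Lf a (q * ell b * ell fun i => D (z i)) := by
  rw [D_Lf]
  simp only [Derivation.leibniz, cD_ell, hq, smul_eq_mul]
  rw [← map_add]
  refine congrArg _ ?_
  ring

theorem der_quad (D : Derivation k Ω Ω) (q : MvPolynomial σ Ω) (hq : cD D q = 0) (b z : σ → Ω) :
    D (Lf a (q * ell b ^ 2 * ell z)) = 2 * Lf a (q * ell b * ell (fun i => D (b i)) * ell z) +
      Lf a (q * ell b ^ 2 * ell fun i => D (z i)) := by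
  rw [D_Lf, ← Lf_ofNat]
  simp only [Derivation.leibniz, Derivation.leibniz_pow, cD_ell, hq, smul_eq_mul, nsmul_eq_mul]
  rw [← map_add]
  refine congrArg _ ?_
  push_cast
  ring

theorem ell_zero_fun : ell (fun _ : σ => (0 : Ω)) = 0 := ell_zero

theorem cD_ell_zero (D : Derivation k Ω Ω) (v : σ → Ω) (h : ∀ i, D (v i) = 0) :
    cD D (ell v) = 0 := by
  rw [cD_ell]
  simp only [h]
  exact ell_zero_fun

theorem cD_qc (D : Derivation k Ω Ω) (y m : σ → Ω) (hy : ∀ i, D (y i) = 0)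
    (hm : ∀ i, D (m i) = 0) (i : Fin 3) : cD D (qc (ell y) (ell m) i) = 0 := by
  have h1 := cD_ell_zero D y hy
  have h2 := cD_ell_zero D m hm
  fin_cases i
  · show cD D (ell y ^ 4) = 0
    rw [Derivation.leibniz_pow, h1]; simp
  · show cD D (ell y ^ 3 * ell m) = 0
    rw [Derivation.leibniz, Derivation.leibniz_pow, h1, h2]; simp
  · show cD D (ell y ^ 2 * ell m ^ 2) = 0
    rw [Derivation.leibniz, Derivation.leibniz_pow, Derivation.leibniz_pow, h1, h2]; simp

end Step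

section Iso

variable {k : Type*} [Field k] {σ : Type*} [Fintype σ] {a : (σ →₀ ℕ) → k}

theorem iso_algebraMap {Ω Ω' : Type*} [Field Ω] [Algebra k Ω] [Field Ω'] [Algebra k Ω']
    [Algebra Ω Ω'] [IsScalarTower k Ω Ω'] {ι : Type*} {lam : ι → σ → Ω} (h : Iso a lam) :
    Iso a (fun j i => algebraMap Ω Ω' (lam j i)) := by
  intro i₁ i₂ i₃ i₄ i₅ i₆
  have h1 := algebraMap_Lf (a := a) (S := Ω') (ell (lam i₁) * ell (lam i₂) * ell (lam i₃) *
    ell (lam i₄) * ell (lam i₅) * ell (lam i₆))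
  rw [h, map_zero] at h1
  simp only [RingHom.map_mul, map_ell] at h1
  exact h1.symm

/-- the span of the family is closed under combinations -/
theorem add_smul_mem_Sp {Ω : Type*} [Field Ω] {ι : Type*} {lam : ι → σ → Ω} {u v : σ → Ω}
    (hu : ell u ∈ Sp lam) (hv : ell v ∈ Sp lam) (s t : Ω) : ell (s • u + t • v) ∈ Sp lam := by
  rw [ell_add, ell_smul, ell_smul, ← smul_eq_C_mul, ← smul_eq_C_mul]
  exact Submodule.add_mem _ (Submodule.smul_mem _ _ hu) (Submodule.smul_mem _ _ hv)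

theorem Iso.pow_six {Ω : Type*} [Field Ω] [Algebra k Ω] {ι : Type*} {lam : ι → σ → Ω}
    (h : Iso a lam) {u : σ → Ω} (hu : ell u ∈ Sp lam) : Lf a (ell u ^ 6) = 0 := by
  have h1 := h.six hu hu hu hu hu hu
  rw [← h1]
  refine congrArg _ ?_
  ring

end Iso

/-- existence of `z` and `b`, from the independence of the functionals of a plane through a generic
flag -/
theorem exists_zb_of {k : Type u} [Field k] [CharZero k] {σ : Type v} [Fintype σ]
    (a : (σ →₀ ℕ) → k) {Ω₀ : Type w} [Field Ω₀] [IsAlgClosed Ω₀] [Algebra k Ω₀]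
    (hplane : ∀ (Ω : Type (max v w)) [Field Ω] [IsAlgClosed Ω] [Algebra k Ω] {y m : σ → Ω},
      GenFlag a y m → ∀ (v : σ → Ω),
      (∀ r s t : Ω, r • y + s • m + t • v = 0 → r = 0 ∧ s = 0 ∧ t = 0) →
      (∀ r s t : Ω, Lf a (ell (r • y + s • m + t • v) ^ 6) = 0) → ∀ (r : ℕ → ℕ → Ω),
      ∃ w : σ → Ω, ∀ i j, i ≤ 5 → j ≤ i →
        Lf a (ell y ^ (5 - i) * ell m ^ (i - j) * ell v ^ j * ell w) = r i j)
    (hb : ∀ (Ω : Type (max v w)) [Field Ω] [Algebra k Ω] (x : σ → Ω),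
      (∀ w : σ → Ω, Lf a (ell x ^ 5 * ell w) = 0) → x = 0)
    (lam : Fin 7 → σ → Ω₀) (hf : GenFlag a (lam 0) (lam 1)) (hli : LinearIndependent Ω₀ lam)
    (hiso : Iso a lam) :
    ∃ (Ω : Type (max v w)) (_ : Field Ω) (_ : Algebra k Ω) (_ : IsAlgClosed Ω)
      (lam' : Fin 7 → σ → Ω) (z : σ → Ω) (s : Fin 5 → Ω),
      GenFlag a (lam' 0) (lam' 1) ∧ LinearIndependent Ω lam' ∧ Iso a lam' ∧ s ≠ 0 ∧
      (∀ p ∈ ({ell (lam' 0) ^ 5, ell (lam' 0) ^ 4 * ell (lam' 1), ell (lam' 0) ^ 3 * ell (lam' 1) ^ 2,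
        ell (lam' 0) ^ 2 * ell (lam' 1) ^ 3} : Set (MvPolynomial σ Ω)), Lf a (p * ell z) = 0) ∧
      (∀ i, Lf a (qc (ell (lam' 0)) (ell (lam' 1)) i *
        ell (comb (fun j : Fin 5 => lam' (Fin.natAdd 2 j)) s) * ell z) = 0) ∧
      Lf a (ell (lam' 0) ^ 3 * ell (comb (fun j : Fin 5 => lam' (Fin.natAdd 2 j)) s) ^ 2 *
        ell z) = 0 ∧
      ∀ r : Fin 4 → Ω, ∃ s' : Fin 5 → Ω, ∀ i, Lf a ((![ell (lam' 0) ^ 4,
        ell (lam' 0) ^ 3 * ell (lam' 1), ell (lam' 0) ^ 2 * ell (lam' 1) ^ 2,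
        ell (lam' 0) ^ 3 * ell (comb (fun j : Fin 5 => lam' (Fin.natAdd 2 j)) s)] :
        Fin 4 → MvPolynomial σ Ω) i * ell (comb (fun j : Fin 5 => lam' (Fin.natAdd 2 j)) s') *
        ell z) = r i := by
  classical
  have cz : CharZero Ω₀ := charZero_of_injective_algebraMap (algebraMap k Ω₀).injective
  let p : Fin 4 → MvPolynomial σ Ω₀ := ![ell (lam 0) ^ 5, ell (lam 0) ^ 4 * ell (lam 1),
    ell (lam 0) ^ 3 * ell (lam 1) ^ 2, ell (lam 0) ^ 2 * ell (lam 1) ^ 3]
  obtain ⟨Ω, _, _, _, _, _, z, hz, hD⟩ := A4.exists_gen (K := k)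
    (fun (i : Fin 4) (j : σ) => Lf a (p i * ell (Pi.single j 1)))
  have cz' : CharZero Ω := charZero_of_injective_algebraMap (algebraMap k Ω).injective
  let lam' : Fin 7 → σ → Ω := fun j i => algebraMap Ω₀ Ω (lam j i)
  have hf' : GenFlag a (lam' 0) (lam' 1) := genFlag_ext hf (hb Ω)
  have hli' : LinearIndependent Ω lam' := by
    have : LinearIndependent Ω (fun j => algebraMap Ω₀ Ω ∘ lam j) :=
      linearIndependent_algebraMap_comp_iff.mpr hli
    exact this
  have hiso' : Iso a lam' := iso_algebraMap hiso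
  let p' : Fin 4 → MvPolynomial σ Ω := ![ell (lam' 0) ^ 5, ell (lam' 0) ^ 4 * ell (lam' 1),
    ell (lam' 0) ^ 3 * ell (lam' 1) ^ 2, ell (lam' 0) ^ 2 * ell (lam' 1) ^ 3]
  have hp' : ∀ i, MvPolynomial.map (algebraMap Ω₀ Ω) (p i) = p' i := by
    intro i
    fin_cases i
    · show MvPolynomial.map (algebraMap Ω₀ Ω) (ell (lam 0) ^ 5) = ell (lam' 0) ^ 5
      rw [RingHom.map_pow, map_ell]
    · show MvPolynomial.map (algebraMap Ω₀ Ω) (ell (lam 0) ^ 4 * ell (lam 1)) =
        ell (lam' 0) ^ 4 * ell (lam' 1)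
      rw [RingHom.map_mul, RingHom.map_pow, map_ell, map_ell]
    · show MvPolynomial.map (algebraMap Ω₀ Ω) (ell (lam 0) ^ 3 * ell (lam 1) ^ 2) =
        ell (lam' 0) ^ 3 * ell (lam' 1) ^ 2
      rw [RingHom.map_mul, RingHom.map_pow, RingHom.map_pow, map_ell, map_ell]
    · show MvPolynomial.map (algebraMap Ω₀ Ω) (ell (lam 0) ^ 2 * ell (lam 1) ^ 3) =
        ell (lam' 0) ^ 2 * ell (lam' 1) ^ 3
      rw [RingHom.map_mul, RingHom.map_pow, RingHom.map_pow, map_ell, map_ell]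
  have hz' : ∀ i, Lf a (p' i * ell z) = 0 := by
    intro i
    rw [← hp' i, ← row_eval_S]
    exact hz i
  -- the five vectors
  let mu : Fin 5 → σ → Ω := fun j => lam' (Fin.natAdd 2 j)
  -- the solution
  let F : Fin 4 → MvPolynomial (Fin 5) Ω :=
    ![∑ j, X j * C (Lf a (qc (ell (lam' 0)) (ell (lam' 1)) 0 * ell (mu j) * ell z)),
      ∑ j, X j * C (Lf a (qc (ell (lam' 0)) (ell (lam' 1)) 1 * ell (mu j) * ell z)),
      ∑ j, X j * C (Lf a (qc (ell (lam' 0)) (ell (lam' 1)) 2 * ell (mu j) * ell z)),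
      ∑ j, ∑ l, X j * X l * C (Lf a (ell (lam' 0) ^ 3 * (ell (mu j) * ell (mu l)) * ell z))]
  have hF0 : ∀ i, eval 0 (F i) = 0 := by
    intro i
    fin_cases i
    · show eval 0 (∑ j, X j * C (Lf a (qc (ell (lam' 0)) (ell (lam' 1)) 0 * ell (mu j) * ell z))) = 0
      simp
    · show eval 0 (∑ j, X j * C (Lf a (qc (ell (lam' 0)) (ell (lam' 1)) 1 * ell (mu j) * ell z))) = 0
      simp
    · show eval 0 (∑ j, X j * C (Lf a (qc (ell (lam' 0)) (ell (lam' 1)) 2 * ell (mu j) * ell z))) = 0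
      simp
    · show eval 0 (∑ j, ∑ l, X j * X l * C (Lf a (ell (lam' 0) ^ 3 * (ell (mu j) * ell (mu l)) *
        ell z))) = 0
      simp
  obtain ⟨s, hs0, hs⟩ := PD.exists_common_zero (by norm_num) F hF0
  have hq : ∀ i, Lf a (qc (ell (lam' 0)) (ell (lam' 1)) i * ell (comb mu s) * ell z) = 0 := by
    intro i
    fin_cases i
    · rw [← eval_lin_form]; exact hs 0
    · rw [← eval_lin_form]; exact hs 1
    · rw [← eval_lin_form]; exact hs 2
  have hc : Lf a (ell (lam' 0) ^ 3 * ell (comb mu s) ^ 2 * ell z) = 0 := by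
    rw [← eval_quad_form]; exact hs 3
  -- the plane
  have hmem0 : ell (lam' 0) ∈ Sp lam' := mem_Sp lam' 0
  have hmem1 : ell (lam' 1) ∈ Sp lam' := mem_Sp lam' 1
  have hmemb : ell (comb mu s) ∈ Sp lam' := by
    rw [ell_comb]
    refine Submodule.sum_mem _ fun j _ => ?_
    rw [← smul_eq_C_mul]
    exact Submodule.smul_mem _ _ (mem_Sp lam' _)
  have hpl : ∀ r t u : Ω, Lf a (ell (r • lam' 0 + t • lam' 1 + u • comb mu s) ^ 6) = 0 := by
    intro r t u
    apply hiso'.pow_six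
    have h1 := add_smul_mem_Sp (add_smul_mem_Sp hmem0 hmem1 r t) hmemb 1 u
    rwa [one_smul] at h1
  have hplli : ∀ r t u : Ω, r • lam' 0 + t • lam' 1 + u • comb mu s = 0 → r = 0 ∧ t = 0 ∧ u = 0 := by
    intro r t u h
    rw [Fintype.linearIndependent_iff] at hli'
    have h1 := hli' (Fin.append ![r, t] (fun j : Fin 5 => u * s j)) (by
      refine (Fin.sum_univ_add (a := 2) (b := 5) _).trans ?_
      simp only [Fin.append_left, Fin.append_right]
      rw [Fin.sum_univ_two]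
      rw [← h]
      congr 1
      rw [comb_eq, Finset.smul_sum]
      refine Finset.sum_congr rfl fun j _ => ?_
      rw [mul_smul])
    obtain ⟨j, hj⟩ := Function.ne_iff.mp hs0
    have h2 := h1 (Fin.natAdd 2 j)
    have h3 := h1 (Fin.castAdd 5 0)
    have h4 := h1 (Fin.castAdd 5 1)
    rw [Fin.append_right] at h2
    rw [Fin.append_left] at h3 h4
    refine ⟨h3, h4, ?_⟩
    rcases mul_eq_zero.mp h2 with h5 | h5
    · exact h5
    · exact absurd h5 hj
  refine ⟨Ω, inferInstance, inferInstance, inferInstance, lam', z, s, hf', hli', hiso', hs0,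
    ?_, hq, hc, ?_⟩
  · intro q hq'
    simp only [Set.mem_insert_iff, Set.mem_singleton_iff] at hq'
    rcases hq' with rfl | rfl | rfl | rfl
    · exact hz' 0
    · exact hz' 1
    · exact hz' 2
    · exact hz' 3
  · intro r
    obtain ⟨w, hw⟩ := hplane Ω hf' (comb mu s) hplli hpl
      (fun i j => if j = 0 then 0 else if i = 1 then - r 0 else if i = 2 ∧ j = 1 then - r 1 else
        if i = 2 ∧ j = 2 then - 2 * r 3 else if i = 3 ∧ j = 1 then - r 2 else 0)
    have w0 := hw 0 0 (by norm_num) le_rfl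
    have w1 := hw 1 0 (by norm_num) (by norm_num)
    have w2 := hw 2 0 (by norm_num) (by norm_num)
    have w3 := hw 3 0 (by norm_num) (by norm_num)
    have w11 := hw 1 1 (by norm_num) le_rfl
    have w21 := hw 2 1 (by norm_num) (by norm_num)
    have w22 := hw 2 2 (by norm_num) le_rfl
    have w31 := hw 3 1 (by norm_num) (by norm_num)
    norm_num at w0 w1 w2 w3 w11 w21 w22 w31
    obtain ⟨D, hD1, hD2⟩ := hD 0 w (by
      intro i
      simp only [Derivation.zero_apply, zero_mul, zero_add]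
      rw [row_eval_S, hp' i]
      fin_cases i
      · exact w0
      · exact w1
      · exact w2
      · exact w3)
    have hDl : ∀ j i, D (lam' j i) = 0 := fun j i => by
      show D (algebraMap Ω₀ Ω (lam j i)) = 0
      rw [hD1]; rfl
    have hDz : (fun i => D (z i)) = w := funext hD2
    have hDb : (fun i => D (comb mu s i)) = comb mu (fun j => D (s j)) :=
      funext fun i => D_comb D mu (fun j i => hDl _ i) s i
    refine ⟨fun j => D (s j), ?_⟩
    have e : ∀ i, Lf a (qc (ell (lam' 0)) (ell (lam' 1)) i * ell (comb mu fun j => D (s j)) * ell z) =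
        - Lf a (qc (ell (lam' 0)) (ell (lam' 1)) i * ell (comb mu s) * ell w) := by
      intro i
      have h1 := der_lin (a := a) D (qc (ell (lam' 0)) (ell (lam' 1)) i)
        (cD_qc D _ _ (hDl 0) (hDl 1) i) (comb mu s) z
      rw [hq i, map_zero, hDb, hDz] at h1
      linear_combination - h1
    intro i
    fin_cases i
    · have h := e 0
      show Lf a (ell (lam' 0) ^ 4 * ell (comb mu fun j => D (s j)) * ell z) = r 0
      have e1 : qc (ell (lam' 0)) (ell (lam' 1)) 0 = ell (lam' 0) ^ 4 := rfl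
      rw [e1, w11] at h
      rw [h, neg_neg]
    · have h := e 1
      show Lf a (ell (lam' 0) ^ 3 * ell (lam' 1) * ell (comb mu fun j => D (s j)) * ell z) = r 1
      have e1 : qc (ell (lam' 0)) (ell (lam' 1)) 1 = ell (lam' 0) ^ 3 * ell (lam' 1) := rfl
      rw [e1, w21] at h
      rw [h, neg_neg]
    · have h := e 2
      show Lf a (ell (lam' 0) ^ 2 * ell (lam' 1) ^ 2 * ell (comb mu fun j => D (s j)) * ell z) = r 2
      have e1 : qc (ell (lam' 0)) (ell (lam' 1)) 2 = ell (lam' 0) ^ 2 * ell (lam' 1) ^ 2 := rfl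
      rw [e1, w31] at h
      rw [h, neg_neg]
    · have h1 := der_quad (a := a) D (ell (lam' 0) ^ 3)
        (by rw [Derivation.leibniz_pow, cD_ell_zero D _ (hDl 0)]; simp) (comb mu s) z
      rw [hc, map_zero, hDb, hDz, w22] at h1
      show Lf a (ell (lam' 0) ^ 3 * ell (comb mu s) * ell (comb mu fun j => D (s j)) * ell z) = r 3
      linear_combination - (1 / 2 : Ω) * h1

end Pool.Agent.Work.PD6
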