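import Mathlib
import Pool.Agent.Work.MP_b62148_ag.Sextic.GenZ
import Pool.Agent.Work.MP_b62148_ag.Sextic.Free

/-!
A generic vector `z` and a solution `b` (module S6a, last step).
-/

namespace Pool.Agent.Work.PD6

open MvPolynomial

universe u v w

theorem exists_zb {k : Type u} [Field k] [CharZero k] {σ : Type v} [Fintype σ]
    (a : (σ →₀ ℕ) → k) {Ω₀ : Type w} [Field Ω₀] [IsAlgClosed Ω₀] [Algebra k Ω₀]
    (hb : ∀ (Ω : Type (max v w)) [Field Ω] [Algebra k Ω] (x : σ → Ω),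
      (∀ w : σ → Ω, Lf a (ell x ^ 5 * ell w) = 0) → x = 0)
    (lam : Fin 7 → σ → Ω₀) (hf : GenFlag a (lam 0) (lam 1)) (hli : LinearIndependent Ω₀ lam)
    (hiso : Iso a lam) :
    ∃ (Ω : Type (max v w)) (_ : Field Ω) (_ : Algebra k Ω) (_ : IsAlgClosed Ω)
      (lam' : Fin 7 → σ → Ω) (z : σ → Ω) (s : Fin 5 → Ω),
      GenFlag a (lam' 0) (lam' 1) ∧ LinearIndependent Ω lam' ∧ Iso a lam' ∧ s ≠ 0 ∧
      (∀ p ∈ ({ell (lam' 0) ^ 5, ell (lam' 0) ^ 4 * ell (lam' 1), ell (lam' 0) ^ 3 * ell (lam' 1) ^ 2,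
        ell (lam' 0) ^ 2 * ell (lam' 1) ^ 3} : Set (MvPolynomial σ Ω)), Lf a (p * ell z) = 0) ∧
      (∀ i, Lf a (qc (ell (lam' 0)) (ell (lam' 1)) i *
        ell (comb (fun j : Fin 5 => lam' (Fin.natAdd 2 j)) s) * ell z) = 0) ∧
      Lf a (ell (lam' 0) ^ 3 * ell (comb (fun j : Fin 5 => lam' (Fin.natAdd 2 j)) s) ^ 2 *
        ell z) = 0 ∧
      ∀ r : Fin 4 → Ω, ∃ s' : Fin 5 → Ω, ∀ i, Lf a ((![ell (lam' 0) ^ 4,
        ell (lam' 0) ^ 3 * ell (lam' 1), ell (lam' 0) ^ 2 * ell (lam' 1) ^ 2,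
        ell (lam' 0) ^ 3 * ell (comb (fun j : Fin 5 => lam' (Fin.natAdd 2 j)) s)] :
        Fin 4 → MvPolynomial σ Ω) i * ell (comb (fun j : Fin 5 => lam' (Fin.natAdd 2 j)) s') *
        ell z) = r i :=
  exists_zb_of a (fun _ _ _ _ _ _ hf v hli hpl r => plane_onto hf v hli hpl r) hb lam hf hli hiso

end Pool.Agent.Work.PD6
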