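import Mathlib
import Pool.Agent.Work.MP_b62148_ag.Sextic.FlagExt
import Pool.Agent.Work.MP_b62148_ag.Sextic.Der
import Pool.Agent.Work.MP_b62148_ag.Sextic.Free
import Pool.Agent.Work.MP_b62148_ag.HS

/-!
Existence of a generic flag (module S5): a generic line through a generic point of the sextic.
-/

namespace Pool.Agent.Work.PD6

open MvPolynomial

universe u v w

section Aux

variable {k : Type*} [Field k] {σ : Type*} [Fintype σ] {a : (σ →₀ ℕ) → k}

/-- a point of the span of seven vectors on all polars of `y` -/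
theorem exists_point7 {Ω : Type*} [Field Ω] [IsAlgClosed Ω] [Algebra k Ω] (a : (σ →₀ ℕ) → k)
    (y : σ → Ω) (v : Fin 7 → σ → Ω) :
    ∃ s : Fin 7 → Ω, s ≠ 0 ∧
      ∀ i : ℕ, i ≤ 5 → Lf a (ell y ^ (5 - i) * ell (comb v s) ^ (i + 1)) = 0 := by
  classical
  let yP : σ → MvPolynomial (Fin 7) Ω := fun i => C (y i)
  let vP : Fin 7 → σ → MvPolynomial (Fin 7) Ω := fun j i => C (v j i)
  let F : Fin 6 → MvPolynomial (Fin 7) Ω := fun i =>
    Lf a (ell yP ^ (5 - (i : ℕ)) * ell (comb vP X) ^ ((i : ℕ) + 1))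
  have hev : ∀ (s : Fin 7 → Ω) i, MvPolynomial.eval s (F i) =
      Lf a (ell y ^ (5 - (i : ℕ)) * ell (comb v s) ^ ((i : ℕ) + 1)) := by
    intro s i
    have h := map_Lf a ((aeval s : MvPolynomial (Fin 7) Ω →ₐ[Ω] Ω).restrictScalars k)
      (ell yP ^ (5 - (i : ℕ)) * ell (comb vP X) ^ ((i : ℕ) + 1))
    rw [RingHom.map_mul, RingHom.map_pow, RingHom.map_pow, map_ell, map_ell] at h
    have e1 : (fun i => (((aeval s : MvPolynomial (Fin 7) Ω →ₐ[Ω] Ω).restrictScalars k :
        MvPolynomial (Fin 7) Ω →ₐ[k] Ω) : MvPolynomial (Fin 7) Ω →+* Ω) (yP i)) = y := by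
      funext j
      show aeval s (C (y j)) = y j
      simp
    have e2 : (fun i => (((aeval s : MvPolynomial (Fin 7) Ω →ₐ[Ω] Ω).restrictScalars k :
        MvPolynomial (Fin 7) Ω →ₐ[k] Ω) : MvPolynomial (Fin 7) Ω →+* Ω) (comb vP X i)) =
        comb v s := by
      funext j
      show aeval s (∑ l, X l * C (v l j)) = ∑ l, s l * v l j
      simp
    rw [e1, e2] at h
    rw [← h]
    show eval s (F i) = aeval s (F i)
    rw [MvPolynomial.aeval_eq_eval]
  obtain ⟨s, hs0, hs⟩ := PD.exists_common_zero (K := Ω) (by norm_num : 6 < 7) F (by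
    intro i
    rw [hev]
    have h0 : comb v (0 : Fin 7 → Ω) = 0 := by
      funext j
      simp [comb]
    rw [h0, ell_zero, zero_pow (Nat.succ_ne_zero _), mul_zero, map_zero])
  refine ⟨s, hs0, fun i hi => ?_⟩
  have h := hs ⟨i, by omega⟩
  rwa [hev] at h

/-- the tangent directions of lines through a fixed point -/
theorem psi_der {Ω : Type*} [Field Ω] [CharZero Ω] [Algebra k Ω] {y m : σ → Ω}
    (hl : ∀ i : ℕ, i ≤ 5 → Lf a (ell y ^ (5 - i) * ell m ^ (i + 1)) = 0)
    (D : Derivation k Ω Ω) (hy : ∀ i, D (y i) = 0) (i : ℕ) (hi : i ≤ 5) :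
    Lf a (ell y ^ (5 - i) * ell m ^ i * ell fun j => D (m j)) = 0 := by
  have h := congrArg D (hl i hi)
  have hy0 : cD D (ell y) = 0 := by
    rw [cD_ell]
    have : (fun i => D (y i)) = 0 := funext hy
    rw [this, ell_zero]
  rw [map_zero, D_Lf, Derivation.leibniz, Derivation.leibniz_pow, Derivation.leibniz_pow, hy0,
    cD_ell] at h
  have e : (ell y ^ (5 - i) • (i + 1) • ell m ^ (i + 1 - 1) • (ell fun j => D (m j)) +
      ell m ^ (i + 1) • (5 - i) • ell y ^ (5 - i - 1) • (0 : MvPolynomial σ Ω)) =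
      ((i + 1 : ℕ) : MvPolynomial σ Ω) *
        (ell y ^ (5 - i) * ell m ^ i * ell fun j => D (m j)) := by
    simp only [smul_eq_mul, nsmul_eq_mul, Nat.add_sub_cancel]
    ring
  rw [e, Lf_nsmul] at h
  exact (mul_eq_zero.mp h).resolve_left (Nat.cast_ne_zero.mpr (Nat.succ_ne_zero i))

/-- the six functionals of the line -/
noncomputable def psiL {Ω : Type*} [Field Ω] [Algebra k Ω] (a : (σ →₀ ℕ) → k) (y m : σ → Ω) :
    (σ → Ω) →ₗ[Ω] (Fin 6 → Ω) :=
  LinearMap.pi fun i => lin a (ell y ^ (5 - (i : ℕ)) * ell m ^ (i : ℕ))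

/-- linear combinations as a linear map -/
noncomputable def combL {Ω : Type*} [Field Ω] (v : Fin 7 → σ → Ω) :
    (Fin 7 → Ω) →ₗ[Ω] (σ → Ω) where
  toFun s := comb v s
  map_add' s t := by
    funext i
    simp only [comb, Pi.add_apply, add_mul, Finset.sum_add_distrib]
  map_smul' c s := by
    funext i
    simp only [comb, Pi.smul_apply, smul_eq_mul, RingHom.id_apply, Finset.mul_sum, mul_assoc]

/-- a generic flag from a generic point and seven generic vectors -/
theorem genFlag_of [CharZero k] {Ω : Type*} [Field Ω] [IsAlgClosed Ω] [Algebra k Ω]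
    {y : σ → Ω} (hg : GenPt a y) (v : Fin 7 → σ → Ω)
    (hv : ∀ tau : Fin 7 → σ → Ω, ∃ D : Derivation k Ω Ω, (∀ i, D (y i) = 0) ∧
      ∀ j i, D (v j i) = tau j i) (hcard : 9 ≤ Fintype.card σ) (s : Fin 7 → Ω) (hs0 : s ≠ 0)
    (hs : ∀ i : ℕ, i ≤ 5 → Lf a (ell y ^ (5 - i) * ell (comb v s) ^ (i + 1)) = 0) :
    GenFlag a y (comb v s) := by
  classical
  have cz : CharZero Ω := charZero_of_injective_algebraMap (algebraMap k Ω).injective
  obtain ⟨j0, hj0⟩ : ∃ j, s j ≠ 0 := by
    by_contra h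
    push Not at h
    exact hs0 (funext h)
  -- derivations moving one vector
  have hD : ∀ t : σ → Ω, ∃ (D : Derivation k Ω Ω) (e : Fin 7 → Ω), (∀ i, D (y i) = 0) ∧
      ∀ i, D (comb v s i) = s j0 * t i + comb v e i := by
    intro t
    obtain ⟨D, hD1, hD2⟩ := hv (Pi.single j0 t)
    refine ⟨D, fun j => D (s j), hD1, fun i => ?_⟩
    have h1 : D (comb v s i) = ∑ j, (s j * (Pi.single j0 t : Fin 7 → σ → Ω) j i +
        D (s j) * v j i) := by
      simp only [comb, map_sum, Derivation.leibniz, smul_eq_mul, hD2]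
      refine Finset.sum_congr rfl fun j _ => ?_
      ring
    rw [h1, Finset.sum_add_distrib]
    congr 1
    rw [Finset.sum_eq_single j0]
    · rw [Pi.single_eq_same]
    · intro j _ hj
      rw [Pi.single_eq_of_ne hj]
      simp
    · intro h
      exact absurd (Finset.mem_univ _) h
  have hline : ∀ p q : Ω, Lf a (ell (p • y + q • comb v s) ^ 6) = 0 := by
    intro p q
    apply line_of_coeff
    intro i hi
    rcases Nat.eq_zero_or_pos i with h | h
    · subst h
      simpa using hg.zero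
    · have h1 := hs (i - 1) (by omega)
      have e1 : 5 - (i - 1) = 6 - i := by omega
      have e2 : i - 1 + 1 = i := by omega
      rw [e1, e2] at h1
      exact h1
  have hli : ∀ p q : Ω, p • y + q • comb v s = 0 → p = 0 ∧ q = 0 := by
    intro p q h
    by_cases hq : q = 0
    · subst hq
      rw [zero_smul, add_zero] at h
      exact ⟨(smul_eq_zero.mp h).resolve_right hg.ne, rfl⟩
    · exfalso
      have hm : ∀ i, comb v s i = -(p / q) * y i := by
        intro i
        have h1 := congrFun h i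
        simp only [Pi.add_apply, Pi.smul_apply, smul_eq_mul, Pi.zero_apply] at h1
        field_simp
        linear_combination h1
      have hspan : Submodule.span Ω (Set.range (Fin.cons y v : Fin 8 → σ → Ω)) = ⊤ := by
        rw [eq_top_iff]
        intro t _
        obtain ⟨D, e, hD1, hD2⟩ := hD t
        have ht : t = (s j0)⁻¹ • (D (-(p / q)) • y - comb v e) := by
          funext i
          have h1 := hD2 i
          rw [hm i, Derivation.leibniz, hD1 i, smul_zero, zero_add, smul_eq_mul] at h1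
          simp only [Pi.smul_apply, Pi.sub_apply, smul_eq_mul]
          rw [eq_inv_mul_iff_mul_eq₀ hj0]
          linear_combination -h1
        rw [ht]
        refine Submodule.smul_mem _ _ (Submodule.sub_mem _ (Submodule.smul_mem _ _ ?_) ?_)
        · exact Submodule.subset_span ⟨0, rfl⟩
        · rw [comb_eq]
          refine Submodule.sum_mem _ fun j _ => Submodule.smul_mem _ _ ?_
          exact Submodule.subset_span ⟨j.succ, rfl⟩
      have h1 := finrank_range_le_card (R := Ω) (Fin.cons y v : Fin 8 → σ → Ω)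
      rw [Set.finrank, hspan, finrank_top, Module.finrank_fintype_fun_eq_card, Fintype.card_fin] at h1
      omega
  refine { hg with
    li := hli
    line := hline
    derm := ?_ }
  -- the functionals at the seven vectors
  have hpsi : ∀ t : σ → Ω, psiL a y (comb v s) t = 0 ↔
      ∀ i : ℕ, i ≤ 5 → Lf a (ell y ^ (5 - i) * ell (comb v s) ^ i * ell t) = 0 := by
    intro t
    constructor
    · intro h i hi
      exact congrFun h ⟨i, by omega⟩
    · intro h
      funext i
      exact h i (by omega)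
  have hkey : ∀ t : σ → Ω, ∃ (D : Derivation k Ω Ω) (e : Fin 7 → Ω), (∀ i, D (y i) = 0) ∧
      (∀ i, D (comb v s i) = s j0 * t i + comb v e i) ∧
      s j0 • psiL a y (comb v s) t + psiL a y (comb v s) (comb v e) = 0 := by
    intro t
    obtain ⟨D, e, hD1, hD2⟩ := hD t
    refine ⟨D, e, hD1, hD2, ?_⟩
    rw [← map_smul, ← map_add]
    have h1 : s j0 • t + comb v e = fun i => D (comb v s i) := by
      funext i
      rw [hD2 i]
      rfl
    rw [h1, hpsi]
    exact psi_der hs D hD1
  let Φ : (Fin 7 → Ω) →ₗ[Ω] (Fin 6 → Ω) := (psiL a y (comb v s)).comp (combL v)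
  have hΦ : ∀ e, Φ e = psiL a y (comb v s) (comb v e) := fun _ => rfl
  have hsurj : Function.Surjective Φ := by
    intro r
    obtain ⟨t, ht⟩ := line_onto hg (comb v s) hli hline (fun i => if h : i < 6 then r ⟨i, h⟩ else 0)
    obtain ⟨D, e, -, -, h3⟩ := hkey t
    have ht' : psiL a y (comb v s) t = r := by
      funext i
      have h1 := ht i (by omega)
      rw [dif_pos i.2] at h1
      exact h1
    refine ⟨-((s j0)⁻¹ • e), ?_⟩
    rw [map_neg, map_smul, hΦ]
    have h4 : psiL a y (comb v s) (comb v e) = -(s j0 • r) := by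
      rw [ht'] at h3
      exact eq_neg_of_add_eq_zero_right h3
    rw [h4, smul_neg, neg_neg, smul_smul, inv_mul_cancel₀ hj0, one_smul]
  have hker : Module.finrank Ω (LinearMap.ker Φ) = 1 := by
    have h1 := LinearMap.finrank_range_add_finrank_ker Φ
    rw [LinearMap.range_eq_top.mpr hsurj, finrank_top, Module.finrank_fintype_fun_eq_card,
      Module.finrank_fintype_fun_eq_card, Fintype.card_fin, Fintype.card_fin] at h1
    omega
  have hsker : Φ s = 0 := by
    rw [hΦ, hpsi]
    intro i hi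
    have h1 := hs i hi
    rw [pow_succ, ← mul_assoc] at h1
    exact h1
  have hmul : ∀ e : Fin 7 → Ω, Φ e = 0 → ∃ c : Ω, e = c • s := by
    intro e he
    have h1 := (finrank_eq_one_iff_of_nonzero' (⟨s, hsker⟩ : LinearMap.ker Φ) (by
      intro h
      exact hs0 (congrArg Subtype.val h))).mp hker ⟨e, he⟩
    obtain ⟨c, hc⟩ := h1
    exact ⟨c, (congrArg Subtype.val hc).symm⟩
  intro t ht
  obtain ⟨D, e, hD1, hD2, h3⟩ := hkey ((s j0)⁻¹ • t)
  have h4 : psiL a y (comb v s) ((s j0)⁻¹ • t) = 0 := by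
    rw [map_smul, (hpsi t).mpr ht, smul_zero]
  rw [h4, smul_zero, zero_add, ← hΦ] at h3
  obtain ⟨c, rfl⟩ := hmul e h3
  refine ⟨D, c, hD1, fun i => ?_⟩
  rw [hD2 i]
  have h5 : comb v (c • s) i = c * comb v s i := by
    simp only [comb, Pi.smul_apply, smul_eq_mul, Finset.mul_sum, mul_assoc]
  rw [h5, Pi.smul_apply, smul_eq_mul, mul_inv_cancel_left₀ hj0]

end Aux

/-- existence of a generic flag -/
theorem exists_genFlag {k : Type u} [Field k] [CharZero k] {σ : Type v} [Fintype σ]
    (a : (σ →₀ ℕ) → k) {Ω₀ : Type w} [Field Ω₀] [IsAlgClosed Ω₀] [Algebra k Ω₀]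
    (hb : ∀ (Ω : Type (max v w)) [Field Ω] [Algebra k Ω] (x : σ → Ω),
      (∀ w : σ → Ω, Lf a (ell x ^ 5 * ell w) = 0) → x = 0)
    (y : σ → Ω₀) (hg : GenPt a y) (hcard : 9 ≤ Fintype.card σ) :
    ∃ (Ω : Type (max v w)) (_ : Field Ω) (_ : Algebra k Ω) (_ : IsAlgClosed Ω) (y' m : σ → Ω),
      GenFlag a y' m := by
  classical
  obtain ⟨Ω, _, _, _, _, _, t, -, hD⟩ := PD5.A4.exists_gen (K := k) (σ := Fin 7 × σ)
    (fun (x : Empty) (_ : Fin 7 × σ) => (x.elim : Ω₀))
  have hg' : GenPt a fun i => algebraMap Ω₀ Ω (y i) := genPt_ext hg (hb Ω)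
  obtain ⟨s, hs0, hs⟩ := exists_point7 a (fun i => algebraMap Ω₀ Ω (y i)) (fun j i => t (j, i))
  refine ⟨Ω, inferInstance, inferInstance, inferInstance, fun i => algebraMap Ω₀ Ω (y i),
    comb (fun j i => t (j, i)) s, genFlag_of hg' _ ?_ hcard s hs0 hs⟩
  intro tau
  obtain ⟨D, hD1, hD2⟩ := hD 0 (fun p => tau p.1 p.2) (fun x => x.elim)
  exact ⟨D, fun i => by rw [hD1]; rfl, fun j i => hD2 (j, i)⟩

end Pool.Agent.Work.PD6
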