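import Mathlib
import Pool.Agent.Work.MP_b62148_ag.Sextic.Flag
import Pool.Agent.Work.MP_b62148_ag.Quintic.IrredQ

/-!
S12: a smooth form of degree six in at least three variables is irreducible.
-/

namespace Pool.Agent.Work.PD6

open MvPolynomial

variable {k : Type*} [Field k] {σ : Type*} [Fintype σ]

theorem irreducible_of_smooth (F : MvPolynomial σ k) (hF : F.IsHomogeneous 6)
    (hs : PD.SmoothForm F) (hcard : 3 ≤ Fintype.card σ) : Irreducible F := by
  classical
  have hne : Nonempty σ := Fintype.card_pos_iff.mp (by omega)
  have hF0 : F ≠ 0 := by
    rintro rfl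
    have := hs (fun _ => 1) (fun i => by simp)
    have h1 := congrFun this (Classical.arbitrary σ)
    simp at h1
  have hc0 : coeff 0 F = 0 := hF.coeff_eq_zero (by simp)
  refine ⟨?_, ?_⟩
  · intro hu
    rw [isUnit_iff_totalDegree_of_isReduced, hc0] at hu
    exact not_isUnit_zero hu.1
  · intro a b hab
    by_cases ha : coeff 0 a = 0
    · by_cases hb : coeff 0 b = 0
      · exfalso
        let e : σ ≃ Fin (Fintype.card σ) := Fintype.equivFin σ
        let Kb := AlgebraicClosure k
        let G : Fin 2 → MvPolynomial (Fin (Fintype.card σ)) Kb :=
          ![rename e (map (algebraMap k Kb) a), rename e (map (algebraMap k Kb) b)]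
        have hval : ∀ (p : MvPolynomial σ k) (x : Fin (Fintype.card σ) → Kb),
            eval x (rename e (map (algebraMap k Kb) p)) = aeval (x ∘ e) p := by
          intro p x
          rw [eval_rename, eval_map, aeval_def]
        have hz : ∀ p : MvPolynomial σ k, coeff 0 p = 0 → aeval (0 : σ → Kb) p = 0 := by
          intro p hp
          rw [aeval_zero, ← constantCoeff_eq] at *
          rw [hp, map_zero]
        obtain ⟨x, hx0, hx⟩ := PD.exists_common_zero (m := 2) (by omega) G (by
          intro i
          fin_cases i
          · show eval 0 (rename e (map (algebraMap k Kb) a)) = 0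
            rw [hval]
            exact hz a ha
          · show eval 0 (rename e (map (algebraMap k Kb) b)) = 0
            rw [hval]
            exact hz b hb)
        have hxa : aeval (x ∘ e) a = 0 := by
          rw [← hval]; exact hx 0
        have hxb : aeval (x ∘ e) b = 0 := by
          rw [← hval]; exact hx 1
        have h1 := hs (x ∘ e) (fun i => by
          rw [hab, pderiv_mul, map_add, map_mul, map_mul, hxa, hxb, zero_mul, mul_zero, add_zero])
        apply hx0
        funext i
        have h2 := congrFun h1 (e.symm i)
        simpa using h2
      · right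
        exact PD5.isUnit_of_coeff_ne_zero hF hF0 (by rw [hab, mul_comm]) hb
    · left
      exact PD5.isUnit_of_coeff_ne_zero hF hF0 hab ha

end Pool.Agent.Work.PD6
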