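import Mathlib
import Pool.Agent.Work.MP_b62148_ag.Sextic.Flag

/-!
Auxiliary lemmas for the leading data: perturbation of a surjective linear map, bilinearity of the
evaluation maps, and the vectors of the six-space.
-/

namespace Pool.Agent.Work.PD6

open MvPolynomial

/-- a surjective map onto a finite dimensional space stays surjective under perturbation with all
but finitely many parameters -/
theorem onto_perturb {Ω V W : Type*} [Field Ω] [Infinite Ω] [AddCommGroup V] [Module Ω V]
    [AddCommGroup W] [Module Ω W] [FiniteDimensional Ω W] (L₀ L₁ : V →ₗ[Ω] W)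
    (h : Function.Surjective L₀) (c : Ω) :
    ∃ τ : Ω, τ ≠ c ∧ Function.Surjective (L₀ + τ • L₁) := by
  obtain ⟨R, hR⟩ := L₀.exists_rightInverse_of_surjective (LinearMap.range_eq_top.mpr h)
  set N : Module.End Ω W := L₁ ∘ₗ R with hN
  have hfin : ({μ | N.HasEigenvalue μ} ∪ {0, -c⁻¹} : Set Ω).Finite :=
    (Module.End.finite_hasEigenvalue N).union (by simp)
  obtain ⟨μ, hμ⟩ := hfin.infinite_compl.nonempty
  simp only [Set.mem_compl_iff, Set.mem_union, Set.mem_setOf_eq, Set.mem_insert_iff,
    Set.mem_singleton_iff, not_or] at hμ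
  obtain ⟨hμ1, hμ0, hμc⟩ := hμ
  refine ⟨-μ⁻¹, fun h0 => hμc ?_, ?_⟩
  · rw [← h0, inv_neg, inv_inv, neg_neg]
  · -- injectivity of 1 - μ⁻¹ N
    have hinj : Function.Injective (LinearMap.id + (-μ⁻¹) • N : W →ₗ[Ω] W) := by
      rw [← LinearMap.ker_eq_bot, LinearMap.ker_eq_bot']
      intro w hw
      by_contra hne
      apply hμ1
      refine Module.End.hasEigenvalue_of_hasEigenvector (x := w) ⟨?_, hne⟩
      rw [Module.End.mem_eigenspace_iff]
      have h2 : w + (-μ⁻¹) • N w = 0 := by simpa using hw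
      have h3 : w = μ⁻¹ • N w := by
        rw [neg_smul] at h2
        exact (sub_eq_zero.mp (by rw [sub_eq_add_neg]; exact h2))
      calc N w = μ • (μ⁻¹ • N w) := by rw [smul_smul, mul_inv_cancel₀ hμ0, one_smul]
        _ = μ • w := by rw [← h3]
    have hsur := LinearMap.injective_iff_surjective.mp hinj
    intro w
    obtain ⟨v, hv⟩ := hsur w
    refine ⟨R v, ?_⟩
    have h4 : L₀ (R v) = v := LinearMap.congr_fun hR v
    simp only [LinearMap.add_apply, LinearMap.smul_apply, h4]
    simpa [hN] using hv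

variable {k : Type*} [Field k] {σ : Type*} [Fintype σ]

section comb

variable {Ω : Type*} [CommRing Ω] {ι : Type*} [Fintype ι]

theorem ell_comb_add (lam : ι → σ → Ω) (s t : ι → Ω) :
    ell (comb lam (s + t)) = ell (comb lam s) + ell (comb lam t) := by
  simp only [ell_comb, Pi.add_apply, map_add, add_mul, Finset.sum_add_distrib]

theorem ell_comb_smul (lam : ι → σ → Ω) (c : Ω) (s : ι → Ω) :
    ell (comb lam (c • s)) = C c * ell (comb lam s) := by
  simp only [ell_comb, Pi.smul_apply, smul_eq_mul, map_mul, Finset.mul_sum, mul_assoc]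

theorem comb_add' (lam : ι → σ → Ω) (s t : ι → Ω) :
    comb lam (s + t) = comb lam s + comb lam t := by
  simp only [comb_eq, Pi.add_apply, add_smul, Finset.sum_add_distrib]

theorem comb_smul' (lam : ι → σ → Ω) (c : Ω) (s : ι → Ω) :
    comb lam (c • s) = c • comb lam s := by
  simp only [comb_eq, Pi.smul_apply, smul_eq_mul, Finset.smul_sum, mul_smul]

variable [Algebra k Ω] (a : (σ →₀ ℕ) → k)

/-- the map `s ↦ ([F_i S Z])` -/
noncomputable def Lz {r : ℕ} (F : Fin r → MvPolynomial σ Ω) (lam : ι → σ → Ω) (z : σ → Ω) :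
    (ι → Ω) →ₗ[Ω] (Fin r → Ω) where
  toFun s i := Lf a (F i * ell (comb lam s) * ell z)
  map_add' s t := by
    funext i
    simp only [ell_comb_add, mul_add, add_mul, map_add, Pi.add_apply]
  map_smul' c s := by
    funext i
    simp only [ell_comb_smul, RingHom.id_apply, Pi.smul_apply, smul_eq_mul]
    rw [show F i * (C c * ell (comb lam s)) * ell z = C c * (F i * ell (comb lam s) * ell z) by
      ring, Lf_C_mul]

theorem Lz_apply {r : ℕ} (F : Fin r → MvPolynomial σ Ω) (lam : ι → σ → Ω) (z : σ → Ω)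
    (s : ι → Ω) (i : Fin r) : Lz a F lam z s i = Lf a (F i * ell (comb lam s) * ell z) := rfl

theorem Lz_add_smul {r : ℕ} (F : Fin r → MvPolynomial σ Ω) (lam : ι → σ → Ω) (z p : σ → Ω)
    (τ : Ω) : Lz a F lam (z + τ • p) = Lz a F lam z + τ • Lz a F lam p := by
  ext s i
  simp only [LinearMap.comp_apply, Lz_apply, LinearMap.add_apply, LinearMap.smul_apply,
    Pi.add_apply, Pi.smul_apply, smul_eq_mul, ell_add, ell_smul, mul_add, map_add]
  congr 1
  rw [show ∀ q : MvPolynomial σ Ω, q * (C τ * ell p) = C τ * (q * ell p) from fun q => by ring,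
    Lf_C_mul]

end comb

end Pool.Agent.Work.PD6
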