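import Mathlib
import Pool.Agent.Work.MP_b62148_ag.Sextic.LeadAux

/-!
S6b: leading data from a generic `z` and a solution `b`.
-/

namespace Pool.Agent.Work.PD6

open MvPolynomial

variable {k : Type*} [Field k] {σ : Type*} [Fintype σ]

section shift

omit [Fintype σ]

variable {Ω : Type*} [CommRing Ω] [Algebra k Ω] {a : (σ →₀ ℕ) → k}

/-- the conditions on `B` -/
structure BCond (a : (σ →₀ ℕ) → k) (Y M B Z : MvPolynomial σ Ω) : Prop where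
  z1 : Lf a (Y ^ 5 * Z) = 0
  z2 : Lf a (Y ^ 4 * M * Z) = 0
  z3 : Lf a (Y ^ 3 * M ^ 2 * Z) = 0
  z4 : Lf a (Y ^ 2 * M ^ 3 * Z) = 0
  q1 : Lf a (Y ^ 4 * B * Z) = 0
  q2 : Lf a (Y ^ 3 * M * B * Z) = 0
  q3 : Lf a (Y ^ 2 * M ^ 2 * B * Z) = 0
  c1 : Lf a (Y ^ 3 * B ^ 2 * Z) = 0

variable {Y M B Z : MvPolynomial σ Ω}

theorem BCond.shiftM (h : BCond a Y M B Z) (t : Ω) : BCond a Y M (B + C t * M) Z where
  z1 := h.z1
  z2 := h.z2
  z3 := h.z3
  z4 := h.z4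
  q1 := by
    rw [show Y ^ 4 * (B + C t * M) * Z = Y ^ 4 * B * Z + C t * (Y ^ 4 * M * Z) by ring, map_add,
      Lf_C_mul, h.q1, h.z2]
    ring
  q2 := by
    rw [show Y ^ 3 * M * (B + C t * M) * Z = Y ^ 3 * M * B * Z + C t * (Y ^ 3 * M ^ 2 * Z) by ring,
      map_add, Lf_C_mul, h.q2, h.z3]
    ring
  q3 := by
    rw [show Y ^ 2 * M ^ 2 * (B + C t * M) * Z = Y ^ 2 * M ^ 2 * B * Z +
      C t * (Y ^ 2 * M ^ 3 * Z) by ring, map_add, Lf_C_mul, h.q3, h.z4]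
    ring
  c1 := by
    have e : Y ^ 3 * (B + C t * M) ^ 2 * Z = Y ^ 3 * B ^ 2 * Z + C (2 * t) * (Y ^ 3 * M * B * Z) +
        C (t ^ 2) * (Y ^ 3 * M ^ 2 * Z) := by
      simp only [map_mul, map_pow, map_ofNat]; ring
    rw [e, map_add, map_add, Lf_C_mul, Lf_C_mul, h.c1, h.q2, h.z3]
    ring

theorem BCond.shiftM_d (h : BCond a Y M B Z) (t : Ω) :
    Lf a (Y ^ 2 * (B + C t * M) ^ 3 * Z) =
      Lf a (Y ^ 2 * B ^ 3 * Z) + 3 * t * Lf a (Y ^ 2 * M * B ^ 2 * Z) := by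
  have e : Y ^ 2 * (B + C t * M) ^ 3 * Z = Y ^ 2 * B ^ 3 * Z +
      C (3 * t) * (Y ^ 2 * M * B ^ 2 * Z) + C (3 * t ^ 2) * (Y ^ 2 * M ^ 2 * B * Z) +
      C (t ^ 3) * (Y ^ 2 * M ^ 3 * Z) := by
    simp only [map_mul, map_pow, map_ofNat]; ring
  rw [e, map_add, map_add, map_add, Lf_C_mul, Lf_C_mul, Lf_C_mul, h.q3, h.z4]
  ring

theorem BCond.shiftM_c (h : BCond a Y M B Z) (t : Ω) :
    Lf a (Y ^ 2 * M * (B + C t * M) ^ 2 * Z) = Lf a (Y ^ 2 * M * B ^ 2 * Z) := by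
  have e : Y ^ 2 * M * (B + C t * M) ^ 2 * Z = Y ^ 2 * M * B ^ 2 * Z +
      C (2 * t) * (Y ^ 2 * M ^ 2 * B * Z) + C (t ^ 2) * (Y ^ 2 * M ^ 3 * Z) := by
    simp only [map_mul, map_pow, map_ofNat]; ring
  rw [e, map_add, map_add, Lf_C_mul, Lf_C_mul, h.q3, h.z4]
  ring

theorem BCond.shiftY (h : BCond a Y M B Z) (κ : Ω) : BCond a Y M (B + C κ * Y) Z where
  z1 := h.z1
  z2 := h.z2
  z3 := h.z3
  z4 := h.z4
  q1 := by
    rw [show Y ^ 4 * (B + C κ * Y) * Z = Y ^ 4 * B * Z + C κ * (Y ^ 5 * Z) by ring, map_add,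
      Lf_C_mul, h.q1, h.z1]
    ring
  q2 := by
    rw [show Y ^ 3 * M * (B + C κ * Y) * Z = Y ^ 3 * M * B * Z + C κ * (Y ^ 4 * M * Z) by ring,
      map_add, Lf_C_mul, h.q2, h.z2]
    ring
  q3 := by
    rw [show Y ^ 2 * M ^ 2 * (B + C κ * Y) * Z = Y ^ 2 * M ^ 2 * B * Z +
      C κ * (Y ^ 3 * M ^ 2 * Z) by ring, map_add, Lf_C_mul, h.q3, h.z3]
    ring
  c1 := by
    have e : Y ^ 3 * (B + C κ * Y) ^ 2 * Z = Y ^ 3 * B ^ 2 * Z + C (2 * κ) * (Y ^ 4 * B * Z) +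
        C (κ ^ 2) * (Y ^ 5 * Z) := by
      simp only [map_mul, map_pow, map_ofNat]; ring
    rw [e, map_add, map_add, Lf_C_mul, Lf_C_mul, h.c1, h.q1, h.z1]
    ring

theorem BCond.shiftY_d (h : BCond a Y M B Z) (κ : Ω) :
    Lf a (Y ^ 2 * (B + C κ * Y) ^ 3 * Z) = Lf a (Y ^ 2 * B ^ 3 * Z) := by
  have e : Y ^ 2 * (B + C κ * Y) ^ 3 * Z = Y ^ 2 * B ^ 3 * Z +
      C (3 * κ) * (Y ^ 3 * B ^ 2 * Z) + C (3 * κ ^ 2) * (Y ^ 4 * B * Z) +
      C (κ ^ 3) * (Y ^ 5 * Z) := by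
    simp only [map_mul, map_pow, map_ofNat]; ring
  rw [e, map_add, map_add, map_add, Lf_C_mul, Lf_C_mul, Lf_C_mul, h.c1, h.q1, h.z1]
  ring

theorem BCond.shiftY_c (h : BCond a Y M B Z) (κ : Ω) :
    Lf a (Y ^ 2 * M * (B + C κ * Y) ^ 2 * Z) = Lf a (Y ^ 2 * M * B ^ 2 * Z) := by
  have e : Y ^ 2 * M * (B + C κ * Y) ^ 2 * Z = Y ^ 2 * M * B ^ 2 * Z +
      C (2 * κ) * (Y ^ 3 * M * B * Z) + C (κ ^ 2) * (Y ^ 4 * M * Z) := by
    simp only [map_mul, map_pow, map_ofNat]; ring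
  rw [e, map_add, map_add, Lf_C_mul, Lf_C_mul, h.q2, h.z2]
  ring

theorem BCond.shiftY_e (h : BCond a Y M B Z) (hd : Lf a (Y ^ 2 * B ^ 3 * Z) = 0) (κ : Ω) :
    Lf a (Y * (B + C κ * Y) ^ 4 * Z) = Lf a (Y * B ^ 4 * Z) := by
  have e : Y * (B + C κ * Y) ^ 4 * Z = Y * B ^ 4 * Z +
      C (4 * κ) * (Y ^ 2 * B ^ 3 * Z) + C (6 * κ ^ 2) * (Y ^ 3 * B ^ 2 * Z) +
      C (4 * κ ^ 3) * (Y ^ 4 * B * Z) + C (κ ^ 4) * (Y ^ 5 * Z) := by
    simp only [map_mul, map_pow, map_ofNat]; ring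
  rw [e, map_add, map_add, map_add, map_add, Lf_C_mul, Lf_C_mul, Lf_C_mul, Lf_C_mul, h.c1, h.q1,
    h.z1, hd]
  ring

theorem BCond.shiftY_f (h : BCond a Y M B Z) (hd : Lf a (Y ^ 2 * B ^ 3 * Z) = 0) (κ : Ω) :
    Lf a ((B + C κ * Y) ^ 5 * Z) = Lf a (B ^ 5 * Z) + 5 * κ * Lf a (Y * B ^ 4 * Z) := by
  have e : (B + C κ * Y) ^ 5 * Z = B ^ 5 * Z + C (5 * κ) * (Y * B ^ 4 * Z) +
      C (10 * κ ^ 2) * (Y ^ 2 * B ^ 3 * Z) + C (10 * κ ^ 3) * (Y ^ 3 * B ^ 2 * Z) +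
      C (5 * κ ^ 4) * (Y ^ 4 * B * Z) + C (κ ^ 5) * (Y ^ 5 * Z) := by
    simp only [map_mul, map_pow, map_ofNat]; ring
  rw [e, map_add, map_add, map_add, map_add, map_add, Lf_C_mul, Lf_C_mul, Lf_C_mul, Lf_C_mul,
    Lf_C_mul, h.c1, h.q1, h.z1, hd]
  ring

end shift

section plane

variable {Ω : Type*} [Field Ω] [Algebra k Ω] {a : (σ →₀ ℕ) → k} {lam : Fin 7 → σ → Ω}

omit [Fintype σ] in
theorem plane_li (hli : LinearIndependent Ω lam) {s' : Fin 5 → Ω} (hs : s' ≠ 0) (r s t : Ω)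
    (h : r • lam 0 + s • lam 1 + t • comb (fun j : Fin 5 => lam (Fin.natAdd 2 j)) s' = 0) :
    r = 0 ∧ s = 0 ∧ t = 0 := by
  rw [Fintype.linearIndependent_iff] at hli
  have h1 := hli (Fin.append ![r, s] (t • s') : Fin (2 + 5) → Ω) (by
    change ∑ i : Fin (2 + 5), (Fin.append ![r, s] (t • s') : Fin (2 + 5) → Ω) i • lam i = 0
    rw [Fin.sum_univ_add]
    simp only [Fin.append_left, Fin.append_right, Fin.sum_univ_two]
    rw [← h, comb_eq, Finset.smul_sum]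
    simp only [Pi.smul_apply, smul_eq_mul, mul_smul]
    rfl)
  refine ⟨h1 0, h1 1, ?_⟩
  by_contra ht
  apply hs
  funext j
  have h2 := h1 (Fin.natAdd 2 j)
  rw [Fin.append_right, Pi.smul_apply, smul_eq_mul] at h2
  exact (mul_eq_zero.mp h2).resolve_left ht

theorem comb5_mem (s' : Fin 5 → Ω) :
    ell (comb (fun j : Fin 5 => lam (Fin.natAdd 2 j)) s') ∈ Sp lam := by
  rw [ell_comb]
  refine Submodule.sum_mem _ fun j _ => ?_
  rw [← smul_eq_C_mul]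
  exact Submodule.smul_mem _ _ (mem_Sp lam _)

theorem iso_pow6 (hiso : Iso a lam) {p : MvPolynomial σ Ω} (h : p ∈ Sp lam) :
    Lf a (p ^ 6) = 0 := by
  have h1 := hiso.six h h h h h h
  rwa [show p * p * p * p * p * p = p ^ 6 by ring] at h1

theorem plane_pl (hiso : Iso a lam) (s' : Fin 5 → Ω) (r s t : Ω) :
    Lf a (ell (r • lam 0 + s • lam 1 + t • comb (fun j : Fin 5 => lam (Fin.natAdd 2 j)) s') ^ 6)
      = 0 := by
  have h : ell (r • lam 0 + s • lam 1 + t • comb (fun j : Fin 5 => lam (Fin.natAdd 2 j)) s') ∈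
      Sp lam := by
    rw [ell_add, ell_add, ell_smul, ell_smul, ell_smul, ← smul_eq_C_mul, ← smul_eq_C_mul,
      ← smul_eq_C_mul]
    exact Submodule.add_mem _ (Submodule.add_mem _ (Submodule.smul_mem _ _ (mem_Sp lam _))
      (Submodule.smul_mem _ _ (mem_Sp lam _))) (Submodule.smul_mem _ _ (comb5_mem _))
  exact iso_pow6 hiso h

end plane

section final

/-- the statement of `plane_onto` for the flag `y, m` -/
def PlaneOnto (a : (σ →₀ ℕ) → k) {Ω : Type*} [Field Ω] [Algebra k Ω] (y m : σ → Ω) : Prop :=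
  ∀ v : σ → Ω, (∀ r s t : Ω, r • y + s • m + t • v = 0 → r = 0 ∧ s = 0 ∧ t = 0) →
    (∀ r s t : Ω, Lf a (ell (r • y + s • m + t • v) ^ 6) = 0) → ∀ r : ℕ → ℕ → Ω,
    ∃ w : σ → Ω, ∀ i j, i ≤ 5 → j ≤ i →
      Lf a (ell y ^ (5 - i) * ell m ^ (i - j) * ell v ^ j * ell w) = r i j

variable {a : (σ →₀ ℕ) → k} {Ω : Type*} [Field Ω] [Algebra k Ω]

theorem lead_final [CharZero Ω] (lam : Fin 7 → σ → Ω) (z : σ → Ω) (s : Fin 5 → Ω)
    (hplane : PlaneOnto a (lam 0) (lam 1)) (hli : LinearIndependent Ω lam) (hiso : Iso a lam)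
    (hB : BCond a (ell (lam 0)) (ell (lam 1)) (ell (comb (fun j : Fin 5 => lam (Fin.natAdd 2 j)) s))
      (ell z))
    (hcne : Lf a (ell (lam 0) ^ 2 * ell (lam 1) *
      ell (comb (fun j : Fin 5 => lam (Fin.natAdd 2 j)) s) ^ 2 * ell z) ≠ 0)
    (t : Ω)
    (ht : Lf a (ell (lam 0) ^ 2 * ell (comb (fun j : Fin 5 => lam (Fin.natAdd 2 j)) s) ^ 3 * ell z)
      + 3 * t * Lf a (ell (lam 0) ^ 2 * ell (lam 1) *
      ell (comb (fun j : Fin 5 => lam (Fin.natAdd 2 j)) s) ^ 2 * ell z) = 0)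
    (hene : Lf a (ell (lam 0) * (ell (comb (fun j : Fin 5 => lam (Fin.natAdd 2 j)) s) +
      C t * ell (lam 1)) ^ 4 * ell z) ≠ 0)
    (honto : ∀ r : Fin 4 → Ω, ∃ s' : Fin 5 → Ω, ∀ i, Lf a ((![ell (lam 0) ^ 4,
        ell (lam 0) ^ 3 * ell (lam 1), ell (lam 0) ^ 2 * ell (lam 1) ^ 2,
        ell (lam 0) ^ 3 * ell (comb (fun j : Fin 5 => lam (Fin.natAdd 2 j)) s)] :
        Fin 4 → MvPolynomial σ Ω) i * ell (comb (fun j : Fin 5 => lam (Fin.natAdd 2 j)) s') *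
        ell z) = r i) : Leading a Ω := by
  set lam5 : Fin 5 → σ → Ω := fun j => lam (Fin.natAdd 2 j) with hlam5
  set Y := ell (lam 0) with hY
  set M := ell (lam 1) with hM
  set B := ell (comb lam5 s) with hBdef
  set Z := ell z with hZ
  -- the new b
  have hB1 := hB.shiftM t
  have hd1 : Lf a (Y ^ 2 * (B + C t * M) ^ 3 * Z) = 0 := by rw [hB.shiftM_d t, ht]
  obtain ⟨κ, hκ⟩ : ∃ κ : Ω, Lf a ((B + C t * M) ^ 5 * Z) +
      5 * κ * Lf a (Y * (B + C t * M) ^ 4 * Z) = 0 := by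
    refine ⟨-Lf a ((B + C t * M) ^ 5 * Z) / (5 * Lf a (Y * (B + C t * M) ^ 4 * Z)), ?_⟩
    field_simp
    ring
  have hB2 := hB1.shiftY κ
  have hd2 := (hB1.shiftY_d κ).trans hd1
  have hc2 := (hB1.shiftY_c κ).trans (hB.shiftM_c t)
  have he2 := hB1.shiftY_e hd1 κ
  have hf2 := (hB1.shiftY_f hd1 κ).trans hκ
  set b' : σ → Ω := comb lam5 s + t • lam 1 + κ • lam 0 with hb'
  have hb'e : ell b' = B + C t * M + C κ * Y := by
    rw [hb', ell_add, ell_add, ell_smul, ell_smul]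
  -- n
  obtain ⟨sv, hsv⟩ := honto ![0, 0, 0, 1]
  have hv0 : Lf a (Y ^ 4 * ell (comb lam5 sv) * Z) = 0 := by simpa using hsv 0
  have hv1 : Lf a (Y ^ 3 * M * ell (comb lam5 sv) * Z) = 0 := by simpa using hsv 1
  have hv2 : Lf a (Y ^ 2 * M ^ 2 * ell (comb lam5 sv) * Z) = 0 := by simpa using hsv 2
  have hv3 : Lf a (Y ^ 3 * B * ell (comb lam5 sv) * Z) = 1 := by simpa using hsv 3
  set V := ell (comb lam5 sv) with hV
  set β : Ω := Lf a (Y ^ 3 * V ^ 2 * Z) / 2 with hβ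
  set sn : Fin 5 → Ω := sv + (-β) • s with hsn
  set N := ell (comb lam5 sn) with hN
  have hNe : N = V + C (-β) * B := by
    rw [hN, hsn, ell_comb_add, ell_comb_smul]
  have hn0 : Lf a (Y ^ 4 * N * Z) = 0 := by
    rw [hNe, show Y ^ 4 * (V + C (-β) * B) * Z = Y ^ 4 * V * Z + C (-β) * (Y ^ 4 * B * Z) by ring,
      map_add, Lf_C_mul, hv0, hB.q1]
    ring
  have hn1 : Lf a (Y ^ 3 * M * N * Z) = 0 := by
    rw [hNe, show Y ^ 3 * M * (V + C (-β) * B) * Z = Y ^ 3 * M * V * Z +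
      C (-β) * (Y ^ 3 * M * B * Z) by ring, map_add, Lf_C_mul, hv1, hB.q2]
    ring
  have hn2 : Lf a (Y ^ 2 * M ^ 2 * N * Z) = 0 := by
    rw [hNe, show Y ^ 2 * M ^ 2 * (V + C (-β) * B) * Z = Y ^ 2 * M ^ 2 * V * Z +
      C (-β) * (Y ^ 2 * M ^ 2 * B * Z) by ring, map_add, Lf_C_mul, hv2, hB.q3]
    ring
  have hnn : Lf a (Y ^ 3 * N ^ 2 * Z) = 0 := by
    have e : Y ^ 3 * (V + C (-β) * B) ^ 2 * Z = Y ^ 3 * V ^ 2 * Z +
        C (2 * (-β)) * (Y ^ 3 * B * V * Z) + C ((-β) ^ 2) * (Y ^ 3 * B ^ 2 * Z) := by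
      simp only [map_mul, map_pow, map_ofNat]; ring
    rw [hNe, e, map_add, map_add, Lf_C_mul, Lf_C_mul, hv3, hB.c1, hβ]
    ring
  have hnb0 : Lf a (Y ^ 3 * N * B * Z) = 1 := by
    rw [hNe, show Y ^ 3 * (V + C (-β) * B) * B * Z = Y ^ 3 * B * V * Z +
      C (-β) * (Y ^ 3 * B ^ 2 * Z) by ring, map_add, Lf_C_mul, hv3, hB.c1]
    ring
  have hnb : Lf a (Y ^ 3 * N * (B + C t * M + C κ * Y) * Z) = 1 := by
    rw [show Y ^ 3 * N * (B + C t * M + C κ * Y) * Z = Y ^ 3 * N * B * Z +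
      C t * (Y ^ 3 * M * N * Z) + C κ * (Y ^ 4 * N * Z) by ring, map_add, map_add, Lf_C_mul,
      Lf_C_mul, hnb0, hn0, hn1]
    ring
  have hsn0 : sn ≠ 0 := by
    intro h0
    have hN0 : N = 0 := by
      rw [hN, ell_comb, h0]
      simp
    rw [hN0] at hnb0
    simp at hnb0
  -- A
  have hA : ∀ j : Fin 3, ∃ s' : Fin 5 → Ω, ∀ i : Fin 3, Lf a (qc Y M i * ell (comb lam5 s') * Z) =
      if i = j then 1 else 0 := by
    intro j
    obtain ⟨s', hs'⟩ := honto ![if 0 = j then 1 else 0, if 1 = j then 1 else 0,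
      if 2 = j then 1 else 0, 0]
    refine ⟨s', fun i => ?_⟩
    fin_cases i
    · simpa [qc] using hs' 0
    · simpa [qc] using hs' 1
    · simpa [qc] using hs' 2
  choose sA hsA using hA
  -- zz
  have hz8 : ∀ j : Fin 8, ∃ w : σ → Ω, ∀ i : Fin 8, Lf a (lc Y M N i * ell w) =
      if i = j then 1 else 0 := by
    intro j
    obtain ⟨w, hw⟩ := hplane (comb lam5 sn) (plane_li hli hsn0) (plane_pl hiso sn)
      (fun i l => if (i, l) = (![(0, 0), (1, 0), (1, 1), (2, 0), (2, 1), (2, 2), (3, 0), (3, 1)] :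
        Fin 8 → ℕ × ℕ) j then 1 else 0)
    refine ⟨w, fun i => ?_⟩
    have h00 := hw 0 0 (by norm_num) (by norm_num)
    have h10 := hw 1 0 (by norm_num) (by norm_num)
    have h11 := hw 1 1 (by norm_num) (by norm_num)
    have h20 := hw 2 0 (by norm_num) (by norm_num)
    have h21 := hw 2 1 (by norm_num) (by norm_num)
    have h22 := hw 2 2 (by norm_num) (by norm_num)
    have h30 := hw 3 0 (by norm_num) (by norm_num)
    have h31 := hw 3 1 (by norm_num) (by norm_num)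
    rw [← hY, ← hM, ← hN] at h00 h10 h11 h20 h21 h22 h30 h31
    clear hw
    fin_cases i
    · convert h00 using 1
      · simp [lc]
      · fin_cases j <;> simp
    · convert h10 using 1
      · simp [lc]
      · fin_cases j <;> simp
    · convert h11 using 1
      · simp [lc]
      · fin_cases j <;> simp
    · convert h20 using 1
      · simp [lc]
      · fin_cases j <;> simp
    · convert h21 using 1
      · simp [lc]
      · fin_cases j <;> simp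
    · convert h22 using 1
      · simp [lc]
      · fin_cases j <;> simp
    · convert h30 using 1
      · simp [lc]
      · fin_cases j <;> simp
    · convert h31 using 1
      · simp [lc]
      · fin_cases j <;> simp
  choose zz hzz using hz8
  -- assembly
  set lam' : Fin 7 → σ → Ω := ![lam 0, lam 1, comb lam5 sn, b', comb lam5 (sA 0),
    comb lam5 (sA 1), comb lam5 (sA 2)] with hlam'
  have e0 : ell (lam' 0) = Y := rfl
  have e1 : ell (lam' 1) = M := rfl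
  have e2 : ell (lam' 2) = N := rfl
  have e3 : ell (lam' 3) = B + C t * M + C κ * Y := hb'e
  have e4 : ∀ j : Fin 3, ell (lam' (Fin.natAdd 4 j)) = ell (comb lam5 (sA j)) := by
    intro j
    fin_cases j <;> rfl
  have hmem : ∀ i : Fin 7, ell (lam' i) ∈ Sp lam := by
    have m0 : Y ∈ Sp lam := mem_Sp lam 0
    have m1 : M ∈ Sp lam := mem_Sp lam 1
    intro i
    fin_cases i
    · exact m0
    · exact m1
    · exact comb5_mem sn
    · change ell b' ∈ Sp lam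
      rw [hb'e, ← smul_eq_C_mul, ← smul_eq_C_mul]
      exact Submodule.add_mem _ (Submodule.add_mem _ (comb5_mem s) (Submodule.smul_mem _ _ m1))
        (Submodule.smul_mem _ _ m0)
    · exact comb5_mem (sA 0)
    · exact comb5_mem (sA 1)
    · exact comb5_mem (sA 2)
  refine ⟨lam', z, zz, ⟨?_, ?_, ?_, ?_, ?_, ?_⟩, ?_⟩
  · intro i₁ i₂ i₃ i₄ i₅ i₆
    exact hiso.six (hmem _) (hmem _) (hmem _) (hmem _) (hmem _) (hmem _)
  · rw [e0, e1, e2]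
    intro i
    fin_cases i
    · simpa [lc] using hB.z1
    · simpa [lc] using hB.z2
    · simpa [lc] using hn0
    · simpa [lc] using hB.z3
    · simpa [lc] using hn1
    · simpa [lc] using hnn
    · simpa [lc] using hB.z4
    · simpa [lc] using hn2
  · rw [e0, e1, e3]
    intro i
    fin_cases i
    · simpa [qc] using hB2.q1
    · simpa [qc] using hB2.q2
    · simpa [qc] using hB2.q3
  · rw [e0, e3]
    exact hB2.c1
  · rw [e0, e3]
    exact hd2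
  · rw [e3]
    exact hf2
  · have hdA : (Matrix.of fun i j : Fin 3 => Lf a (qc (ell (lam' 0)) (ell (lam' 1)) i *
        ell (lam' (Fin.natAdd 4 j)) * ell z)) = 1 := by
      ext i j
      rw [Matrix.of_apply, e0, e1, e4, hsA, Matrix.one_apply]
    have hdz : (Matrix.of fun i j : Fin 8 => Lf a (lc (ell (lam' 0)) (ell (lam' 1))
        (ell (lam' 2)) i * ell (zz j))) = 1 := by
      ext i j
      rw [Matrix.of_apply, e0, e1, e2, hzz, Matrix.one_apply]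
    rw [lprod, hdA, hdz, Matrix.det_one, Matrix.det_one, e0, e1, e2, e3, hnb, hc2, he2]
    simp only [one_mul, mul_one]
    exact mul_ne_zero hcne hene

omit [Fintype σ] in
theorem BCond.add {Y M B Z P : MvPolynomial σ Ω} (h : BCond a Y M B Z) (hP : BCond a Y M B P)
    (τ : Ω) : BCond a Y M B (Z + C τ * P) where
  z1 := by
    rw [show Y ^ 5 * (Z + C τ * P) = Y ^ 5 * Z + C τ * (Y ^ 5 * P) by ring, map_add, Lf_C_mul,
      h.z1, hP.z1]
    ring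
  z2 := by
    rw [show Y ^ 4 * M * (Z + C τ * P) = Y ^ 4 * M * Z + C τ * (Y ^ 4 * M * P) by ring, map_add,
      Lf_C_mul, h.z2, hP.z2]
    ring
  z3 := by
    rw [show Y ^ 3 * M ^ 2 * (Z + C τ * P) = Y ^ 3 * M ^ 2 * Z + C τ * (Y ^ 3 * M ^ 2 * P) by ring,
      map_add, Lf_C_mul, h.z3, hP.z3]
    ring
  z4 := by
    rw [show Y ^ 2 * M ^ 3 * (Z + C τ * P) = Y ^ 2 * M ^ 3 * Z + C τ * (Y ^ 2 * M ^ 3 * P) by ring,
      map_add, Lf_C_mul, h.z4, hP.z4]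
    ring
  q1 := by
    rw [show Y ^ 4 * B * (Z + C τ * P) = Y ^ 4 * B * Z + C τ * (Y ^ 4 * B * P) by ring, map_add,
      Lf_C_mul, h.q1, hP.q1]
    ring
  q2 := by
    rw [show Y ^ 3 * M * B * (Z + C τ * P) = Y ^ 3 * M * B * Z + C τ * (Y ^ 3 * M * B * P) by ring,
      map_add, Lf_C_mul, h.q2, hP.q2]
    ring
  q3 := by
    rw [show Y ^ 2 * M ^ 2 * B * (Z + C τ * P) = Y ^ 2 * M ^ 2 * B * Z +
      C τ * (Y ^ 2 * M ^ 2 * B * P) by ring, map_add, Lf_C_mul, h.q3, hP.q3]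
    ring
  c1 := by
    rw [show Y ^ 3 * B ^ 2 * (Z + C τ * P) = Y ^ 3 * B ^ 2 * Z + C τ * (Y ^ 3 * B ^ 2 * P) by ring,
      map_add, Lf_C_mul, h.c1, hP.c1]
    ring

omit [Fintype σ] in
theorem Lf_add_C {Z P : MvPolynomial σ Ω} (q : MvPolynomial σ Ω) (τ : Ω) :
    Lf a (q * (Z + C τ * P)) = Lf a (q * Z) + τ * Lf a (q * P) := by
  rw [show q * (Z + C τ * P) = q * Z + C τ * (q * P) by ring, map_add, Lf_C_mul]

theorem leading_core [CharZero Ω] (lam : Fin 7 → σ → Ω) (z : σ → Ω) (s : Fin 5 → Ω)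
    (hplane : PlaneOnto a (lam 0) (lam 1)) (hli : LinearIndependent Ω lam) (hiso : Iso a lam)
    (hs : s ≠ 0)
    (hB : BCond a (ell (lam 0)) (ell (lam 1)) (ell (comb (fun j : Fin 5 => lam (Fin.natAdd 2 j)) s))
      (ell z))
    (honto : ∀ r : Fin 4 → Ω, ∃ s' : Fin 5 → Ω, ∀ i, Lf a ((![ell (lam 0) ^ 4,
        ell (lam 0) ^ 3 * ell (lam 1), ell (lam 0) ^ 2 * ell (lam 1) ^ 2,
        ell (lam 0) ^ 3 * ell (comb (fun j : Fin 5 => lam (Fin.natAdd 2 j)) s)] :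
        Fin 4 → MvPolynomial σ Ω) i * ell (comb (fun j : Fin 5 => lam (Fin.natAdd 2 j)) s') *
        ell z) = r i) : Leading a Ω := by
  have : Infinite Ω := Infinite.of_injective (Nat.cast : ℕ → Ω) Nat.cast_injective
  have hplane' := hplane
  set lam5 : Fin 5 → σ → Ω := fun j => lam (Fin.natAdd 2 j) with hlam5
  set Y := ell (lam 0) with hY
  set M := ell (lam 1) with hM
  set B := ell (comb lam5 s) with hBdef
  set F : Fin 4 → MvPolynomial σ Ω := ![Y ^ 4, Y ^ 3 * M, Y ^ 2 * M ^ 2, Y ^ 3 * B] with hF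
  have hpv := hplane' (comb lam5 s) (plane_li hli hs) (plane_pl hiso s)
  rw [← hY, ← hM, ← hBdef] at hpv
  -- general facts about the vectors given by the plane lemma
  have hfacts : ∀ (r : ℕ → ℕ → Ω) (w : σ → Ω), (∀ i j, i ≤ 5 → j ≤ i →
      Lf a (Y ^ (5 - i) * M ^ (i - j) * B ^ j * ell w) = r i j) →
      (Lf a (Y ^ 5 * ell w) = r 0 0 ∧ Lf a (Y ^ 4 * M * ell w) = r 1 0 ∧
      Lf a (Y ^ 3 * M ^ 2 * ell w) = r 2 0 ∧ Lf a (Y ^ 2 * M ^ 3 * ell w) = r 3 0 ∧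
      Lf a (Y ^ 4 * B * ell w) = r 1 1 ∧ Lf a (Y ^ 3 * M * B * ell w) = r 2 1 ∧
      Lf a (Y ^ 2 * M ^ 2 * B * ell w) = r 3 1 ∧ Lf a (Y ^ 3 * B ^ 2 * ell w) = r 2 2) ∧
      Lf a (Y ^ 2 * B ^ 3 * ell w) = r 3 3 ∧ Lf a (Y ^ 2 * M * B ^ 2 * ell w) = r 3 2 ∧
      Lf a (Y * M ^ 4 * ell w) = r 4 0 ∧ Lf a (Y * M ^ 3 * B * ell w) = r 4 1 ∧
      Lf a (Y * M ^ 2 * B ^ 2 * ell w) = r 4 2 ∧ Lf a (Y * M * B ^ 3 * ell w) = r 4 3 ∧
      Lf a (Y * B ^ 4 * ell w) = r 4 4 := by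
    intro r w hw
    refine ⟨⟨?_, ?_, ?_, ?_, ?_, ?_, ?_, ?_⟩, ?_, ?_, ?_, ?_, ?_, ?_, ?_⟩
    · simpa using hw 0 0 (by norm_num) (by norm_num)
    · simpa using hw 1 0 (by norm_num) (by norm_num)
    · simpa using hw 2 0 (by norm_num) (by norm_num)
    · simpa using hw 3 0 (by norm_num) (by norm_num)
    · simpa using hw 1 1 (by norm_num) (by norm_num)
    · simpa using hw 2 1 (by norm_num) (by norm_num)
    · simpa using hw 3 1 (by norm_num) (by norm_num)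
    · simpa using hw 2 2 (by norm_num) (by norm_num)
    · simpa using hw 3 3 (by norm_num) (by norm_num)
    · simpa using hw 3 2 (by norm_num) (by norm_num)
    · simpa using hw 4 0 (by norm_num) (by norm_num)
    · simpa using hw 4 1 (by norm_num) (by norm_num)
    · simpa using hw 4 2 (by norm_num) (by norm_num)
    · simpa using hw 4 3 (by norm_num) (by norm_num)
    · simpa using hw 4 4 (by norm_num) (by norm_num)
  obtain ⟨p₁, hp₁⟩ := hpv (fun i j => if i = 3 ∧ j = 2 then 1 else 0)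
  obtain ⟨p₂, hp₂⟩ := hpv (fun i j => if i = 4 ∧ j = 4 then 1 else 0)
  obtain ⟨⟨a1, a2, a3, a4, a5, a6, a7, a8⟩, a9, a10, a11, a12, a13, a14, a15⟩ := hfacts _ _ hp₁
  obtain ⟨⟨b1, b2, b3, b4, b5, b6, b7, b8⟩, b9, b10, b11, b12, b13, b14, b15⟩ := hfacts _ _ hp₂
  clear hp₁ hp₂ hfacts hpv
  norm_num at a1 a2 a3 a4 a5 a6 a7 a8 a9 a10 a11 a12 a13 a14 a15
  norm_num at b1 b2 b3 b4 b5 b6 b7 b8 b9 b10 b11 b12 b13 b14 b15
  have hBp₁ : BCond a Y M B (ell p₁) := ⟨a1, a2, a3, a4, a5, a6, a7, a8⟩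
  have hBp₂ : BCond a Y M B (ell p₂) := ⟨b1, b2, b3, b4, b5, b6, b7, b8⟩
  -- first perturbation
  have hsur0 : Function.Surjective (Lz a F lam5 z) := by
    intro r
    obtain ⟨s', hs'⟩ := honto r
    exact ⟨s', funext fun i => hs' i⟩
  obtain ⟨t₁, ht₁, hsur1⟩ := onto_perturb _ (Lz a F lam5 p₁) hsur0
    (-Lf a (Y ^ 2 * M * B ^ 2 * ell z))
  rw [← Lz_add_smul] at hsur1
  set z₁ := z + t₁ • p₁ with hz₁
  have hz₁e : ell z₁ = ell z + C t₁ * ell p₁ := by rw [hz₁, ell_add, ell_smul]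
  have hB₁ : BCond a Y M B (ell z₁) := by
    rw [hz₁e]
    exact hB.add hBp₁ t₁
  have hc₁ : Lf a (Y ^ 2 * M * B ^ 2 * ell z₁) ≠ 0 := by
    rw [hz₁e, Lf_add_C, a10, mul_one]
    intro h0
    exact ht₁ (by linear_combination h0)
  -- the parameter t
  obtain ⟨t, ht⟩ : ∃ t : Ω, Lf a (Y ^ 2 * B ^ 3 * ell z₁) +
      3 * t * Lf a (Y ^ 2 * M * B ^ 2 * ell z₁) = 0 := by
    refine ⟨-Lf a (Y ^ 2 * B ^ 3 * ell z₁) / (3 * Lf a (Y ^ 2 * M * B ^ 2 * ell z₁)), ?_⟩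
    field_simp
    ring
  -- second perturbation
  obtain ⟨t₂, ht₂, hsur2⟩ := onto_perturb _ (Lz a F lam5 p₂) hsur1
    (-Lf a (Y * (B + C t * M) ^ 4 * ell z₁))
  rw [← Lz_add_smul] at hsur2
  set z₂ := z₁ + t₂ • p₂ with hz₂
  have hz₂e : ell z₂ = ell z₁ + C t₂ * ell p₂ := by rw [hz₂, ell_add, ell_smul]
  have hB₂ : BCond a Y M B (ell z₂) := by
    rw [hz₂e]
    exact hB₁.add hBp₂ t₂
  have hc₂ : Lf a (Y ^ 2 * M * B ^ 2 * ell z₂) = Lf a (Y ^ 2 * M * B ^ 2 * ell z₁) := by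
    rw [hz₂e, Lf_add_C, b10, mul_zero, add_zero]
  have hd₂ : Lf a (Y ^ 2 * B ^ 3 * ell z₂) = Lf a (Y ^ 2 * B ^ 3 * ell z₁) := by
    rw [hz₂e, Lf_add_C, b9, mul_zero, add_zero]
  have hep : Lf a (Y * (B + C t * M) ^ 4 * ell p₂) = 1 := by
    have e : Y * (B + C t * M) ^ 4 * ell p₂ = Y * B ^ 4 * ell p₂ +
        C (4 * t) * (Y * M * B ^ 3 * ell p₂) + C (6 * t ^ 2) * (Y * M ^ 2 * B ^ 2 * ell p₂) +
        C (4 * t ^ 3) * (Y * M ^ 3 * B * ell p₂) + C (t ^ 4) * (Y * M ^ 4 * ell p₂) := by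
      simp only [map_mul, map_pow, map_ofNat]; ring
    rw [e, map_add, map_add, map_add, map_add, Lf_C_mul, Lf_C_mul, Lf_C_mul, Lf_C_mul, b15, b14,
      b13, b12, b11]
    ring
  have he₂ : Lf a (Y * (B + C t * M) ^ 4 * ell z₂) ≠ 0 := by
    rw [hz₂e, Lf_add_C, hep, mul_one]
    intro h0
    exact ht₂ (by linear_combination h0)
  refine lead_final lam z₂ s hplane hli hiso hB₂ (by rw [hc₂]; exact hc₁) t
    (by rw [hd₂, hc₂]; exact ht) he₂ fun r => ?_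
  obtain ⟨s', hs'⟩ := hsur2 r
  exact ⟨s', fun i => congrFun hs' i⟩

/-- `leading_of_zb` with `plane_onto` as a hypothesis -/
theorem leading_of_zb_aux [CharZero k] {a : (σ →₀ ℕ) → k} {Ω : Type*} [Field Ω]
    [Algebra k Ω] (lam : Fin 7 → σ → Ω) (z : σ → Ω) (s : Fin 5 → Ω)
    (hplane : PlaneOnto a (lam 0) (lam 1)) (hli : LinearIndependent Ω lam) (hiso : Iso a lam)
    (hs : s ≠ 0)
    (hz : ∀ p ∈ ({ell (lam 0) ^ 5, ell (lam 0) ^ 4 * ell (lam 1), ell (lam 0) ^ 3 * ell (lam 1) ^ 2,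
        ell (lam 0) ^ 2 * ell (lam 1) ^ 3} : Set (MvPolynomial σ Ω)), Lf a (p * ell z) = 0)
    (hq : ∀ i, Lf a (qc (ell (lam 0)) (ell (lam 1)) i *
        ell (comb (fun j : Fin 5 => lam (Fin.natAdd 2 j)) s) * ell z) = 0)
    (hc : Lf a (ell (lam 0) ^ 3 * ell (comb (fun j : Fin 5 => lam (Fin.natAdd 2 j)) s) ^ 2 *
        ell z) = 0)
    (honto : ∀ r : Fin 4 → Ω, ∃ s' : Fin 5 → Ω, ∀ i, Lf a ((![ell (lam 0) ^ 4,
        ell (lam 0) ^ 3 * ell (lam 1), ell (lam 0) ^ 2 * ell (lam 1) ^ 2,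
        ell (lam 0) ^ 3 * ell (comb (fun j : Fin 5 => lam (Fin.natAdd 2 j)) s)] :
        Fin 4 → MvPolynomial σ Ω) i * ell (comb (fun j : Fin 5 => lam (Fin.natAdd 2 j)) s') *
        ell z) = r i) : Leading a Ω := by
  have : CharZero Ω := charZero_of_injective_algebraMap (algebraMap k Ω).injective
  refine leading_core lam z s hplane hli hiso hs ⟨hz _ (by simp), hz _ (by simp), hz _ (by simp),
    hz _ (by simp), ?_, ?_, ?_, hc⟩ honto
  · simpa [qc] using hq 0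
  · simpa [qc] using hq 1
  · simpa [qc] using hq 2

end final

end Pool.Agent.Work.PD6
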