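import Mathlib
import Pool.Agent.Work.MP_b62148_ag.Sextic.LeadCore
import Pool.Agent.Work.MP_b62148_ag.Sextic.Free

/-!
S6b: leading data from a generic `z` and a solution `b` (final form; `LeadCore.lean` has the proof with
`plane_onto` as a hypothesis).
-/

namespace Pool.Agent.Work.PD6

open MvPolynomial

variable {k : Type*} [Field k] {σ : Type*} [Fintype σ]

theorem leading_of_zb [CharZero k] {a : (σ →₀ ℕ) → k} {Ω : Type*} [Field Ω] [IsAlgClosed Ω]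
    [Algebra k Ω] (lam : Fin 7 → σ → Ω) (z : σ → Ω) (s : Fin 5 → Ω)
    (hf : GenFlag a (lam 0) (lam 1)) (hli : LinearIndependent Ω lam) (hiso : Iso a lam)
    (hs : s ≠ 0)
    (hz : ∀ p ∈ ({ell (lam 0) ^ 5, ell (lam 0) ^ 4 * ell (lam 1), ell (lam 0) ^ 3 * ell (lam 1) ^ 2,
        ell (lam 0) ^ 2 * ell (lam 1) ^ 3} : Set (MvPolynomial σ Ω)), Lf a (p * ell z) = 0)
    (hq : ∀ i, Lf a (qc (ell (lam 0)) (ell (lam 1)) i *
        ell (comb (fun j : Fin 5 => lam (Fin.natAdd 2 j)) s) * ell z) = 0)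
    (hc : Lf a (ell (lam 0) ^ 3 * ell (comb (fun j : Fin 5 => lam (Fin.natAdd 2 j)) s) ^ 2 *
        ell z) = 0)
    (honto : ∀ r : Fin 4 → Ω, ∃ s' : Fin 5 → Ω, ∀ i, Lf a ((![ell (lam 0) ^ 4,
        ell (lam 0) ^ 3 * ell (lam 1), ell (lam 0) ^ 2 * ell (lam 1) ^ 2,
        ell (lam 0) ^ 3 * ell (comb (fun j : Fin 5 => lam (Fin.natAdd 2 j)) s)] :
        Fin 4 → MvPolynomial σ Ω) i * ell (comb (fun j : Fin 5 => lam (Fin.natAdd 2 j)) s') *
        ell z) = r i) : Leading a Ω :=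
  leading_of_zb_aux lam z s (fun v h₁ h₂ r => plane_onto hf v h₁ h₂ r) hli hiso hs hz hq hc honto

end Pool.Agent.Work.PD6
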