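import Mathlib
import Pool.Agent.Work.MP_b62148_ag.Sextic.Defs

/-!
The parametrisation of a sextic containing a projective six-space.
-/

namespace Pool.Agent.Work.PD6

open MvPolynomial

variable {k : Type*} [Field k] {σ : Type*} [Fintype σ]

section kern

variable {R : Type*} [CommRing R]

theorem kproj_mem {r : ℕ} (f : Fin r → (σ → R) →ₗ[R] R) (z : Fin r → σ → R) (om : σ → R)
    (i : Fin r) : f i (kproj f z om) = 0 := by
  unfold kproj
  have h := congrFun (Matrix.mulVec_cramer (Matrix.of fun i j => f i (z j)) fun i => f i om) i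
  simp only [Matrix.mulVec, dotProduct, Matrix.of_apply, Pi.smul_apply, smul_eq_mul] at h
  rw [map_sub, map_smul, map_sum, smul_eq_mul]
  simp only [map_smul, smul_eq_mul]
  rw [← h]
  rw [sub_eq_zero]
  exact Finset.sum_congr rfl fun j _ => mul_comm _ _

theorem kproj_eq {r : ℕ} (f : Fin r → (σ → R) →ₗ[R] R) (z : Fin r → σ → R) (om : σ → R)
    (h : ∀ i, f i om = 0) :
    kproj f z om = (Matrix.of fun i j => f i (z j)).det • om := by
  unfold kproj
  have h0 : (fun i => f i om) = 0 := funext h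
  rw [h0, map_zero]
  simp

end kern

section Par

variable {R : Type*} [CommRing R] [Algebra k R] {a : (σ →₀ ℕ) → k}

theorem qsol_lin (Q : Fin 3 → MvPolynomial σ R) (A : Fin 3 → σ → R) (ze : σ → R)
    (p : MvPolynomial σ R) (hA : ∀ j, Lf a (p * ell (A j)) = 0) (hz : Lf a (p * ell ze) = 0) :
    Lf a (p * ell (qsol a Q A ze)) = 0 := by
  have h := lin_apply a p (qsol a Q A ze)
  rw [← h]
  unfold qsol
  rw [map_sub, map_smul, map_sum, lin_apply, hz, smul_zero, zero_sub, neg_eq_zero]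
  refine Finset.sum_eq_zero fun j _ => ?_
  rw [map_smul, lin_apply, hA, smul_zero]

theorem qsol_quad (Q : Fin 3 → MvPolynomial σ R) (A : Fin 3 → σ → R) (ze : σ → R)
    (hA : ∀ i j l, Lf a (Q i * ell (A j) * ell (A l)) = 0) (i : Fin 3) :
    Lf a (Q i * ell (qsol a Q A ze) ^ 2) = 0 := by
  set d := (Matrix.of fun i j : Fin 3 => 2 * Lf a (Q i * ell ze * ell (A j))).det with hd
  set c := (Matrix.of fun i j : Fin 3 => 2 * Lf a (Q i * ell ze * ell (A j))).cramer
    (fun i => Lf a (Q i * ell ze ^ 2)) with hc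
  have hq : qsol a Q A ze = d • ze - ∑ j, c j • A j := rfl
  have h := congrFun (Matrix.mulVec_cramer (Matrix.of fun i j : Fin 3 =>
    2 * Lf a (Q i * ell ze * ell (A j))) fun i => Lf a (Q i * ell ze ^ 2)) i
  simp only [Matrix.mulVec, dotProduct, Matrix.of_apply, Pi.smul_apply, smul_eq_mul] at h
  rw [← hc, ← hd] at h
  -- the square of the sum
  have h1 : ell (qsol a Q A ze) = C d * ell ze - ell (∑ j, c j • A j) := by
    rw [hq, ell_sub, ell_smul]
  have h2 : Lf a (Q i * ell ze * ell (∑ j, c j • A j)) =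
      ∑ j, c j * Lf a (Q i * ell ze * ell (A j)) := by
    rw [ell_sum_smul, Finset.mul_sum, map_sum]
    refine Finset.sum_congr rfl fun j _ => ?_
    rw [mul_left_comm, Lf_C_mul]
  have h3 : Lf a (Q i * ell (∑ j, c j • A j) ^ 2) = 0 := by
    have h4 : ∀ l, Lf a (Q i * ell (A l) * ell (∑ j, c j • A j)) = 0 := by
      intro l
      rw [ell_sum_smul, Finset.mul_sum, map_sum]
      refine Finset.sum_eq_zero fun j _ => ?_
      rw [mul_left_comm, Lf_C_mul, hA, mul_zero]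
    have h5 : ∀ E : MvPolynomial σ R, Q i * ell (∑ j, c j • A j) * E =
        ∑ j, C (c j) * (Q i * ell (A j) * E) := by
      intro E
      rw [ell_sum_smul, Finset.mul_sum, Finset.sum_mul]
      refine Finset.sum_congr rfl fun j _ => ?_
      ring
    have h6 : Q i * ell (∑ j, c j • A j) ^ 2 =
        Q i * ell (∑ j, c j • A j) * ell (∑ j, c j • A j) := by ring
    rw [h6, h5 (ell (∑ j, c j • A j)), map_sum]
    refine Finset.sum_eq_zero fun j _ => ?_
    rw [Lf_C_mul, h4, mul_zero]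
  have h7 : Q i * ell (qsol a Q A ze) ^ 2 = C (d ^ 2) * (Q i * ell ze ^ 2) -
      C (2 * d) * (Q i * ell ze * ell (∑ j, c j • A j)) +
        Q i * ell (∑ j, c j • A j) ^ 2 := by
    rw [h1]
    simp only [map_pow, map_mul, map_ofNat]
    ring
  rw [h7, map_add, map_sub, Lf_C_mul, Lf_C_mul, h2, h3, add_zero]
  have h8 : 2 * d * ∑ j, c j * Lf a (Q i * ell ze * ell (A j)) =
      d * ∑ j, 2 * Lf a (Q i * ell ze * ell (A j)) * c j := by
    rw [Finset.mul_sum, Finset.mul_sum]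
    exact Finset.sum_congr rfl fun j _ => by ring
  rw [h8, h]
  ring

theorem lc_0 (Y M N : MvPolynomial σ R) : lc Y M N 0 = Y ^ 5 := rfl
theorem lc_1 (Y M N : MvPolynomial σ R) : lc Y M N 1 = Y ^ 4 * M := rfl
theorem lc_2 (Y M N : MvPolynomial σ R) : lc Y M N 2 = Y ^ 4 * N := rfl
theorem lc_3 (Y M N : MvPolynomial σ R) : lc Y M N 3 = Y ^ 3 * M ^ 2 := rfl
theorem lc_4 (Y M N : MvPolynomial σ R) : lc Y M N 4 = Y ^ 3 * M * N := rfl
theorem lc_5 (Y M N : MvPolynomial σ R) : lc Y M N 5 = Y ^ 3 * N ^ 2 := rfl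
theorem lc_6 (Y M N : MvPolynomial σ R) : lc Y M N 6 = Y ^ 2 * M ^ 3 := rfl
theorem lc_7 (Y M N : MvPolynomial σ R) : lc Y M N 7 = Y ^ 2 * M ^ 2 * N := rfl
theorem qc_0 (Y M : MvPolynomial σ R) : qc Y M 0 = Y ^ 4 := rfl
theorem qc_1 (Y M : MvPolynomial σ R) : qc Y M 1 = Y ^ 3 * M := rfl
theorem qc_2 (Y M : MvPolynomial σ R) : qc Y M 2 = Y ^ 2 * M ^ 2 := rfl

theorem all8 {P : Fin 8 → Prop} (h0 : P 0) (h1 : P 1) (h2 : P 2) (h3 : P 3) (h4 : P 4) (h5 : P 5)
    (h6 : P 6) (h7 : P 7) (i : Fin 8) : P i := by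
  fin_cases i <;> assumption

theorem all3 {P : Fin 3 → Prop} (h0 : P 0) (h1 : P 1) (h2 : P 2) (i : Fin 3) : P i := by
  fin_cases i <;> assumption

theorem Lf_zero_of {p q : MvPolynomial σ R} (h : Lf a q = 0) (e : p = q) : Lf a p = 0 := by
  rw [e, h]

/-- conditions kept through the steps -/
structure PS (a : (σ →₀ ℕ) → k) (Y M N W : MvPolynomial σ R) : Prop where
  l : ∀ i, Lf a (lc Y M N i * W) = 0
  q : ∀ i, Lf a (qc Y M i * W ^ 2) = 0

theorem PS.mixed {Y M N W : MvPolynomial σ R} (h : PS a Y M N W) (i : Fin 3) :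
    Lf a (qc Y M i * (W * N)) = 0 := by
  refine all3 (P := fun i => Lf a (qc Y M i * (W * N)) = 0) ?_ ?_ ?_ i
  · have := h.l 2
    rw [lc_2] at this
    refine Lf_zero_of this ?_
    rw [qc_0]; ring
  · have := h.l 4
    rw [lc_4] at this
    refine Lf_zero_of this ?_
    rw [qc_1]; ring
  · have := h.l 7
    rw [lc_7] at this
    refine Lf_zero_of this ?_
    rw [qc_2]; ring

theorem id2 (p W N : MvPolynomial σ R) (α β : R) : p * (C α * W - C β * N) ^ 2 =
    C (α ^ 2) * (p * W ^ 2) - C (2 * α * β) * (p * (W * N)) + C (β ^ 2) * (p * N ^ 2) := by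
  simp only [map_pow, map_mul, map_ofNat]
  ring

theorem id3 (p W N : MvPolynomial σ R) (α β : R) : p * (C α * W - C β * N) ^ 3 =
    C (α ^ 3) * (p * W ^ 3) - C (3 * α ^ 2 * β) * (p * N * W ^ 2) +
      C (3 * α * β ^ 2) * (p * N ^ 2 * W) - C (β ^ 3) * (p * N ^ 3) := by
  simp only [map_pow, map_mul, map_ofNat]
  ring

theorem id4 (p W N : MvPolynomial σ R) (α β : R) : p * (C α * W - C β * N) ^ 4 =
    C (α ^ 4) * (p * W ^ 4) - C (4 * α ^ 3 * β) * (p * N * W ^ 3) +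
      C (6 * α ^ 2 * β ^ 2) * (p * N ^ 2 * W ^ 2) - C (4 * α * β ^ 3) * (p * N ^ 3 * W) +
      C (β ^ 4) * (p * N ^ 4) := by
  simp only [map_pow, map_mul, map_ofNat]
  ring

theorem id6 (W Y : MvPolynomial σ R) (α β : R) : (C α * W - C β * Y) ^ 6 =
    C (α ^ 6) * W ^ 6 - C (6 * α ^ 5 * β) * (Y * W ^ 5) +
      C (15 * α ^ 4 * β ^ 2) * (Y ^ 2 * W ^ 4) - C (20 * α ^ 3 * β ^ 3) * (Y ^ 3 * W ^ 3) +
      C (15 * α ^ 2 * β ^ 4) * (Y ^ 4 * W ^ 2) - C (6 * α * β ^ 5) * (Y ^ 5 * W) +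
      C (β ^ 6) * Y ^ 6 := by
  simp only [map_pow, map_mul, map_ofNat]
  ring

theorem PS.step3 {Y M N W : MvPolynomial σ R} (h : PS a Y M N W)
    (hl : ∀ i, Lf a (lc Y M N i * N) = 0) (hq : ∀ i, Lf a (qc Y M i * N ^ 2) = 0)
    (hc : Lf a (Y ^ 3 * N ^ 3) = 0) (α β : R) (hα : α = 3 * Lf a (Y ^ 3 * N * W ^ 2))
    (hβ : β = Lf a (Y ^ 3 * W ^ 3)) :
    PS a Y M N (C α * W - C β * N) ∧ Lf a (Y ^ 3 * (C α * W - C β * N) ^ 3) = 0 := by
  refine ⟨⟨fun i => ?_, fun i => ?_⟩, ?_⟩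
  · have h1 := h.l i
    have h2 := hl i
    rw [mul_sub, map_sub, mul_left_comm, Lf_C_mul, mul_left_comm, Lf_C_mul, h1, h2]
    ring
  · have h1 := h.q i
    have h2 := hq i
    have h3 := h.mixed i
    rw [id2, map_add, map_sub, Lf_C_mul, Lf_C_mul, Lf_C_mul, h1, h2, h3]
    ring
  · have h5 := h.l 5
    rw [lc_5] at h5
    have h6 : 3 * α ^ 2 * β * Lf a (Y ^ 3 * N * W ^ 2) = α ^ 3 * β := by
      rw [hα]; ring
    rw [id3, map_sub, map_add, map_sub, Lf_C_mul, Lf_C_mul, Lf_C_mul, Lf_C_mul, h5, hc, ← hβ, h6]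
    ring

theorem PS.step2 {Y M N W : MvPolynomial σ R} (h : PS a Y M N W)
    (h3 : Lf a (Y ^ 3 * W ^ 3) = 0)
    (m5 : Lf a (Y ^ 5 * M) = 0) (m4 : Lf a (Y ^ 4 * M ^ 2) = 0)
    (m3 : Lf a (Y ^ 3 * M ^ 3) = 0) (m2 : Lf a (Y ^ 2 * M ^ 4) = 0) (α β : R)
    (hα : α = 4 * Lf a (Y ^ 2 * M * W ^ 3)) (hβ : β = Lf a (Y ^ 2 * W ^ 4)) :
    Lf a (Y ^ 5 * (C α * W - C β * M)) = 0 ∧ Lf a (Y ^ 4 * (C α * W - C β * M) ^ 2) = 0 ∧
      Lf a (Y ^ 3 * (C α * W - C β * M) ^ 3) = 0 ∧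
      Lf a (Y ^ 2 * (C α * W - C β * M) ^ 4) = 0 := by
  have l0 := h.l 0
  have l1 := h.l 1
  have l3 := h.l 3
  have l6 := h.l 6
  have q0 := h.q 0
  have q1 := h.q 1
  have q2 := h.q 2
  rw [lc_0] at l0
  rw [lc_1] at l1
  rw [lc_3] at l3
  rw [lc_6] at l6
  rw [qc_0] at q0
  rw [qc_1] at q1
  rw [qc_2] at q2
  have l1' : Lf a (Y ^ 4 * (W * M)) = 0 := Lf_zero_of l1 (by ring)
  refine ⟨?_, ?_, ?_, ?_⟩
  · rw [mul_sub, map_sub, mul_left_comm, Lf_C_mul, mul_left_comm, Lf_C_mul, l0, m5]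
    ring
  · rw [id2, map_add, map_sub, Lf_C_mul, Lf_C_mul, Lf_C_mul, q0, l1', m4]
    ring
  · rw [id3, map_sub, map_add, map_sub, Lf_C_mul, Lf_C_mul, Lf_C_mul, Lf_C_mul, h3, q1, l3, m3]
    ring
  · have h6 : 4 * α ^ 3 * β * Lf a (Y ^ 2 * M * W ^ 3) = α ^ 4 * β := by
      rw [hα]; ring
    rw [id4, map_add, map_sub, map_add, map_sub, Lf_C_mul, Lf_C_mul, Lf_C_mul, Lf_C_mul, Lf_C_mul,
      q2, l6, m2, ← hβ, h6]
    ring

theorem step1 {Y W : MvPolynomial σ R} (h6 : Lf a (Y ^ 6) = 0) (h5 : Lf a (Y ^ 5 * W) = 0)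
    (h4 : Lf a (Y ^ 4 * W ^ 2) = 0) (h3 : Lf a (Y ^ 3 * W ^ 3) = 0)
    (h2 : Lf a (Y ^ 2 * W ^ 4) = 0) (α β : R) (hα : α = 6 * Lf a (Y * W ^ 5))
    (hβ : β = Lf a (W ^ 6)) : Lf a ((C α * W - C β * Y) ^ 6) = 0 := by
  have h7 : 6 * α ^ 5 * β * Lf a (Y * W ^ 5) = α ^ 6 * β := by
    rw [hα]; ring
  rw [id6, map_add, map_sub, map_add, map_sub, map_add, map_sub, Lf_C_mul, Lf_C_mul, Lf_C_mul,
    Lf_C_mul, Lf_C_mul, Lf_C_mul, Lf_C_mul, h2, h3, h4, h5, h6, ← hβ, h7]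
  ring

theorem PS.st3 {y m n w : σ → R} (h : PS a (ell y) (ell m) (ell n) (ell w))
    (hl : ∀ i, Lf a (lc (ell y) (ell m) (ell n) i * ell n) = 0)
    (hq : ∀ i, Lf a (qc (ell y) (ell m) i * ell n ^ 2) = 0)
    (hc : Lf a (ell y ^ 3 * ell n ^ 3) = 0) :
    PS a (ell y) (ell m) (ell n) (ell (PD6.st3 a y n w)) ∧
      Lf a (ell y ^ 3 * ell (PD6.st3 a y n w) ^ 3) = 0 := by
  have hU : ell (PD6.st3 a y n w) = C (3 * Lf a (ell y ^ 3 * ell n * ell w ^ 2)) * ell w -
      C (Lf a (ell y ^ 3 * ell w ^ 3)) * ell n := by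
    unfold PD6.st3
    rw [ell_sub, ell_smul, ell_smul]
  rw [hU]
  exact h.step3 hl hq hc _ _ rfl rfl

theorem st2_spec {y m n w : σ → R} (h : PS a (ell y) (ell m) (ell n) (ell w))
    (h3 : Lf a (ell y ^ 3 * ell w ^ 3) = 0)
    (m5 : Lf a (ell y ^ 5 * ell m) = 0) (m4 : Lf a (ell y ^ 4 * ell m ^ 2) = 0)
    (m3 : Lf a (ell y ^ 3 * ell m ^ 3) = 0) (m2 : Lf a (ell y ^ 2 * ell m ^ 4) = 0) :
    Lf a (ell y ^ 5 * ell (st2 a y m w)) = 0 ∧ Lf a (ell y ^ 4 * ell (st2 a y m w) ^ 2) = 0 ∧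
      Lf a (ell y ^ 3 * ell (st2 a y m w) ^ 3) = 0 ∧
      Lf a (ell y ^ 2 * ell (st2 a y m w) ^ 4) = 0 := by
  have hU : ell (st2 a y m w) = C (4 * Lf a (ell y ^ 2 * ell m * ell w ^ 3)) * ell w -
      C (Lf a (ell y ^ 2 * ell w ^ 4)) * ell m := by
    unfold st2
    rw [ell_sub, ell_smul, ell_smul]
  rw [hU]
  exact h.step2 h3 m5 m4 m3 m2 _ _ rfl rfl

theorem st1_spec {y w : σ → R} (h6 : Lf a (ell y ^ 6) = 0) (h5 : Lf a (ell y ^ 5 * ell w) = 0)
    (h4 : Lf a (ell y ^ 4 * ell w ^ 2) = 0) (h3 : Lf a (ell y ^ 3 * ell w ^ 3) = 0)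
    (h2 : Lf a (ell y ^ 2 * ell w ^ 4) = 0) : Lf a (ell (st1 a y w) ^ 6) = 0 := by
  have hU : ell (st1 a y w) = C (6 * Lf a (ell y * ell w ^ 5)) * ell w -
      C (Lf a (ell w ^ 6)) * ell y := by
    unfold st1
    rw [ell_sub, ell_smul, ell_smul]
  rw [hU]
  exact step1 h6 h5 h4 h3 h2 _ _ rfl rfl

end Par

section main

theorem lc_mem {R : Type*} [CommRing R] [Algebra k R] {a : (σ →₀ ℕ) → k} {lam : Fin 7 → σ → R}
    (h : Iso a lam) {Y M N P : MvPolynomial σ R} (hY : Y ∈ Sp lam) (hM : M ∈ Sp lam)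
    (hN : N ∈ Sp lam) (hP : P ∈ Sp lam) (i : Fin 8) : Lf a (lc Y M N i * P) = 0 := by
  refine all8 (P := fun i => Lf a (lc Y M N i * P) = 0) ?_ ?_ ?_ ?_ ?_ ?_ ?_ ?_ i
  · exact Lf_zero_of (h.six hY hY hY hY hY hP) (by rw [lc_0]; ring)
  · exact Lf_zero_of (h.six hY hY hY hY hM hP) (by rw [lc_1]; ring)
  · exact Lf_zero_of (h.six hY hY hY hY hN hP) (by rw [lc_2]; ring)
  · exact Lf_zero_of (h.six hY hY hY hM hM hP) (by rw [lc_3]; ring)
  · exact Lf_zero_of (h.six hY hY hY hM hN hP) (by rw [lc_4]; ring)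
  · exact Lf_zero_of (h.six hY hY hY hN hN hP) (by rw [lc_5]; ring)
  · exact Lf_zero_of (h.six hY hY hM hM hM hP) (by rw [lc_6]; ring)
  · exact Lf_zero_of (h.six hY hY hM hM hN hP) (by rw [lc_7]; ring)

theorem qc_mem {R : Type*} [CommRing R] [Algebra k R] {a : (σ →₀ ℕ) → k} {lam : Fin 7 → σ → R}
    (h : Iso a lam) {Y M P Q : MvPolynomial σ R} (hY : Y ∈ Sp lam) (hM : M ∈ Sp lam)
    (hP : P ∈ Sp lam) (hQ : Q ∈ Sp lam) (i : Fin 3) : Lf a (qc Y M i * P * Q) = 0 := by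
  refine all3 (P := fun i => Lf a (qc Y M i * P * Q) = 0) ?_ ?_ ?_ i
  · exact Lf_zero_of (h.six hY hY hY hY hP hQ) (by rw [qc_0]; ring)
  · exact Lf_zero_of (h.six hY hY hY hM hP hQ) (by rw [qc_1]; ring)
  · exact Lf_zero_of (h.six hY hY hM hM hP hQ) (by rw [qc_2]; ring)

theorem par_aux {R : Type*} [CommRing R] [Algebra k R] {a : (σ →₀ ℕ) → k} {lam : Fin 7 → σ → R}
    (h : Iso a lam) {y m n : σ → R} (hy : ell y ∈ Sp lam) (hm : ell m ∈ Sp lam)
    (hn : ell n ∈ Sp lam) {A : Fin 3 → σ → R} (hA : ∀ j, ell (A j) ∈ Sp lam)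
    (z : Fin 8 → σ → R) (om : σ → R) : Lf a (ell (par a y m n A z om) ^ 6) = 0 := by
  unfold par
  have hz : ∀ i, Lf a (lc (ell y) (ell m) (ell n) i *
      ell (kproj (fun i => lin a (lc (ell y) (ell m) (ell n) i)) z om)) = 0 := fun i =>
    kproj_mem (fun i => lin a (lc (ell y) (ell m) (ell n) i)) z om i
  generalize kproj (fun i => lin a (lc (ell y) (ell m) (ell n) i)) z om = ze at hz ⊢
  have hPS : PS a (ell y) (ell m) (ell n) (ell (qsol a (qc (ell y) (ell m)) A ze)) :=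
    ⟨fun i => qsol_lin _ _ _ _ (fun j => lc_mem h hy hm hn (hA j) i) (hz i),
      fun i => qsol_quad _ _ _ (fun i j l => qc_mem h hy hm (hA j) (hA l) i) i⟩
  generalize qsol a (qc (ell y) (ell m)) A ze = w at hPS ⊢
  have hq : ∀ i, Lf a (qc (ell y) (ell m) i * ell n ^ 2) = 0 := fun i =>
    Lf_zero_of (qc_mem h hy hm hn hn i) (by ring)
  obtain ⟨h1, h2⟩ := hPS.st3 (fun i => lc_mem h hy hm hn hn i) hq
    (Lf_zero_of (h.six hy hy hy hn hn hn) (by ring))
  obtain ⟨h5, h4, h3, h2'⟩ := st2_spec h1 h2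
    (Lf_zero_of (h.six hy hy hy hy hy hm) (by ring))
    (Lf_zero_of (h.six hy hy hy hy hm hm) (by ring))
    (Lf_zero_of (h.six hy hy hy hm hm hm) (by ring))
    (Lf_zero_of (h.six hy hy hm hm hm hm) (by ring))
  exact st1_spec (Lf_zero_of (h.six hy hy hy hy hy hy) (by ring)) h5 h4 h3 h2'

theorem par_mem {R : Type*} [CommRing R] [Algebra k R] (a : (σ →₀ ℕ) → k) (lam : Fin 7 → σ → R)
    (h : Iso a lam) (sy sm sn : Fin 7 → R) (sA : Fin 3 → Fin 7 → R) (z : Fin 8 → σ → R)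
    (om : σ → R) :
    Lf a (ell (par a (comb lam sy) (comb lam sm) (comb lam sn) (fun j => comb lam (sA j)) z om) ^ 6)
      = 0 :=
  par_aux h (comb_mem_Sp lam sy) (comb_mem_Sp lam sm) (comb_mem_Sp lam sn)
    (fun j => comb_mem_Sp lam (sA j)) z om

/-- the constant -/
noncomputable def rr {R : Type*} [CommRing R] [Algebra k R] (a : (σ →₀ ℕ) → k) (y m n : σ → R)
    (A : Fin 3 → σ → R) (z : Fin 8 → σ → R) (x : σ → R) : R :=
  let d8 := (Matrix.of fun i j : Fin 8 => Lf a (lc (ell y) (ell m) (ell n) i * ell (z j))).det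
  let d3 := (Matrix.of fun i j : Fin 3 => Lf a (qc (ell y) (ell m) i * ell x * ell (A j))).det
  let μ₁ := (2 * d8) ^ 3 * d3 * d8
  let μ₂ := 3 * Lf a (ell y ^ 3 * ell n * ell x ^ 2) * μ₁ ^ 3
  let μ₃ := 4 * Lf a (ell y ^ 2 * ell m * ell x ^ 3) * μ₂ ^ 4
  6 * Lf a (ell y * ell x ^ 5) * μ₃ ^ 6

theorem qsol_eq {R : Type*} [CommRing R] [Algebra k R] (a : (σ →₀ ℕ) → k)
    (Q : Fin 3 → MvPolynomial σ R) (A : Fin 3 → σ → R) (x : σ → R) (d : R)
    (h : ∀ i, Lf a (Q i * ell x ^ 2) = 0) :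
    qsol a Q A (d • x) = ((2 * d) ^ 3 *
      (Matrix.of fun i j : Fin 3 => Lf a (Q i * ell x * ell (A j))).det * d) • x := by
  unfold qsol
  have h0 : (fun i => Lf a (Q i * ell (d • x) ^ 2)) = 0 := by
    funext i
    have e : Q i * ell (d • x) ^ 2 = C (d ^ 2) * (Q i * ell x ^ 2) := by
      rw [ell_smul, map_pow]; ring
    rw [e, Lf_C_mul, h, mul_zero]
    rfl
  have h1 : (Matrix.of fun i j : Fin 3 => 2 * Lf a (Q i * ell (d • x) * ell (A j))) =
      (2 * d) • (Matrix.of fun i j : Fin 3 => Lf a (Q i * ell x * ell (A j))) := by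
    ext i j
    rw [Matrix.smul_apply, Matrix.of_apply, Matrix.of_apply, smul_eq_mul]
    have e : Q i * ell (d • x) * ell (A j) = C d * (Q i * ell x * ell (A j)) := by
      rw [ell_smul]; ring
    rw [e, Lf_C_mul]
    ring
  rw [h0, map_zero, h1, Matrix.det_smul, Fintype.card_fin]
  simp only [Pi.zero_apply, zero_smul, Finset.sum_const_zero, sub_zero]
  rw [smul_smul]

theorem par_eq {R : Type*} [CommRing R] [Algebra k R] (a : (σ →₀ ℕ) → k) (y m n : σ → R)
    (A : Fin 3 → σ → R) (z : Fin 8 → σ → R) (x : σ → R) (h : Eqs a y m n x) :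
    par a y m n A z x = rr a y m n A z x • x := by
  unfold par rr
  rw [kproj_eq _ _ _ (fun i => h.l8 i)]
  simp only [lin_apply]
  set d8 := (Matrix.of fun i j : Fin 8 => Lf a (lc (ell y) (ell m) (ell n) i * ell (z j))).det
    with hd8
  rw [qsol_eq a _ _ _ _ h.q3]
  set d3 := (Matrix.of fun i j : Fin 3 => Lf a (qc (ell y) (ell m) i * ell x * ell (A j))).det
    with hd3
  set μ₁ := (2 * d8) ^ 3 * d3 * d8 with hμ₁
  have s3 : st3 a y n (μ₁ • x) = (3 * Lf a (ell y ^ 3 * ell n * ell x ^ 2) * μ₁ ^ 3) • x := by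
    unfold st3
    have e1 : ell y ^ 3 * ell n * ell (μ₁ • x) ^ 2 = C (μ₁ ^ 2) * (ell y ^ 3 * ell n * ell x ^ 2) := by
      rw [ell_smul, map_pow]; ring
    have e2 : ell y ^ 3 * ell (μ₁ • x) ^ 3 = C (μ₁ ^ 3) * (ell y ^ 3 * ell x ^ 3) := by
      rw [ell_smul, map_pow]; ring
    rw [e1, e2, Lf_C_mul, Lf_C_mul, h.c1, mul_zero, zero_smul, sub_zero, smul_smul]
    congr 1; ring
  rw [s3]
  set μ₂ := 3 * Lf a (ell y ^ 3 * ell n * ell x ^ 2) * μ₁ ^ 3 with hμ₂
  have s2 : st2 a y m (μ₂ • x) = (4 * Lf a (ell y ^ 2 * ell m * ell x ^ 3) * μ₂ ^ 4) • x := by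
    unfold st2
    have e1 : ell y ^ 2 * ell m * ell (μ₂ • x) ^ 3 = C (μ₂ ^ 3) * (ell y ^ 2 * ell m * ell x ^ 3) := by
      rw [ell_smul, map_pow]; ring
    have e2 : ell y ^ 2 * ell (μ₂ • x) ^ 4 = C (μ₂ ^ 4) * (ell y ^ 2 * ell x ^ 4) := by
      rw [ell_smul, map_pow]; ring
    rw [e1, e2, Lf_C_mul, Lf_C_mul, h.f1, mul_zero, zero_smul, sub_zero, smul_smul]
    congr 1; ring
  rw [s2]
  set μ₃ := 4 * Lf a (ell y ^ 2 * ell m * ell x ^ 3) * μ₂ ^ 4 with hμ₃
  unfold st1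
  have e1 : ell y * ell (μ₃ • x) ^ 5 = C (μ₃ ^ 5) * (ell y * ell x ^ 5) := by
    rw [ell_smul, map_pow]; ring
  have e2 : ell (μ₃ • x) ^ 6 = C (μ₃ ^ 6) * (ell x ^ 6) := by
    rw [ell_smul, map_pow]; ring
  rw [e1, e2, Lf_C_mul, Lf_C_mul, h.s1, mul_zero, zero_smul, sub_zero, smul_smul]
  congr 1; ring

end main

section maps

variable {R S : Type*} [CommRing R] [Algebra k R] [CommRing S] [Algebra k S]

omit [Fintype σ] in
theorem map_cramer' {r : ℕ} (g : R →+* S) (A : Matrix (Fin r) (Fin r) R) (b : Fin r → R)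
    (j : Fin r) : g (A.cramer b j) = (A.map g).cramer (fun i => g (b i)) j := by
  rw [Matrix.cramer_apply, Matrix.cramer_apply, RingHom.map_det]
  congr 1
  ext i l
  simp only [RingHom.mapMatrix_apply, Matrix.map_apply, Matrix.updateCol_apply]
  split_ifs <;> rfl

theorem map_lc (g : R →+* S) (Y M N : MvPolynomial σ R) (i : Fin 8) :
    MvPolynomial.map g (lc Y M N i) =
      lc (MvPolynomial.map g Y) (MvPolynomial.map g M) (MvPolynomial.map g N) i := by
  fin_cases i <;> simp [lc]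

theorem map_qc (g : R →+* S) (Y M : MvPolynomial σ R) (i : Fin 3) :
    MvPolynomial.map g (qc Y M i) = qc (MvPolynomial.map g Y) (MvPolynomial.map g M) i := by
  fin_cases i <;> simp [qc]

theorem map_kproj {r : ℕ} (g : R →ₐ[k] S) (a : (σ →₀ ℕ) → k) (p : Fin r → MvPolynomial σ R)
    (z : Fin r → σ → R) (om : σ → R) (i : σ) :
    g (kproj (fun i => lin a (p i)) z om i) =
      kproj (fun i => lin a (MvPolynomial.map (g : R →+* S) (p i))) (fun j i => g (z j i))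
        (fun i => g (om i)) i := by
  unfold kproj
  have hm : (Matrix.of fun i j => lin a (p i) (z j)).map (g : R →+* S) =
      Matrix.of fun i j => lin a (MvPolynomial.map (g : R →+* S) (p i)) fun i => g (z j i) := by
    ext i j
    rw [Matrix.map_apply, Matrix.of_apply, Matrix.of_apply, lin_apply, lin_apply]
    have := map_Lf a g (p i * ell (z j))
    rw [RingHom.map_mul, map_ell] at this
    exact this
  have hb : (fun i => (g : R →+* S) (lin a (p i) om)) =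
      fun i => lin a (MvPolynomial.map (g : R →+* S) (p i)) fun i => g (om i) := by
    funext i
    rw [lin_apply, lin_apply]
    have := map_Lf a g (p i * ell om)
    rw [RingHom.map_mul, map_ell] at this
    exact this
  have hdet : g (Matrix.of fun i j => lin a (p i) (z j)).det =
      (Matrix.of fun i j => lin a (MvPolynomial.map (g : R →+* S) (p i)) fun i => g (z j i)).det := by
    rw [← hm]
    exact RingHom.map_det (g : R →+* S) _
  have hcr : ∀ j, g ((Matrix.of fun i j => lin a (p i) (z j)).cramer (fun i => lin a (p i) om) j) =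
      (Matrix.of fun i j => lin a (MvPolynomial.map (g : R →+* S) (p i)) fun i => g (z j i)).cramer
        (fun i => lin a (MvPolynomial.map (g : R →+* S) (p i)) fun i => g (om i)) j := by
    intro j
    rw [← hm, ← hb]
    exact map_cramer' (g : R →+* S) _ _ j
  simp only [Pi.sub_apply, Pi.smul_apply, smul_eq_mul, Finset.sum_apply, map_sub, map_mul, map_sum,
    hdet, hcr]

theorem map_qsol (g : R →ₐ[k] S) (a : (σ →₀ ℕ) → k) (Q : Fin 3 → MvPolynomial σ R)
    (A : Fin 3 → σ → R) (ze : σ → R) (i : σ) :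
    g (qsol a Q A ze i) = qsol a (fun i => MvPolynomial.map (g : R →+* S) (Q i))
      (fun j i => g (A j i)) (fun i => g (ze i)) i := by
  unfold qsol
  have hm : (Matrix.of fun i j => 2 * Lf a (Q i * ell ze * ell (A j))).map (g : R →+* S) =
      Matrix.of fun i j => 2 * Lf a (MvPolynomial.map (g : R →+* S) (Q i) *
        ell (fun i => g (ze i)) * ell (fun i => g (A j i))) := by
    ext i j
    rw [Matrix.map_apply, Matrix.of_apply, Matrix.of_apply]
    have := map_Lf a g (Q i * ell ze * ell (A j))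
    rw [RingHom.map_mul, RingHom.map_mul, map_ell, map_ell] at this
    rw [RingHom.map_mul, map_ofNat]
    exact congrArg (fun t => 2 * t) this
  have hb : (fun i => (g : R →+* S) (Lf a (Q i * ell ze ^ 2))) =
      fun i => Lf a (MvPolynomial.map (g : R →+* S) (Q i) * ell (fun i => g (ze i)) ^ 2) := by
    funext i
    have := map_Lf a g (Q i * ell ze ^ 2)
    rw [RingHom.map_mul, RingHom.map_pow, map_ell] at this
    exact this
  have hdet : g (Matrix.of fun i j => 2 * Lf a (Q i * ell ze * ell (A j))).det =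
      (Matrix.of fun i j => 2 * Lf a (MvPolynomial.map (g : R →+* S) (Q i) *
        ell (fun i => g (ze i)) * ell (fun i => g (A j i)))).det := by
    rw [← hm]
    exact RingHom.map_det (g : R →+* S) _
  have hcr : ∀ j, g ((Matrix.of fun i j => 2 * Lf a (Q i * ell ze * ell (A j))).cramer
      (fun i => Lf a (Q i * ell ze ^ 2)) j) =
      (Matrix.of fun i j => 2 * Lf a (MvPolynomial.map (g : R →+* S) (Q i) *
        ell (fun i => g (ze i)) * ell (fun i => g (A j i)))).cramer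
        (fun i => Lf a (MvPolynomial.map (g : R →+* S) (Q i) * ell (fun i => g (ze i)) ^ 2)) j := by
    intro j
    rw [← hm, ← hb]
    exact map_cramer' (g : R →+* S) _ _ j
  simp only [Pi.sub_apply, Pi.smul_apply, smul_eq_mul, Finset.sum_apply, map_sub, map_mul, map_sum,
    hdet, hcr]

theorem map_st3 (g : R →ₐ[k] S) (a : (σ →₀ ℕ) → k) (y n w : σ → R) (i : σ) :
    g (st3 a y n w i) = st3 a (fun i => g (y i)) (fun i => g (n i)) (fun i => g (w i)) i := by
  simp only [st3, Pi.sub_apply, Pi.smul_apply, smul_eq_mul, map_sub, map_mul, map_ofNat, map_Lf,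
    map_pow, map_ell, AlgHom.coe_toRingHom, RingHom.coe_coe]

theorem map_st2 (g : R →ₐ[k] S) (a : (σ →₀ ℕ) → k) (y m w : σ → R) (i : σ) :
    g (st2 a y m w i) = st2 a (fun i => g (y i)) (fun i => g (m i)) (fun i => g (w i)) i := by
  simp only [st2, Pi.sub_apply, Pi.smul_apply, smul_eq_mul, map_sub, map_mul, map_ofNat, map_Lf,
    map_pow, map_ell, AlgHom.coe_toRingHom, RingHom.coe_coe]

theorem map_st1 (g : R →ₐ[k] S) (a : (σ →₀ ℕ) → k) (y w : σ → R) (i : σ) :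
    g (st1 a y w i) = st1 a (fun i => g (y i)) (fun i => g (w i)) i := by
  simp only [st1, Pi.sub_apply, Pi.smul_apply, smul_eq_mul, map_sub, map_mul, map_ofNat, map_Lf,
    map_pow, map_ell, AlgHom.coe_toRingHom, RingHom.coe_coe]

end maps

theorem map_par {R S : Type*} [CommRing R] [Algebra k R] [CommRing S] [Algebra k S]
    (g : R →ₐ[k] S) (a : (σ →₀ ℕ) → k) (y m n : σ → R)
    (A : Fin 3 → σ → R) (z : Fin 8 → σ → R) (om : σ → R) (i : σ) :
    g (par a y m n A z om i) = par a (fun i => g (y i)) (fun i => g (m i)) (fun i => g (n i))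
      (fun j i => g (A j i)) (fun j i => g (z j i)) (fun i => g (om i)) i := by
  have h1 : (fun i => g (kproj (fun i => lin a (lc (ell y) (ell m) (ell n) i)) z om i)) =
      kproj (fun i => lin a (lc (ell fun i => g (y i)) (ell fun i => g (m i))
        (ell fun i => g (n i)) i)) (fun j i => g (z j i)) (fun i => g (om i)) := by
    funext i
    rw [map_kproj]
    simp only [map_lc, map_ell, RingHom.coe_coe]
  have h2 : ∀ ze : σ → R, (fun i => g (qsol a (qc (ell y) (ell m)) A ze i)) =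
      qsol a (qc (ell fun i => g (y i)) (ell fun i => g (m i))) (fun j i => g (A j i))
        (fun i => g (ze i)) := by
    intro ze
    funext i
    rw [map_qsol]
    simp only [map_qc, map_ell, RingHom.coe_coe]
  unfold par
  rw [map_st1]
  congr 1
  funext i
  rw [map_st2]
  congr 1
  funext i
  rw [map_st3]
  congr 1
  rw [h2, h1]

theorem map_rr {R S : Type*} [CommRing R] [Algebra k R] [CommRing S] [Algebra k S]
    (g : R →ₐ[k] S) (a : (σ →₀ ℕ) → k) (y m n : σ → R)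
    (A : Fin 3 → σ → R) (z : Fin 8 → σ → R) (x : σ → R) :
    g (rr a y m n A z x) = rr a (fun i => g (y i)) (fun i => g (m i)) (fun i => g (n i))
      (fun j i => g (A j i)) (fun j i => g (z j i)) (fun i => g (x i)) := by
  have hdet8 : g (Matrix.of fun i j : Fin 8 =>
      Lf a (lc (ell y) (ell m) (ell n) i * ell (z j))).det =
      (Matrix.of fun i j : Fin 8 => Lf a (lc (ell fun i => g (y i)) (ell fun i => g (m i))
        (ell fun i => g (n i)) i * ell fun i => g (z j i))).det := by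
    refine (RingHom.map_det (g : R →+* S) _).trans ?_
    congr 1
    ext i j
    rw [RingHom.mapMatrix_apply, Matrix.map_apply, Matrix.of_apply, Matrix.of_apply]
    have := map_Lf a g (lc (ell y) (ell m) (ell n) i * ell (z j))
    rw [RingHom.map_mul, map_lc, map_ell, map_ell, map_ell, map_ell] at this
    exact this
  have hdet3 : g (Matrix.of fun i j : Fin 3 =>
      Lf a (qc (ell y) (ell m) i * ell x * ell (A j))).det =
      (Matrix.of fun i j : Fin 3 => Lf a (qc (ell fun i => g (y i)) (ell fun i => g (m i)) i *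
        (ell fun i => g (x i)) * ell fun i => g (A j i))).det := by
    refine (RingHom.map_det (g : R →+* S) _).trans ?_
    congr 1
    ext i j
    rw [RingHom.mapMatrix_apply, Matrix.map_apply, Matrix.of_apply, Matrix.of_apply]
    have := map_Lf a g (qc (ell y) (ell m) i * ell x * ell (A j))
    rw [RingHom.map_mul, RingHom.map_mul, map_qc, map_ell, map_ell, map_ell, map_ell] at this
    exact this
  unfold rr
  simp only [map_mul, map_pow, map_ofNat, hdet8, hdet3, map_Lf, map_ell, RingHom.coe_coe]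

end Pool.Agent.Work.PD6
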