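import Mathlib
import Pool.Agent.Work.MP_b62148_ag.Sextic.Defs
import Pool.Agent.Work.MP_b62148_ag.Quintic.SpecialQ

/-!
Module S11: leading data specialise to the algebraic closure; vectors over the algebraic closure are
defined over a finite extension.
-/

namespace Pool.Agent.Work.PD6

open MvPolynomial

variable {k : Type*} [Field k] {σ : Type*} [Fintype σ]

section Maps

omit [Fintype σ] in
theorem map_lc_sp {R S : Type*} [CommRing R] [CommRing S] (g : R →+* S)
    (Y M N : MvPolynomial σ R) (i : Fin 8) : MvPolynomial.map g (lc Y M N i) =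
      lc (MvPolynomial.map g Y) (MvPolynomial.map g M) (MvPolynomial.map g N) i := by
  fin_cases i <;> simp [lc]

omit [Fintype σ] in
theorem map_qc_sp {R S : Type*} [CommRing R] [CommRing S] (g : R →+* S)
    (Y M : MvPolynomial σ R) (i : Fin 3) : MvPolynomial.map g (qc Y M i) =
      qc (MvPolynomial.map g Y) (MvPolynomial.map g M) i := by
  fin_cases i <;> simp [qc]

theorem map_ell_alg {R S : Type*} [CommRing R] [CommRing S] [Algebra k R] [Algebra k S]
    (g : R →ₐ[k] S) (v : σ → R) : MvPolynomial.map (g : R →+* S) (ell v) = ell fun i => g (v i) :=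
  map_ell (g : R →+* S) v

theorem map_lprod_sp (a : (σ →₀ ℕ) → k) {R S : Type*} [CommRing R] [Algebra k R] [CommRing S]
    [Algebra k S] (g : R →ₐ[k] S) (lam : Fin 7 → σ → R) (z : σ → R) (zz : Fin 8 → σ → R) :
    g (lprod a lam z zz) = lprod a (fun j i => g (lam j i)) (fun i => g (z i))
      (fun j i => g (zz j i)) := by
  unfold lprod
  rw [map_mul, map_mul, map_mul, map_mul, map_Lf, map_Lf, map_Lf, AlgHom.map_det, AlgHom.map_det]
  simp only [RingHom.map_mul, RingHom.map_pow, map_ell_alg]
  congr 2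
  · congr 1
    congr 1
    ext i j
    rw [AlgHom.mapMatrix_apply, Matrix.map_apply, Matrix.of_apply, Matrix.of_apply, map_Lf]
    simp only [RingHom.map_mul, map_qc_sp, map_ell_alg]
  · ext i j
    rw [AlgHom.mapMatrix_apply, Matrix.map_apply, Matrix.of_apply, Matrix.of_apply, map_Lf]
    simp only [RingHom.map_mul, map_lc_sp, map_ell_alg]

omit [Fintype σ] in
/-- transfer of zeros along a homomorphism from a subalgebra -/
theorem Lf_zero_sub (a : (σ →₀ ℕ) → k) {E : Type*} [Field E] [Algebra k E] {A : Subalgebra k E}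
    {S : Type*} [CommRing S] [Algebra k S] (g : A →ₐ[k] S) (p : MvPolynomial σ A)
    (h : Lf a (MvPolynomial.map (A.val : A →+* E) p) = 0) :
    Lf a (MvPolynomial.map (g : A →+* S) p) = 0 := by
  rw [← map_Lf]
  rw [← map_Lf] at h
  have h1 : Lf a p = 0 := Subtype.ext h
  rw [h1, map_zero]

end Maps

theorem leading_descend {E : Type*} [Field E] [Algebra k E] (a : (σ →₀ ℕ) → k)
    (h : Leading a E) : Leading a (AlgebraicClosure k) := by
  classical
  obtain ⟨lam, z, zz, hL, hw⟩ := h
  let s : Set E := Set.range (fun p : (Fin 7 × σ) ⊕ (σ ⊕ (Fin 8 × σ)) =>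
    Sum.elim (fun q => lam q.1 q.2) (Sum.elim (fun i => z i) (fun q => zz q.1 q.2)) p)
  have hsfin : s.Finite := Set.finite_range _
  have hlam0 : ∀ j i, lam j i ∈ s := fun j i => ⟨Sum.inl (j, i), rfl⟩
  have hz0 : ∀ i, z i ∈ s := fun i => ⟨Sum.inr (Sum.inl i), rfl⟩
  have hzz0 : ∀ j i, zz j i ∈ s := fun j i => ⟨Sum.inr (Sum.inr (j, i)), rfl⟩
  have hws : lprod a lam z zz ∈ Algebra.adjoin k s := by
    have := map_lprod_sp a (Algebra.adjoin k s).val
      (fun j i => ⟨lam j i, Algebra.subset_adjoin (hlam0 j i)⟩)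
      (fun i => ⟨z i, Algebra.subset_adjoin (hz0 i)⟩)
      (fun j i => ⟨zz j i, Algebra.subset_adjoin (hzz0 j i)⟩)
    rw [Subalgebra.coe_val] at this
    rw [show lprod a lam z zz = _ from this.symm]
    exact Subtype.coe_prop _
  obtain ⟨A, g, hsA, hwA, hg⟩ := PD5.exists_special s hsfin _ hw hws
  let lamA : Fin 7 → σ → A := fun j i => ⟨lam j i, hsA (hlam0 j i)⟩
  let zA : σ → A := fun i => ⟨z i, hsA (hz0 i)⟩
  let zzA : Fin 8 → σ → A := fun j i => ⟨zz j i, hsA (hzz0 j i)⟩
  have hwA' : (⟨lprod a lam z zz, hwA⟩ : A) = lprod a lamA zA zzA := by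
    apply Subtype.ext
    have := map_lprod_sp a A.val lamA zA zzA
    rw [Subalgebra.coe_val] at this
    rw [this]
  rw [hwA', map_lprod_sp] at hg
  have hl : ∀ j, MvPolynomial.map (A.val : A →+* E) (ell (lamA j)) = ell (lam j) := fun j =>
    map_ell_alg A.val (lamA j)
  have hz : MvPolynomial.map (A.val : A →+* E) (ell zA) = ell z := map_ell_alg A.val zA
  have hl' : ∀ j, MvPolynomial.map (g : A →+* AlgebraicClosure k) (ell (lamA j)) =
      ell fun i => g (lamA j i) := fun j => map_ell_alg g (lamA j)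
  have hz' : MvPolynomial.map (g : A →+* AlgebraicClosure k) (ell zA) = ell fun i => g (zA i) :=
    map_ell_alg g zA
  refine ⟨fun j i => g (lamA j i), fun i => g (zA i), fun j i => g (zzA j i), ?_, hg⟩
  refine ⟨?_, ?_, ?_, ?_, ?_, ?_⟩
  · intro i₁ i₂ i₃ i₄ i₅ i₆
    have h1 := Lf_zero_sub a g (ell (lamA i₁) * ell (lamA i₂) * ell (lamA i₃) * ell (lamA i₄) *
      ell (lamA i₅) * ell (lamA i₆)) (by
        simp only [RingHom.map_mul, hl]
        exact hL.iso i₁ i₂ i₃ i₄ i₅ i₆)
    simp only [RingHom.map_mul, hl'] at h1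
    exact h1
  · intro i
    have h1 := Lf_zero_sub a g (lc (ell (lamA 0)) (ell (lamA 1)) (ell (lamA 2)) i * ell zA) (by
        simp only [RingHom.map_mul, map_lc_sp, hl, hz]
        exact hL.l8 i)
    simp only [RingHom.map_mul, map_lc_sp, hl', hz'] at h1
    exact h1
  · intro i
    have h1 := Lf_zero_sub a g (qc (ell (lamA 0)) (ell (lamA 1)) i * ell (lamA 3) * ell zA) (by
        simp only [RingHom.map_mul, map_qc_sp, hl, hz]
        exact hL.q3 i)
    simp only [RingHom.map_mul, map_qc_sp, hl', hz'] at h1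
    exact h1
  · have h1 := Lf_zero_sub a g (ell (lamA 0) ^ 3 * ell (lamA 3) ^ 2 * ell zA) (by
        simp only [RingHom.map_mul, RingHom.map_pow, hl, hz]
        exact hL.c1)
    simp only [RingHom.map_mul, RingHom.map_pow, hl', hz'] at h1
    exact h1
  · have h1 := Lf_zero_sub a g (ell (lamA 0) ^ 2 * ell (lamA 3) ^ 3 * ell zA) (by
        simp only [RingHom.map_mul, RingHom.map_pow, hl, hz]
        exact hL.f1)
    simp only [RingHom.map_mul, RingHom.map_pow, hl', hz'] at h1
    exact h1
  · have h1 := Lf_zero_sub a g (ell (lamA 3) ^ 5 * ell zA) (by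
        simp only [RingHom.map_mul, RingHom.map_pow, hl, hz]
        exact hL.s1)
    simp only [RingHom.map_mul, RingHom.map_pow, hl', hz'] at h1
    exact h1

/-- vectors over the algebraic closure are defined over a finite extension -/
theorem descend_lam (a : (σ →₀ ℕ) → k) (lam : Fin 7 → σ → AlgebraicClosure k) (h : Iso a lam) :
    ∃ (L : IntermediateField k (AlgebraicClosure k)) (_ : FiniteDimensional k L)
      (lam' : Fin 7 → σ → L), Iso a lam' ∧
      lam = fun j i => algebraMap L (AlgebraicClosure k) (lam' j i) := by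
  classical
  let s : Set (AlgebraicClosure k) := Set.range (fun p : Fin 7 × σ => lam p.1 p.2)
  let L : IntermediateField k (AlgebraicClosure k) := IntermediateField.adjoin k s
  have hfin : FiniteDimensional k L := by
    have : Finite s := Set.finite_range _
    exact IntermediateField.finiteDimensional_adjoin fun x _ =>
      (Algebra.IsAlgebraic.isAlgebraic x).isIntegral
  have hmem : ∀ j i, lam j i ∈ L := fun j i =>
    IntermediateField.subset_adjoin k s ⟨(j, i), rfl⟩
  refine ⟨L, hfin, fun j i => ⟨lam j i, hmem j i⟩, ?_, rfl⟩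
  intro i₁ i₂ i₃ i₄ i₅ i₆
  let lamL : Fin 7 → σ → L := fun j i => ⟨lam j i, hmem j i⟩
  have h1 := map_Lf a L.val (ell (lamL i₁) * ell (lamL i₂) * ell (lamL i₃) * ell (lamL i₄) *
    ell (lamL i₅) * ell (lamL i₆))
  simp only [RingHom.map_mul, map_ell_alg] at h1
  apply L.val.injective
  rw [map_zero]
  exact h1.trans (h i₁ i₂ i₃ i₄ i₅ i₆)

end Pool.Agent.Work.PD6
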