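import Mathlib
import Pool.Agent.Work.MP_b62148_ag.Sextic.Defs
import Pool.Agent.Work.MP_b62148_ag.Sextic.ParS

/-!
S9: the differential of the parametrisation at a good configuration is onto the tangent space.
-/

namespace Pool.Agent.Work.PD6

open MvPolynomial

variable {k : Type*} [Field k] {σ : Type*} [Fintype σ]

/-- the parametrisation as polynomials in 42 + 9 N parameters -/
noncomputable def Ppoly {L : Type*} [Field L] [Algebra k L] (a : (σ →₀ ℕ) → k)
    (lam : Fin 7 → σ → L) : σ → MvPolynomial ((Fin 6 × Fin 7) ⊕ (Fin 9 × σ)) L :=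
  par a (comb (fun j i => C (lam j i)) fun j => X (Sum.inl (0, j)))
    (comb (fun j i => C (lam j i)) fun j => X (Sum.inl (1, j)))
    (comb (fun j i => C (lam j i)) fun j => X (Sum.inl (2, j)))
    (fun l => comb (fun j i => C (lam j i)) fun j => X (Sum.inl (Fin.natAdd 3 l, j)))
    (fun j i => X (Sum.inr (j.castSucc, i))) (fun i => X (Sum.inr (8, i)))

section Eval

variable {L : Type*} [Field L] [Algebra k L]

theorem aeval_Ppoly {R : Type*} [CommRing R] [Algebra k R] [Algebra L R] [IsScalarTower k L R]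
    (a : (σ →₀ ℕ) → k) (lam : Fin 7 → σ → L) (t : (Fin 6 × Fin 7) ⊕ (Fin 9 × σ) → R) (i : σ) :
    aeval t (Ppoly a lam i) =
      par a (comb (fun j i => algebraMap L R (lam j i)) fun j => t (Sum.inl (0, j)))
        (comb (fun j i => algebraMap L R (lam j i)) fun j => t (Sum.inl (1, j)))
        (comb (fun j i => algebraMap L R (lam j i)) fun j => t (Sum.inl (2, j)))
        (fun l => comb (fun j i => algebraMap L R (lam j i)) fun j =>
          t (Sum.inl (Fin.natAdd 3 l, j)))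
        (fun j i => t (Sum.inr (j.castSucc, i))) (fun i => t (Sum.inr (8, i))) i := by
  let g : MvPolynomial ((Fin 6 × Fin 7) ⊕ (Fin 9 × σ)) L →ₐ[k] R := (aeval t).restrictScalars k
  have h := map_par g a (comb (fun j i => C (lam j i)) fun j => X (Sum.inl (0, j)))
    (comb (fun j i => C (lam j i)) fun j => X (Sum.inl (1, j)))
    (comb (fun j i => C (lam j i)) fun j => X (Sum.inl (2, j)))
    (fun l => comb (fun j i => C (lam j i)) fun j => X (Sum.inl (Fin.natAdd 3 l, j)))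
    (fun j i => X (Sum.inr (j.castSucc, i))) (fun i => X (Sum.inr (8, i))) i
  have hg : ∀ p, g p = aeval t p := fun p => rfl
  have hc : ∀ a : Fin 6, (fun i => g (comb (fun j i => C (lam j i))
      (fun j => X (Sum.inl (a, j))) i)) =
      comb (fun j i => algebraMap L R (lam j i)) fun j => t (Sum.inl (a, j)) := by
    intro a
    funext i
    simp only [comb, map_sum, map_mul, hg, aeval_X, aeval_C]
  have hA : (fun (l : Fin 3) i => g (comb (fun j i => C (lam j i))
      (fun j => X (Sum.inl ((Fin.natAdd 3 l : Fin 6), j))) i)) =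
      fun l => comb (fun j i => algebraMap L R (lam j i)) fun j =>
        t (Sum.inl (Fin.natAdd 3 l, j)) := by
    funext l
    exact hc _
  rw [hc 0, hc 1, hc 2, hA] at h
  simp only [hg, aeval_X] at h
  exact h

end Eval

section Dual

open TrivSqZeroExt

variable {E : Type*} [Field E] [Algebra k E]

/-- a vector over the dual numbers -/
def tgDv (v w : σ → E) : σ → DualNumber E := fun i => inl (v i) + inr (w i)

/-- a polynomial over the dual numbers -/
noncomputable def tgP (p q : MvPolynomial σ E) : MvPolynomial σ (DualNumber E) :=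
  MvPolynomial.map (inlHom E E) p + C (inr 1) * MvPolynomial.map (inlHom E E) q

theorem tg_ell (v w : σ → E) : ell (tgDv v w) = tgP (ell v) (ell w) := by
  have h : tgDv v w = (fun i => inlHom E E (v i)) +
      (inr 1 : DualNumber E) • (fun i => inlHom E E (w i)) := by
    funext i
    simp only [tgDv, Pi.add_apply, Pi.smul_apply, smul_eq_mul, inlHom_apply]
    congr 1
    ext <;> simp
  rw [h, ell_add, ell_smul, tgP, map_ell, map_ell]

omit [Fintype σ] in
theorem tgP_mul (p q p' q' : MvPolynomial σ E) :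
    tgP p q * tgP p' q' = tgP (p * p') (p * q' + q * p') := by
  have h : (C (inr 1) * C (inr 1) : MvPolynomial σ (DualNumber E)) = 0 := by
    rw [← C_mul, inr_mul_inr, C_0]
  simp only [tgP, map_mul, map_add]
  linear_combination (MvPolynomial.map (inlHom E E) q * MvPolynomial.map (inlHom E E) q') * h

omit [Fintype σ] in
theorem tgP_two (p q : MvPolynomial σ E) : tgP p q ^ 2 = tgP (p ^ 2) (2 * (p * q)) := by
  rw [sq, tgP_mul]; exact congrArg₂ tgP (by ring) (by ring)
omit [Fintype σ] in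
theorem tgP_three (p q : MvPolynomial σ E) : tgP p q ^ 3 = tgP (p ^ 3) (3 * (p ^ 2 * q)) := by
  rw [pow_succ, tgP_two, tgP_mul]; exact congrArg₂ tgP (by ring) (by ring)
omit [Fintype σ] in
theorem tgP_four (p q : MvPolynomial σ E) : tgP p q ^ 4 = tgP (p ^ 4) (4 * (p ^ 3 * q)) := by
  rw [pow_succ, tgP_three, tgP_mul]; exact congrArg₂ tgP (by ring) (by ring)
omit [Fintype σ] in
theorem tgP_five (p q : MvPolynomial σ E) : tgP p q ^ 5 = tgP (p ^ 5) (5 * (p ^ 4 * q)) := by
  rw [pow_succ, tgP_four, tgP_mul]; exact congrArg₂ tgP (by ring) (by ring)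
omit [Fintype σ] in
theorem tgP_six (p q : MvPolynomial σ E) : tgP p q ^ 6 = tgP (p ^ 6) (6 * (p ^ 5 * q)) := by
  rw [pow_succ, tgP_five, tgP_mul]; exact congrArg₂ tgP (by ring) (by ring)

omit [Fintype σ] in
theorem Lf_tgP (a : (σ →₀ ℕ) → k) (p q : MvPolynomial σ E) :
    Lf a (tgP p q) = (inl (Lf a p) + inr (Lf a q) : DualNumber E) := by
  have h : ∀ p : MvPolynomial σ E, Lf a (MvPolynomial.map (inlHom E E) p) =
      (inl (Lf a p) : DualNumber E) := by
    intro p
    exact (map_Lf a (inlAlgHom k E E) p).symm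
  rw [tgP, map_add, Lf_C_mul, h, h]
  ext <;> simp

omit [Fintype σ] in
theorem tg_zero (a : (σ →₀ ℕ) → k) {P : MvPolynomial σ (DualNumber E)} {p q : MvPolynomial σ E}
    (hP : P = tgP p q) (hp : Lf a p = 0) (hq : Lf a q = 0) : Lf a P = 0 := by
  rw [hP, Lf_tgP, hp, hq]; simp

theorem tg_aeval_dual {L : Type*} [Field L] [Algebra L E] {τ : Type*} [Fintype τ] (t₀ t' : τ → E)
    (p : MvPolynomial τ L) :
    aeval (fun l => (inl (t₀ l) + inr (t' l) : DualNumber E)) p =
      inl (aeval t₀ p) + inr (∑ l, aeval t₀ (pderiv l p) * t' l) := by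
  classical
  induction p using MvPolynomial.induction_on with
  | C a =>
    simp only [aeval_C, pderiv_C, map_zero, zero_mul, Finset.sum_const_zero, inr_zero, add_zero]
    rfl
  | add p q hp hq =>
    simp only [map_add, hp, hq, add_mul, Finset.sum_add_distrib, inl_add, inr_add]
    ring
  | mul_X p i hp =>
    have h1 : ∑ l, aeval t₀ (pderiv l (p * X i)) * t' l =
        (∑ l, aeval t₀ (pderiv l p) * t' l) * t₀ i + aeval t₀ p * t' i := by
      simp only [Derivation.leibniz, map_add, smul_eq_mul, map_mul, aeval_X, pderiv_X, add_mul,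
        Finset.sum_add_distrib]
      rw [add_comm]
      congr 1
      · rw [Finset.sum_mul]
        refine Finset.sum_congr rfl fun l _ => ?_
        ring
      · rw [Finset.sum_eq_single i]
        · simp
        · intro j _ hj
          rw [Pi.single_eq_of_ne hj.symm]
          simp
        · simp
    rw [h1]
    simp only [map_mul, hp, aeval_X]
    ext
    · simp
    · simp [mul_comm]

section Tangent

variable (a : (σ →₀ ℕ) → k)

/-- the equations over the dual numbers -/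
theorem tg_eqs {y m n x : σ → E} (c : Eqs a y m n x) (y' m' n' h : σ → E)
    (l0 : 5 * Lf a (ell y ^ 4 * ell x * ell y') + Lf a (ell y ^ 5 * ell h) = 0)
    (l1 : 4 * Lf a (ell y ^ 3 * ell y' * ell m * ell x) + Lf a (ell y ^ 4 * ell x * ell m')
      + Lf a (ell y ^ 4 * ell m * ell h) = 0)
    (l2 : 4 * Lf a (ell y ^ 3 * ell y' * ell n * ell x) + Lf a (ell y ^ 4 * ell x * ell n')
      + Lf a (ell y ^ 4 * ell n * ell h) = 0)
    (l3 : 3 * Lf a (ell y ^ 2 * ell y' * ell m ^ 2 * ell x)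
      + 2 * Lf a (ell y ^ 3 * ell m * ell x * ell m') + Lf a (ell y ^ 3 * ell m ^ 2 * ell h) = 0)
    (l4 : 3 * Lf a (ell y ^ 2 * ell y' * ell m * ell n * ell x)
      + Lf a (ell y ^ 3 * ell m' * ell n * ell x) + Lf a (ell y ^ 3 * ell m * ell x * ell n')
      + Lf a (ell y ^ 3 * ell m * ell n * ell h) = 0)
    (l5 : 3 * Lf a (ell y ^ 2 * ell y' * ell n ^ 2 * ell x)
      + 2 * Lf a (ell y ^ 3 * ell n * ell x * ell n') + Lf a (ell y ^ 3 * ell n ^ 2 * ell h) = 0)
    (l6 : 2 * Lf a (ell y * ell y' * ell m ^ 3 * ell x)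
      + 3 * Lf a (ell y ^ 2 * ell m ^ 2 * ell x * ell m')
      + Lf a (ell y ^ 2 * ell m ^ 3 * ell h) = 0)
    (l7 : 2 * Lf a (ell y * ell y' * ell m ^ 2 * ell n * ell x)
      + 2 * Lf a (ell y ^ 2 * ell m * ell m' * ell n * ell x)
      + Lf a (ell y ^ 2 * ell m ^ 2 * ell x * ell n')
      + Lf a (ell y ^ 2 * ell m ^ 2 * ell n * ell h) = 0)
    (q0 : 4 * Lf a (ell y ^ 3 * ell x ^ 2 * ell y') + 2 * Lf a (ell y ^ 4 * ell x * ell h) = 0)
    (q1 : 3 * Lf a (ell y ^ 2 * ell y' * ell m * ell x ^ 2)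
      + Lf a (ell y ^ 3 * ell x ^ 2 * ell m') + 2 * Lf a (ell y ^ 3 * ell m * ell x * ell h) = 0)
    (q2 : 2 * Lf a (ell y * ell y' * ell m ^ 2 * ell x ^ 2)
      + 2 * Lf a (ell y ^ 2 * ell m * ell x ^ 2 * ell m')
      + 2 * Lf a (ell y ^ 2 * ell m ^ 2 * ell x * ell h) = 0)
    (d1 : 3 * Lf a (ell y ^ 2 * ell x ^ 3 * ell y') + 3 * Lf a (ell y ^ 3 * ell x ^ 2 * ell h) = 0)
    (f1 : 2 * Lf a (ell y * ell x ^ 4 * ell y') + 4 * Lf a (ell y ^ 2 * ell x ^ 3 * ell h) = 0)
    (s1 : Lf a (ell x ^ 5 * ell h) = 0) :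
    Eqs a (tgDv y y') (tgDv m m') (tgDv n n') (tgDv x h) where
  l8 := by
    intro i
    fin_cases i
    · refine tg_zero a (p := ell y ^ 5 * ell x)
        (q := 5 * (ell y ^ 4 * ell x * ell y') + ell y ^ 5 * ell h) ?_ (c.l8 0) ?_
      · show ell (tgDv y y') ^ 5 * ell (tgDv x h) = _
        simp only [tg_ell, tgP_five, tgP_mul]
        exact congrArg₂ tgP (by ring) (by ring)
      · rw [map_add, Lf_ofNat]; exact l0
    · refine tg_zero a (p := ell y ^ 4 * ell m * ell x)
        (q := 4 * (ell y ^ 3 * ell y' * ell m * ell x) + ell y ^ 4 * ell x * ell m'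
          + ell y ^ 4 * ell m * ell h) ?_ (c.l8 1) ?_
      · show ell (tgDv y y') ^ 4 * ell (tgDv m m') * ell (tgDv x h) = _
        simp only [tg_ell, tgP_four, tgP_mul]
        exact congrArg₂ tgP (by ring) (by ring)
      · rw [map_add, map_add, Lf_ofNat]; exact l1
    · refine tg_zero a (p := ell y ^ 4 * ell n * ell x)
        (q := 4 * (ell y ^ 3 * ell y' * ell n * ell x) + ell y ^ 4 * ell x * ell n'
          + ell y ^ 4 * ell n * ell h) ?_ (c.l8 2) ?_
      · show ell (tgDv y y') ^ 4 * ell (tgDv n n') * ell (tgDv x h) = _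
        simp only [tg_ell, tgP_four, tgP_mul]
        exact congrArg₂ tgP (by ring) (by ring)
      · rw [map_add, map_add, Lf_ofNat]; exact l2
    · refine tg_zero a (p := ell y ^ 3 * ell m ^ 2 * ell x)
        (q := 3 * (ell y ^ 2 * ell y' * ell m ^ 2 * ell x)
          + 2 * (ell y ^ 3 * ell m * ell x * ell m') + ell y ^ 3 * ell m ^ 2 * ell h) ?_
          (c.l8 3) ?_
      · show ell (tgDv y y') ^ 3 * ell (tgDv m m') ^ 2 * ell (tgDv x h) = _
        simp only [tg_ell, tgP_three, tgP_two, tgP_mul]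
        exact congrArg₂ tgP (by ring) (by ring)
      · rw [map_add, map_add, Lf_ofNat, Lf_ofNat]; exact l3
    · refine tg_zero a (p := ell y ^ 3 * ell m * ell n * ell x)
        (q := 3 * (ell y ^ 2 * ell y' * ell m * ell n * ell x)
          + ell y ^ 3 * ell m' * ell n * ell x + ell y ^ 3 * ell m * ell x * ell n'
          + ell y ^ 3 * ell m * ell n * ell h) ?_ (c.l8 4) ?_
      · show ell (tgDv y y') ^ 3 * ell (tgDv m m') * ell (tgDv n n') * ell (tgDv x h) = _
        simp only [tg_ell, tgP_three, tgP_mul]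
        exact congrArg₂ tgP (by ring) (by ring)
      · rw [map_add, map_add, map_add, Lf_ofNat]; exact l4
    · refine tg_zero a (p := ell y ^ 3 * ell n ^ 2 * ell x)
        (q := 3 * (ell y ^ 2 * ell y' * ell n ^ 2 * ell x)
          + 2 * (ell y ^ 3 * ell n * ell x * ell n') + ell y ^ 3 * ell n ^ 2 * ell h) ?_
          (c.l8 5) ?_
      · show ell (tgDv y y') ^ 3 * ell (tgDv n n') ^ 2 * ell (tgDv x h) = _
        simp only [tg_ell, tgP_three, tgP_two, tgP_mul]
        exact congrArg₂ tgP (by ring) (by ring)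
      · rw [map_add, map_add, Lf_ofNat, Lf_ofNat]; exact l5
    · refine tg_zero a (p := ell y ^ 2 * ell m ^ 3 * ell x)
        (q := 2 * (ell y * ell y' * ell m ^ 3 * ell x)
          + 3 * (ell y ^ 2 * ell m ^ 2 * ell x * ell m') + ell y ^ 2 * ell m ^ 3 * ell h) ?_
          (c.l8 6) ?_
      · show ell (tgDv y y') ^ 2 * ell (tgDv m m') ^ 3 * ell (tgDv x h) = _
        simp only [tg_ell, tgP_three, tgP_two, tgP_mul]
        exact congrArg₂ tgP (by ring) (by ring)
      · rw [map_add, map_add, Lf_ofNat, Lf_ofNat]; exact l6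
    · refine tg_zero a (p := ell y ^ 2 * ell m ^ 2 * ell n * ell x)
        (q := 2 * (ell y * ell y' * ell m ^ 2 * ell n * ell x)
          + 2 * (ell y ^ 2 * ell m * ell m' * ell n * ell x)
          + ell y ^ 2 * ell m ^ 2 * ell x * ell n' + ell y ^ 2 * ell m ^ 2 * ell n * ell h) ?_
          (c.l8 7) ?_
      · show ell (tgDv y y') ^ 2 * ell (tgDv m m') ^ 2 * ell (tgDv n n') * ell (tgDv x h) = _
        simp only [tg_ell, tgP_two, tgP_mul]
        exact congrArg₂ tgP (by ring) (by ring)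
      · rw [map_add, map_add, map_add, Lf_ofNat, Lf_ofNat]; exact l7
  q3 := by
    intro i
    fin_cases i
    · refine tg_zero a (p := ell y ^ 4 * ell x ^ 2)
        (q := 4 * (ell y ^ 3 * ell x ^ 2 * ell y') + 2 * (ell y ^ 4 * ell x * ell h)) ?_
        (c.q3 0) ?_
      · show ell (tgDv y y') ^ 4 * ell (tgDv x h) ^ 2 = _
        simp only [tg_ell, tgP_four, tgP_two, tgP_mul]
        exact congrArg₂ tgP (by ring) (by ring)
      · rw [map_add, Lf_ofNat, Lf_ofNat]; exact q0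
    · refine tg_zero a (p := ell y ^ 3 * ell m * ell x ^ 2)
        (q := 3 * (ell y ^ 2 * ell y' * ell m * ell x ^ 2) + ell y ^ 3 * ell x ^ 2 * ell m'
          + 2 * (ell y ^ 3 * ell m * ell x * ell h)) ?_ (c.q3 1) ?_
      · show ell (tgDv y y') ^ 3 * ell (tgDv m m') * ell (tgDv x h) ^ 2 = _
        simp only [tg_ell, tgP_three, tgP_two, tgP_mul]
        exact congrArg₂ tgP (by ring) (by ring)
      · rw [map_add, map_add, Lf_ofNat, Lf_ofNat]; exact q1
    · refine tg_zero a (p := ell y ^ 2 * ell m ^ 2 * ell x ^ 2)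
        (q := 2 * (ell y * ell y' * ell m ^ 2 * ell x ^ 2)
          + 2 * (ell y ^ 2 * ell m * ell x ^ 2 * ell m')
          + 2 * (ell y ^ 2 * ell m ^ 2 * ell x * ell h)) ?_ (c.q3 2) ?_
      · show ell (tgDv y y') ^ 2 * ell (tgDv m m') ^ 2 * ell (tgDv x h) ^ 2 = _
        simp only [tg_ell, tgP_two, tgP_mul]
        exact congrArg₂ tgP (by ring) (by ring)
      · rw [map_add, map_add, Lf_ofNat, Lf_ofNat, Lf_ofNat]; exact q2
  c1 := by
    refine tg_zero a (p := ell y ^ 3 * ell x ^ 3)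
      (q := 3 * (ell y ^ 2 * ell x ^ 3 * ell y') + 3 * (ell y ^ 3 * ell x ^ 2 * ell h)) ?_ c.c1 ?_
    · simp only [tg_ell, tgP_three, tgP_mul]
      exact congrArg₂ tgP (by ring) (by ring)
    · rw [map_add, Lf_ofNat, Lf_ofNat]; exact d1
  f1 := by
    refine tg_zero a (p := ell y ^ 2 * ell x ^ 4)
      (q := 2 * (ell y * ell x ^ 4 * ell y') + 4 * (ell y ^ 2 * ell x ^ 3 * ell h)) ?_ c.f1 ?_
    · simp only [tg_ell, tgP_two, tgP_four, tgP_mul]
      exact congrArg₂ tgP (by ring) (by ring)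
    · rw [map_add, Lf_ofNat, Lf_ofNat]; exact f1
  s1 := by
    refine tg_zero a (p := ell x ^ 6) (q := 6 * (ell x ^ 5 * ell h)) ?_ c.s1 ?_
    · simp only [tg_ell, tgP_six]
    · rw [Lf_ofNat, s1, mul_zero]

theorem tg_fst_rr (y m n : σ → E) (A : Fin 3 → σ → E) (z : Fin 8 → σ → E)
    (x y' m' n' h : σ → E) (A' : Fin 3 → σ → E) (z' : Fin 8 → σ → E) :
    fst (rr a (tgDv y y') (tgDv m m') (tgDv n n') (fun j => tgDv (A j) (A' j))
      (fun j => tgDv (z j) (z' j)) (tgDv x h)) = rr a y m n A z x := by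
  have hf : ∀ v w : σ → E, (fun i => fstHom k E E (tgDv v w i)) = v := by
    intro v w; funext i; simp [tgDv]
  have e : ∀ d : DualNumber E, fst d = fstHom k E E d := fun d => rfl
  have hA : (fun (j : Fin 3) i => fstHom k E E (tgDv (A j) (A' j) i)) = A := by
    funext j i; simp [tgDv]
  have hz : (fun (j : Fin 8) i => fstHom k E E (tgDv (z j) (z' j) i)) = z := by
    funext j i; simp [tgDv]
  rw [e, map_rr, hA, hz]
  simp only [hf]

theorem tg_deg {R : Type*} [CommRing R] (δ P5 P3 P2 d8 d3 : R) :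
    6 * (δ ^ 5 * P5) * (4 * (δ ^ 3 * P3) * (3 * (δ ^ 2 * P2) *
      ((2 * d8) ^ 3 * (δ ^ 3 * d3) * d8) ^ 3) ^ 4) ^ 6 =
    δ ^ 287 * (6 * P5 * (4 * P3 * (3 * P2 * ((2 * d8) ^ 3 * d3 * d8) ^ 3) ^ 4) ^ 6) := by
  have h1 : (2 * d8) ^ 3 * (δ ^ 3 * d3) * d8 = δ ^ 3 * ((2 * d8) ^ 3 * d3 * d8) := by ring
  rw [h1]
  generalize (2 * d8) ^ 3 * d3 * d8 = M1
  have h2 : 3 * (δ ^ 2 * P2) * (δ ^ 3 * M1) ^ 3 = δ ^ 11 * (3 * P2 * M1 ^ 3) := by ring
  rw [h2]
  generalize 3 * P2 * M1 ^ 3 = M2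
  have h3 : 4 * (δ ^ 3 * P3) * (δ ^ 11 * M2) ^ 4 = δ ^ 47 * (4 * P3 * M2 ^ 4) := by ring
  rw [h3]
  generalize 4 * P3 * M2 ^ 4 = M3
  rw [mul_pow, ← pow_mul]
  ring

/-- scaling the last vector in the constant -/
theorem tg_rr_smul {R : Type*} [CommRing R] [Algebra k R] (y m n : σ → R) (A : Fin 3 → σ → R)
    (z : Fin 8 → σ → R) (x : σ → R) (δ : R) :
    rr a y m n A z (δ • x) = δ ^ 287 * rr a y m n A z x := by
  have e1 : Lf a (ell y * ell (δ • x) ^ 5) = δ ^ 5 * Lf a (ell y * ell x ^ 5) := by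
    rw [← Lf_C_mul, ell_smul, C_pow]
    exact congrArg (Lf a) (by ring)
  have e2 : Lf a (ell y ^ 2 * ell m * ell (δ • x) ^ 3) =
      δ ^ 3 * Lf a (ell y ^ 2 * ell m * ell x ^ 3) := by
    rw [← Lf_C_mul, ell_smul, C_pow]
    exact congrArg (Lf a) (by ring)
  have e3 : Lf a (ell y ^ 3 * ell n * ell (δ • x) ^ 2) =
      δ ^ 2 * Lf a (ell y ^ 3 * ell n * ell x ^ 2) := by
    rw [← Lf_C_mul, ell_smul, C_pow]
    exact congrArg (Lf a) (by ring)
  have e4 : (Matrix.of fun i j : Fin 3 => Lf a (qc (ell y) (ell m) i * ell (δ • x) *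
      ell (A j))).det = δ ^ 3 *
      (Matrix.of fun i j : Fin 3 => Lf a (qc (ell y) (ell m) i * ell x * ell (A j))).det := by
    have : (Matrix.of fun i j : Fin 3 => Lf a (qc (ell y) (ell m) i * ell (δ • x) *
      ell (A j))) = δ • (Matrix.of fun i j : Fin 3 => Lf a (qc (ell y) (ell m) i * ell x *
        ell (A j))) := by
      ext i j
      rw [Matrix.smul_apply, Matrix.of_apply, Matrix.of_apply, smul_eq_mul, ← Lf_C_mul, ell_smul]
      exact congrArg (Lf a) (by ring)
    rw [this, Matrix.det_smul, Fintype.card_fin]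
  simp only [rr]
  rw [e1, e2, e3, e4]
  exact tg_deg _ _ _ _ _ _

theorem tg_eqs_smul {R : Type*} [CommRing R] [Algebra k R] {y m n x : σ → R} (c : Eqs a y m n x)
    (δ : R) : Eqs a y m n (δ • x) where
  l8 := by
    intro i
    have : lc (ell y) (ell m) (ell n) i * ell (δ • x) =
        C δ * (lc (ell y) (ell m) (ell n) i * ell x) := by
      rw [ell_smul]; ring
    rw [this, Lf_C_mul, c.l8 i, mul_zero]
  q3 := by
    intro i
    have : qc (ell y) (ell m) i * ell (δ • x) ^ 2 =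
        C (δ ^ 2) * (qc (ell y) (ell m) i * ell x ^ 2) := by
      rw [ell_smul, C_pow]; ring
    rw [this, Lf_C_mul, c.q3 i, mul_zero]
  c1 := by
    have : ell y ^ 3 * ell (δ • x) ^ 3 = C (δ ^ 3) * (ell y ^ 3 * ell x ^ 3) := by
      rw [ell_smul, C_pow]; ring
    rw [this, Lf_C_mul, c.c1, mul_zero]
  f1 := by
    have : ell y ^ 2 * ell (δ • x) ^ 4 = C (δ ^ 4) * (ell y ^ 2 * ell x ^ 4) := by
      rw [ell_smul, C_pow]; ring
    rw [this, Lf_C_mul, c.f1, mul_zero]
  s1 := by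
    have : ell (δ • x) ^ 6 = C (δ ^ 6) * (ell x ^ 6) := by
      rw [ell_smul, C_pow]; ring
    rw [this, Lf_C_mul, c.s1, mul_zero]

/-- the equations over the dual numbers for constant vectors -/
theorem tg_eqs_const {y m n x : σ → E} (c : Eqs a y m n x) :
    Eqs a (tgDv y 0) (tgDv m 0) (tgDv n 0) (tgDv x 0) := by
  have h0 : ell (0 : σ → E) = 0 := ell_zero
  apply tg_eqs a c 0 0 0 0 <;> simp [h0]

/-- scaling the point -/
theorem tg_par_scale {y m n x : σ → E} (A : Fin 3 → σ → E) (z : Fin 8 → σ → E)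
    (c : Eqs a y m n x) (i : σ) :
    snd (par a (tgDv y 0) (tgDv m 0) (tgDv n 0) (fun j => tgDv (A j) 0) (fun j => tgDv (z j) 0)
      (tgDv x x) i) = 288 * rr a y m n A z x * x i := by
  obtain ⟨δ, hδ⟩ : ∃ δ : DualNumber E, δ = inl 1 + inr 1 := ⟨_, rfl⟩
  have hx : tgDv x x = δ • tgDv x 0 := by
    funext i
    simp only [tgDv, Pi.smul_apply, smul_eq_mul, hδ]
    ext <;> simp
  have h0 : ∀ v : σ → E, (tgDv v 0) = fun i => inlAlgHom k E E (v i) := by
    intro v; funext i; simp [tgDv]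
  have hpar := par_eq a (tgDv y 0) (tgDv m 0) (tgDv n 0) (fun j => tgDv (A j) 0)
    (fun j => tgDv (z j) 0) (δ • tgDv x 0) (tg_eqs_smul a (tg_eqs_const a c) δ)
  have hrr : rr a (tgDv y 0) (tgDv m 0) (tgDv n 0) (fun j => tgDv (A j) 0)
    (fun j => tgDv (z j) 0) (tgDv x 0) = (inl (rr a y m n A z x) : DualNumber E) := by
    have := map_rr (inlAlgHom k E E) a y m n A z x
    simp only [h0]
    exact this.symm
  rw [hx, hpar, tg_rr_smul, hrr]
  have hδ29 : δ ^ 288 = inl 1 + inr 288 := by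
    have : ∀ n : ℕ, δ ^ n = inl 1 + inr (n : E) := by
      intro n
      induction n with
      | zero => simp
      | succ n ih =>
        rw [pow_succ, ih, hδ]
        ext
        · simp
        · simp [add_comm]
    exact_mod_cast this 288
  have : (δ ^ 287 * inl (rr a y m n A z x)) • δ • tgDv x 0 =
      fun i => δ ^ 288 * inl (rr a y m n A z x * x i) := by
    funext i
    simp only [Pi.smul_apply, smul_eq_mul, tgDv, Pi.zero_apply, inr_zero, add_zero, inl_mul]
    ring
  rw [this, hδ29]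
  simp
  ring

end Tangent

omit [Fintype σ] in
theorem tg_comb_dual {L : Type*} [Field L] [Algebra L E] (lam : Fin 7 → σ → L)
    (s s' : Fin 7 → E) :
    comb (fun j i => algebraMap L (DualNumber E) (lam j i)) (fun j => inl (s j) + inr (s' j)) =
      tgDv (comb (fun j i => algebraMap L E (lam j i)) s)
        (comb (fun j i => algebraMap L E (lam j i)) s') := by
  funext i
  have h : ∀ a : L, algebraMap L (DualNumber E) a = inl (algebraMap L E a) := fun a => rfl
  simp only [comb, tgDv, h]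
  ext
  · rw [fst_sum]
    simp
  · rw [snd_sum]
    simp [mul_comm]

end Dual

section Main

open TrivSqZeroExt

theorem tg_aux {L E : Type*} [Field L] [Algebra k L] [Field E] [Algebra k E] [Algebra L E]
    [IsScalarTower k L E] [CharZero L] (a : (σ →₀ ℕ) → k) (lam : Fin 7 → σ → L)
    (lamE : Fin 7 → σ → E) (hlamE : lamE = fun j i => algebraMap L E (lam j i))
    (Cf : Config a lamE) :
    ∃ t₀ : (Fin 6 × Fin 7) ⊕ (Fin 9 × σ) → E, ∃ r : E, r ≠ 0 ∧
      (fun j => aeval t₀ (Ppoly a lam j)) = r • Cf.x ∧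
      ∀ h : σ → E, Lf a (ell Cf.x ^ 5 * ell h) = 0 →
        ∃ t' : (Fin 6 × Fin 7) ⊕ (Fin 9 × σ) → E,
          ∀ j, ∑ l, aeval t₀ (pderiv l (Ppoly a lam j)) * t' l = h j := by
  classical
  have hE : CharZero E := charZero_of_injective_algebraMap (algebraMap L E).injective
  have htow : IsScalarTower k L (DualNumber E) := by
    refine IsScalarTower.of_algebraMap_eq fun a => ?_
    show (inl (algebraMap k E a) : DualNumber E) = inl (algebraMap L E (algebraMap k L a))
    rw [← IsScalarTower.algebraMap_apply]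
  obtain ⟨sy, sm, sn, sA, z, x, c, n1, n2, n3, n4, n5, t1, t2, t3⟩ := Cf
  dsimp only
  set y := comb lamE sy with hy
  set m := comb lamE sm with hm
  set n := comb lamE sn with hn
  set A : Fin 3 → σ → E := fun l => comb lamE (sA l) with hA
  -- the parameters
  let mk : (Fin 7 → E) → (Fin 7 → E) → (Fin 7 → E) → (Fin 3 → Fin 7 → E) → (Fin 8 → σ → E) →
      (σ → E) → ((Fin 6 × Fin 7) ⊕ (Fin 9 × σ) → E) := fun p q r B z om =>
    Sum.elim (fun c => ![p, q, r, B 0, B 1, B 2] c.1 c.2)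
      (fun c => if hc : c.1.val < 8 then z ⟨c.1.val, hc⟩ c.2 else om c.2)
  have mk0 : ∀ p q r B z om j, mk p q r B z om (Sum.inl (0, j)) = p j := fun _ _ _ _ _ _ _ => rfl
  have mk1 : ∀ p q r B z om j, mk p q r B z om (Sum.inl (1, j)) = q j := fun _ _ _ _ _ _ _ => rfl
  have mk2 : ∀ p q r B z om j, mk p q r B z om (Sum.inl (2, j)) = r j := fun _ _ _ _ _ _ _ => rfl
  have mkA : ∀ p q r B z om (l : Fin 3) j,
      mk p q r B z om (Sum.inl (Fin.natAdd 3 l, j)) = B l j := by
    intro p q r B z om l j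
    fin_cases l <;> rfl
  have mk3 : ∀ p q r B z om (j : Fin 8) i, mk p q r B z om (Sum.inr (j.castSucc, i)) = z j i := by
    intro p q r B z om j i
    simp [mk]
  have mk4 : ∀ p q r B z om i, mk p q r B z om (Sum.inr (8, i)) = om i := by
    intro p q r B z om i
    simp [mk]
  have hr0 : rr a y m n A z x ≠ 0 := by
    simp only [rr]
    have h2 : (2 : E) ≠ 0 := by norm_num
    have h3 : (3 : E) ≠ 0 := by norm_num
    have h4 : (4 : E) ≠ 0 := by norm_num
    have h6 : (6 : E) ≠ 0 := by norm_num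
    exact mul_ne_zero (mul_ne_zero h6 n4) (pow_ne_zero _ (mul_ne_zero (mul_ne_zero h4 n3)
      (pow_ne_zero _ (mul_ne_zero (mul_ne_zero h3 n2) (pow_ne_zero _ (mul_ne_zero
        (mul_ne_zero (pow_ne_zero _ (mul_ne_zero h2 n5)) n1) n5))))))
  set r := rr a y m n A z x with hr
  set t₀ := mk sy sm sn sA z x with ht₀
  have hcomb0 : comb lamE (0 : Fin 7 → E) = 0 := by
    funext i; simp [comb]
  have key : ∀ (s s' s'' : Fin 7 → E) (om' : σ → E) (i : σ),
      ∑ l, aeval t₀ (pderiv l (Ppoly a lam i)) * (mk s s' s'' 0 0 om') l =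
        snd (par a (tgDv y (comb lamE s)) (tgDv m (comb lamE s')) (tgDv n (comb lamE s''))
          (fun l => tgDv (A l) 0) (fun j => tgDv (z j) 0) (tgDv x om') i) := by
    intro s s' s'' om' i
    have h1 := tg_aeval_dual t₀ (mk s s' s'' 0 0 om') (Ppoly a lam i)
    have h2 := congrArg snd h1
    rw [snd_add, snd_inl, snd_inr, zero_add] at h2
    rw [← h2, aeval_Ppoly]
    have e0 : (fun j => (inl (t₀ (Sum.inl (0, j))) + inr (mk s s' s'' 0 0 om' (Sum.inl (0, j))) :
        DualNumber E)) = fun j => inl (sy j) + inr (s j) := rfl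
    have e1 : (fun j => (inl (t₀ (Sum.inl (1, j))) + inr (mk s s' s'' 0 0 om' (Sum.inl (1, j))) :
        DualNumber E)) = fun j => inl (sm j) + inr (s' j) := rfl
    have e2 : (fun j => (inl (t₀ (Sum.inl (2, j))) + inr (mk s s' s'' 0 0 om' (Sum.inl (2, j))) :
        DualNumber E)) = fun j => inl (sn j) + inr (s'' j) := rfl
    have eA : (fun l : Fin 3 => comb (fun j i => algebraMap L (DualNumber E) (lam j i))
        (fun j => (inl (t₀ (Sum.inl (Fin.natAdd 3 l, j))) +
          inr (mk s s' s'' 0 0 om' (Sum.inl (Fin.natAdd 3 l, j))) : DualNumber E))) =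
        fun l => tgDv (A l) 0 := by
      funext l
      have : (fun j => (inl (t₀ (Sum.inl (Fin.natAdd 3 l, j))) +
          inr (mk s s' s'' 0 0 om' (Sum.inl (Fin.natAdd 3 l, j))) : DualNumber E)) =
          fun j => inl (sA l j) + inr ((0 : Fin 7 → E) j) := by
        funext j
        rw [ht₀, mkA, mkA]
        rfl
      rw [this, tg_comb_dual, ← hlamE, hcomb0]
    have e3 : (fun (j : Fin 8) (i : σ) => (inl (t₀ (Sum.inr (j.castSucc, i))) +
        inr (mk s s' s'' 0 0 om' (Sum.inr (j.castSucc, i))) : DualNumber E)) =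
        fun j => tgDv (z j) 0 := by
      funext j i
      rw [ht₀, mk3, mk3]
      rfl
    have e4 : (fun (i : σ) => (inl (t₀ (Sum.inr (8, i))) +
        inr (mk s s' s'' 0 0 om' (Sum.inr (8, i))) : DualNumber E)) = tgDv x om' := by
      funext i
      rw [ht₀, mk4, mk4]
      rfl
    rw [e0, e1, e2, eA, e3, e4, tg_comb_dual, tg_comb_dual, tg_comb_dual, ← hlamE]
  refine ⟨t₀, r, hr0, ?_, ?_⟩
  · funext i
    rw [aeval_Ppoly]
    have eA : (fun l : Fin 3 => comb (fun j i => algebraMap L E (lam j i))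
        (fun j => t₀ (Sum.inl (Fin.natAdd 3 l, j)))) = A := by
      funext l
      have : (fun j => t₀ (Sum.inl (Fin.natAdd 3 l, j))) = sA l := by
        funext j
        rw [ht₀, mkA]
      rw [this, ← hlamE]
    have e3 : (fun (j : Fin 8) (i : σ) => t₀ (Sum.inr (j.castSucc, i))) = z := by
      funext j i
      rw [ht₀, mk3]
    have e4 : (fun (i : σ) => t₀ (Sum.inr (8, i))) = x := by
      funext i
      rw [ht₀, mk4]
    rw [eA, e3, e4, ← hlamE]
    exact congrFun (par_eq a y m n A z x c) i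
  · intro h hh
    -- first order deformation of `y`
    obtain ⟨s, hs⟩ := t1 ![-(Lf a (ell y ^ 5 * ell h)) / 5,
      -(2 * Lf a (ell y ^ 4 * ell x * ell h)) / 4, -(3 * Lf a (ell y ^ 3 * ell x ^ 2 * ell h)) / 3,
      -(4 * Lf a (ell y ^ 2 * ell x ^ 3 * ell h)) / 2]
    set y' := comb lamE s with hy'
    have s0 : Lf a (ell y ^ 4 * ell x * ell y') = -(Lf a (ell y ^ 5 * ell h)) / 5 := hs 0
    have s1 : Lf a (ell y ^ 3 * ell x ^ 2 * ell y') =
      -(2 * Lf a (ell y ^ 4 * ell x * ell h)) / 4 := hs 1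
    have s2 : Lf a (ell y ^ 2 * ell x ^ 3 * ell y') =
      -(3 * Lf a (ell y ^ 3 * ell x ^ 2 * ell h)) / 3 := hs 2
    have s3 : Lf a (ell y * ell x ^ 4 * ell y') =
      -(4 * Lf a (ell y ^ 2 * ell x ^ 3 * ell h)) / 2 := hs 3
    -- of `m`
    obtain ⟨s', hs'⟩ := t2 ![-(4 * Lf a (ell y ^ 3 * ell y' * ell m * ell x) +
        Lf a (ell y ^ 4 * ell m * ell h)),
      -(3 * Lf a (ell y ^ 2 * ell y' * ell m ^ 2 * ell x) +
        Lf a (ell y ^ 3 * ell m ^ 2 * ell h)) / 2,
      -(2 * Lf a (ell y * ell y' * ell m ^ 3 * ell x) +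
        Lf a (ell y ^ 2 * ell m ^ 3 * ell h)) / 3,
      -(3 * Lf a (ell y ^ 2 * ell y' * ell m * ell x ^ 2) +
        2 * Lf a (ell y ^ 3 * ell m * ell x * ell h)),
      -(2 * Lf a (ell y * ell y' * ell m ^ 2 * ell x ^ 2) +
        2 * Lf a (ell y ^ 2 * ell m ^ 2 * ell x * ell h)) / 2]
    set m' := comb lamE s' with hm'
    have u0 : Lf a (ell y ^ 4 * ell x * ell m') =
      -(4 * Lf a (ell y ^ 3 * ell y' * ell m * ell x) + Lf a (ell y ^ 4 * ell m * ell h)) := hs' 0
    have u1 : Lf a (ell y ^ 3 * ell m * ell x * ell m') =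
      -(3 * Lf a (ell y ^ 2 * ell y' * ell m ^ 2 * ell x) +
        Lf a (ell y ^ 3 * ell m ^ 2 * ell h)) / 2 := hs' 1
    have u2 : Lf a (ell y ^ 2 * ell m ^ 2 * ell x * ell m') =
      -(2 * Lf a (ell y * ell y' * ell m ^ 3 * ell x) +
        Lf a (ell y ^ 2 * ell m ^ 3 * ell h)) / 3 := hs' 2
    have u3 : Lf a (ell y ^ 3 * ell x ^ 2 * ell m') =
      -(3 * Lf a (ell y ^ 2 * ell y' * ell m * ell x ^ 2) +
        2 * Lf a (ell y ^ 3 * ell m * ell x * ell h)) := hs' 3
    have u4 : Lf a (ell y ^ 2 * ell m * ell x ^ 2 * ell m') =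
      -(2 * Lf a (ell y * ell y' * ell m ^ 2 * ell x ^ 2) +
        2 * Lf a (ell y ^ 2 * ell m ^ 2 * ell x * ell h)) / 2 := hs' 4
    -- of `n`
    obtain ⟨s'', hs''⟩ := t3 ![-(4 * Lf a (ell y ^ 3 * ell y' * ell n * ell x) +
        Lf a (ell y ^ 4 * ell n * ell h)),
      -(3 * Lf a (ell y ^ 2 * ell y' * ell m * ell n * ell x) +
        Lf a (ell y ^ 3 * ell m' * ell n * ell x) + Lf a (ell y ^ 3 * ell m * ell n * ell h)),
      -(2 * Lf a (ell y * ell y' * ell m ^ 2 * ell n * ell x) +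
        2 * Lf a (ell y ^ 2 * ell m * ell m' * ell n * ell x) +
        Lf a (ell y ^ 2 * ell m ^ 2 * ell n * ell h)),
      -(3 * Lf a (ell y ^ 2 * ell y' * ell n ^ 2 * ell x) +
        Lf a (ell y ^ 3 * ell n ^ 2 * ell h)) / 2]
    set n' := comb lamE s'' with hn'
    have v0 : Lf a (ell y ^ 4 * ell x * ell n') =
      -(4 * Lf a (ell y ^ 3 * ell y' * ell n * ell x) +
        Lf a (ell y ^ 4 * ell n * ell h)) := hs'' 0
    have v1 : Lf a (ell y ^ 3 * ell m * ell x * ell n') =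
      -(3 * Lf a (ell y ^ 2 * ell y' * ell m * ell n * ell x) +
        Lf a (ell y ^ 3 * ell m' * ell n * ell x) +
        Lf a (ell y ^ 3 * ell m * ell n * ell h)) := hs'' 1
    have v2 : Lf a (ell y ^ 2 * ell m ^ 2 * ell x * ell n') =
      -(2 * Lf a (ell y * ell y' * ell m ^ 2 * ell n * ell x) +
        2 * Lf a (ell y ^ 2 * ell m * ell m' * ell n * ell x) +
        Lf a (ell y ^ 2 * ell m ^ 2 * ell n * ell h)) := hs'' 2
    have v3 : Lf a (ell y ^ 3 * ell n * ell x * ell n') =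
      -(3 * Lf a (ell y ^ 2 * ell y' * ell n ^ 2 * ell x) +
        Lf a (ell y ^ 3 * ell n ^ 2 * ell h)) / 2 := hs'' 3
    have heq : Eqs a (tgDv y y') (tgDv m m') (tgDv n n') (tgDv x h) :=
      tg_eqs a c y' m' n' h (by rw [s0]; ring) (by rw [u0]; ring) (by rw [v0]; ring)
        (by rw [u1]; ring) (by rw [v1]; ring) (by rw [v3]; ring) (by rw [u2]; ring)
        (by rw [v2]; ring) (by rw [s1]; ring) (by rw [u3]; ring) (by rw [u4]; ring)
        (by rw [s2]; ring) (by rw [s3]; ring) hh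
    have hd := par_eq a (tgDv y y') (tgDv m m') (tgDv n n') (fun l => tgDv (A l) 0)
      (fun j => tgDv (z j) 0) (tgDv x h) heq
    set q := snd (rr a (tgDv y y') (tgDv m m') (tgDv n n') (fun l => tgDv (A l) 0)
      (fun j => tgDv (z j) 0) (tgDv x h)) with hq
    have hfst : fst (rr a (tgDv y y') (tgDv m m') (tgDv n n') (fun l => tgDv (A l) 0)
      (fun j => tgDv (z j) 0) (tgDv x h)) = r :=
      tg_fst_rr a y m n A z x y' m' n' h 0 0
    have k1 : ∀ i, ∑ l, aeval t₀ (pderiv l (Ppoly a lam i)) * (mk s s' s'' 0 0 h) l =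
        r * h i + q * x i := by
      intro i
      rw [key, hd, Pi.smul_apply, smul_eq_mul, snd_mul, hfst, ← hq]
      simp [tgDv, mul_comm]
    have k2 : ∀ i, ∑ l, aeval t₀ (pderiv l (Ppoly a lam i)) * (mk 0 0 0 0 0 x) l =
        288 * r * x i := by
      intro i
      rw [key, hcomb0]
      exact tg_par_scale a A z c i
    refine ⟨fun l => r⁻¹ * mk s s' s'' 0 0 h l - (q * (288 * r * r)⁻¹) * mk 0 0 0 0 0 x l, ?_⟩
    intro i
    have e : ∑ l, aeval t₀ (pderiv l (Ppoly a lam i)) *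
        (r⁻¹ * mk s s' s'' 0 0 h l - (q * (288 * r * r)⁻¹) * mk 0 0 0 0 0 x l) =
        r⁻¹ * (∑ l, aeval t₀ (pderiv l (Ppoly a lam i)) * (mk s s' s'' 0 0 h) l) -
        (q * (288 * r * r)⁻¹) *
          ∑ l, aeval t₀ (pderiv l (Ppoly a lam i)) * (mk 0 0 0 0 0 x) l := by
      rw [Finset.mul_sum, Finset.mul_sum, ← Finset.sum_sub_distrib]
      refine Finset.sum_congr rfl fun l _ => ?_
      ring
    rw [e, k1, k2]
    field_simp
    ring

theorem tangent {L E : Type*} [Field L] [Algebra k L] [Field E] [Algebra k E] [Algebra L E]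
    [IsScalarTower k L E] [CharZero L] (a : (σ →₀ ℕ) → k) (lam : Fin 7 → σ → L)
    (Cf : Config a fun j i => algebraMap L E (lam j i)) :
    ∃ t₀ : (Fin 6 × Fin 7) ⊕ (Fin 9 × σ) → E, ∃ r : E, r ≠ 0 ∧
      (fun j => aeval t₀ (Ppoly a lam j)) = r • Cf.x ∧
      ∀ h : σ → E, Lf a (ell Cf.x ^ 5 * ell h) = 0 →
        ∃ t' : (Fin 6 × Fin 7) ⊕ (Fin 9 × σ) → E,
          ∀ j, ∑ l, aeval t₀ (pderiv l (Ppoly a lam j)) * t' l = h j :=
  tg_aux a lam _ rfl Cf

end Main

end Pool.Agent.Work.PD6
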