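import Mathlib
import Pool.Agent.Work.MP_b62148_ag.Sextic.ConfigS
import Pool.Agent.Work.MP_b62148_ag.Sextic.ExistsZB
import Pool.Agent.Work.MP_b62148_ag.Sextic.FlagEx
import Pool.Agent.Work.MP_b62148_ag.Sextic.IrredS
import Pool.Agent.Work.MP_b62148_ag.Sextic.LeadS
import Pool.Agent.Work.MP_b62148_ag.Sextic.ParS
import Pool.Agent.Work.MP_b62148_ag.Sextic.PolF
import Pool.Agent.Work.MP_b62148_ag.Sextic.SpecialS
import Pool.Agent.Work.MP_b62148_ag.Sextic.TangentS
import Pool.Agent.Work.MP_b62148_ag.Sextic.Exist6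
import Pool.Agent.Work.MP_b62148_ag.Quintic.DensityQ
import Pool.Agent.Work.MP_b62148_ag.Quintic.IrredQ

/-!
S13: assembly of the sextic theorem.
-/

namespace Pool.Agent.Work.PD6

open MvPolynomial

variable {k : Type*} [Field k] {σ : Type*} [Fintype σ]

theorem aeval_map_alg {L : Type*} [Field L] [Algebra k L] {R : Type*} [CommRing R] [Algebra k R]
    [Algebra L R] [IsScalarTower k L R] (F : MvPolynomial σ k) (x : σ → R) :
    aeval x (map (algebraMap k L) F) = aeval x F := by
  rw [aeval_map_algebraMap]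

theorem pderiv_map_alg {L : Type*} [Field L] [Algebra k L] {R : Type*} [CommRing R] [Algebra k R]
    [Algebra L R] [IsScalarTower k L R] (F : MvPolynomial σ k) (x : σ → R) (i : σ) :
    aeval x (pderiv i (map (algebraMap k L) F)) = aeval x (pderiv i F) := by
  rw [pderiv_map, aeval_map_alg]

theorem iso_map_alg {a : (σ →₀ ℕ) → k} {ι : Type*} {R S : Type*} [CommRing R] [Algebra k R]
    [CommRing S] [Algebra k S] (g : R →ₐ[k] S) {lam : ι → σ → R} (h : Iso a lam) :
    Iso a fun j i => g (lam j i) := by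
  intro i₁ i₂ i₃ i₄ i₅ i₆
  have h1 := map_Lf a g (ell (lam i₁) * ell (lam i₂) * ell (lam i₃) * ell (lam i₄) *
    ell (lam i₅) * ell (lam i₆))
  rw [h, map_zero] at h1
  simp only [map_mul, map_ell] at h1
  exact h1.symm

theorem eta_ne_zero' (F : MvPolynomial σ k) (hirr : Irreducible F) (hF : F.IsHomogeneous 6)
    [hp : (Ideal.span {F}).IsPrime] (hcard : 3 ≤ Fintype.card σ) : PD.eta F ≠ 0 := by
  intro h0
  have h1 : ∀ i : σ, F ∣ X i := fun i => by
    rw [← PD.aeval_eta_eq_zero_iff F, aeval_X, h0]; rfl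
  obtain ⟨i⟩ : Nonempty σ := by
    rw [← Fintype.card_pos_iff]; omega
  obtain ⟨q, hq⟩ := h1 i
  have hd : (X i : MvPolynomial σ k).totalDegree = 1 := totalDegree_X i
  have hq0 : q ≠ 0 := by
    rintro rfl
    rw [mul_zero] at hq
    exact X_ne_zero i hq
  rw [hq, totalDegree_mul_of_isDomain hirr.ne_zero hq0, hF.totalDegree hirr.ne_zero] at hd
  omega

/-- leading data exist over the algebraic closure -/
theorem leading_main [CharZero k] (N0 : ℕ) (hN0 : 184 ≤ N0) (F : MvPolynomial σ k)
    (hF : F.IsHomogeneous 6) (hs : PD.SmoothForm F) (hcard : N0 + 7 ≤ Fintype.card σ)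
    (a : (σ →₀ ℕ) → k) (ha : IsPol 6 F a) : Leading a (AlgebraicClosure k) := by
  have hirr : Irreducible F := irreducible_of_smooth F hF hs (by omega)
  have hp : (Ideal.span {F}).IsPrime :=
    (Ideal.span_singleton_prime hirr.ne_zero).mpr hirr.prime
  have hg : GenPt a (PD.eta F) := genPt_eta F hF hs (by omega) a ha
  obtain ⟨Ω₁, _, _, _, y, m, hf⟩ := exists_genFlag a (fun Ω _ _ x h => bpf_of_smooth hs ha x h)
    (PD.eta F) hg (by omega)
  have c1 : CharZero Ω₁ := charZero_of_injective_algebraMap (algebraMap k Ω₁).injective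
  obtain ⟨lam, h0, h1, hli, hiso⟩ := exists_P6 N0 hN0 a hcard y m hf.li hf.line
  subst h0
  subst h1
  obtain ⟨Ω₂, _, _, _, lam', z, s, hf', hli', hiso', hs0, hz, hq, hc, honto⟩ := exists_zb a
    (fun Ω _ _ x h => bpf_of_smooth hs ha x h) lam hf hli hiso
  exact leading_descend a (leading_of_zb lam' z s hf' hli' hiso' hs0 hz hq hc honto)

theorem main_aux [CharZero k] (N0 : ℕ) (hN0 : 184 ≤ N0) (F : MvPolynomial σ k)
    (hF : F.IsHomogeneous 6) (hs : PD.SmoothForm F) (hcard : N0 + 7 ≤ Fintype.card σ) :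
    ∃ L : IntermediateField k (AlgebraicClosure k), FiniteDimensional k L ∧
      (∃ P : σ → MvPolynomial ((Fin 6 × Fin 7) ⊕ (Fin 9 × σ)) L,
        aeval P (map (algebraMap k L) F) = 0 ∧
        ∀ G : MvPolynomial σ L, aeval P G = 0 → map (algebraMap k L) F ∣ G) := by
  classical
  obtain ⟨a, ha⟩ := exists_isPol 6 F hF
  obtain ⟨lam, z, zz, hlead, hne⟩ := leading_main N0 hN0 F hF hs hcard a ha
  obtain ⟨L, hL, lam', hiso', hlam'⟩ := descend_lam a lam hlead.iso
  let Kb := AlgebraicClosure k
  let K := FractionRing (PowerSeries Kb)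
  obtain ⟨Cf⟩ := config_of_lead a lam z zz hlead hne
  have hcomp : ∀ c : L, algebraMap Kb K (algebraMap L Kb c) = algebraMap L K c := by
    intro c
    exact (IsScalarTower.algebraMap_apply L Kb K c).symm
  have hlamK : (fun j i => algebraMap Kb K (lam j i)) = fun j i => algebraMap L K (lam' j i) := by
    funext j i
    rw [hlam']
    exact hcomp _
  rw [hlamK] at Cf
  have hPF : aeval (Ppoly a lam') (map (algebraMap k L) F) = 0 := by
    rw [aeval_map_alg, ha.aeval_eq]
    have hiso2 : Iso a (fun j i =>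
        (C (lam' j i) : MvPolynomial ((Fin 6 × Fin 7) ⊕ (Fin 9 × σ)) L)) :=
      iso_map_alg (IsScalarTower.toAlgHom k L (MvPolynomial ((Fin 6 × Fin 7) ⊕ (Fin 9 × σ)) L)) hiso'
    exact par_mem a _ hiso2 _ _ _ _ _ _
  refine ⟨L, hL, Ppoly a lam', hPF, ?_⟩
  have cL : CharZero L := charZero_of_injective_algebraMap (algebraMap k L).injective
  have cK : CharZero K := charZero_of_injective_algebraMap (algebraMap L K).injective
  have hsL : PD.SmoothForm (map (algebraMap k L) F) := PD5.smooth_map F hs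
  have hFL : (map (algebraMap k L) F).IsHomogeneous 6 := hF.map _
  have hirrL : Irreducible (map (algebraMap k L) F) :=
    irreducible_of_smooth _ hFL hsL (by omega)
  obtain ⟨t₀, r, hr, hx, htan⟩ := tangent (L := L) (E := K) a lam' Cf
  have h6 : (6 : K) ≠ 0 := by norm_num
  have hgrad : ∀ v : σ → K, ∑ i, aeval (r • Cf.x) (pderiv i F) * v i =
      6 * r ^ 5 * Lf a (ell Cf.x ^ 5 * ell v) := by
    intro v
    have h1 := isPol_grad (d := 5) ha (r • Cf.x) v
    rw [h1, ell_smul, mul_pow, ← map_pow, mul_assoc, Lf_C_mul]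
    norm_num
    ring
  refine PD5.density (E := K) _ hirrL (Ppoly a lam') hPF t₀ ?_ ?_
  · rw [hx]
    by_contra hcon
    push Not at hcon
    have h1 := hgrad (comb (fun j i => algebraMap L K (lam' j i)) Cf.sy)
    have h2 : ∑ i, aeval (r • Cf.x) (pderiv i F) *
        (comb (fun j i => algebraMap L K (lam' j i)) Cf.sy) i = 0 := by
      refine Finset.sum_eq_zero fun i _ => ?_
      rw [← pderiv_map_alg (L := L), hcon i, zero_mul]
    rw [h2] at h1
    have h3 : Lf a (ell Cf.x ^ 5 * ell (comb (fun j i => algebraMap L K (lam' j i)) Cf.sy)) ≠ 0 := by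
      rw [mul_comm]
      exact Cf.n4
    exact mul_ne_zero (mul_ne_zero h6 (pow_ne_zero _ hr)) h3 h1.symm
  · intro h hh
    rw [hx] at hh
    apply htan
    have h1 := hgrad h
    have h2 : ∑ i, aeval (r • Cf.x) (pderiv i F) * h i = 0 := by
      rw [← hh]
      refine Finset.sum_congr rfl fun i _ => ?_
      rw [← pderiv_map_alg (L := L)]
    rw [h2] at h1
    exact (mul_eq_zero.mp h1.symm).resolve_left (mul_ne_zero h6 (pow_ne_zero _ hr))

/-- final form -/
theorem main_final' [CharZero k] (N0 : ℕ) (hN0 : 184 ≤ N0) (F : MvPolynomial σ k)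
    (hF : F.IsHomogeneous 6) (hs : PD.SmoothForm F) (hcard : N0 + 7 ≤ Fintype.card σ) :
    ∃ L : IntermediateField k (AlgebraicClosure k), FiniteDimensional k L ∧
      (∃ (m : ℕ) (P : σ → MvPolynomial (Fin m) L),
        aeval P (map (algebraMap k L) F) = 0 ∧
        ∀ G : MvPolynomial σ L, aeval P G = 0 → map (algebraMap k L) F ∣ G) ∧
      ∀ G : MvPolynomial σ L, (∀ x : σ → L, eval x (map (algebraMap k L) F) = 0 → eval x G = 0) →
        map (algebraMap k L) F ∣ G := by
  obtain ⟨L, hL, P, hP, hdom⟩ := main_aux N0 hN0 F hF hs hcard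
  refine ⟨L, hL, ?_, ?_⟩
  · let e := Fintype.equivFin ((Fin 6 × Fin 7) ⊕ (Fin 9 × σ))
    refine ⟨_, fun i => rename e (P i), ?_, ?_⟩
    · have h1 : aeval (fun i => rename e (P i)) (map (algebraMap k L) F) =
          rename e (aeval P (map (algebraMap k L) F)) := by
        rw [← AlgHom.comp_apply]
        congr 1
        apply MvPolynomial.algHom_ext
        intro i; simp
      rw [h1, hP, map_zero]
    · intro G hG
      apply hdom
      have h1 : aeval (fun i => rename e (P i)) G = rename e (aeval P G) := by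
        rw [← AlgHom.comp_apply]
        congr 1
        apply MvPolynomial.algHom_ext
        intro i; simp
      rw [h1] at hG
      exact rename_injective e e.injective (by rw [hG, map_zero])
  · intro G hG
    apply hdom
    have : Infinite L := inferInstance
    apply MvPolynomial.funext
    intro t
    rw [map_zero]
    have h1 : ∀ Q : MvPolynomial σ L, eval t (aeval P Q) = eval (fun i => eval t (P i)) Q := by
      intro Q
      have : ((aeval t : MvPolynomial _ L →ₐ[L] L).comp (aeval P)) =
          aeval (fun i => eval t (P i)) := by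
        apply MvPolynomial.algHom_ext
        intro i; simp [MvPolynomial.aeval_eq_eval]
      have := congrArg (fun f => f Q) this
      simpa [MvPolynomial.aeval_eq_eval] using this
    rw [h1]
    apply hG
    rw [← h1, hP, map_zero]

end Pool.Agent.Work.PD6
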