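import Mathlib
import Pool.Agent.Work.MP_b62148_ag.Sextic.Defs

/-! Definitions for S10 (exact configuration over Frac E[[t]]), sextic.md section 3. -/

namespace Pool.Agent.Work.PD6.Cfg

open MvPolynomial
open Pool.Agent.Work.PD6

variable {k : Type*} [Field k] {σ : Type*} [Fintype σ] {E : Type*} [Field E] [CharZero E]
  [Algebra k E]

/-- constant vector -/
noncomputable def cst (v : σ → E) : σ → PowerSeries E := fun i => PowerSeries.C (v i)

/-- `x = b + t (z + c + t ...)` with `c` in the six-space -/
def Near (lam : Fin 7 → σ → E) (z : σ → E) (x : σ → PowerSeries E) : Prop :=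
  ∃ (w : σ → PowerSeries E) (c : Fin 7 → E),
    x = cst (lam 3) + (PowerSeries.X : PowerSeries E) • w ∧
    ∀ i, PowerSeries.constantCoeff (w i) = z i + comb lam c i

end Pool.Agent.Work.PD6.Cfg
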