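import Mathlib
import Pool.Agent.Work.MP_b62148_ag.Sextic.Defs

/-!
S10, part (D): the leading matrices of `t1`, `t2`, `t3` are invertible.
-/

namespace Pool.Agent.Work.PD6.Cfg

open MvPolynomial
open Pool.Agent.Work.PD6

variable {k : Type*} [Field k] {σ : Type*} [Fintype σ] {E : Type*} [Field E] [CharZero E]
  [Algebra k E]

omit [Fintype σ] [CharZero E] in
theorem cfgDet_single (lam : Fin 7 → σ → E) (l : Fin 7) : comb lam (Pi.single l 1) = lam l := by
  funext i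
  simp [comb, Pi.single_apply]

omit [CharZero E] in
theorem cfgDet_of {p : ℕ} {M : Matrix (Fin p) (Fin p) E}
    (h : ∀ v : Fin p → E, (∀ i, ∑ j, M i j * v j = 0) → v = 0) : M.det ≠ 0 := by
  intro hdet
  obtain ⟨v, hv, hMv⟩ := Matrix.exists_mulVec_eq_zero_iff.2 hdet
  exact hv (h v fun i => congrFun hMv i)

omit [CharZero E] in
theorem cfgDet_three {G : Fin 3 → Fin 3 → E} (hG : (Matrix.of G).det ≠ 0) {v0 v1 v2 : E}
    (h0 : G 0 0 * v0 + G 0 1 * v1 + G 0 2 * v2 = 0)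
    (h1 : G 1 0 * v0 + G 1 1 * v1 + G 1 2 * v2 = 0)
    (h2 : G 2 0 * v0 + G 2 1 * v1 + G 2 2 * v2 = 0) : v0 = 0 ∧ v1 = 0 ∧ v2 = 0 := by
  have hw : (![v0, v1, v2] : Fin 3 → E) = 0 := by
    by_contra hne
    apply hG
    refine Matrix.exists_mulVec_eq_zero_iff.1 ⟨_, hne, ?_⟩
    funext i
    fin_cases i
    · simp [Matrix.mulVec, dotProduct, Fin.sum_univ_three]
      exact h0
    · simp [Matrix.mulVec, dotProduct, Fin.sum_univ_three]
      exact h1
    · simp [Matrix.mulVec, dotProduct, Fin.sum_univ_three]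
      exact h2
  exact ⟨congrFun hw 0, congrFun hw 1, congrFun hw 2⟩

omit [CharZero E] in
theorem cfgDet_g (a : (σ →₀ ℕ) → k) (lam : Fin 7 → σ → E) (z : σ → E) (i j : Fin 3) :
    Lf a (qc (ell (lam 0)) (ell (lam 1)) i * ell (lam (Fin.natAdd 4 j)) * ell z) =
      Lf a ((![ell (lam 0) ^ 4, ell (lam 0) ^ 3 * ell (lam 1), ell (lam 0) ^ 2 * ell (lam 1) ^ 2] :
        Fin 3 → MvPolynomial σ E) i * ell ((![lam 4, lam 5, lam 6] : Fin 3 → σ → E) j) *
        ell z) := by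
  have h1 : lam (Fin.natAdd 4 j) = (![lam 4, lam 5, lam 6] : Fin 3 → σ → E) j := by
    fin_cases j <;> rfl
  rw [h1, qc]

/-- (D1), for `t1` -/
theorem det1 (a : (σ →₀ ℕ) → k) (lam : Fin 7 → σ → E) (z : σ → E) (h : Lead a lam z)
    (hA : (Matrix.of fun i j : Fin 3 => Lf a (qc (ell (lam 0)) (ell (lam 1)) i *
      ell (lam (Fin.natAdd 4 j)) * ell z)).det ≠ 0)
    (hn : Lf a (ell (lam 0) ^ 3 * ell (lam 2) * ell (lam 3) * ell z) ≠ 0)
    (hm : Lf a (ell (lam 0) ^ 2 * ell (lam 1) * ell (lam 3) ^ 2 * ell z) ≠ 0)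
    (hy : Lf a (ell (lam 0) * ell (lam 3) ^ 4 * ell z) ≠ 0) :
    ∃ S : Fin 4 → Fin 7 → E, (Matrix.of fun i j : Fin 4 => (((i : ℕ) : E) + 1) *
      Lf a ((![ell (lam 0) ^ 4, ell (lam 0) ^ 3, ell (lam 0) ^ 2, ell (lam 0)] :
        Fin 4 → MvPolynomial σ E) i * ell (comb lam (S j)) * ell (lam 3) ^ (i : ℕ) *
        ell z)).det ≠ 0 := by
  obtain ⟨j0, hj0⟩ : ∃ j : Fin 3, Lf a (ell (lam 0) ^ 4 * ell (lam (Fin.natAdd 4 j)) * ell z) ≠ 0 := by
    by_contra hcon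
    push Not at hcon
    exact hA (Matrix.det_eq_zero_of_row_eq_zero 0 hcon)
  refine ⟨![Pi.single (Fin.natAdd 4 j0) 1, Pi.single 2 1, Pi.single 1 1, Pi.single 3 1], ?_⟩
  apply cfgDet_of
  intro v hv
  have f1 : Lf a (ell (lam 0) ^ 4 * ell (lam 2) * ell z) = 0 := h.l8 2
  have f2 : Lf a (ell (lam 0) ^ 4 * ell (lam 1) * ell z) = 0 := h.l8 1
  have f3 : Lf a (ell (lam 0) ^ 4 * ell (lam 3) * ell z) = 0 := h.q3 0
  have f4 : Lf a (ell (lam 0) ^ 3 * ell (lam 1) * ell (lam 3) * ell z) = 0 := h.q3 1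
  have r0 : (((0 : ℕ) : E) + 1) * Lf a (ell (lam 0) ^ 4 *
        ell (comb lam (Pi.single (Fin.natAdd 4 j0) 1)) * ell (lam 3) ^ 0 * ell z) * v 0
      + (((0 : ℕ) : E) + 1) * Lf a (ell (lam 0) ^ 4 * ell (comb lam (Pi.single 2 1)) *
        ell (lam 3) ^ 0 * ell z) * v 1
      + (((0 : ℕ) : E) + 1) * Lf a (ell (lam 0) ^ 4 * ell (comb lam (Pi.single 1 1)) *
        ell (lam 3) ^ 0 * ell z) * v 2
      + (((0 : ℕ) : E) + 1) * Lf a (ell (lam 0) ^ 4 * ell (comb lam (Pi.single 3 1)) *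
        ell (lam 3) ^ 0 * ell z) * v 3 = 0 := by
    have := hv 0
    rw [Fin.sum_univ_four] at this
    exact this
  have r1 : (((1 : ℕ) : E) + 1) * Lf a (ell (lam 0) ^ 3 *
        ell (comb lam (Pi.single (Fin.natAdd 4 j0) 1)) * ell (lam 3) ^ 1 * ell z) * v 0
      + (((1 : ℕ) : E) + 1) * Lf a (ell (lam 0) ^ 3 * ell (comb lam (Pi.single 2 1)) *
        ell (lam 3) ^ 1 * ell z) * v 1
      + (((1 : ℕ) : E) + 1) * Lf a (ell (lam 0) ^ 3 * ell (comb lam (Pi.single 1 1)) *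
        ell (lam 3) ^ 1 * ell z) * v 2
      + (((1 : ℕ) : E) + 1) * Lf a (ell (lam 0) ^ 3 * ell (comb lam (Pi.single 3 1)) *
        ell (lam 3) ^ 1 * ell z) * v 3 = 0 := by
    have := hv 1
    rw [Fin.sum_univ_four] at this
    exact this
  have r2 : (((2 : ℕ) : E) + 1) * Lf a (ell (lam 0) ^ 2 *
        ell (comb lam (Pi.single (Fin.natAdd 4 j0) 1)) * ell (lam 3) ^ 2 * ell z) * v 0
      + (((2 : ℕ) : E) + 1) * Lf a (ell (lam 0) ^ 2 * ell (comb lam (Pi.single 2 1)) *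
        ell (lam 3) ^ 2 * ell z) * v 1
      + (((2 : ℕ) : E) + 1) * Lf a (ell (lam 0) ^ 2 * ell (comb lam (Pi.single 1 1)) *
        ell (lam 3) ^ 2 * ell z) * v 2
      + (((2 : ℕ) : E) + 1) * Lf a (ell (lam 0) ^ 2 * ell (comb lam (Pi.single 3 1)) *
        ell (lam 3) ^ 2 * ell z) * v 3 = 0 := by
    have := hv 2
    rw [Fin.sum_univ_four] at this
    exact this
  have r3 : (((3 : ℕ) : E) + 1) * Lf a (ell (lam 0) *
        ell (comb lam (Pi.single (Fin.natAdd 4 j0) 1)) * ell (lam 3) ^ 3 * ell z) * v 0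
      + (((3 : ℕ) : E) + 1) * Lf a (ell (lam 0) * ell (comb lam (Pi.single 2 1)) *
        ell (lam 3) ^ 3 * ell z) * v 1
      + (((3 : ℕ) : E) + 1) * Lf a (ell (lam 0) * ell (comb lam (Pi.single 1 1)) *
        ell (lam 3) ^ 3 * ell z) * v 2
      + (((3 : ℕ) : E) + 1) * Lf a (ell (lam 0) * ell (comb lam (Pi.single 3 1)) *
        ell (lam 3) ^ 3 * ell z) * v 3 = 0 := by
    have := hv 3
    rw [Fin.sum_univ_four] at this
    exact this
  have n2 : (((1 : ℕ) : E) + 1) ≠ 0 := by norm_num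
  have n3 : (((2 : ℕ) : E) + 1) ≠ 0 := by norm_num
  have n4 : (((3 : ℕ) : E) + 1) ≠ 0 := by norm_num
  simp only [cfgDet_single] at r0 r1 r2 r3
  -- row 0
  rw [pow_zero, mul_one, mul_one, mul_one, mul_one, f1, f2, f3] at r0
  simp only [mul_zero, zero_mul, add_zero, Nat.cast_zero, zero_add, one_mul] at r0
  have v0 : v 0 = 0 := (mul_eq_zero.1 r0).resolve_left hj0
  -- row 1
  rw [v0, pow_one, f4] at r1
  have e1 : ell (lam 0) ^ 3 * ell (lam 3) * ell (lam 3) * ell z =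
      ell (lam 0) ^ 3 * ell (lam 3) ^ 2 * ell z := by ring
  rw [e1, h.c1] at r1
  simp only [mul_zero, zero_mul, add_zero, zero_add] at r1
  have v1 : v 1 = 0 := (mul_eq_zero.1 r1).resolve_left (mul_ne_zero n2 hn)
  -- row 2
  have e2 : ell (lam 0) ^ 2 * ell (lam 3) * ell (lam 3) ^ 2 * ell z =
      ell (lam 0) ^ 2 * ell (lam 3) ^ 3 * ell z := by ring
  rw [v0, v1, e2, h.f1] at r2
  simp only [mul_zero, zero_mul, add_zero, zero_add] at r2
  have v2 : v 2 = 0 := (mul_eq_zero.1 r2).resolve_left (mul_ne_zero n3 hm)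
  -- row 3
  have e3 : ell (lam 0) * ell (lam 3) * ell (lam 3) ^ 3 * ell z =
      ell (lam 0) * ell (lam 3) ^ 4 * ell z := by ring
  rw [v0, v1, v2, e3] at r3
  simp only [mul_zero, zero_add] at r3
  have v3 : v 3 = 0 := (mul_eq_zero.1 r3).resolve_left (mul_ne_zero n4 hy)
  funext i
  fin_cases i
  · exact v0
  · exact v1
  · exact v2
  · exact v3

/-- (D2), for `t2`; the exponents of `x` are 1, 1, 1, 2, 2 -/
theorem det2 (a : (σ →₀ ℕ) → k) (lam : Fin 7 → σ → E) (z : σ → E) (h : Lead a lam z)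
    (hA : (Matrix.of fun i j : Fin 3 => Lf a (qc (ell (lam 0)) (ell (lam 1)) i *
      ell (lam (Fin.natAdd 4 j)) * ell z)).det ≠ 0)
    (hn : Lf a (ell (lam 0) ^ 3 * ell (lam 2) * ell (lam 3) * ell z) ≠ 0)
    (hm : Lf a (ell (lam 0) ^ 2 * ell (lam 1) * ell (lam 3) ^ 2 * ell z) ≠ 0) :
    ∃ S : Fin 5 → Fin 7 → E, (Matrix.of fun i j : Fin 5 =>
      ((((![0, 0, 0, 1, 1] : Fin 5 → ℕ) i : ℕ) : E) + 1) *
      Lf a ((![ell (lam 0) ^ 4, ell (lam 0) ^ 3 * ell (lam 1), ell (lam 0) ^ 2 * ell (lam 1) ^ 2,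
        ell (lam 0) ^ 3, ell (lam 0) ^ 2 * ell (lam 1)] : Fin 5 → MvPolynomial σ E) i *
        ell (comb lam (S j)) * ell (lam 3) ^ ((![0, 0, 0, 1, 1] : Fin 5 → ℕ) i) *
        ell z)).det ≠ 0 := by
  refine ⟨![Pi.single 4 1, Pi.single 5 1, Pi.single 6 1, Pi.single 2 1, Pi.single 3 1], ?_⟩
  apply cfgDet_of
  intro v hv
  have row : ∀ (c : ℕ) (n : ℕ) (P : MvPolynomial σ E),
      ((c : E) + 1) * Lf a (P * ell (comb lam (Pi.single 4 1)) * ell (lam 3) ^ n * ell z) * v 0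
      + ((c : E) + 1) * Lf a (P * ell (comb lam (Pi.single 5 1)) * ell (lam 3) ^ n * ell z) * v 1
      + ((c : E) + 1) * Lf a (P * ell (comb lam (Pi.single 6 1)) * ell (lam 3) ^ n * ell z) * v 2
      + ((c : E) + 1) * Lf a (P * ell (comb lam (Pi.single 2 1)) * ell (lam 3) ^ n * ell z) * v 3
      + ((c : E) + 1) * Lf a (P * ell (comb lam (Pi.single 3 1)) * ell (lam 3) ^ n * ell z) * v 4
        = 0 →
      ((c : E) + 1) * (Lf a (P * ell (lam 4) * ell (lam 3) ^ n * ell z) * v 0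
      + Lf a (P * ell (lam 5) * ell (lam 3) ^ n * ell z) * v 1
      + Lf a (P * ell (lam 6) * ell (lam 3) ^ n * ell z) * v 2
      + Lf a (P * ell (lam 2) * ell (lam 3) ^ n * ell z) * v 3
      + Lf a (P * ell (lam 3) * ell (lam 3) ^ n * ell z) * v 4) = 0 := by
    intro c n P h0
    simp only [cfgDet_single] at h0
    linear_combination h0
  have r0 := row 0 0 (ell (lam 0) ^ 4) (by have := hv 0; rw [Fin.sum_univ_five] at this; exact this)
  have r1 := row 0 0 (ell (lam 0) ^ 3 * ell (lam 1))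
    (by have := hv 1; rw [Fin.sum_univ_five] at this; exact this)
  have r2 := row 0 0 (ell (lam 0) ^ 2 * ell (lam 1) ^ 2)
    (by have := hv 2; rw [Fin.sum_univ_five] at this; exact this)
  have r3 := row 1 1 (ell (lam 0) ^ 3)
    (by have := hv 3; rw [Fin.sum_univ_five] at this; exact this)
  have r4 := row 1 1 (ell (lam 0) ^ 2 * ell (lam 1))
    (by have := hv 4; rw [Fin.sum_univ_five] at this; exact this)
  clear row hv
  have f1 : Lf a (ell (lam 0) ^ 4 * ell (lam 2) * ell z) = 0 := h.l8 2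
  have f3 : Lf a (ell (lam 0) ^ 4 * ell (lam 3) * ell z) = 0 := h.q3 0
  have f4 : Lf a (ell (lam 0) ^ 3 * ell (lam 1) * ell (lam 3) * ell z) = 0 := h.q3 1
  have f7 : Lf a (ell (lam 0) ^ 3 * ell (lam 1) * ell (lam 2) * ell z) = 0 := h.l8 4
  have f8 : Lf a (ell (lam 0) ^ 2 * ell (lam 1) ^ 2 * ell (lam 2) * ell z) = 0 := h.l8 7
  have f9 : Lf a (ell (lam 0) ^ 2 * ell (lam 1) ^ 2 * ell (lam 3) * ell z) = 0 := h.q3 2
  have n1 : (((0 : ℕ) : E) + 1) ≠ 0 := by norm_num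
  have n2 : (((1 : ℕ) : E) + 1) ≠ 0 := by norm_num
  have r0' := (mul_eq_zero.1 r0).resolve_left n1
  have r1' := (mul_eq_zero.1 r1).resolve_left n1
  have r2' := (mul_eq_zero.1 r2).resolve_left n1
  have r3' := (mul_eq_zero.1 r3).resolve_left n2
  have r4' := (mul_eq_zero.1 r4).resolve_left n2
  simp only [pow_zero, mul_one] at r0' r1' r2'
  rw [f1, f3, zero_mul, zero_mul, add_zero, add_zero] at r0'
  rw [f7, f4, zero_mul, zero_mul, add_zero, add_zero] at r1'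
  rw [f8, f9, zero_mul, zero_mul, add_zero, add_zero] at r2'
  simp only [cfgDet_g] at hA
  obtain ⟨v0, v1, v2⟩ := cfgDet_three hA (v0 := v 0) (v1 := v 1) (v2 := v 2)
    (by simpa only [Matrix.cons_val_zero, Matrix.cons_val_one, Matrix.cons_val] using r0')
    (by simpa only [Matrix.cons_val_zero, Matrix.cons_val_one, Matrix.cons_val] using r1')
    (by simpa only [Matrix.cons_val_zero, Matrix.cons_val_one, Matrix.cons_val] using r2')
  rw [v0, v1, v2, pow_one] at r3' r4'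
  have e1 : ell (lam 0) ^ 3 * ell (lam 3) * ell (lam 3) * ell z =
      ell (lam 0) ^ 3 * ell (lam 3) ^ 2 * ell z := by ring
  rw [e1, h.c1] at r3'
  simp only [mul_zero, zero_mul, add_zero, zero_add] at r3'
  have v3 : v 3 = 0 := (mul_eq_zero.1 r3').resolve_left hn
  have e2 : ell (lam 0) ^ 2 * ell (lam 1) * ell (lam 3) * ell (lam 3) * ell z =
      ell (lam 0) ^ 2 * ell (lam 1) * ell (lam 3) ^ 2 * ell z := by ring
  rw [v3, e2] at r4'
  simp only [mul_zero, zero_add] at r4'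
  have v4 : v 4 = 0 := (mul_eq_zero.1 r4').resolve_left hm
  funext i
  fin_cases i
  · exact v0
  · exact v1
  · exact v2
  · exact v3
  · exact v4

/-- (D3), for `t3`; the exponents of `x` are all 1 -/
theorem det3 (a : (σ →₀ ℕ) → k) (lam : Fin 7 → σ → E) (z : σ → E) (h : Lead a lam z)
    (hA : (Matrix.of fun i j : Fin 3 => Lf a (qc (ell (lam 0)) (ell (lam 1)) i *
      ell (lam (Fin.natAdd 4 j)) * ell z)).det ≠ 0)
    (hn : Lf a (ell (lam 0) ^ 3 * ell (lam 2) * ell (lam 3) * ell z) ≠ 0) :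
    ∃ S : Fin 4 → Fin 7 → E, (Matrix.of fun i j : Fin 4 => (((0 : ℕ) : E) + 1) *
      Lf a ((![ell (lam 0) ^ 4, ell (lam 0) ^ 3 * ell (lam 1), ell (lam 0) ^ 2 * ell (lam 1) ^ 2,
        ell (lam 0) ^ 3 * ell (lam 2)] : Fin 4 → MvPolynomial σ E) i *
        ell (comb lam (S j)) * ell (lam 3) ^ 0 * ell z)).det ≠ 0 := by
  refine ⟨![Pi.single 4 1, Pi.single 5 1, Pi.single 6 1, Pi.single 3 1], ?_⟩
  apply cfgDet_of
  intro v hv
  have row : ∀ (P : MvPolynomial σ E),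
      (((0 : ℕ) : E) + 1) * Lf a (P * ell (comb lam (Pi.single 4 1)) * ell (lam 3) ^ 0 * ell z) *
        v 0
      + (((0 : ℕ) : E) + 1) * Lf a (P * ell (comb lam (Pi.single 5 1)) * ell (lam 3) ^ 0 * ell z) *
        v 1
      + (((0 : ℕ) : E) + 1) * Lf a (P * ell (comb lam (Pi.single 6 1)) * ell (lam 3) ^ 0 * ell z) *
        v 2
      + (((0 : ℕ) : E) + 1) * Lf a (P * ell (comb lam (Pi.single 3 1)) * ell (lam 3) ^ 0 * ell z) *
        v 3 = 0 →
      Lf a (P * ell (lam 4) * ell z) * v 0 + Lf a (P * ell (lam 5) * ell z) * v 1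
      + Lf a (P * ell (lam 6) * ell z) * v 2 + Lf a (P * ell (lam 3) * ell z) * v 3 = 0 := by
    intro P h0
    simp only [cfgDet_single, pow_zero, mul_one, Nat.cast_zero, zero_add, one_mul] at h0
    exact h0
  have r0 := row (ell (lam 0) ^ 4) (by have := hv 0; rw [Fin.sum_univ_four] at this; exact this)
  have r1 := row (ell (lam 0) ^ 3 * ell (lam 1))
    (by have := hv 1; rw [Fin.sum_univ_four] at this; exact this)
  have r2 := row (ell (lam 0) ^ 2 * ell (lam 1) ^ 2)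
    (by have := hv 2; rw [Fin.sum_univ_four] at this; exact this)
  have r3 := row (ell (lam 0) ^ 3 * ell (lam 2))
    (by have := hv 3; rw [Fin.sum_univ_four] at this; exact this)
  clear row hv
  have f3 : Lf a (ell (lam 0) ^ 4 * ell (lam 3) * ell z) = 0 := h.q3 0
  have f4 : Lf a (ell (lam 0) ^ 3 * ell (lam 1) * ell (lam 3) * ell z) = 0 := h.q3 1
  have f9 : Lf a (ell (lam 0) ^ 2 * ell (lam 1) ^ 2 * ell (lam 3) * ell z) = 0 := h.q3 2
  rw [f3, zero_mul, add_zero] at r0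
  rw [f4, zero_mul, add_zero] at r1
  rw [f9, zero_mul, add_zero] at r2
  simp only [cfgDet_g] at hA
  obtain ⟨v0, v1, v2⟩ := cfgDet_three hA (v0 := v 0) (v1 := v 1) (v2 := v 2)
    (by simpa only [Matrix.cons_val_zero, Matrix.cons_val_one, Matrix.cons_val] using r0)
    (by simpa only [Matrix.cons_val_zero, Matrix.cons_val_one, Matrix.cons_val] using r1)
    (by simpa only [Matrix.cons_val_zero, Matrix.cons_val_one, Matrix.cons_val] using r2)
  rw [v0, v1, v2] at r3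
  simp only [mul_zero, zero_add] at r3
  have v3 : v 3 = 0 := (mul_eq_zero.1 r3).resolve_left hn
  funext i
  fin_cases i
  · exact v0
  · exact v1
  · exact v2
  · exact v3

end Pool.Agent.Work.PD6.Cfg
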