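import Mathlib
import Pool.Agent.Work.MP_b62148_ag.Sextic.CfgDefs

/-! S10, parts C1 and C3: leading coefficients, unit determinants, surjectivity. -/

namespace Pool.Agent.Work.PD6.Cfg

open MvPolynomial
open Pool.Agent.Work.PD6

variable {k : Type*} [Field k] {σ : Type*} [Fintype σ] {E : Type*} [Field E] [CharZero E]
  [Algebra k E]

omit [CharZero E] in
/-- constants, as a homomorphism over `k` -/
theorem exists_CA : ∃ g : E →ₐ[k] PowerSeries E, (g : E →+* PowerSeries E) = PowerSeries.C := by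
  refine ⟨{ (PowerSeries.C : E →+* PowerSeries E) with commutes' := fun r => ?_ }, rfl⟩
  exact (PowerSeries.algebraMap_apply).symm

omit [CharZero E] in
/-- the constant coefficient, as a homomorphism over `k` -/
theorem exists_ccA : ∃ g : PowerSeries E →ₐ[k] E,
    (g : PowerSeries E →+* E) = PowerSeries.constantCoeff := by
  refine ⟨{ (PowerSeries.constantCoeff : PowerSeries E →+* E) with commutes' := fun r => ?_ }, rfl⟩
  rfl

omit [Fintype σ] [CharZero E] in
theorem Lf_map_C (a : (σ →₀ ℕ) → k) (p : MvPolynomial σ E) :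
    Lf a (MvPolynomial.map (PowerSeries.C : E →+* PowerSeries E) p) = PowerSeries.C (Lf a p) := by
  obtain ⟨g, hg⟩ := exists_CA (k := k) (E := E)
  have h := map_Lf a g p
  rw [hg] at h
  rw [← h, ← hg]
  rfl

omit [Fintype σ] [CharZero E] in
theorem cc_Lf (a : (σ →₀ ℕ) → k) (p : MvPolynomial σ (PowerSeries E)) :
    PowerSeries.constantCoeff (Lf a p) =
      Lf a (MvPolynomial.map (PowerSeries.constantCoeff : PowerSeries E →+* E) p) := by
  obtain ⟨g, hg⟩ := exists_ccA (k := k) (E := E)
  have h := map_Lf a g p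
  rw [hg] at h
  rw [← h, ← hg]
  rfl

omit [Fintype σ] [CharZero E] in
theorem map_cc_map_C (p : MvPolynomial σ E) :
    MvPolynomial.map (PowerSeries.constantCoeff : PowerSeries E →+* E)
      (MvPolynomial.map (PowerSeries.C : E →+* PowerSeries E) p) = p := by
  rw [MvPolynomial.map_map]
  have : (PowerSeries.constantCoeff : PowerSeries E →+* E).comp PowerSeries.C = RingHom.id E := by
    ext x
    simp
  rw [this, MvPolynomial.map_id]

/-- second order expansion of a power -/
theorem pow_expand {R : Type*} [CommRing R] (B W : R) (n : ℕ) :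
    ∃ G : R, ∀ _ : True, (B + W) ^ (n + 1) = B ^ (n + 1) + (n + 1 : ℕ) * (B ^ n * W) + W ^ 2 * G := by
  induction n with
  | zero => exact ⟨0, fun _ => by simp⟩
  | succ n ih =>
    obtain ⟨G, hG⟩ := ih
    refine ⟨(n + 1 : ℕ) * B ^ n + G * (B + W), fun _ => ?_⟩
    rw [pow_succ (B + W) (n + 1), hG trivial]
    push_cast
    ring

/-- (C1) -/
theorem res (a : (σ →₀ ℕ) → k) (lam : Fin 7 → σ → E) (z : σ → E) (x : σ → PowerSeries E)
    (h : Near lam z x) (n : ℕ) (P : MvPolynomial σ E)
    (h0 : Lf a (P * ell (lam 3) ^ (n + 1)) = 0)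
    (h1 : ∀ j, Lf a (P * ell (lam 3) ^ n * ell (lam j)) = 0) :
    ∃ u : PowerSeries E,
      Lf a (MvPolynomial.map (PowerSeries.C : E →+* PowerSeries E) P * ell x ^ (n + 1)) =
        PowerSeries.X * u ∧
      PowerSeries.constantCoeff u = (n + 1 : E) * Lf a (P * ell (lam 3) ^ n * ell z) := by
  obtain ⟨w, c, hx, hw⟩ := h
  have hcst : ell (cst (lam 3)) =
      MvPolynomial.map (PowerSeries.C : E →+* PowerSeries E) (ell (lam 3)) := by
    rw [map_ell]
    rfl
  set P' := MvPolynomial.map (PowerSeries.C : E →+* PowerSeries E) P with hP'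
  set B' := MvPolynomial.map (PowerSeries.C : E →+* PowerSeries E) (ell (lam 3)) with hB'
  obtain ⟨G, hG⟩ := pow_expand B' (C (PowerSeries.X : PowerSeries E) * ell w) n
  have hG := hG trivial
  have hex : P' * ell x ^ (n + 1) = P' * B' ^ (n + 1) +
      C (PowerSeries.X : PowerSeries E) * (C ((n + 1 : ℕ) : PowerSeries E) * (P' * B' ^ n * ell w) +
        C (PowerSeries.X : PowerSeries E) * (P' * ell w ^ 2 * G)) := by
    rw [hx, ell_add, ell_smul, hcst, hG, map_natCast]
    ring
  have h00 : Lf a (P' * B' ^ (n + 1)) = 0 := by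
    rw [hP', hB', ← map_pow, ← map_mul, Lf_map_C, h0, map_zero]
  refine ⟨((n + 1 : ℕ) : PowerSeries E) * Lf a (P' * B' ^ n * ell w) +
    PowerSeries.X * Lf a (P' * ell w ^ 2 * G), ?_, ?_⟩
  · rw [hex, map_add, h00, zero_add, Lf_C_mul, map_add, Lf_C_mul, Lf_C_mul]
  · have e1 : ∀ L₁ L₂ : PowerSeries E, PowerSeries.constantCoeff
        (((n + 1 : ℕ) : PowerSeries E) * L₁ + PowerSeries.X * L₂) =
        ((n + 1 : ℕ) : E) * PowerSeries.constantCoeff L₁ := by
      intro L₁ L₂
      rw [RingHom.map_add, RingHom.map_mul, RingHom.map_mul, PowerSeries.constantCoeff_X, zero_mul,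
        add_zero, map_natCast]
    have h2 : (fun i => (PowerSeries.constantCoeff : PowerSeries E →+* E) (w i)) =
        z + comb lam c := funext hw
    have e2 : MvPolynomial.map (PowerSeries.constantCoeff : PowerSeries E →+* E)
        (P' * B' ^ n * ell w) = P * ell (lam 3) ^ n * (ell z + ell (comb lam c)) := by
      rw [map_mul, map_mul, map_pow, hP', hB', map_cc_map_C, map_cc_map_C, map_ell, h2, ell_add]
    rw [e1, cc_Lf, e2, mul_add, map_add, ell_comb, Finset.mul_sum, map_sum]
    have h3 : ∑ j, Lf a (P * ell (lam 3) ^ n * (C (c j) * ell (lam j))) = 0 := by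
      refine Finset.sum_eq_zero fun j _ => ?_
      rw [mul_left_comm, Lf_C_mul, h1, mul_zero]
    rw [h3, add_zero]
    push_cast
    rfl

omit [CharZero E] in
/-- (C3a) -/
theorem det_unit {p : ℕ} (M : Matrix (Fin p) (Fin p) (PowerSeries E))
    (N : Matrix (Fin p) (Fin p) E)
    (h : ∀ i j, ∃ u : PowerSeries E, M i j = PowerSeries.X * u ∧
      PowerSeries.constantCoeff u = N i j) (hN : N.det ≠ 0) : M.det ≠ 0 := by
  choose u hu1 hu2 using h
  have h1 : M = (PowerSeries.X : PowerSeries E) • Matrix.of u := by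
    ext1 i j
    rw [hu1]
    rfl
  have h2 : PowerSeries.constantCoeff (Matrix.of u).det = N.det := by
    rw [RingHom.map_det]
    congr 1
    ext i j
    exact hu2 i j
  rw [h1, Matrix.det_smul]
  refine mul_ne_zero (pow_ne_zero _ PowerSeries.X_ne_zero) fun h3 => hN ?_
  rw [← h2, h3, map_zero]

/-- (C3b) -/
theorem onto_of_det {K : Type*} [Field K] [Algebra k K] (a : (σ →₀ ℕ) → k) (lam : Fin 7 → σ → K)
    {p : ℕ} (P : Fin p → MvPolynomial σ K) (S : Fin p → Fin 7 → K)
    (h : (Matrix.of fun i j => Lf a (P i * ell (comb lam (S j)))).det ≠ 0) (r : Fin p → K) :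
    ∃ s : Fin 7 → K, ∀ i, Lf a (P i * ell (comb lam s)) = r i := by
  set A : Matrix (Fin p) (Fin p) K := Matrix.of fun i j => Lf a (P i * ell (comb lam (S j)))
    with hA
  have hu : IsUnit A.det := h.isUnit
  refine ⟨∑ j, (A⁻¹.mulVec r) j • S j, fun i => ?_⟩
  have h1 : comb lam (∑ j, (A⁻¹.mulVec r) j • S j) = ∑ j, (A⁻¹.mulVec r) j • comb lam (S j) := by
    funext l
    simp only [comb, Finset.sum_apply, Pi.smul_apply, smul_eq_mul, Finset.sum_mul, Finset.mul_sum]
    rw [Finset.sum_comm]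
    refine Finset.sum_congr rfl fun j _ => Finset.sum_congr rfl fun i _ => ?_
    ring
  rw [h1, ell_sum_smul, Finset.mul_sum, map_sum]
  have h2 : A.mulVec (A⁻¹.mulVec r) = r := by
    rw [Matrix.mulVec_mulVec, Matrix.mul_nonsing_inv A hu, Matrix.one_mulVec]
  rw [← congrFun h2 i]
  show _ = ∑ j, A i j * (A⁻¹.mulVec r) j
  refine Finset.sum_congr rfl fun j _ => ?_
  rw [mul_left_comm, Lf_C_mul, mul_comm]
  rfl

end Pool.Agent.Work.PD6.Cfg
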