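import Mathlib
import Pool.Agent.Work.MP_b62148_ag.Quintic.ExistP3Sharp

/-!
Linear spaces on hypersurfaces containing a given linear space, for every system of forms of degree
`d - 1` with a right inverse: the deformation over the power series and the reduction.
-/

namespace Pool.Agent.Work.PD6

open MvPolynomial
open Pool.Agent.Work.PD5 (exists_fixed dual_of_li li_of_dual exists_reduced exists_point')

section Deform

set_option linter.unusedSectionVars false

variable {σ : Type*} [Fintype σ] {E : Type*} [Field E]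
variable {I M J : Type*} [Fintype I] [Fintype M] [Fintype J]

/-- the vectors of the graph of `A` -/
noncomputable def uvg (b : (I ⊕ M) ⊕ J → σ → E) {R : Type*} [CommRing R] [Algebra E R]
    (A : J → M → R) (i : I ⊕ M) : σ → R := fun t =>
  algebraMap E R (b (Sum.inl i) t) +
    Sum.elim (fun _ => (0 : R)) (fun m => ∑ j, A j m * algebraMap E R (b (Sum.inr j) t)) i

/-- the universal vector on the graph of `A` -/
noncomputable def svg (b : (I ⊕ M) ⊕ J → σ → E) {R : Type*} [CommRing R] [Algebra E R]
    (A : J → M → R) : σ → MvPolynomial (I ⊕ M) R := fun t =>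
  ∑ i, X i * C (uvg b A i t)

/-- the restriction of the form to the graph -/
noncomputable def PAg (F : MvPolynomial σ E) (b : (I ⊕ M) ⊕ J → σ → E) {R : Type*} [CommRing R]
    [Algebra E R] (A : J → M → R) : MvPolynomial (I ⊕ M) R :=
  aeval (svg b A) F

theorem svg_homog (b : (I ⊕ M) ⊕ J → σ → E) {R : Type*} [CommRing R] [Algebra E R]
    (A : J → M → R) (t : σ) : (svg b A t).IsHomogeneous 1 := by
  unfold svg
  refine IsHomogeneous.sum _ _ _ fun i _ => ?_
  exact (isHomogeneous_X R i).mul (isHomogeneous_C _ _)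

theorem PAg_homog {d : ℕ} (F : MvPolynomial σ E) (hF : F.IsHomogeneous d)
    (b : (I ⊕ M) ⊕ J → σ → E) {R : Type*} [CommRing R] [Algebra E R]
    (A : J → M → R) : (PAg F b A).IsHomogeneous d := by
  have h := hF.aeval (svg b A) (fun t => svg_homog b A t)
  rw [one_mul] at h
  exact h

theorem uvg_map (b : (I ⊕ M) ⊕ J → σ → E) {R S : Type*} [CommRing R] [Algebra E R] [CommRing S]
    [Algebra E S] (g : R →ₐ[E] S) (A : J → M → R) (i : I ⊕ M) (t : σ) :
    g (uvg b A i t) = uvg b (fun j i => g (A j i)) i t := by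
  unfold uvg
  rw [map_add, AlgHom.commutes]
  congr 1
  rcases i with i | i
  · simp
  · simp [map_sum, map_mul, AlgHom.commutes]

theorem PAg_map (F : MvPolynomial σ E) (b : (I ⊕ M) ⊕ J → σ → E) {R S : Type*} [CommRing R]
    [Algebra E R] [CommRing S] [Algebra E S] (g : R →ₐ[E] S) (A : J → M → R) :
    map (g : R →+* S) (PAg F b A) = PAg F b (fun j i => g (A j i)) := by
  have h := comp_aeval_apply (svg b A) (mapAlgHom (σ := I ⊕ M) g) F
  have hs : (fun t => mapAlgHom (σ := I ⊕ M) g (svg b A t)) =
      svg b (fun j i => g (A j i)) := by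
    funext t
    unfold svg
    rw [map_sum]
    refine Finset.sum_congr rfl fun i _ => ?_
    rw [map_mul, ← uvg_map]
    simp [mapAlgHom_apply]
  rw [hs] at h
  exact h

theorem PAg_coeff [Infinite E] (F : MvPolynomial σ E) (b : (I ⊕ M) ⊕ J → σ → E)
    (hp : ∀ s : I → E, aeval (∑ i, s i • b (Sum.inl (Sum.inl i))) F = 0)
    {R : Type*} [CommRing R] [Algebra E R] (A : J → M → R) (e : (I ⊕ M) →₀ ℕ)
    (he : ∀ m, e (Sum.inr m) = 0) : coeff e (PAg F b A) = 0 := by
  classical
  have hinj : Function.Injective (Sum.inl : I → I ⊕ M) := Sum.inl_injective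
  -- the universal point of the fixed space
  have h0 : (aeval (fun t => ∑ i, X i * C (b (Sum.inl (Sum.inl i)) t)) F : MvPolynomial I E) = 0 := by
    apply MvPolynomial.funext
    intro s
    rw [map_zero]
    have h1 := comp_aeval_apply (fun t => ∑ i, X i * C (b (Sum.inl (Sum.inl i)) t))
      (aeval s : MvPolynomial I E →ₐ[E] E) F
    have h2 : (fun t => (aeval s : MvPolynomial I E →ₐ[E] E)
        (∑ i, X i * C (b (Sum.inl (Sum.inl i)) t))) = ∑ i, s i • b (Sum.inl (Sum.inl i)) := by
      funext t
      rw [map_sum, Finset.sum_apply]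
      refine Finset.sum_congr rfl fun i _ => ?_
      rw [map_mul, aeval_X, Pi.smul_apply, smul_eq_mul, aeval_C]
      rfl
    rw [h2, hp] at h1
    rw [← h1]
    rfl
  -- restriction of the graph to the fixed space
  have h3 : killCompl hinj (PAg F b A) = 0 := by
    have h4 := comp_aeval_apply (svg b A)
      ((killCompl (R := R) hinj).restrictScalars E) F
    have h5 : (fun t => ((killCompl (R := R) hinj).restrictScalars E) (svg b A t)) =
        fun t => (mapAlgHom (σ := I) (Algebra.ofId E R))
          (∑ i, X i * C (b (Sum.inl (Sum.inl i)) t)) := by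
      funext t
      show killCompl hinj (svg b A t) = _
      unfold svg
      rw [map_sum, Fintype.sum_sum_type, map_sum]
      have h6 : ∀ m : M, killCompl (R := R) hinj (X (Sum.inr m) * C (uvg b A (Sum.inr m) t)) = 0 := by
        intro m
        rw [map_mul]
        have : killCompl (R := R) hinj (X (Sum.inr m)) = 0 := by
          rw [killCompl, aeval_X, dif_neg]
          rintro ⟨i, hi⟩
          exact Sum.inl_ne_inr hi
        rw [this, zero_mul]
      rw [Finset.sum_eq_zero (s := Finset.univ) (f := fun m : M =>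
        killCompl (R := R) hinj (X (Sum.inr m) * C (uvg b A (Sum.inr m) t))) fun m _ => h6 m,
        add_zero]
      refine Finset.sum_congr rfl fun i _ => ?_
      have h7 : killCompl (R := R) hinj (X (Sum.inl i)) = X i := by
        have := killCompl_rename_app (R := R) hinj (X i)
        rwa [rename_X] at this
      rw [map_mul, map_mul, h7, killCompl_C]
      simp [uvg, mapAlgHom_apply]
    rw [h5] at h4
    have h8 := comp_aeval_apply (fun t => ∑ i, X i * C (b (Sum.inl (Sum.inl i)) t))
      (mapAlgHom (σ := I) (Algebra.ofId E R)) F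
    rw [h0, map_zero] at h8
    rw [← h8] at h4
    exact h4
  have h9 := coeff_killCompl (p := PAg F b A) hinj (s := e.comapDomain Sum.inl hinj.injOn)
  rw [h3, coeff_zero, Finsupp.mapDomain_comapDomain _ hinj] at h9
  · exact h9.symm
  · intro u hu
    rcases u with i | m
    · exact ⟨i, rfl⟩
    · exact absurd (he m) (Finsupp.mem_support_iff.mp hu)

theorem peel_sumg {R : Type*} [CommRing R] [Algebra E R] (P : MvPolynomial (I ⊕ M) R)
    (g : J → MvPolynomial (I ⊕ M) E) (S : ((I ⊕ M) →₀ ℕ) → J → M → E)
    (hS : ∀ d ∈ P.support, ∑ j, (∑ i, C (S d j i) * X (Sum.inr i)) * g j = monomial d 1) :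
    P + ∑ j, (∑ i : M, C (- ∑ d ∈ P.support, coeff d P * algebraMap E R (S d j i)) *
      X (Sum.inr i)) * map (algebraMap E R) (g j) = 0 := by
  have h1 : P = ∑ d ∈ P.support, C (coeff d P) *
      map (algebraMap E R) (∑ j, (∑ i, C (S d j i) * X (Sum.inr i)) * g j) := by
    conv_lhs => rw [P.as_sum]
    refine Finset.sum_congr rfl fun d hd => ?_
    rw [hS d hd, map_monomial, map_one, C_mul_monomial, mul_one]
  let f : ((I ⊕ M) →₀ ℕ) → J → M → MvPolynomial (I ⊕ M) R := fun d j i =>
    C (coeff d P) * C (algebraMap E R (S d j i)) * X (Sum.inr i) * map (algebraMap E R) (g j)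
  have hL : ∀ j, (∑ i : M, C (- ∑ d ∈ P.support, coeff d P * algebraMap E R (S d j i)) *
      X (Sum.inr i)) * map (algebraMap E R) (g j) = - ∑ i, ∑ d ∈ P.support, f d j i := by
    intro j
    rw [Finset.sum_mul, ← Finset.sum_neg_distrib]
    refine Finset.sum_congr rfl fun i _ => ?_
    rw [map_neg, neg_mul, neg_mul, map_sum, Finset.sum_mul, Finset.sum_mul]
    refine congrArg Neg.neg (Finset.sum_congr rfl fun d _ => ?_)
    rw [map_mul]
  have hR : ∀ d, C (coeff d P) *
      map (algebraMap E R) (∑ j, (∑ i, C (S d j i) * X (Sum.inr i)) * g j) =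
        ∑ j, ∑ i, f d j i := by
    intro d
    rw [map_sum, Finset.mul_sum]
    refine Finset.sum_congr rfl fun j _ => ?_
    rw [map_mul, map_sum, Finset.sum_mul, Finset.mul_sum]
    refine Finset.sum_congr rfl fun i _ => ?_
    rw [map_mul, map_C, map_X]
    simp only [f]
    ring
  have h2 : ∑ j, (∑ i : M, C (- ∑ d ∈ P.support, coeff d P * algebraMap E R (S d j i)) *
      X (Sum.inr i)) * map (algebraMap E R) (g j) =
      - ∑ d ∈ P.support, C (coeff d P) *
      map (algebraMap E R) (∑ j, (∑ i, C (S d j i) * X (Sum.inr i)) * g j) := by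
    rw [Finset.sum_congr rfl fun j _ => hL j, Finset.sum_congr rfl fun d _ => hR d,
      Finset.sum_neg_distrib]
    congr 1
    rw [Finset.sum_congr rfl fun j _ => Finset.sum_comm, Finset.sum_comm]
  rw [h2, ← h1]
  ring

theorem push_sumg {R S : Type*} [CommRing R] [Algebra E R] [CommRing S] [Algebra E S]
    (φ : R →ₐ[E] S) (g : J → MvPolynomial (I ⊕ M) E) (H : J → M → R) (x : S) :
    C x * map (φ : R →+* S)
      (∑ j, (∑ i : M, C (H j i) * X (Sum.inr i)) * map (algebraMap E R) (g j)) =
      ∑ j, (∑ i : M, C (x * φ (H j i)) * X (Sum.inr i)) * map (algebraMap E S) (g j) := by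
  rw [map_sum, Finset.mul_sum]
  refine Finset.sum_congr rfl fun j _ => ?_
  have e1 : map (φ : R →+* S) (map (algebraMap E R) (g j)) = map (algebraMap E S) (g j) := by
    rw [map_map, AlgHom.comp_algebraMap]
  rw [map_mul, e1, ← mul_assoc]
  congr 1
  rw [map_sum, Finset.mul_sum]
  refine Finset.sum_congr rfl fun i _ => ?_
  rw [map_mul, map_C, map_X, map_mul, mul_assoc]
  rfl

/-- the deformation: over the power series the form `X * G + Σ x_j g_j` vanishes on a graph -/
theorem exists_graphg [Infinite E] {d : ℕ} (F : MvPolynomial σ E) (hF : F.IsHomogeneous d)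
    (b : (I ⊕ M) ⊕ J → σ → E)
    (hp : ∀ s : I → E, aeval (∑ i, s i • b (Sum.inl (Sum.inl i))) F = 0)
    (g : J → MvPolynomial (I ⊕ M) E)
    (hpeel : ∀ e : (I ⊕ M) →₀ ℕ, e.degree = d → (∃ m, e (Sum.inr m) ≠ 0) →
      ∃ A : J → M → E, ∑ j, (∑ i, C (A j i) * X (Sum.inr i)) * g j = monomial e 1) :
    ∃ A : J → M → PowerSeries E,
      C PowerSeries.X * PAg F b A +
        ∑ j, (∑ i : M, C (A j i) * X (Sum.inr i)) * map (algebraMap E (PowerSeries E)) (g j) =
          0 := by
  classical
  obtain ⟨A₀, hA₀⟩ : ∃ A₀ : J → M → MvPolynomial (J × M) E, A₀ = fun j i => X (j, i) :=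
    ⟨_, rfl⟩
  obtain ⟨P, hP⟩ : ∃ P : MvPolynomial (I ⊕ M) (MvPolynomial (J × M) E), P = PAg F b A₀ :=
    ⟨_, rfl⟩
  have hS : ∀ e : (I ⊕ M) →₀ ℕ, ∃ A : J → M → E, (e ∈ P.support →
      ∑ j, (∑ i, C (A j i) * X (Sum.inr i)) * g j = monomial e 1) := by
    intro e
    by_cases hd : e ∈ P.support
    · rw [hP] at hd
      have h1 : e.degree = d := by
        have := (PAg_homog F hF b A₀) (mem_support_iff.mp hd)
        rw [Finsupp.degree_eq_weight_one]
        exact this
      have h2 : ∃ m, e (Sum.inr m) ≠ 0 := by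
        by_contra hcon
        push Not at hcon
        exact (mem_support_iff.mp hd) (PAg_coeff F b hp A₀ e hcon)
      obtain ⟨A, hA⟩ := hpeel e h1 h2
      exact ⟨A, fun _ => hA⟩
    · exact ⟨fun _ _ => 0, fun h => absurd h hd⟩
  choose S hS using hS
  have hmain := peel_sumg P g S hS
  obtain ⟨H, hH⟩ : ∃ H : J → M → MvPolynomial (J × M) E, ∀ j i,
    H j i = - ∑ d ∈ P.support, coeff d P * algebraMap E _ (S d j i) := ⟨_, fun _ _ => rfl⟩
  simp only [← hH] at hmain
  obtain ⟨a, ha⟩ := exists_fixed fun p : J × M => H p.1 p.2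
  refine ⟨fun j i => a (j, i), ?_⟩
  obtain ⟨φ, hφ⟩ : ∃ φ : MvPolynomial (J × M) E →ₐ[E] PowerSeries E, φ = aeval a := ⟨_, rfl⟩
  have h4 := push_sumg φ g H PowerSeries.X
  have h5 : map (φ : MvPolynomial (J × M) E →+* PowerSeries E) P =
      PAg F b fun j i => a (j, i) := by
    have := PAg_map F b φ A₀
    rw [hP, this]
    congr 1
    funext j i
    rw [hφ, hA₀, aeval_X]
  have h6 : ∀ j i, PowerSeries.X * φ (H j i) = a (j, i) := by
    intro j i
    rw [hφ]
    exact (ha (j, i)).symm
  simp only [h6] at h4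
  rw [← h4, ← h5, ← mul_add, ← map_add, hmain, map_zero, mul_zero]

/-- a vector with given coordinates in the system `b` -/
def bvg {N : Type*} [Fintype N] (b : N → σ → E) {R : Type*} [CommRing R] [Algebra E R]
    (c : N → R) : σ → R := fun t => ∑ u, c u * algebraMap E R (b u t)

/-- the coordinates of the points of the graph -/
def graphg {R : Type*} [CommRing R] (A : J → M → R) (s : I ⊕ M → R) : (I ⊕ M) ⊕ J → R :=
  Sum.elim s fun j => ∑ i : M, A j i * s (Sum.inr i)

theorem bvg_map {N : Type*} [Fintype N] (b : N → σ → E) {R S : Type*} [CommRing R] [Algebra E R]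
    [CommRing S] [Algebra E S] (g : R →ₐ[E] S) (c : N → R) (t : σ) :
    g (bvg b c t) = bvg b (fun u => g (c u)) t := by
  unfold bvg
  rw [map_sum]
  refine Finset.sum_congr rfl fun u _ => ?_
  rw [map_mul, AlgHom.commutes]

theorem uvg_sum (b : (I ⊕ M) ⊕ J → σ → E) {R : Type*} [CommRing R] [Algebra E R]
    (A : J → M → R) (s : I ⊕ M → R) (t : σ) :
    ∑ i, s i * uvg b A i t = bvg b (graphg A s) t := by
  unfold uvg bvg graphg
  rw [Fintype.sum_sum_type (f := fun u : (I ⊕ M) ⊕ J => _)]
  simp only [Sum.elim_inl, Sum.elim_inr, mul_add, Finset.sum_add_distrib]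
  congr 1
  rw [Fintype.sum_sum_type]
  simp only [Sum.elim_inl, Sum.elim_inr, mul_zero, Finset.sum_const_zero, zero_add, Finset.mul_sum,
    Finset.sum_mul]
  rw [Finset.sum_comm]
  refine Finset.sum_congr rfl fun j _ => Finset.sum_congr rfl fun i _ => ?_
  ring

/-- evaluation of the restriction -/
theorem eval_PAg (F : MvPolynomial σ E) (b : (I ⊕ M) ⊕ J → σ → E) {R : Type*} [CommRing R]
    [Algebra E R] (A : J → M → R) (s : I ⊕ M → R) :
    eval s (PAg F b A) = aeval (bvg b (graphg A s)) F := by
  have h := comp_aeval_apply (svg b A)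
    ((aeval s : MvPolynomial (I ⊕ M) R →ₐ[R] R).restrictScalars E) F
  have hs : (fun t => ((aeval s : MvPolynomial (I ⊕ M) R →ₐ[R] R).restrictScalars E)
      (svg b A t)) = bvg b (graphg A s) := by
    funext t
    rw [← uvg_sum]
    show aeval s (svg b A t) = _
    unfold svg
    rw [map_sum]
    refine Finset.sum_congr rfl fun i _ => ?_
    rw [map_mul, aeval_X, ← MvPolynomial.algebraMap_eq, AlgHom.commutes]
    rfl
  rw [hs] at h
  rw [← h]
  rfl

/-- over the fraction field of the power series -/
theorem exists_graph_fieldg [Infinite E] {d : ℕ} (F : MvPolynomial σ E) (hF : F.IsHomogeneous d)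
    (b : (I ⊕ M) ⊕ J → σ → E)
    (hp : ∀ s : I → E, aeval (∑ i, s i • b (Sum.inl (Sum.inl i))) F = 0)
    (g : J → MvPolynomial (I ⊕ M) E)
    (hpeel : ∀ e : (I ⊕ M) →₀ ℕ, e.degree = d → (∃ m, e (Sum.inr m) ≠ 0) →
      ∃ A : J → M → E, ∑ j, (∑ i, C (A j i) * X (Sum.inr i)) * g j = monomial e 1) :
    ∃ (τ : FractionRing (PowerSeries E)) (A : J → M → FractionRing (PowerSeries E)),
      (∀ e : E, algebraMap E (FractionRing (PowerSeries E)) e ≠ τ) ∧
      ∀ s : I ⊕ M → FractionRing (PowerSeries E),
        τ * aeval (bvg b (graphg A s)) F +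
        ∑ j, graphg A s (Sum.inr j) * aeval (fun i => graphg A s (Sum.inl i)) (g j) = 0 := by
  obtain ⟨A, hA⟩ := exists_graphg F hF b hp g hpeel
  let φ : PowerSeries E →ₐ[E] FractionRing (PowerSeries E) :=
    IsScalarTower.toAlgHom E (PowerSeries E) (FractionRing (PowerSeries E))
  have hφ : Function.Injective φ := IsFractionRing.injective (PowerSeries E) _
  refine ⟨φ PowerSeries.X, fun j i => φ (A j i), ?_, ?_⟩
  · intro e he
    have h1 : φ (algebraMap E (PowerSeries E) e) = φ PowerSeries.X := by
      rw [AlgHom.commutes]; exact he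
    have h2 := hφ h1
    have h3 := congrArg (PowerSeries.coeff 1) h2
    rw [PowerSeries.coeff_one_X] at h3
    have h4 : PowerSeries.coeff 1 (algebraMap E (PowerSeries E) e) = 0 := by
      rw [PowerSeries.algebraMap_apply]
      simp
    rw [h4] at h3
    exact zero_ne_one h3
  · intro s
    have h1 := congrArg (fun q => eval s (map (φ : PowerSeries E →+* _) q)) hA
    simp only [map_add, map_mul, map_zero, map_sum, map_C, map_X, eval_C, eval_X] at h1
    rw [PAg_map F b φ A, eval_PAg] at h1
    refine Eq.trans ?_ h1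
    congr 1
    refine Finset.sum_congr rfl fun j _ => ?_
    congr 1
    have e1 : map (φ : PowerSeries E →+* FractionRing (PowerSeries E))
        (map (algebraMap E (PowerSeries E)) (g j)) =
        map (algebraMap E (FractionRing (PowerSeries E))) (g j) := by
      rw [map_map, AlgHom.comp_algebraMap]
    rw [e1, eval_map, aeval_def]
    rfl

universe v

/-- reduction along a valuation ring -/
theorem exists_residueg [IsAlgClosed E] [DecidableEq I] [DecidableEq J] {r1 : ℕ}
    (F : MvPolynomial σ E) (b : (I ⊕ Fin r1) ⊕ J → σ → E)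
    (g : J → MvPolynomial (I ⊕ Fin r1) E)
    {K : Type v} [Field K] [Algebra E K] (τ : K) (hτ : ∀ e : E, algebraMap E K e ≠ τ)
    (A : J → Fin r1 → K)
    (hA : ∀ s : I ⊕ Fin r1 → K,
        τ * aeval (bvg b (graphg A s)) F +
        ∑ j, graphg A s (Sum.inr j) * aeval (fun i => graphg A s (Sum.inl i)) (g j) = 0) :
    ∃ (κ : Type v) (_ : Field κ) (_ : Algebra E κ) (c : I ⊕ Fin r1 → ((I ⊕ Fin r1) ⊕ J) → κ),
      (∀ i, c (Sum.inl i) (Sum.inl (Sum.inl i)) = 1) ∧
      (∀ i u, u ≠ Sum.inl (Sum.inl i) → c (Sum.inl i) u = 0) ∧ LinearIndependent κ c ∧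
      ∀ x : I ⊕ Fin r1 → κ, aeval (bvg b (∑ i, x i • c i)) F = 0 := by
  obtain ⟨V, hEV, hτV⟩ := PD.exists_valuationSubring τ hτ
  let _ : Algebra E V := ((algebraMap E K).codRestrict V.toSubring hEV).toAlgebra
  have htower : IsScalarTower E V K := IsScalarTower.of_algebraMap_eq fun e => rfl
  let φ : V →ₐ[E] K := IsScalarTower.toAlgHom E V K
  have hφ : ∀ v : V, φ v = (v : K) := fun _ => rfl
  let ρ : V →ₐ[E] IsLocalRing.ResidueField V :=
    IsScalarTower.toAlgHom E V (IsLocalRing.ResidueField V)
  have hρ : ∀ v : V, ρ v = IsLocalRing.residue V v := fun _ => rfl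
  -- the graph as a subspace
  let L : (I ⊕ Fin r1 → K) →ₗ[K] ((I ⊕ Fin r1) ⊕ J → K) :=
    { toFun := graphg A
      map_add' := by
        intro x y
        funext u
        rcases u with u | j
        · rfl
        · simp only [graphg, Sum.elim_inr, Pi.add_apply, mul_add, Finset.sum_add_distrib]
      map_smul' := by
        intro r x
        funext u
        rcases u with u | j
        · rfl
        · simp only [graphg, Sum.elim_inr, Pi.smul_apply, smul_eq_mul, Finset.mul_sum,
            RingHom.id_apply]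
          exact Finset.sum_congr rfl fun i _ => by ring }
  have hL : ∀ s, L s = graphg A s := fun _ => rfl
  let w : Fin r1 → (I ⊕ Fin r1) ⊕ J → K := fun i => L (Pi.single (Sum.inr i) 1)
  have hw : LinearIndependent K w := by
    rw [Fintype.linearIndependent_iff]
    intro x hx i
    have h1 := congrFun hx (Sum.inl (Sum.inr i))
    rw [Finset.sum_apply, Finset.sum_eq_single i] at h1
    · simpa [w, hL, graphg] using h1
    · intro j _ hj
      have : (Sum.inr j : I ⊕ Fin r1) ≠ Sum.inr i := fun h => hj (Sum.inr_injective h)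
      simp [w, hL, graphg, Pi.single_eq_of_ne (Ne.symm this)]
    · intro h; exact absurd (Finset.mem_univ _) h
  obtain ⟨c', hc'1, hc'2⟩ := exists_reduced V r1 w hw
  have hrange : ∀ i, (fun u => (c' i u : K)) ∈ LinearMap.range L := by
    intro i
    have hle : Submodule.span K (Set.range w) ≤ LinearMap.range L := by
      rw [Submodule.span_le]
      rintro _ ⟨l, rfl⟩
      exact ⟨_, rfl⟩
    exact hle (hc'1 i)
  have hzero : ∀ i i₀, c' i (Sum.inl (Sum.inl i₀)) = 0 := by
    intro i i₀
    apply Subtype.ext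
    have hle : Submodule.span K (Set.range w) ≤
        LinearMap.ker (LinearMap.proj (Sum.inl (Sum.inl i₀)) :
          ((I ⊕ Fin r1) ⊕ J → K) →ₗ[K] K) := by
      rw [Submodule.span_le]
      rintro _ ⟨l, rfl⟩
      show (Pi.single (Sum.inr l) 1 : I ⊕ Fin r1 → K) (Sum.inl i₀) = 0
      exact Pi.single_eq_of_ne Sum.inl_ne_inr _
    exact hle (hc'1 i)
  let cV : I ⊕ Fin r1 → (I ⊕ Fin r1) ⊕ J → V :=
    Sum.elim (fun i u => if u = Sum.inl (Sum.inl i) then 1 else 0) c'
  have hcV : ∀ i, (fun u => (cV i u : K)) ∈ LinearMap.range L := by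
    intro i
    rcases i with i | i
    · refine ⟨Pi.single (Sum.inl i) 1, ?_⟩
      funext u
      rw [hL]
      rcases u with u | j
      · simp only [graphg, Sum.elim_inl, cV]
        by_cases hu : u = Sum.inl i
        · subst hu; simp
        · rw [Pi.single_eq_of_ne hu, if_neg (fun h => hu (Sum.inl_injective h))]
          rfl
      · simp only [graphg, Sum.elim_inr, Sum.elim_inl, cV]
        rw [if_neg (by simp)]
        rw [Finset.sum_eq_zero]
        · rfl
        · intro l _
          rw [Pi.single_eq_of_ne (Sum.inr_ne_inl), mul_zero]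
    · exact hrange i
  refine ⟨IsLocalRing.ResidueField V, inferInstance, inferInstance, fun i u => ρ (cV i u), ?_, ?_,
    ?_, ?_⟩
  · intro i
    simp only [cV, Sum.elim_inl, if_true, map_one]
  · intro i u hu
    simp only [cV, Sum.elim_inl]
    rw [if_neg hu, map_zero]
  · rw [Fintype.linearIndependent_iff]
    intro x hx
    rw [Fintype.sum_sum_type] at hx
    have h1 : ∀ i, x (Sum.inl i) = 0 := by
      intro i
      have h2 := congrFun hx (Sum.inl (Sum.inl i))
      simp only [Pi.add_apply, Finset.sum_apply, Pi.smul_apply, smul_eq_mul, Pi.zero_apply, cV,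
        Sum.elim_inl, Sum.elim_inr, hzero, map_zero, mul_zero, Finset.sum_const_zero,
        add_zero] at h2
      rw [Finset.sum_eq_single i] at h2
      · simpa using h2
      · intro j _ hj
        rw [if_neg, map_zero, mul_zero]
        intro h
        exact hj (Sum.inl_injective (Sum.inl_injective h)).symm
      · intro h; exact absurd (Finset.mem_univ _) h
    rw [Finset.sum_eq_zero (s := Finset.univ)
      (f := fun i : I => x (Sum.inl i) • fun u => ρ (cV (Sum.inl i) u))
      (fun i _ => by rw [h1 i, zero_smul]), zero_add] at hx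
    intro i
    rcases i with i | i
    · exact h1 i
    · exact Fintype.linearIndependent_iff.mp hc'2 (fun i => x (Sum.inr i)) hx i
  · intro x
    choose X hX using fun i => IsLocalRing.residue_surjective (R := V) (x i)
    let d : (I ⊕ Fin r1) ⊕ J → V := ∑ i, X i • cV i
    have hd : (fun u => (d u : K)) ∈ LinearMap.range L := by
      have h1 : (fun u => (d u : K)) = ∑ i, (X i : K) • fun u => (cV i u : K) := by
        funext u
        rw [← hφ]
        simp only [d, Finset.sum_apply, Pi.smul_apply, smul_eq_mul]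
        rw [map_sum]
        refine Finset.sum_congr rfl fun i _ => ?_
        rw [map_mul]
        rfl
      rw [h1]
      exact Submodule.sum_mem _ fun i _ => Submodule.smul_mem _ _ (hcV i)
    obtain ⟨s, hs⟩ := hd
    rw [hL] at hs
    have hA' := hA s
    rw [hs] at hA'
    let G : V := aeval (bvg b d) F
    let y : V := ∑ j, d (Sum.inr j) * aeval (fun i => d (Sum.inl i)) (g j)
    have hG : (G : K) = aeval (bvg b fun u => (d u : K)) F := by
      have h1 := comp_aeval_apply (bvg b d) φ F
      have h2 : (fun t => φ (bvg b d t)) = bvg b fun u => (d u : K) := by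
        funext t
        rw [bvg_map]
        rfl
      rw [h2] at h1
      exact h1
    have hy : (y : K) = ∑ j, (d (Sum.inr j) : K) *
        aeval (fun i => (d (Sum.inl i) : K)) (g j) := by
      rw [← hφ]
      simp only [y]
      rw [map_sum]
      refine Finset.sum_congr rfl fun j _ => ?_
      rw [map_mul]
      congr 1
      exact comp_aeval_apply (fun i => d (Sum.inl i)) φ (g j)
    rw [← hG, ← hy] at hA'
    have hFmem : G ∈ IsLocalRing.maximalIdeal V := by
      rw [IsLocalRing.mem_maximalIdeal]
      intro hu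
      apply hτV
      obtain ⟨F', hF'⟩ := hu.exists_right_inv
      have h1 : (G : K) * (F' : K) = 1 := by
        have := congrArg (fun v : V => (v : K)) hF'
        simpa using this
      have h2 : τ = ((- y * F' : V) : K) := by
        have h3 : ((- y * F' : V) : K) = - (y : K) * (F' : K) := by push_cast; ring
        rw [h3]
        linear_combination (F' : K) * hA' - τ * h1
      rw [h2]
      exact Subtype.coe_prop _
    have hF0 : ρ G = 0 := by
      rw [hρ]
      exact (IsLocalRing.residue_eq_zero_iff G).mpr hFmem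
    have h1 := comp_aeval_apply (bvg b d) ρ F
    have h2 : (fun t => ρ (bvg b d t)) = bvg b (∑ i, x i • fun u => ρ (cV i u)) := by
      funext t
      rw [bvg_map]
      congr 1
      funext u
      simp only [d, Finset.sum_apply, Pi.smul_apply, smul_eq_mul, map_sum, map_mul]
      refine Finset.sum_congr rfl fun i _ => ?_
      rw [hρ, hX]
    rw [h2] at h1
    rw [← h1]
    exact hF0

end Deform

section Descent

variable {σ : Type*} [Fintype σ]

/-- a space through fixed vectors over an extension specialises -/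
theorem descend_space {E : Type*} [Field E] [IsAlgClosed E] (F : MvPolynomial σ E) {κ : Type*}
    [Field κ] [Algebra E κ] {r0 m : ℕ} (f : Fin r0 → Fin m) (p : Fin r0 → σ → E)
    (lam : Fin m → σ → κ)
    (h0 : ∀ i t, lam (f i) t = algebraMap E κ (p i t)) (hli : LinearIndependent κ lam)
    (hF : ∀ s : Fin m → κ, aeval (∑ i, s i • lam i) F = 0) :
    ∃ lam' : Fin m → σ → E, (∀ i, lam' (f i) = p i) ∧ LinearIndependent E lam' ∧
      ∀ s : Fin m → E, aeval (∑ i, s i • lam' i) F = 0 := by
  classical
  obtain ⟨D, hD⟩ := dual_of_li lam hli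
  let S : Set κ := Set.range (fun q : (Fin m × σ) ⊕ (Fin m × σ) =>
    Sum.elim (fun q => lam q.1 q.2) (fun q => D q.1 q.2) q)
  have hsfin : S.Finite := Set.finite_range _
  let A : Subalgebra E κ := Algebra.adjoin E S
  have hfg : A.FG := by
    refine ⟨hsfin.toFinset, ?_⟩
    rw [Set.Finite.coe_toFinset]
  have hft : Algebra.FiniteType E A := (Subalgebra.fg_iff_finiteType A).mp hfg
  obtain ⟨g⟩ := exists_point' (E := E) (A := A)
  have hlam : ∀ j i, lam j i ∈ A := fun j i => Algebra.subset_adjoin ⟨Sum.inl (j, i), rfl⟩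
  have hDA : ∀ j i, D j i ∈ A := fun j i => Algebra.subset_adjoin ⟨Sum.inr (j, i), rfl⟩
  let lamA : Fin m → σ → A := fun j i => ⟨lam j i, hlam j i⟩
  let DA : Fin m → σ → A := fun j i => ⟨D j i, hDA j i⟩
  refine ⟨fun j i => g (lamA j i), ?_, ?_, ?_⟩
  · intro i
    funext t
    have h1 : lamA (f i) t = algebraMap E A (p i t) := Subtype.ext (h0 i t)
    show g (lamA (f i) t) = p i t
    rw [h1, AlgHom.commutes]
    rfl
  · refine li_of_dual _ (fun j i => g (DA j i)) ?_
    intro i j
    have h1 : ∑ t, lamA i t * DA j t = if i = j then 1 else 0 := by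
      apply Subtype.ext
      have h2 := hD i j
      have h3 : ((∑ t, lamA i t * DA j t : A) : κ) = ∑ t, lam i t * D j t := by
        have := map_sum A.val (fun t => lamA i t * DA j t) Finset.univ
        rw [Subalgebra.coe_val] at this
        rw [this]
        rfl
      rw [h3, h2]
      split_ifs <;> rfl
    have h4 := congrArg g h1
    rw [map_sum] at h4
    simp only [map_mul] at h4
    rw [h4]
    split_ifs
    · exact map_one g
    · exact map_zero g
  · intro s
    have h1 : (aeval (∑ i, (algebraMap E A (s i)) • lamA i) F : A) = 0 := by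
      apply Subtype.ext
      have h2 := comp_aeval_apply (∑ i, (algebraMap E A (s i)) • lamA i) A.val F
      have h3 : (fun t => A.val ((∑ i, (algebraMap E A (s i)) • lamA i) t)) =
          ∑ i, (algebraMap E κ (s i)) • lam i := by
        funext t
        rw [Finset.sum_apply, map_sum, Finset.sum_apply]
        refine Finset.sum_congr rfl fun i _ => ?_
        rw [Pi.smul_apply, Pi.smul_apply, smul_eq_mul, smul_eq_mul, map_mul, AlgHom.commutes]
        rfl
      rw [h3, hF] at h2
      exact h2
    have h4 := comp_aeval_apply (∑ i, (algebraMap E A (s i)) • lamA i) g F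
    rw [h1, map_zero] at h4
    rw [h4]
    congr 2
    funext t
    rw [Finset.sum_apply, Finset.sum_apply, map_sum]
    refine Finset.sum_congr rfl fun i _ => ?_
    rw [Pi.smul_apply, Pi.smul_apply, smul_eq_mul, smul_eq_mul, map_mul, AlgHom.commutes]
    rfl

end Descent

section Final

variable {σ : Type*} [Fintype σ]

/-- independent vectors starting with given ones -/
theorem exists_li_start_many {E : Type*} [Field E] {r0 : ℕ} (p : Fin r0 → σ → E)
    (hp : LinearIndependent E p) :
    ∀ m : ℕ, r0 + m ≤ Fintype.card σ →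
      ∃ v : Fin (r0 + m) → σ → E, LinearIndependent E v ∧ ∀ i, v (Fin.castAdd m i) = p i := by
  intro m
  induction m with
  | zero =>
    intro _
    exact ⟨p, hp, fun i => rfl⟩
  | succ m ih =>
    intro hm
    obtain ⟨v, hv, hv0⟩ := ih (by omega)
    obtain ⟨x, hx⟩ := exists_linearIndependent_snoc_of_lt_finrank hv (by
      rw [Module.finrank_fintype_fun_eq_card]; omega)
    refine ⟨_, hx, ?_⟩
    intro i
    rw [← hv0 i]
    exact Fin.snoc_castSucc (α := fun _ => σ → E) x v (Fin.castAdd m i)

/-- linear spaces of dimension `r0 + r1` on a form, containing a given space of dimension `r0`, for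
every system of forms with a right inverse -/
theorem exists_space_of_peel {E : Type*} [Field E] [IsAlgClosed E] {d r0 r1 r : ℕ}
    (F : MvPolynomial σ E) (hF : F.IsHomogeneous d)
    (g : Fin r → MvPolynomial (Fin r0 ⊕ Fin r1) E)
    (hpeel : ∀ e : (Fin r0 ⊕ Fin r1) →₀ ℕ, e.degree = d → (∃ m, e (Sum.inr m) ≠ 0) →
      ∃ A : Fin r → Fin r1 → E, ∑ j, (∑ i, C (A j i) * X (Sum.inr i)) * g j = monomial e 1)
    (hcard : r0 + r1 + r ≤ Fintype.card σ) (p : Fin r0 → σ → E) (hp : LinearIndependent E p)
    (hFp : ∀ s : Fin r0 → E, aeval (∑ i, s i • p i) F = 0) :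
    ∃ lam : Fin (r0 + r1) → σ → E, (∀ i, lam (Fin.castAdd r1 i) = p i) ∧
      LinearIndependent E lam ∧ ∀ s : Fin (r0 + r1) → E, aeval (∑ i, s i • lam i) F = 0 := by
  classical
  obtain ⟨v, hv, hv0⟩ := exists_li_start_many p hp (r1 + r) (by omega)
  let e : (Fin r0 ⊕ Fin r1) ⊕ Fin r ≃ Fin (r0 + (r1 + r)) :=
    (Equiv.sumAssoc _ _ _).trans (((Equiv.refl _).sumCongr finSumFinEquiv).trans finSumFinEquiv)
  let b : (Fin r0 ⊕ Fin r1) ⊕ Fin r → σ → E := fun u => v (e u)
  have hb0 : ∀ i, b (Sum.inl (Sum.inl i)) = p i := by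
    intro i
    exact hv0 i
  obtain ⟨τ, A, hτ, hA⟩ := exists_graph_fieldg F hF b (by
    intro s
    rw [← hFp s]
    congr 2
    refine Finset.sum_congr rfl fun i _ => ?_
    rw [hb0]) g hpeel
  obtain ⟨κ, hκ1, hκ2, c, hc0, hc0', hcli, hcF⟩ := exists_residueg F b g τ hτ A hA
  let f : Fin r0 ⊕ Fin r1 ≃ Fin (r0 + r1) := finSumFinEquiv
  let lam : Fin (r0 + r1) → σ → κ := fun i => bvg b (c (f.symm i))
  refine descend_space F (Fin.castAdd r1) p lam ?_ ?_ ?_
  · intro i t
    have hf : f.symm (Fin.castAdd r1 i) = Sum.inl i := finSumFinEquiv_symm_apply_castAdd i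
    show ∑ u, c (f.symm (Fin.castAdd r1 i)) u * algebraMap E κ (b u t) = _
    rw [hf, Finset.sum_eq_single (Sum.inl (Sum.inl i))]
    · rw [hc0, one_mul, hb0]
    · intro u _ hu
      rw [hc0' i u hu, zero_mul]
    · intro h; exact absurd (Finset.mem_univ _) h
  · -- dual families
    have hb' : LinearIndependent E (fun i : Fin (r0 + (r1 + r)) => b (e.symm i)) := by
      have : (fun i : Fin (r0 + (r1 + r)) => b (e.symm i)) = v := by
        funext i
        simp only [b, Equiv.apply_symm_apply]
      rw [this]; exact hv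
    obtain ⟨B, hB⟩ := dual_of_li _ hb'
    let c₁ : Fin (r0 + r1) → Fin (r0 + (r1 + r)) → κ := fun i q => c (f.symm i) (e.symm q)
    have hc₁ : LinearIndependent κ c₁ := by
      rw [Fintype.linearIndependent_iff] at hcli ⊢
      intro x hx i
      have h1 := hcli (fun u => x (f u)) ?_ (f.symm i)
      · simpa using h1
      · funext u
        have h2 := congrFun hx (e u)
        rw [Finset.sum_apply, Pi.zero_apply] at h2 ⊢
        rw [← h2, ← Equiv.sum_comp f]
        refine Finset.sum_congr rfl fun i _ => ?_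
        simp only [c₁, Pi.smul_apply, Equiv.symm_apply_apply]
    obtain ⟨D, hD⟩ := dual_of_li c₁ hc₁
    refine li_of_dual _ (fun j t => ∑ q, D j q * algebraMap E κ (B q t)) ?_
    intro i j
    rw [← hD i j]
    have h1 : ∀ t, lam i t = ∑ q, c₁ i q * algebraMap E κ (b (e.symm q) t) := by
      intro t
      show ∑ u, c (f.symm i) u * algebraMap E κ (b u t) = _
      exact (Equiv.sum_comp e.symm fun u => c (f.symm i) u * algebraMap E κ (b u t)).symm
    have h2 : ∀ q q', ∑ t, algebraMap E κ (b (e.symm q) t) * algebraMap E κ (B q' t) =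
        if q = q' then 1 else 0 := by
      intro q q'
      have := congrArg (algebraMap E κ) (hB q q')
      rw [map_sum] at this
      simp only [map_mul] at this
      rw [this]
      split_ifs
      · exact map_one _
      · exact map_zero _
    calc ∑ t, lam i t * ∑ q, D j q * algebraMap E κ (B q t)
        = ∑ t, ∑ q, ∑ q', c₁ i q * D j q' *
          (algebraMap E κ (b (e.symm q) t) * algebraMap E κ (B q' t)) := by
          refine Finset.sum_congr rfl fun t _ => ?_
          rw [h1, Finset.sum_mul]
          refine Finset.sum_congr rfl fun q _ => ?_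
          rw [Finset.mul_sum]
          refine Finset.sum_congr rfl fun q' _ => ?_
          ring
      _ = ∑ q, ∑ q', c₁ i q * D j q' * ∑ t,
          (algebraMap E κ (b (e.symm q) t) * algebraMap E κ (B q' t)) := by
          rw [Finset.sum_comm]
          refine Finset.sum_congr rfl fun q _ => ?_
          rw [Finset.sum_comm]
          refine Finset.sum_congr rfl fun q' _ => ?_
          rw [Finset.mul_sum]
      _ = ∑ q, c₁ i q * D j q := by
          refine Finset.sum_congr rfl fun q _ => ?_
          rw [Finset.sum_congr rfl fun q' _ => by rw [h2 q q']]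
          simp
  · intro x
    have h1 : ∑ i, x i • lam i = bvg b (∑ i, x (f i) • c i) := by
      rw [← Equiv.sum_comp f]
      funext t
      simp only [lam, bvg, Finset.sum_apply, Pi.smul_apply, smul_eq_mul, Finset.mul_sum,
        Finset.sum_mul, Equiv.symm_apply_apply]
      rw [Finset.sum_comm]
      refine Finset.sum_congr rfl fun u _ => Finset.sum_congr rfl fun i _ => ?_
      ring
    rw [h1]
    exact hcF _

end Final

end Pool.Agent.Work.PD6
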