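import Mathlib
import Pool.Agent.Work.MP_b62148_ag.Sextic.Exist6Geo
import Pool.Agent.Work.MP_b62148_ag.Sextic.Defs
import Pool.Agent.Work.MP_b62148_ag.Sextic.PolF

/-!
Six-spaces containing a given line on a sextic, for every system of quintics with a right inverse.
-/

namespace Pool.Agent.Work.PD6

open MvPolynomial

section Hom

set_option linter.unusedSectionVars false

variable {k : Type*} [Field k] {σ τ : Type*} [Fintype σ]

theorem coeff_pow_homog {E : Type*} [Field E] {p : MvPolynomial σ (MvPolynomial τ E)}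
    (hp : ∀ α, (coeff α p).IsHomogeneous 1) (n : ℕ) : ∀ α, (coeff α (p ^ n)).IsHomogeneous n := by
  classical
  induction n with
  | zero =>
    intro α
    rw [pow_zero, coeff_one]
    split_ifs
    · exact isHomogeneous_one _ _
    · exact isHomogeneous_zero _ _ _
  | succ n ih =>
    intro α
    rw [pow_succ, coeff_mul]
    exact IsHomogeneous.sum _ _ _ fun x _ => (ih _).mul (hp _)

theorem ell_X_coeff {E : Type*} [Field E] (α : σ →₀ ℕ) :
    (coeff α (ell (fun i => (X i : MvPolynomial σ E)))).IsHomogeneous 1 := by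
  classical
  rw [ell, coeff_sum]
  refine IsHomogeneous.sum _ _ _ fun i _ => ?_
  rw [coeff_C_mul, coeff_X]
  split_ifs
  · rw [mul_one]; exact isHomogeneous_X _ _
  · rw [mul_zero]; exact isHomogeneous_zero _ _ _

theorem Lf_homog {E : Type*} [Field E] [Algebra k E] (a : (σ →₀ ℕ) → k) {n : ℕ}
    (p : MvPolynomial σ (MvPolynomial τ E)) (hp : ∀ α, (coeff α p).IsHomogeneous n) :
    (Lf a p).IsHomogeneous n := by
  classical
  have h : Lf a p = ∑ α ∈ p.support, coeff α p * algebraMap k (MvPolynomial τ E) (a α) := by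
    conv_lhs => rw [p.as_sum]
    rw [map_sum]
    exact Finset.sum_congr rfl fun α _ => Lf_monomial a α _
  rw [h]
  refine IsHomogeneous.sum _ _ _ fun α _ => ?_
  have h2 : (algebraMap k (MvPolynomial τ E) (a α)).IsHomogeneous 0 := by
    rw [IsScalarTower.algebraMap_apply k E (MvPolynomial τ E), MvPolynomial.algebraMap_eq]
    exact isHomogeneous_C _ _
  exact (hp α).mul h2

/-- the form attached to the functional -/
noncomputable def formOf (a : (σ →₀ ℕ) → k) (E : Type*) [Field E] [Algebra k E] :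
    MvPolynomial σ E := Lf a (ell (fun i => (X i : MvPolynomial σ E)) ^ 6)

theorem formOf_homog (a : (σ →₀ ℕ) → k) (E : Type*) [Field E] [Algebra k E] :
    (formOf a E).IsHomogeneous 6 :=
  Lf_homog a _ (coeff_pow_homog (ell_X_coeff) 6)

theorem aeval_formOf (a : (σ →₀ ℕ) → k) (E : Type*) [Field E] [Algebra k E] (x : σ → E) :
    aeval x (formOf a E) = Lf a (ell x ^ 6) := by
  have h1 := map_Lf a ((aeval x : MvPolynomial σ E →ₐ[E] E).restrictScalars k)
    (ell (fun i => (X i : MvPolynomial σ E)) ^ 6)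
  have h2 : (fun i => (((aeval x : MvPolynomial σ E →ₐ[E] E).restrictScalars k :
      MvPolynomial σ E →ₐ[k] E) : MvPolynomial σ E →+* E) (X i)) = x := by
    funext i
    exact aeval_X x i
  have h3 : MvPolynomial.map ((((aeval x : MvPolynomial σ E →ₐ[E] E).restrictScalars k :
      MvPolynomial σ E →ₐ[k] E) : MvPolynomial σ E →+* E))
      (ell (fun i => (X i : MvPolynomial σ E)) ^ 6) = ell x ^ 6 := by
    rw [map_pow, map_ell, h2]
  rw [h3] at h1
  exact h1

end Hom

variable {k : Type*} [Field k] {σ : Type*} [Fintype σ]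

/-- six-spaces containing a given line -/
theorem exists_P6_of_peel {E : Type*} [Field E] [IsAlgClosed E] [CharZero E] [Algebra k E]
    (a : (σ →₀ ℕ) → k) {r : ℕ} (g : Fin r → MvPolynomial (Fin 7) E)
    (hpeel : ∀ d : Fin 7 →₀ ℕ, d.degree = 6 → (∃ i : Fin 5, d (Fin.natAdd 2 i) ≠ 0) →
      ∃ A : Fin r → Fin 5 → E,
        ∑ j, (∑ i, C (A j i) * X (Fin.natAdd 2 i)) * g j = monomial d 1)
    (hcard : 7 + r ≤ Fintype.card σ) (p q : σ → E)
    (hpq : ∀ s t : E, s • p + t • q = 0 → s = 0 ∧ t = 0)
    (hl : ∀ s t : E, Lf a (ell (s • p + t • q) ^ 6) = 0) :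
    ∃ lam : Fin 7 → σ → E, lam 0 = p ∧ lam 1 = q ∧ LinearIndependent E lam ∧ Iso a lam := by
  classical
  let f : Fin 2 ⊕ Fin 5 ≃ Fin 7 := finSumFinEquiv
  have hf : ∀ i : Fin 5, f.symm (Fin.natAdd 2 i) = Sum.inr i := fun i =>
    finSumFinEquiv_symm_apply_natAdd i
  have hli : LinearIndependent E ![p, q] := by
    rw [Fintype.linearIndependent_iff]
    intro x hx i
    rw [Fin.sum_univ_two] at hx
    have h := hpq (x 0) (x 1) hx
    fin_cases i
    · exact h.1
    · exact h.2
  obtain ⟨lam, h1, h2, h3⟩ := exists_space_of_peel (r0 := 2) (r1 := 5) (formOf a E)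
    (formOf_homog a E) (fun j => rename f.symm (g j)) (by
      intro e he ⟨m, hm⟩
      have hd1 : (e.mapDomain f).degree = 6 := by
        rw [Finsupp.degree_mapDomain, he]
      obtain ⟨A, hA⟩ := hpeel (e.mapDomain f) hd1 ⟨m, by
        have : (Fin.natAdd 2 m : Fin 7) = f (Sum.inr m) := rfl
        rw [this, Finsupp.mapDomain_apply f.injective]
        exact hm⟩
      refine ⟨A, ?_⟩
      have h4 := congrArg (rename f.symm) hA
      rw [rename_monomial, ← Finsupp.mapDomain_comp, Equiv.symm_comp_self, Finsupp.mapDomain_id,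
        map_sum] at h4
      rw [← h4]
      refine Finset.sum_congr rfl fun j _ => ?_
      rw [map_mul, map_sum]
      congr 1
      refine Finset.sum_congr rfl fun i _ => ?_
      rw [map_mul, rename_C, rename_X, hf]) (by omega) ![p, q] hli (by
      intro s
      rw [aeval_formOf, Fin.sum_univ_two]
      exact hl (s 0) (s 1))
  refine ⟨lam, h1 0, h1 1, h2, ?_⟩
  apply iso_of_vanish
  intro s
  rw [comb_eq]
  have h4 := h3 s
  rw [aeval_formOf] at h4
  exact h4

end Pool.Agent.Work.PD6
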