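import Mathlib
import Pool.Agent.Work.MP_b62148_ag.Sextic.PeelS

/-!
Module S7: soundness of the peeling certificate.
-/

namespace Pool.Agent.Work.PD6

open MvPolynomial

namespace PeelS

attribute [local irreducible] forms steps

variable (E : Type*) [CommRing E]

/-- the monomial in the variables of a list with exponents the digits of `c` -/
noncomputable def monL : List (Fin 7) → ℕ → MvPolynomial (Fin 7) E
  | [], _ => 1
  | v :: vs, c => X v ^ (c % 8) * monL vs (c / 8)

/-- the monomial with code `c` -/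
noncomputable def mon (c : ℕ) : MvPolynomial (Fin 7) E := monL E [0, 1, 2, 3, 4, 5, 6] c

theorem monL_add : ∀ (vs : List (Fin 7)) (n : ℕ) (hn : n < vs.length) (c : ℕ),
    c / 8 ^ n % 8 < 7 → monL E vs (c + 8 ^ n) = X (vs[n]) * monL E vs c
  | [], n, hn, c, _ => absurd hn (Nat.not_lt_zero n)
  | v :: vs, 0, hn, c, hc => by
    rw [pow_zero, Nat.div_one] at hc
    rw [monL, monL, pow_zero, show (c + 1) % 8 = c % 8 + 1 by omega,
      show (c + 1) / 8 = c / 8 by omega, pow_succ, List.getElem_cons_zero]
    ring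
  | v :: vs, n + 1, hn, c, hc => by
    have h1 : (c + 8 ^ (n + 1)) % 8 = c % 8 := by rw [pow_succ, Nat.add_mul_mod_self_right]
    have h2 : (c + 8 ^ (n + 1)) / 8 = c / 8 + 8 ^ n := by
      rw [pow_succ, Nat.add_mul_div_right _ _ (by norm_num)]
    have h3 : c / 8 / 8 ^ n % 8 < 7 := by
      rw [Nat.div_div_eq_div_mul, ← pow_succ']
      exact hc
    rw [monL, monL, h1, h2, monL_add vs n (Nat.lt_of_succ_lt_succ hn) (c / 8) h3,
      List.getElem_cons_succ]
    ring

theorem digit_le : ∀ (m n c : ℕ), n < m → c / 8 ^ n % 8 ≤ dsum m c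
  | 0, n, c, h => absurd h (Nat.not_lt_zero n)
  | m + 1, 0, c, _ => by
    rw [pow_zero, Nat.div_one, dsum]
    exact Nat.le_add_right _ _
  | m + 1, n + 1, c, h => by
    have h1 := digit_le m n (c / 8) (Nat.lt_of_succ_lt_succ h)
    rw [Nat.div_div_eq_div_mul, ← pow_succ'] at h1
    rw [dsum]
    exact h1.trans (Nat.le_add_left _ _)

theorem mon_add {c i : ℕ} (hi : i < 5) (hc : dgOK c = true) :
    X (Fin.natAdd 2 ⟨i, hi⟩) * mon E c = mon E (c + wgt i) := by
  have h1 : dsum 7 c = 5 := Nat.eq_of_beq_eq_true hc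
  have h2 : wgt i = 8 ^ (i + 2) := by
    unfold wgt
    rw [pow_add, mul_comm]
    norm_num
  have h3 := digit_le 7 (i + 2) c (by omega)
  rw [h2]
  unfold mon
  rw [monL_add E [0, 1, 2, 3, 4, 5, 6] (i + 2) (by show i + 2 < 7; omega) c (by omega)]
  congr 2
  interval_cases i <;> rfl

theorem monL_hom : ∀ (vs : List (Fin 7)) (c : ℕ), (monL E vs c).IsHomogeneous (dsum vs.length c)
  | [], c => isHomogeneous_one _ _
  | v :: vs, c => by
    rw [monL]
    exact (isHomogeneous_X_pow v (c % 8)).mul (monL_hom vs (c / 8))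

theorem mon_hom {c : ℕ} (hc : dgOK c = true) : (mon E c).IsHomogeneous 5 := by
  have h1 : dsum 7 c = 5 := Nat.eq_of_beq_eq_true hc
  have h2 := monL_hom E [0, 1, 2, 3, 4, 5, 6] c
  rw [← h1]
  exact h2

theorem monL_cons (v : Fin 7) (vs : List (Fin 7)) (a c : ℕ) (ha : a < 8) :
    monL E (v :: vs) (a + 8 * c) = X v ^ a * monL E vs c := by
  rw [monL, show (a + 8 * c) % 8 = a by omega, show (a + 8 * c) / 8 = c by omega]

/-- the code of an exponent vector -/
def code (d : Fin 7 → ℕ) : ℕ :=
  d 0 + 8 * d 1 + 64 * (d 2 + 8 * d 3 + 64 * d 4 + 512 * d 5 + 4096 * d 6)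

theorem mon_code (d : Fin 7 →₀ ℕ) (hd : ∀ i, d i ≤ 6) : mon E (code d) = monomial d 1 := by
  have hd' : ∀ i, d i < 8 := fun i => lt_of_le_of_lt (hd i) (by norm_num)
  have h1 : code d = d 0 + 8 * (d 1 + 8 * (d 2 + 8 * (d 3 + 8 * (d 4 + 8 * (d 5 + 8 * (d 6 + 8 * 0)))))) := by
    unfold code
    ring
  rw [monomial_eq, C_1, one_mul, Finsupp.prod_fintype _ _ (fun _ => pow_zero _)]
  unfold mon
  rw [h1, monL_cons E _ _ _ _ (hd' 0), monL_cons E _ _ _ _ (hd' 1), monL_cons E _ _ _ _ (hd' 2),
    monL_cons E _ _ _ _ (hd' 3), monL_cons E _ _ _ _ (hd' 4), monL_cons E _ _ _ _ (hd' 5),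
    monL_cons E _ _ _ _ (hd' 6), monL, Fin.prod_univ_seven]
  ring

/-! ### the list of all codes -/

theorem gen_mem : ∀ (n k : ℕ) (f : Fin n → ℕ), ∑ i, f i = k → ∑ i, f i * 8 ^ (i : ℕ) ∈ gen n k
  | 0, k, f, h => by
    simp only [Finset.univ_eq_empty, Finset.sum_empty] at h ⊢
    subst h
    simp [gen]
  | n + 1, k, f, h => by
    rw [Fin.sum_univ_succ] at h ⊢
    rw [gen, List.mem_flatMap]
    refine ⟨f 0, by rw [List.mem_range]; omega, ?_⟩
    rw [List.mem_map]
    refine ⟨∑ i : Fin n, f i.succ * 8 ^ (i : ℕ), gen_mem n (k - f 0) (fun i => f i.succ) (by omega), ?_⟩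
    rw [Finset.mul_sum]
    simp only [Fin.val_zero, pow_zero, mul_one, Fin.val_succ]
    congr 1
    refine Finset.sum_congr rfl fun i _ => ?_
    rw [pow_succ]
    ring

theorem filt_sound (s u : ℕ) : ∀ (l acc : List ℕ), filt s u l acc = true →
    ∃ acc' : List ℕ, (∀ x ∈ acc', x ∈ acc ∨ x ∈ l) ∧ cov s u acc' = true
  | [], acc, h => ⟨acc, fun x hx => Or.inl hx, h⟩
  | a :: l, acc, h => by
    rw [filt] at h
    cases hb : Nat.beq (a % 64) u with
    | true =>
      rw [hb] at h
      obtain ⟨acc', h1, h2⟩ := filt_sound s u l (a :: acc) h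
      refine ⟨acc', fun x hx => ?_, h2⟩
      rcases h1 x hx with h3 | h3
      · rcases List.mem_cons.1 h3 with h4 | h4
        · right; rw [h4]; exact List.mem_cons_self
        · left; exact h4
      · right; exact List.mem_cons_of_mem _ h3
    | false =>
      rw [hb] at h
      obtain ⟨acc', h1, h2⟩ := filt_sound s u l acc h
      refine ⟨acc', fun x hx => ?_, h2⟩
      rcases h1 x hx with h3 | h3
      · left; exact h3
      · right; exact List.mem_cons_of_mem _ h3

theorem cover_sound {known : List ℕ} (h : cover known = true) (d : Fin 7 → ℕ)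
    (hd : ∑ i, d i = 6) (hv : ∃ i : Fin 5, d (Fin.natAdd 2 i) ≠ 0) : code d ∈ known := by
  have hd' : d 0 + d 1 + d 2 + d 3 + d 4 + d 5 + d 6 = 6 := by
    have h0 := hd
    rw [Fin.sum_univ_seven] at h0
    exact h0
  have hv' : d 2 + d 3 + d 4 + d 5 + d 6 ≠ 0 := by
    obtain ⟨i, hi⟩ := hv
    intro h0
    apply hi
    fin_cases i
    · show d 2 = 0; omega
    · show d 3 = 0; omega
    · show d 4 = 0; omega
    · show d 5 = 0; omega
    · show d 6 = 0; omega
  unfold cover at h
  rw [List.all_eq_true] at h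
  have h1 := h (d 0 + d 1) (by rw [List.mem_range]; omega)
  rw [List.all_eq_true] at h1
  have h2 := gen_mem 2 (d 0 + d 1) ![d 0, d 1] (by simp)
  have h3 := h1 _ h2
  obtain ⟨acc, ha1, ha2⟩ := filt_sound _ _ _ _ h3
  unfold cov at ha2
  rw [List.all_eq_true] at ha2
  have h4 := gen_mem 5 (6 - (d 0 + d 1)) ![d 2, d 3, d 4, d 5, d 6] (by
    rw [Fin.sum_univ_five]
    show d 2 + d 3 + d 4 + d 5 + d 6 = _
    omega)
  have h5 := mem_of_memB (ha2 _ h4)
  have h6 : code d = (∑ i : Fin 2, ![d 0, d 1] i * 8 ^ (i : ℕ)) +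
      64 * ∑ i : Fin 5, ![d 2, d 3, d 4, d 5, d 6] i * 8 ^ (i : ℕ) := by
    rw [Fin.sum_univ_five, Fin.sum_univ_two]
    show code d = (d 0 * 8 ^ 0 + d 1 * 8 ^ 1) + 64 * (d 2 * 8 ^ 0 + d 3 * 8 ^ 1 + d 4 * 8 ^ 2 +
      d 5 * 8 ^ 3 + d 6 * 8 ^ 4)
    unfold code
    ring
  rw [h6]
  rcases ha1 _ h5 with h7 | h7
  · simp at h7
  · exact h7

/-! ### the span -/

variable {E}

theorem go_sound (S : Submodule E (MvPolynomial (Fin 7) E)) {known : List ℕ} (w t : ℕ)
    (hk : ∀ c ∈ known, mon E c ∈ S) : ∀ (m : List ℕ) (seen : Bool), go known w t m seen = true →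
      (cond seen ((m.map fun c => mon E (c + w)).sum)
        ((m.map fun c => mon E (c + w)).sum - mon E t)) ∈ S
  | [], seen, h => by
    rw [go] at h
    subst h
    simp
  | c :: m, seen, h => by
    rw [go] at h
    rw [List.map_cons, List.sum_cons]
    cases hb : Nat.beq (c + w) t with
    | true =>
      rw [hb] at h
      have ht := Nat.eq_of_beq_eq_true hb
      cases seen with
      | true => simp at h
      | false =>
        have h1 := go_sound S w t hk m true h
        simp only [cond_false, cond_true] at h1 ⊢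
        rw [ht, add_sub_cancel_left]
        exact h1
    | false =>
      rw [hb] at h
      simp only [cond_false] at h
      cases hm : memB (c + w) known with
      | false => rw [hm] at h; simp at h
      | true =>
        rw [hm] at h
        have h1 := go_sound S w t hk m seen h
        have h2 := hk _ (mem_of_memB hm)
        cases seen with
        | true =>
          simp only [cond_true] at h1 ⊢
          exact S.add_mem h2 h1
        | false =>
          simp only [cond_false] at h1 ⊢
          rw [add_sub_assoc]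
          exact S.add_mem h2 h1

theorem chk_sound (S : Submodule E (MvPolynomial (Fin 7) E)) (fs : List (List ℕ))
    (hS : ∀ j i, i < 5 → ((nth fs j).map fun c => mon E (c + wgt i)).sum ∈ S) :
    ∀ (st : List (ℕ × ℕ × ℕ)) (known : List ℕ), chk fs st known = true →
      (∀ c ∈ known, mon E c ∈ S) → ∃ known' : List ℕ, cover known' = true ∧
        ∀ c ∈ known', mon E c ∈ S
  | [], known, h, hk => ⟨known, h, hk⟩
  | (j, i, t) :: st, known, h, hk => by
    rw [chk] at h
    cases hi : Nat.blt i 5 with
    | false => rw [hi] at h; simp at h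
    | true =>
      rw [hi] at h
      simp only [cond_true] at h
      cases hg : go known (wgt i) t (nth fs j) false with
      | false => rw [hg] at h; simp at h
      | true =>
        rw [hg] at h
        simp only [cond_true] at h
        have hi' : i < 5 := by simpa using hi
        have h1 := go_sound S (wgt i) t hk _ _ hg
        simp only [cond_false] at h1
        have h2 := hS j i hi'
        have h3 : mon E t ∈ S := by
          have := S.sub_mem h2 h1
          rwa [sub_sub_cancel] at this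
        refine chk_sound S fs hS st (t :: known) h ?_
        intro c hc
        rcases List.mem_cons.1 hc with h4 | h4
        · rw [h4]; exact h3
        · exact hk c h4

variable (E)

/-- the image of the multiplication map -/
noncomputable def im {J : Type*} [Fintype J] (g : J → MvPolynomial (Fin 7) E) :
    Submodule E (MvPolynomial (Fin 7) E) where
  carrier := {p | ∃ A : J → Fin 5 → E, ∑ j, (∑ i, C (A j i) * X (Fin.natAdd 2 i)) * g j = p}
  add_mem' := by
    rintro _ _ ⟨A, rfl⟩ ⟨B, rfl⟩
    refine ⟨fun j i => A j i + B j i, ?_⟩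
    rw [← Finset.sum_add_distrib]
    refine Finset.sum_congr rfl fun j _ => ?_
    rw [← add_mul, ← Finset.sum_add_distrib]
    refine congrArg (· * g j) ?_
    refine Finset.sum_congr rfl fun i _ => ?_
    rw [C_add, add_mul]
  zero_mem' := ⟨0, by simp⟩
  smul_mem' := by
    rintro c _ ⟨A, rfl⟩
    refine ⟨fun j i => c * A j i, ?_⟩
    rw [← C_mul', Finset.mul_sum]
    refine Finset.sum_congr rfl fun j _ => ?_
    rw [← mul_assoc, Finset.mul_sum]
    refine congrArg (· * g j) ?_
    refine Finset.sum_congr rfl fun i _ => ?_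
    rw [C_mul, mul_assoc]

theorem mem_im {J : Type*} [Fintype J] [DecidableEq J] (g : J → MvPolynomial (Fin 7) E)
    (i : Fin 5) (j : J) : X (Fin.natAdd 2 i) * g j ∈ im E g := by
  refine ⟨fun j' i' => if j' = j then (if i' = i then 1 else 0) else 0, ?_⟩
  have h1 : ∀ j' : J, (∑ i' : Fin 5, C (if j' = j then (if i' = i then (1 : E) else 0) else 0) *
      (X (Fin.natAdd 2 i') : MvPolynomial (Fin 7) E)) * g j' =
      if j' = j then X (Fin.natAdd 2 i) * g j else 0 := by
    intro j'
    split_ifs with h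
    · have h2 : ∑ i' : Fin 5, C (if i' = i then (1 : E) else 0) *
          (X (Fin.natAdd 2 i') : MvPolynomial (Fin 7) E) = X (Fin.natAdd 2 i) := by
        rw [Finset.sum_eq_single i]
        · rw [if_pos rfl, C_1, one_mul]
        · intro i' _ hi'
          rw [if_neg hi', C_0, zero_mul]
        · intro h3; exact absurd (Finset.mem_univ _) h3
      rw [h2, h]
    · have h2 : ∑ i' : Fin 5, C (0 : E) * (X (Fin.natAdd 2 i') : MvPolynomial (Fin 7) E) = 0 := by
        refine Finset.sum_eq_zero fun i' _ => ?_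
        rw [C_0, zero_mul]
      rw [h2, zero_mul]
  rw [Finset.sum_congr rfl fun j' _ => h1 j', Finset.sum_ite_eq' Finset.univ j,
    if_pos (Finset.mem_univ _)]

/-- the forms -/
noncomputable def gq (r : ℕ) (j : Fin r) : MvPolynomial (Fin 7) E :=
  ((nth forms j).map (mon E)).sum

theorem nth_nil (n : ℕ) : nth [] n = [] := rfl
theorem nth_zero (a : List ℕ) (l : List (List ℕ)) : nth (a :: l) 0 = a := rfl
theorem nth_succ (a : List ℕ) (l : List (List ℕ)) (n : ℕ) : nth (a :: l) (n + 1) = nth l n := rfl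

theorem nth_large : ∀ (l : List (List ℕ)) (n : ℕ), l.length ≤ n → nth l n = []
  | [], n, _ => nth_nil n
  | a :: l, 0, h => by simp at h
  | a :: l, n + 1, h => by
    rw [nth_succ]
    exact nth_large l n (by simpa using h)

theorem nth_mem : ∀ (l : List (List ℕ)) (n : ℕ), nth l n = [] ∨ nth l n ∈ l
  | [], n => Or.inl (nth_nil n)
  | a :: l, 0 => Or.inr (by rw [nth_zero]; exact List.mem_cons_self)
  | a :: l, n + 1 => by
    rw [nth_succ]
    rcases nth_mem l n with h | h
    · exact Or.inl h
    · exact Or.inr (List.mem_cons_of_mem _ h)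

theorem forms_dg (j : ℕ) : ∀ c ∈ nth forms j, dgOK c = true := by
  intro c hc
  rcases nth_mem forms j with h | h
  · rw [h] at hc; simp at hc
  · have h1 := dg_forms
    rw [List.all_eq_true] at h1
    have h2 := h1 _ h
    rw [List.all_eq_true] at h2
    exact h2 c hc

theorem forms_length : forms.length = 184 := by decide +kernel

theorem gq_hom (r : ℕ) (j : Fin r) : (gq E r j).IsHomogeneous 5 := by
  unfold gq
  have key : ∀ l : List ℕ, (∀ c ∈ l, dgOK c = true) → ((l.map (mon E)).sum).IsHomogeneous 5 := by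
    intro l
    induction l with
    | nil =>
      intro _
      rw [List.map_nil, List.sum_nil]
      exact isHomogeneous_zero _ _ _
    | cons a l ih =>
      intro h
      rw [List.map_cons, List.sum_cons]
      exact (mon_hom E (h a List.mem_cons_self)).add
        (ih fun c hc => h c (List.mem_cons_of_mem _ hc))
  exact key _ (forms_dg j)

theorem prod_mem {r : ℕ} (hr : 184 ≤ r) (j i : ℕ) (hi : i < 5) :
    ((nth forms j).map fun c => mon E (c + wgt i)).sum ∈ im E (gq E r) := by
  classical
  by_cases hj : j < r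
  · have h1 := mem_im E (gq E r) ⟨i, hi⟩ ⟨j, hj⟩
    have key : ∀ l : List ℕ, (∀ c ∈ l, dgOK c = true) →
        X (Fin.natAdd 2 ⟨i, hi⟩) * (l.map (mon E)).sum = (l.map fun c => mon E (c + wgt i)).sum := by
      intro l
      induction l with
      | nil => intro _; simp
      | cons a l ih =>
        intro h
        rw [List.map_cons, List.sum_cons, List.map_cons, List.sum_cons, mul_add,
          mon_add E hi (h a List.mem_cons_self), ih fun c hc => h c (List.mem_cons_of_mem _ hc)]
    rw [← key _ (forms_dg j)]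
    exact h1
  · rw [nth_large forms j (by rw [forms_length]; omega)]
    simp

theorem mon_mem {r : ℕ} (hr : 184 ≤ r) (d : Fin 7 → ℕ) (hd : ∑ i, d i = 6)
    (hv : ∃ i : Fin 5, d (Fin.natAdd 2 i) ≠ 0) : mon E (code d) ∈ im E (gq E r) := by
  obtain ⟨known, h1, h2⟩ := chk_sound (im E (gq E r)) forms (fun j i hi => prod_mem E hr j i hi)
    steps [] chk_forms (by simp)
  exact h2 _ (cover_sound h1 d hd hv)

/-- 184 quintic forms in seven variables such that the products with `x_2, …, x_6` span all
sextic monomials which are not monomials in `x_0, x_1`; additional forms are zero -/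
theorem exists_forms (r : ℕ) (hr : 184 ≤ r) :
    ∃ g : Fin r → MvPolynomial (Fin 7) E, (∀ l, (g l).IsHomogeneous 5) ∧
      ∀ d : Fin 7 →₀ ℕ, d.degree = 6 → (∃ i : Fin 5, d (Fin.natAdd 2 i) ≠ 0) →
        ∃ A : Fin r → Fin 5 → E,
          ∑ j, (∑ i, C (A j i) * X (Fin.natAdd 2 i)) * g j = monomial d 1 := by
  refine ⟨gq E r, gq_hom E r, ?_⟩
  intro d hd hv
  have h1 : ∑ i, d i = 6 := by rw [← hd, Finsupp.degree_eq_sum]
  have h2 : ∀ i, d i ≤ 6 := by
    intro i
    rw [← h1]
    exact Finset.single_le_sum (f := fun i => d i) (fun _ _ => Nat.zero_le _) (Finset.mem_univ i)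
  have h3 := mon_mem E hr d h1 hv
  rw [mon_code E d h2] at h3
  exact h3

end PeelS

end Pool.Agent.Work.PD6
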