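import Mathlib
import Pool.Agent.Work.MP_b62148_ag.Sextic.ExistC
import Pool.Agent.Work.MP_b62148_ag.Sextic.PeelT

/-!
Six-spaces containing a given line on a sextic.
-/

namespace Pool.Agent.Work.PD6

open MvPolynomial

variable {k : Type*} [Field k] {σ : Type*} [Fintype σ]

/-- every line of the sextic lies in a six-space of the sextic -/
theorem exists_P6 {E : Type*} [Field E] [IsAlgClosed E] [CharZero E] [Algebra k E] (N0 : ℕ)
    (hN0 : 184 ≤ N0) (a : (σ →₀ ℕ) → k) (hcard : N0 + 7 ≤ Fintype.card σ) (p q : σ → E)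
    (hpq : ∀ s t : E, s • p + t • q = 0 → s = 0 ∧ t = 0)
    (hl : ∀ s t : E, Lf a (ell (s • p + t • q) ^ 6) = 0) :
    ∃ lam : Fin 7 → σ → E, lam 0 = p ∧ lam 1 = q ∧ LinearIndependent E lam ∧ Iso a lam := by
  obtain ⟨g, -, hg⟩ := PeelS.exists_forms E N0 hN0
  exact exists_P6_of_peel a g hg (by omega) p q hpq hl

end Pool.Agent.Work.PD6
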