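import Mathlib
import Pool.Agent.Work.MP_b62148_ag.Sextic.Basic

/-!
Definitions for the existence of six-spaces (module S7): coordinates in a system `b`, the graph.
-/

namespace Pool.Agent.Work.PD6

open MvPolynomial

variable {σ : Type*} {E : Type*} [Field E] {J : Type*} [Fintype J]

/-- a vector with given coordinates in the system `b` -/
def bvec (b : Fin 7 ⊕ J → σ → E) {R : Type*} [CommRing R] [Algebra E R] (c : Fin 7 ⊕ J → R) :
    σ → R := fun t => ∑ u, c u * algebraMap E R (b u t)

/-- the coordinates of the points of the graph -/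
def graph {R : Type*} [CommRing R] (A : J → Fin 5 → R) (s : Fin 7 → R) : Fin 7 ⊕ J → R :=
  Sum.elim s fun j => ∑ i : Fin 5, A j i * s (Fin.natAdd 2 i)

theorem bvec_map (b : Fin 7 ⊕ J → σ → E) {R S : Type*} [CommRing R] [Algebra E R] [CommRing S]
    [Algebra E S] (g : R →ₐ[E] S) (c : Fin 7 ⊕ J → R) (t : σ) :
    g (bvec b c t) = bvec b (fun u => g (c u)) t := by
  unfold bvec
  rw [map_sum]
  refine Finset.sum_congr rfl fun u _ => ?_
  rw [map_mul, AlgHom.commutes]

theorem graph_map {R S : Type*} [CommRing R] [Algebra E R] [CommRing S]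
    [Algebra E S] (g : R →ₐ[E] S) (A : J → Fin 5 → R) (s : Fin 7 → R) (u : Fin 7 ⊕ J) :
    g (graph A s u) = graph (fun j i => g (A j i)) (fun i => g (s i)) u := by
  rcases u with u | j
  · rfl
  · simp only [graph, Sum.elim_inr, map_sum, map_mul]

/-- values of the form under homomorphisms -/
theorem Lf_bvec_map [Fintype σ] (a : (σ →₀ ℕ) → E) (b : Fin 7 ⊕ J → σ → E) {R S : Type*}
    [CommRing R] [Algebra E R] [CommRing S] [Algebra E S] (g : R →ₐ[E] S) (c : Fin 7 ⊕ J → R) :
    g (Lf a (ell (bvec b c) ^ 6)) = Lf a (ell (bvec b fun u => g (c u)) ^ 6) := by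
  rw [map_Lf, map_pow, map_ell]
  congr 3
  funext t
  exact bvec_map b g c t

end Pool.Agent.Work.PD6
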