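import Mathlib

/-! Peeling certificate for the sextic theorem: 248 quintic monomials in 7 variables such that
every sextic monomial involving one of the last five variables is the product of one of these
monomials by one of the last five variables. -/

namespace Pool.Agent.Work.PD6.PeelM

open MvPolynomial

/-- the quintic monomials, exponent vectors in base 8 -/
def tab : List ℕ :=
  [5, 12, 19, 26, 33, 40, 68, 75, 82, 89, 96, 131, 138, 145, 152, 194, 201, 208, 257, 264, 320,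
   516, 523, 530, 537, 544, 586, 593, 600, 642, 649, 656, 705, 768, 1027, 1034, 1041, 1048, 1097,
   1104, 1153, 1160, 1538, 1545, 1552, 1601, 1664, 2049, 2056, 2560, 4100, 4107, 4114, 4121, 4128,
   4296, 4352, 4611, 4674, 4800, 5136, 5633, 5640, 6144, 8195, 8202, 8209, 8216, 8258, 8265, 8272,
   8321, 8328, 8706, 8713, 9217, 9224, 9280, 12290, 12297, 12304, 12353, 12416, 12801, 12808,
   12864, 13312, 16385, 16392, 20480, 32772, 32779, 32786, 32793, 32800, 32835, 32842, 32849,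
   32898, 32905, 32912, 32968, 33290, 33297, 33794, 33808, 33920, 34312, 34816, 36888, 36993,
   37385, 37392, 37441, 37448, 38400, 41088, 45064, 45120, 45568, 65539, 65546, 65553, 65560,
   65665, 65672, 65728, 66050, 66057, 66064, 66176, 66561, 66568, 66624, 69634, 69641, 69648,
   73729, 73736, 74240, 77824, 98306, 98313, 98320, 98369, 98376, 98817, 99328, 102408, 102464,
   131073, 131080, 131136, 135168, 163840, 262148, 262155, 262162, 262169, 262176, 262232, 262337,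
   262659, 262680, 262792, 263170, 263177, 263240, 263296, 263744, 266243, 266250, 266257, 266306,
   266313, 266320, 266817, 270352, 270408, 270464, 271360, 278528, 294978, 294985, 294992, 295104,
   295489, 295937, 299010, 299017, 299080, 299528, 299584, 303105, 327808, 328200, 328704, 331777,
   335872, 360960, 524291, 524298, 524305, 524312, 524354, 524361, 524368, 524417, 524424, 524480,
   524816, 524872, 525313, 525320, 525824, 528386, 528393, 528960, 532481, 532488, 536576, 557058,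
   557065, 557072, 557632, 561153, 561216, 561664, 589825, 589832, 622592, 786434, 786441, 786448,
   786497, 786560, 786945, 787456, 790536, 794624, 819208, 851968, 1048577, 1048584, 1049088,
   1052672, 1081344, 1310720]

def code (l : List ℕ) : ℕ := l.foldr (fun a s => a + 8 * s) 0

/-- the test for one exponent vector `[d0, ..., d6]` -/
def test : List ℕ → Bool
  | [_, _, 0, 0, 0, 0, 0] => true
  | [a, b, c, d, e, f, g] =>
    let n := a + 8 * (b + 8 * (c + 8 * (d + 8 * (e + 8 * (f + 8 * g)))))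
    (c != 0 && tab.contains (n - 64)) || (d != 0 && tab.contains (n - 512)) ||
    (e != 0 && tab.contains (n - 4096)) || (f != 0 && tab.contains (n - 32768)) ||
    (g != 0 && tab.contains (n - 262144))
  | _ => false

/-- all exponent vectors with `n + 1` further entries of sum `r` -/
def allOk : ℕ → ℕ → List ℕ → Bool
  | 0, r, acc => test (r :: acc)
  | n + 1, r, acc => (List.range (r + 1)).all fun k => allOk n (r - k) (k :: acc)

theorem allOk_true : allOk 6 6 [] = true := by decide +kernel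

theorem allOk_spec (n : ℕ) : ∀ (r : ℕ) (acc : List ℕ), allOk (n + 1) r acc = true →
    ∀ k ≤ r, allOk n (r - k) (k :: acc) = true := by
  intro r acc h k hk
  rw [allOk, List.all_eq_true] at h
  exact h k (List.mem_range.mpr (by omega))

theorem test_all (a b c d e f g : ℕ) (h : a + b + c + d + e + f + g = 6) :
    test [a, b, c, d, e, f, g] = true := by
  have h0 := allOk_true
  have h1 := allOk_spec 5 _ _ h0 g (by omega)
  have h2 := allOk_spec 4 _ _ h1 f (by omega)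
  have h3 := allOk_spec 3 _ _ h2 e (by omega)
  have h4 := allOk_spec 2 _ _ h3 d (by omega)
  have h5 := allOk_spec 1 _ _ h4 c (by omega)
  have h6 := allOk_spec 0 _ _ h5 b (by omega)
  rw [allOk] at h6
  have h7 : 6 - g - f - e - d - c - b = a := by omega
  rw [h7] at h6
  exact h6

/-- exponent vector of a code -/
noncomputable def dec (c : ℕ) : Fin 7 →₀ ℕ :=
  Finsupp.equivFunOnFinite.symm fun k => c / 8 ^ (k : ℕ) % 8

theorem dec_apply (c : ℕ) (k : Fin 7) : dec c k = c / 8 ^ (k : ℕ) % 8 := rfl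

theorem digits (x0 x1 x2 x3 x4 x5 x6 : ℕ) (h0 : x0 < 8) (h1 : x1 < 8) (h2 : x2 < 8)
    (h3 : x3 < 8) (h4 : x4 < 8) (h5 : x5 < 8) (h6 : x6 < 8) :
    let c := x0 + 8 * (x1 + 8 * (x2 + 8 * (x3 + 8 * (x4 + 8 * (x5 + 8 * x6)))))
    c / 8 ^ 0 % 8 = x0 ∧ c / 8 ^ 1 % 8 = x1 ∧ c / 8 ^ 2 % 8 = x2 ∧ c / 8 ^ 3 % 8 = x3 ∧
      c / 8 ^ 4 % 8 = x4 ∧ c / 8 ^ 5 % 8 = x5 ∧ c / 8 ^ 6 % 8 = x6 := by
  intro c
  have e1 : c / 8 ^ 1 = x1 + 8 * (x2 + 8 * (x3 + 8 * (x4 + 8 * (x5 + 8 * x6)))) := by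
    rw [pow_one]; omega
  have e2 : c / 8 ^ 2 = x2 + 8 * (x3 + 8 * (x4 + 8 * (x5 + 8 * x6))) := by
    rw [pow_succ, ← Nat.div_div_eq_div_mul, e1]; omega
  have e3 : c / 8 ^ 3 = x3 + 8 * (x4 + 8 * (x5 + 8 * x6)) := by
    rw [pow_succ, ← Nat.div_div_eq_div_mul, e2]; omega
  have e4 : c / 8 ^ 4 = x4 + 8 * (x5 + 8 * x6) := by
    rw [pow_succ, ← Nat.div_div_eq_div_mul, e3]; omega
  have e5 : c / 8 ^ 5 = x5 + 8 * x6 := by
    rw [pow_succ, ← Nat.div_div_eq_div_mul, e4]; omega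
  have e6 : c / 8 ^ 6 = x6 := by
    rw [pow_succ, ← Nat.div_div_eq_div_mul, e5]; omega
  rw [e1, e2, e3, e4, e5, e6, pow_zero, Nat.div_one]
  refine ⟨?_, ?_, ?_, ?_, ?_, ?_, ?_⟩ <;> omega

theorem exists_mem (d : Fin 7 →₀ ℕ) (hd : d.degree = 6) (hi : ∃ i : Fin 5, d (Fin.natAdd 2 i) ≠ 0) :
    ∃ (i : Fin 5) (c : ℕ), c ∈ tab ∧ Finsupp.single (Fin.natAdd 2 i) 1 + dec c = d := by
  have hsum : d 0 + d 1 + d 2 + d 3 + d 4 + d 5 + d 6 = 6 := by
    have h := Finsupp.degree_eq_sum d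
    rw [hd, Fin.sum_univ_seven] at h
    exact h.symm
  have ht := test_all _ _ _ _ _ _ _ hsum
  have hne : ¬ (d 2 = 0 ∧ d 3 = 0 ∧ d 4 = 0 ∧ d 5 = 0 ∧ d 6 = 0) := by
    rintro ⟨h2, h3, h4, h5, h6⟩
    obtain ⟨i, hi⟩ := hi
    fin_cases i
    · exact hi h2
    · exact hi h3
    · exact hi h4
    · exact hi h5
    · exact hi h6
  have key : ∀ (x0 x1 x2 x3 x4 x5 x6 : ℕ), x0 + x1 + x2 + x3 + x4 + x5 + x6 = 6 →
      ¬ (x2 = 0 ∧ x3 = 0 ∧ x4 = 0 ∧ x5 = 0 ∧ x6 = 0) →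
      test [x0, x1, x2, x3, x4, x5, x6] = true →
      ∃ (i : Fin 5) (c : ℕ), c ∈ tab ∧
        c / 8 ^ 0 % 8 = x0 ∧ c / 8 ^ 1 % 8 = x1 ∧
        c / 8 ^ 2 % 8 + (if i = 0 then 1 else 0) = x2 ∧
        c / 8 ^ 3 % 8 + (if i = 1 then 1 else 0) = x3 ∧
        c / 8 ^ 4 % 8 + (if i = 2 then 1 else 0) = x4 ∧
        c / 8 ^ 5 % 8 + (if i = 3 then 1 else 0) = x5 ∧
        c / 8 ^ 6 % 8 + (if i = 4 then 1 else 0) = x6 := by
    intro x0 x1 x2 x3 x4 x5 x6 hs hn h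
    rw [test] at h
    · simp only [Bool.or_eq_true, Bool.and_eq_true, bne_iff_ne, ne_eq, List.contains_iff_mem] at h
      rcases h with (((⟨h1, h2⟩ | ⟨h1, h2⟩) | ⟨h1, h2⟩) | ⟨h1, h2⟩) | ⟨h1, h2⟩
      · obtain ⟨y, rfl⟩ : ∃ y, x2 = y + 1 := ⟨x2 - 1, by omega⟩
        refine ⟨0, _, h2, ?_⟩
        obtain ⟨f0, f1, f2, f3, f4, f5, f6⟩ := digits x0 x1 y x3 x4 x5 x6 (by omega) (by omega)
          (by omega) (by omega) (by omega) (by omega) (by omega)
        have he : ∀ m, m = x0 + 8 * (x1 + 8 * (y + 8 * (x3 + 8 * (x4 + 8 * (x5 + 8 * x6))))) → m / 8 ^ 0 % 8 = x0 ∧ m / 8 ^ 1 % 8 = x1 ∧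
            m / 8 ^ 2 % 8 = y ∧ m / 8 ^ 3 % 8 = x3 ∧ m / 8 ^ 4 % 8 = x4 ∧
            m / 8 ^ 5 % 8 = x5 ∧ m / 8 ^ 6 % 8 = x6 := by
          intro m hm
          rw [hm]
          exact ⟨f0, f1, f2, f3, f4, f5, f6⟩
        obtain ⟨k0, k1, k2, k3, k4, k5, k6⟩ := he _ (by omega)
        rw [k0, k1, k2, k3, k4, k5, k6]
        simp
      · obtain ⟨y, rfl⟩ : ∃ y, x3 = y + 1 := ⟨x3 - 1, by omega⟩
        refine ⟨1, _, h2, ?_⟩
        obtain ⟨f0, f1, f2, f3, f4, f5, f6⟩ := digits x0 x1 x2 y x4 x5 x6 (by omega) (by omega)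
          (by omega) (by omega) (by omega) (by omega) (by omega)
        have he : ∀ m, m = x0 + 8 * (x1 + 8 * (x2 + 8 * (y + 8 * (x4 + 8 * (x5 + 8 * x6))))) → m / 8 ^ 0 % 8 = x0 ∧ m / 8 ^ 1 % 8 = x1 ∧
            m / 8 ^ 2 % 8 = x2 ∧ m / 8 ^ 3 % 8 = y ∧ m / 8 ^ 4 % 8 = x4 ∧
            m / 8 ^ 5 % 8 = x5 ∧ m / 8 ^ 6 % 8 = x6 := by
          intro m hm
          rw [hm]
          exact ⟨f0, f1, f2, f3, f4, f5, f6⟩
        obtain ⟨k0, k1, k2, k3, k4, k5, k6⟩ := he _ (by omega)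
        rw [k0, k1, k2, k3, k4, k5, k6]
        simp
      · obtain ⟨y, rfl⟩ : ∃ y, x4 = y + 1 := ⟨x4 - 1, by omega⟩
        refine ⟨2, _, h2, ?_⟩
        obtain ⟨f0, f1, f2, f3, f4, f5, f6⟩ := digits x0 x1 x2 x3 y x5 x6 (by omega) (by omega)
          (by omega) (by omega) (by omega) (by omega) (by omega)
        have he : ∀ m, m = x0 + 8 * (x1 + 8 * (x2 + 8 * (x3 + 8 * (y + 8 * (x5 + 8 * x6))))) → m / 8 ^ 0 % 8 = x0 ∧ m / 8 ^ 1 % 8 = x1 ∧
            m / 8 ^ 2 % 8 = x2 ∧ m / 8 ^ 3 % 8 = x3 ∧ m / 8 ^ 4 % 8 = y ∧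
            m / 8 ^ 5 % 8 = x5 ∧ m / 8 ^ 6 % 8 = x6 := by
          intro m hm
          rw [hm]
          exact ⟨f0, f1, f2, f3, f4, f5, f6⟩
        obtain ⟨k0, k1, k2, k3, k4, k5, k6⟩ := he _ (by omega)
        rw [k0, k1, k2, k3, k4, k5, k6]
        simp
      · obtain ⟨y, rfl⟩ : ∃ y, x5 = y + 1 := ⟨x5 - 1, by omega⟩
        refine ⟨3, _, h2, ?_⟩
        obtain ⟨f0, f1, f2, f3, f4, f5, f6⟩ := digits x0 x1 x2 x3 x4 y x6 (by omega) (by omega)
          (by omega) (by omega) (by omega) (by omega) (by omega)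
        have he : ∀ m, m = x0 + 8 * (x1 + 8 * (x2 + 8 * (x3 + 8 * (x4 + 8 * (y + 8 * x6))))) → m / 8 ^ 0 % 8 = x0 ∧ m / 8 ^ 1 % 8 = x1 ∧
            m / 8 ^ 2 % 8 = x2 ∧ m / 8 ^ 3 % 8 = x3 ∧ m / 8 ^ 4 % 8 = x4 ∧
            m / 8 ^ 5 % 8 = y ∧ m / 8 ^ 6 % 8 = x6 := by
          intro m hm
          rw [hm]
          exact ⟨f0, f1, f2, f3, f4, f5, f6⟩
        obtain ⟨k0, k1, k2, k3, k4, k5, k6⟩ := he _ (by omega)
        rw [k0, k1, k2, k3, k4, k5, k6]
        simp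
      · obtain ⟨y, rfl⟩ : ∃ y, x6 = y + 1 := ⟨x6 - 1, by omega⟩
        refine ⟨4, _, h2, ?_⟩
        obtain ⟨f0, f1, f2, f3, f4, f5, f6⟩ := digits x0 x1 x2 x3 x4 x5 y (by omega) (by omega)
          (by omega) (by omega) (by omega) (by omega) (by omega)
        have he : ∀ m, m = x0 + 8 * (x1 + 8 * (x2 + 8 * (x3 + 8 * (x4 + 8 * (x5 + 8 * y))))) → m / 8 ^ 0 % 8 = x0 ∧ m / 8 ^ 1 % 8 = x1 ∧
            m / 8 ^ 2 % 8 = x2 ∧ m / 8 ^ 3 % 8 = x3 ∧ m / 8 ^ 4 % 8 = x4 ∧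
            m / 8 ^ 5 % 8 = x5 ∧ m / 8 ^ 6 % 8 = y := by
          intro m hm
          rw [hm]
          exact ⟨f0, f1, f2, f3, f4, f5, f6⟩
        obtain ⟨k0, k1, k2, k3, k4, k5, k6⟩ := he _ (by omega)
        rw [k0, k1, k2, k3, k4, k5, k6]
        simp
    · intro h2 h3 h4 h5 h6
      exact hn ⟨h2, h3, h4, h5, h6⟩
  obtain ⟨i, c, hc, h0, h1, h2, h3, h4, h5, h6⟩ := key _ _ _ _ _ _ _ hsum hne ht
  refine ⟨i, c, hc, ?_⟩
  ext k
  rw [Finsupp.add_apply, dec_apply]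
  fin_cases i <;> fin_cases k <;> simp [Finsupp.single_apply, Fin.ext_iff] at * <;> omega

/-- the quintic forms -/
noncomputable def g (E : Type*) [Field E] (j : Fin 248) : MvPolynomial (Fin 7) E :=
  monomial (dec (tab.get (j.cast (by decide)))) 1

/-- the peeling property of the 248 monomials -/
theorem peel (E : Type*) [Field E] (d : Fin 7 →₀ ℕ) (hd : d.degree = 6)
    (hi : ∃ i : Fin 5, d (Fin.natAdd 2 i) ≠ 0) :
    ∃ A : Fin 248 → Fin 5 → E,
      ∑ j, (∑ i, C (A j i) * X (Fin.natAdd 2 i)) * g E j = monomial d 1 := by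
  classical
  obtain ⟨i, c, hc, h⟩ := exists_mem d hd hi
  obtain ⟨n, hn⟩ := List.mem_iff_get.mp hc
  have hlen : tab.length = 248 := by decide
  refine ⟨fun j i' => if j = n.cast hlen ∧ i' = i then 1 else 0, ?_⟩
  rw [Finset.sum_eq_single (n.cast hlen)]
  · rw [Finset.sum_eq_single i]
    · rw [if_pos ⟨rfl, rfl⟩, C_1, one_mul, g, X, monomial_mul, one_mul, ← h]
      congr 2
      congr 1
      rw [← hn]
      congr 1
    · intro i' _ hi'
      rw [if_neg (fun h => hi' h.2), C_0, zero_mul]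
    · intro h; exact absurd (Finset.mem_univ _) h
  · intro j _ hj
    rw [Finset.sum_eq_zero, zero_mul]
    intro i' _
    rw [if_neg (fun h => hj h.1), C_0, zero_mul]
  · intro h; exact absurd (Finset.mem_univ _) h

end Pool.Agent.Work.PD6.PeelM
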