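import Mathlib
import Pool.Agent.Work.MP_b62148_ag.Sextic.Flag
import Pool.Agent.Work.MP_b62148_ag.Generic
import Pool.Agent.Work.MP_b62148_ag.ExistLine
import Pool.Agent.Work.MP_b62148_ag.HS

/-!
SKELETON of the sextic theorem (statements only; every module is proved in its own file, this file is
never imported).  See /team-store/sextic.md for the paper proof.
-/

namespace Pool.Agent.Work.PD6.Skel

open MvPolynomial
open Pool.Agent.Work.PD6

universe u v w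

variable {k : Type*} [Field k] {σ : Type*} [Fintype σ]

/-! ### S1 (PolF.lean) existence of the functional, gradient, polarisation -/

theorem exists_isPol [CharZero k] (d : ℕ) (F : MvPolynomial σ k) (hF : F.IsHomogeneous d) :
    ∃ a : (σ →₀ ℕ) → k, IsPol d F a := sorry

theorem isPol_grad {d : ℕ} {F : MvPolynomial σ k} {a : (σ →₀ ℕ) → k} (h : IsPol (d + 1) F a)
    {R : Type*} [CommRing R] [Algebra k R] (x v : σ → R) :
    ∑ i, aeval x (pderiv i F) * v i = (d + 1 : R) * Lf a (ell x ^ d * ell v) := sorry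

theorem iso_of_vanish {E : Type*} [Field E] [CharZero E] [Algebra k E] {ι : Type*} [Fintype ι]
    (a : (σ →₀ ℕ) → k) (lam : ι → σ → E) (h : ∀ s : ι → E, Lf a (ell (comb lam s) ^ 6) = 0) :
    Iso a lam := sorry

theorem bpf_of_smooth [CharZero k] {g : MvPolynomial σ k} (hs : PD.SmoothForm g)
    {a : (σ →₀ ℕ) → k} (ha : IsPol 6 g a) {Ω : Type*} [Field Ω] [Algebra k Ω] (v : σ → Ω)
    (h : ∀ w : σ → Ω, Lf a (ell v ^ 5 * ell w) = 0) : v = 0 := sorry

/-! ### S2 (Der.lean, helper46): coefficientwise derivation `cD D` of `MvPolynomial σ Ω` (a `Derivation k`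
into itself) with `cD D (C x) = C (D x)`, `cD D (X i) = 0`, `cD D (ell v) = ell (fun i => D (v i))`,
`D (Lf a p) = Lf a (cD D p)`. -/

/-! ### S3 (Pencil.lean) the eigenvector lemma -/

theorem pencil_indep {Ω V : Type*} [Field Ω] [IsAlgClosed Ω] [AddCommGroup V] [Module Ω V] {p : ℕ}
    (d : Fin p → ℕ) (A : Fin p → ℕ → Module.Dual Ω V) (hA : ∀ i j, d i < j → A i j = 0)
    (h1 : ∀ b c : Ω, (b, c) ≠ 0 → ∀ α : Fin p → Ω,
      ∑ i, α i • ∑ j ∈ Finset.range (d i + 1), (b ^ (d i - j) * c ^ j) • A i j = 0 → α = 0)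
    (h2 : ∀ t : V, (∀ i, A i 0 t = 0) → ∃ t' : V, ∀ i j, A i (j + 1) t + A i j t' = 0)
    (κ : Fin p → ℕ → Ω) (hκ : ∑ i, ∑ j ∈ Finset.range (d i + 1), κ i j • A i j = 0) :
    ∀ i j, j ≤ d i → κ i j = 0 := sorry

/-! ### generic points and generic flags: definitions `GenPt`, `GenFlag` in Flag.lean -/

/-! ### S4 (Free.lean) lines through a generic point, planes through a generic flag -/

theorem free_line [CharZero k] {a : (σ →₀ ℕ) → k} {Ω : Type*} [Field Ω] [IsAlgClosed Ω]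
    [Algebra k Ω] {y : σ → Ω} (hg : GenPt a y) (m : σ → Ω)
    (hli : ∀ s t : Ω, s • y + t • m = 0 → s = 0 ∧ t = 0)
    (hl : ∀ s t : Ω, Lf a (ell (s • y + t • m) ^ 6) = 0) (κ : ℕ → Ω)
    (hκ : ∀ v : σ → Ω, ∑ i ∈ Finset.range 6, κ i * Lf a (ell y ^ (5 - i) * ell m ^ i * ell v) = 0) :
    ∀ i, i ≤ 5 → κ i = 0 := sorry

theorem line_onto [CharZero k] {a : (σ →₀ ℕ) → k} {Ω : Type*} [Field Ω] [IsAlgClosed Ω]
    [Algebra k Ω] {y : σ → Ω} (hg : GenPt a y) (m : σ → Ω)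
    (hli : ∀ s t : Ω, s • y + t • m = 0 → s = 0 ∧ t = 0)
    (hl : ∀ s t : Ω, Lf a (ell (s • y + t • m) ^ 6) = 0) (r : ℕ → Ω) :
    ∃ w : σ → Ω, ∀ i, i ≤ 5 → Lf a (ell y ^ (5 - i) * ell m ^ i * ell w) = r i := sorry

theorem plane_onto [CharZero k] {a : (σ →₀ ℕ) → k} {Ω : Type*} [Field Ω] [IsAlgClosed Ω]
    [Algebra k Ω] {y m : σ → Ω} (hf : GenFlag a y m) (v : σ → Ω)
    (hli : ∀ r s t : Ω, r • y + s • m + t • v = 0 → r = 0 ∧ s = 0 ∧ t = 0)
    (hpl : ∀ r s t : Ω, Lf a (ell (r • y + s • m + t • v) ^ 6) = 0) (r : ℕ → ℕ → Ω) :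
    ∃ w : σ → Ω, ∀ i j, i ≤ 5 → j ≤ i →
      Lf a (ell y ^ (5 - i) * ell m ^ (i - j) * ell v ^ j * ell w) = r i j := sorry

/-! ### S5 (FlagExt.lean, FlagEx.lean) existence and extension -/

theorem genPt_ext [CharZero k] {a : (σ →₀ ℕ) → k} {Ω Ω' : Type*} [Field Ω] [Algebra k Ω]
    [Field Ω'] [Algebra k Ω'] [Algebra Ω Ω'] [IsScalarTower k Ω Ω'] {y : σ → Ω} (hg : GenPt a y)
    (hb : ∀ v : σ → Ω', (∀ w : σ → Ω', Lf a (ell v ^ 5 * ell w) = 0) → v = 0) :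
    GenPt a fun i => algebraMap Ω Ω' (y i) := sorry

theorem genFlag_ext [CharZero k] {a : (σ →₀ ℕ) → k} {Ω Ω' : Type*} [Field Ω] [Algebra k Ω]
    [Field Ω'] [Algebra k Ω'] [Algebra Ω Ω'] [IsScalarTower k Ω Ω'] {y m : σ → Ω}
    (hf : GenFlag a y m)
    (hb : ∀ v : σ → Ω', (∀ w : σ → Ω', Lf a (ell v ^ 5 * ell w) = 0) → v = 0) :
    GenFlag a (fun i => algebraMap Ω Ω' (y i)) fun i => algebraMap Ω Ω' (m i) := sorry

theorem genPt_eta [CharZero k] (g : MvPolynomial σ k) (hg : g.IsHomogeneous 6)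
    (hs : PD.SmoothForm g) [hp : (Ideal.span {g}).IsPrime] (hcard : 3 ≤ Fintype.card σ)
    (a : (σ →₀ ℕ) → k) (ha : IsPol 6 g a) : GenPt a (PD.eta g) := sorry

theorem exists_genFlag {k : Type u} [Field k] [CharZero k] {σ : Type v} [Fintype σ]
    (a : (σ →₀ ℕ) → k) {Ω₀ : Type w} [Field Ω₀] [IsAlgClosed Ω₀] [Algebra k Ω₀]
    (hb : ∀ (Ω : Type (max v w)) [Field Ω] [Algebra k Ω] (x : σ → Ω),
      (∀ w : σ → Ω, Lf a (ell x ^ 5 * ell w) = 0) → x = 0)
    (y : σ → Ω₀) (hg : GenPt a y) (hcard : 9 ≤ Fintype.card σ) :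
    ∃ (Ω : Type (max v w)) (_ : Field Ω) (_ : Algebra k Ω) (_ : IsAlgClosed Ω) (y' m : σ → Ω),
      GenFlag a y' m := sorry

/-! ### S6a (GenZ.lean) a generic `z` and a solution `b` -/

theorem exists_zb {k : Type u} [Field k] [CharZero k] {σ : Type v} [Fintype σ]
    (a : (σ →₀ ℕ) → k) {Ω₀ : Type w} [Field Ω₀] [IsAlgClosed Ω₀] [Algebra k Ω₀]
    (hb : ∀ (Ω : Type (max v w)) [Field Ω] [Algebra k Ω] (x : σ → Ω),
      (∀ w : σ → Ω, Lf a (ell x ^ 5 * ell w) = 0) → x = 0)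
    (lam : Fin 7 → σ → Ω₀) (hf : GenFlag a (lam 0) (lam 1)) (hli : LinearIndependent Ω₀ lam)
    (hiso : Iso a lam) :
    ∃ (Ω : Type (max v w)) (_ : Field Ω) (_ : Algebra k Ω) (_ : IsAlgClosed Ω)
      (lam' : Fin 7 → σ → Ω) (z : σ → Ω) (s : Fin 5 → Ω),
      GenFlag a (lam' 0) (lam' 1) ∧ LinearIndependent Ω lam' ∧ Iso a lam' ∧ s ≠ 0 ∧
      (∀ p ∈ ({ell (lam' 0) ^ 5, ell (lam' 0) ^ 4 * ell (lam' 1), ell (lam' 0) ^ 3 * ell (lam' 1) ^ 2,
        ell (lam' 0) ^ 2 * ell (lam' 1) ^ 3} : Set (MvPolynomial σ Ω)), Lf a (p * ell z) = 0) ∧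
      (∀ i, Lf a (qc (ell (lam' 0)) (ell (lam' 1)) i *
        ell (comb (fun j : Fin 5 => lam' (Fin.natAdd 2 j)) s) * ell z) = 0) ∧
      Lf a (ell (lam' 0) ^ 3 * ell (comb (fun j : Fin 5 => lam' (Fin.natAdd 2 j)) s) ^ 2 *
        ell z) = 0 ∧
      ∀ r : Fin 4 → Ω, ∃ s' : Fin 5 → Ω, ∀ i, Lf a ((![ell (lam' 0) ^ 4,
        ell (lam' 0) ^ 3 * ell (lam' 1), ell (lam' 0) ^ 2 * ell (lam' 1) ^ 2,
        ell (lam' 0) ^ 3 * ell (comb (fun j : Fin 5 => lam' (Fin.natAdd 2 j)) s)] :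
        Fin 4 → MvPolynomial σ Ω) i * ell (comb (fun j : Fin 5 => lam' (Fin.natAdd 2 j)) s') *
        ell z) = r i := sorry

/-! ### S6b (LeadS.lean) leading data -/

theorem leading_of_zb [CharZero k] {a : (σ →₀ ℕ) → k} {Ω : Type*} [Field Ω] [IsAlgClosed Ω]
    [Algebra k Ω] (lam : Fin 7 → σ → Ω) (z : σ → Ω) (s : Fin 5 → Ω)
    (hf : GenFlag a (lam 0) (lam 1)) (hli : LinearIndependent Ω lam) (hiso : Iso a lam)
    (hs : s ≠ 0)
    (hz : ∀ p ∈ ({ell (lam 0) ^ 5, ell (lam 0) ^ 4 * ell (lam 1), ell (lam 0) ^ 3 * ell (lam 1) ^ 2,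
        ell (lam 0) ^ 2 * ell (lam 1) ^ 3} : Set (MvPolynomial σ Ω)), Lf a (p * ell z) = 0)
    (hq : ∀ i, Lf a (qc (ell (lam 0)) (ell (lam 1)) i *
        ell (comb (fun j : Fin 5 => lam (Fin.natAdd 2 j)) s) * ell z) = 0)
    (hc : Lf a (ell (lam 0) ^ 3 * ell (comb (fun j : Fin 5 => lam (Fin.natAdd 2 j)) s) ^ 2 *
        ell z) = 0)
    (honto : ∀ r : Fin 4 → Ω, ∃ s' : Fin 5 → Ω, ∀ i, Lf a ((![ell (lam 0) ^ 4,
        ell (lam 0) ^ 3 * ell (lam 1), ell (lam 0) ^ 2 * ell (lam 1) ^ 2,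
        ell (lam 0) ^ 3 * ell (comb (fun j : Fin 5 => lam (Fin.natAdd 2 j)) s)] :
        Fin 4 → MvPolynomial σ Ω) i * ell (comb (fun j : Fin 5 => lam (Fin.natAdd 2 j)) s') *
        ell z) = r i) : Leading a Ω := sorry

/-! ### S7 (Exist6.lean) six-spaces containing a given line -/

/-- `N0` is the number of quintic monomials used; the final bound is `n ≥ N0 + 6` -/
theorem exists_P6 {E : Type*} [Field E] [IsAlgClosed E] [CharZero E] [Algebra k E] (N0 : ℕ)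
    (hN0 : 260 ≤ N0) (a : (σ →₀ ℕ) → k) (hcard : N0 + 7 ≤ Fintype.card σ) (p q : σ → E)
    (hpq : ∀ s t : E, s • p + t • q = 0 → s = 0 ∧ t = 0)
    (hl : ∀ s t : E, Lf a (ell (s • p + t • q) ^ 6) = 0) :
    ∃ lam : Fin 7 → σ → E, lam 0 = p ∧ lam 1 = q ∧ LinearIndependent E lam ∧ Iso a lam := sorry

/-! ### S8 (ParS.lean) the parametrisation -/

theorem par_mem {R : Type*} [CommRing R] [Algebra k R] (a : (σ →₀ ℕ) → k) (lam : Fin 7 → σ → R)
    (h : Iso a lam) (sy sm sn : Fin 7 → R) (sA : Fin 3 → Fin 7 → R) (z : Fin 8 → σ → R)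
    (om : σ → R) :
    Lf a (ell (par a (comb lam sy) (comb lam sm) (comb lam sn) (fun j => comb lam (sA j)) z om) ^ 6)
      = 0 := sorry

/-- the constant -/
noncomputable def rr {R : Type*} [CommRing R] [Algebra k R] (a : (σ →₀ ℕ) → k) (y m n : σ → R)
    (A : Fin 3 → σ → R) (z : Fin 8 → σ → R) (x : σ → R) : R :=
  let d8 := (Matrix.of fun i j : Fin 8 => Lf a (lc (ell y) (ell m) (ell n) i * ell (z j))).det
  let d3 := (Matrix.of fun i j : Fin 3 => Lf a (qc (ell y) (ell m) i * ell x * ell (A j))).det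
  let μ₁ := (2 * d8) ^ 3 * d3 * d8
  let μ₂ := 3 * Lf a (ell y ^ 3 * ell n * ell x ^ 2) * μ₁ ^ 3
  let μ₃ := 4 * Lf a (ell y ^ 2 * ell m * ell x ^ 3) * μ₂ ^ 4
  6 * Lf a (ell y * ell x ^ 5) * μ₃ ^ 6

theorem par_eq {R : Type*} [CommRing R] [Algebra k R] (a : (σ →₀ ℕ) → k) (y m n : σ → R)
    (A : Fin 3 → σ → R) (z : Fin 8 → σ → R) (x : σ → R) (h : Eqs a y m n x) :
    par a y m n A z x = rr a y m n A z x • x := sorry

theorem map_par {R S : Type*} [CommRing R] [Algebra k R] [CommRing S] [Algebra k S]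
    (g : R →ₐ[k] S) (a : (σ →₀ ℕ) → k) (y m n : σ → R)
    (A : Fin 3 → σ → R) (z : Fin 8 → σ → R) (om : σ → R) (i : σ) :
    g (par a y m n A z om i) = par a (fun i => g (y i)) (fun i => g (m i)) (fun i => g (n i))
      (fun j i => g (A j i)) (fun j i => g (z j i)) (fun i => g (om i)) i := sorry

theorem map_rr {R S : Type*} [CommRing R] [Algebra k R] [CommRing S] [Algebra k S]
    (g : R →ₐ[k] S) (a : (σ →₀ ℕ) → k) (y m n : σ → R)
    (A : Fin 3 → σ → R) (z : Fin 8 → σ → R) (x : σ → R) :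
    g (rr a y m n A z x) = rr a (fun i => g (y i)) (fun i => g (m i)) (fun i => g (n i))
      (fun j i => g (A j i)) (fun j i => g (z j i)) (fun i => g (x i)) := sorry

/-! ### S9 (TangentS.lean) -/

/-- the parametrisation as polynomials in 42 + 9 N parameters -/
noncomputable def Ppoly {L : Type*} [Field L] [Algebra k L] (a : (σ →₀ ℕ) → k)
    (lam : Fin 7 → σ → L) : σ → MvPolynomial ((Fin 6 × Fin 7) ⊕ (Fin 9 × σ)) L :=
  par a (comb (fun j i => C (lam j i)) fun j => X (Sum.inl (0, j)))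
    (comb (fun j i => C (lam j i)) fun j => X (Sum.inl (1, j)))
    (comb (fun j i => C (lam j i)) fun j => X (Sum.inl (2, j)))
    (fun l => comb (fun j i => C (lam j i)) fun j => X (Sum.inl (Fin.natAdd 3 l, j)))
    (fun j i => X (Sum.inr (j.castSucc, i))) (fun i => X (Sum.inr (8, i)))

theorem tangent {L E : Type*} [Field L] [Algebra k L] [Field E] [Algebra k E] [Algebra L E]
    [IsScalarTower k L E] [CharZero L] (a : (σ →₀ ℕ) → k) (lam : Fin 7 → σ → L)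
    (Cf : Config a fun j i => algebraMap L E (lam j i)) :
    ∃ t₀ : (Fin 6 × Fin 7) ⊕ (Fin 9 × σ) → E, ∃ r : E, r ≠ 0 ∧
      (fun j => aeval t₀ (Ppoly a lam j)) = r • Cf.x ∧
      ∀ h : σ → E, Lf a (ell Cf.x ^ 5 * ell h) = 0 →
        ∃ t' : (Fin 6 × Fin 7) ⊕ (Fin 9 × σ) → E,
          ∀ j, ∑ l, aeval t₀ (pderiv l (Ppoly a lam j)) * t' l = h j := sorry

/-! ### S10 (ConfigS.lean) exact configuration over the field of fractions of `E[[τ]]` -/

theorem config_of_lead {E : Type*} [Field E] [CharZero E] [Algebra k E] (a : (σ →₀ ℕ) → k)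
    (lam : Fin 7 → σ → E) (z : σ → E) (zz : Fin 8 → σ → E) (h : Lead a lam z)
    (hne : lprod a lam z zz ≠ 0) :
    Nonempty (Config a fun j i => algebraMap E (FractionRing (PowerSeries E)) (lam j i)) := sorry

/-! ### S11 (SpecialS.lean) descent -/

theorem leading_descend {E : Type*} [Field E] [Algebra k E] (a : (σ →₀ ℕ) → k)
    (h : Leading a E) : Leading a (AlgebraicClosure k) := sorry

theorem descend_lam (a : (σ →₀ ℕ) → k) (lam : Fin 7 → σ → AlgebraicClosure k) (h : Iso a lam) :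
    ∃ (L : IntermediateField k (AlgebraicClosure k)) (_ : FiniteDimensional k L)
      (lam' : Fin 7 → σ → L), Iso a lam' ∧
      lam = fun j i => algebraMap L (AlgebraicClosure k) (lam' j i) := sorry

/-! ### S12 (IrredS.lean) -/

theorem irreducible_of_smooth (F : MvPolynomial σ k) (hF : F.IsHomogeneous 6)
    (hs : PD.SmoothForm F) (hcard : 3 ≤ Fintype.card σ) : Irreducible F := sorry

/-! ### S13 (MainS.lean) -/

theorem main_final [CharZero k] (N0 : ℕ) (hN0 : 260 ≤ N0) (F : MvPolynomial σ k)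
    (hF : F.IsHomogeneous 6) (hs : PD.SmoothForm F) (hcard : N0 + 7 ≤ Fintype.card σ) :
    ∃ L : IntermediateField k (AlgebraicClosure k), FiniteDimensional k L ∧
      (∃ (m : ℕ) (P : σ → MvPolynomial (Fin m) L),
        aeval P (map (algebraMap k L) F) = 0 ∧
        ∀ G : MvPolynomial σ L, aeval P G = 0 → map (algebraMap k L) F ∣ G) ∧
      ∀ G : MvPolynomial σ L, (∀ x : σ → L, eval x (map (algebraMap k L) F) = 0 → eval x G = 0) →
        map (algebraMap k L) F ∣ G := sorry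

end Pool.Agent.Work.PD6.Skel
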